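import Pool.Agent.B5.IB

/-!
B5 / AL1: existence of the evaluation. Over F = ZMod p, p odd. `exists_sqrt`: Hensel or coefficient recursion
(a power series with constant coefficient 1 over a field of characteristic not 2 has a square root with constant coefficient 1).
al := sqrt((E + a + 11 b)/2) (constant coefficient (1+1+0)/2 = 1), be := b / al. By `id_E2` (reduced mod p)
be^2 = b^2/al^2 = ((E^2 - (a+11b)^2)/4) / al^2 = (E - a - 11 b)/2, so al^2 - 11 al be - be^2 = a, al be = b, al^2 + be^2 = E.
ev := `MvPolynomial.aeval ![al, be]`. sb = X + ..., so be has order one with coefficient 1.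
-/

set_option autoImplicit false

namespace Pool.Agent.B5

open PowerSeries UpperHalfPlane
open scoped MatrixGroups ModularForm Manifold

/-- coefficients of the square root -/
noncomputable def al1Coeff {F : Type*} [Field F] (f : ℕ → F) : ℕ → F
  | 0 => 1
  | n + 1 => (f (n + 1) - ∑ i : Fin n, al1Coeff f (i + 1) * al1Coeff f (n - i)) / 2
  termination_by n => n
  decreasing_by
    all_goals omega

theorem exists_sqrt {F : Type*} [Field F] (h2 : (2 : F) ≠ 0) (f : F⟦X⟧)
    (hf : PowerSeries.constantCoeff f = 1) :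
    ∃ g : F⟦X⟧, g ^ 2 = f ∧ PowerSeries.constantCoeff g = 1 := by
  set c : ℕ → F := al1Coeff (fun n => PowerSeries.coeff n f) with hc
  have c0 : c 0 = 1 := by rw [hc, al1Coeff]
  have cs : ∀ n, 2 * c (n + 1) + ∑ i ∈ Finset.range n, c (i + 1) * c (n - i) =
      PowerSeries.coeff (n + 1) f := by
    intro n
    have h1 : c (n + 1) = (PowerSeries.coeff (n + 1) f -
        ∑ i : Fin n, c (i + 1) * c (n - i)) / 2 := by
      rw [hc, al1Coeff]
    rw [h1, Finset.sum_range fun i => c (i + 1) * c (n - i)]
    field_simp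
    ring
  refine ⟨PowerSeries.mk c, ?_, ?_⟩
  · ext n
    rw [pow_two, PowerSeries.coeff_mul, Finset.Nat.sum_antidiagonal_eq_sum_range_succ_mk]
    simp only [PowerSeries.coeff_mk]
    rcases n with _ | n
    · have hf' : PowerSeries.coeff 0 f = 1 := by
        rw [PowerSeries.coeff_zero_eq_constantCoeff_apply]
        exact hf
      simp [c0, hf']
    · rw [Finset.sum_range_succ, Finset.sum_range_succ', ← cs n]
      simp only [Nat.sub_self, Nat.sub_zero, c0, mul_one, one_mul]
      have h3 : ∀ i ∈ Finset.range n, c (i + 1) * c (n + 1 - (i + 1)) = c (i + 1) * c (n - i) := by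
        intro i _
        rw [Nat.add_sub_add_right]
      rw [Finset.sum_congr rfl h3]
      ring
  · rw [← PowerSeries.coeff_zero_eq_constantCoeff_apply, PowerSeries.coeff_mk, c0]

theorem al1_red_mul (p : ℕ) (a b : ℤ⟦X⟧) : red p (a * b) = red p a * red p b := map_mul _ _ _

theorem al1_red_const (p : ℕ) (a : ℤ⟦X⟧) :
    PowerSeries.constantCoeff (red p a) = ((PowerSeries.constantCoeff a : ℤ) : ZMod p) := by
  rw [← PowerSeries.coeff_zero_eq_constantCoeff_apply, red, PowerSeries.coeff_map,
    PowerSeries.coeff_zero_eq_constantCoeff_apply]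
  rfl

theorem al1_sa0 : PowerSeries.constantCoeff sa = 1 := by
  have h := congrArg PowerSeries.constantCoeff sa_mul
  rw [map_mul, map_pow, phi_coeff_zero, ex5_coeff_zero] at h
  simpa using h

theorem al1_sb0 : PowerSeries.constantCoeff sb = 0 := by
  have h := congrArg PowerSeries.constantCoeff sb_mul
  rw [map_mul, map_mul, phi_coeff_zero] at h
  simpa using h

theorem al1_coeff_one_mul {R : Type*} [CommRing R] (f g : R⟦X⟧) :
    PowerSeries.coeff 1 (f * g) = PowerSeries.constantCoeff f * PowerSeries.coeff 1 g +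
      PowerSeries.coeff 1 f * PowerSeries.constantCoeff g := by
  rw [PowerSeries.coeff_mul, Finset.Nat.sum_antidiagonal_eq_sum_range_succ_mk,
    Finset.sum_range_succ, Finset.sum_range_one]
  simp only [Nat.sub_zero, Nat.sub_self, PowerSeries.coeff_zero_eq_constantCoeff_apply]

theorem al1_sb1 : PowerSeries.coeff 1 sb = 1 := by
  have h := congrArg (PowerSeries.coeff 1) sb_mul
  rw [al1_coeff_one_mul, al1_sb0] at h
  have h2 : PowerSeries.coeff 1 (PowerSeries.X * ex5 phi ^ 5) = 1 := by
    rw [show (1 : ℕ) = 0 + 1 from rfl, PowerSeries.coeff_succ_X_mul,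
      PowerSeries.coeff_zero_eq_constantCoeff_apply, map_pow, ex5_coeff_zero, one_pow]
  rw [h2, phi_coeff_zero] at h
  simpa using h

theorem al1_sE0 : PowerSeries.constantCoeff sE = 1 := by
  rw [← PowerSeries.coeff_zero_eq_constantCoeff_apply, sE, PowerSeries.coeff_mk, if_pos rfl]

theorem exists_EV (p : ℕ) [Fact p.Prime] (hp : p ≠ 2) : Nonempty (EV p) := by
  have h2 : (2 : ZMod p) ≠ 0 := by
    intro h
    have h' : ((2 : ℕ) : ZMod p) = 0 := by exact_mod_cast h
    rw [ZMod.natCast_eq_zero_iff] at h'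
    exact hp ((Nat.prime_dvd_prime_iff_eq Fact.out Nat.prime_two).1 h')
  set a : (ZMod p)⟦X⟧ := red p sa with ha
  set b : (ZMod p)⟦X⟧ := red p sb with hb
  set E : (ZMod p)⟦X⟧ := red p sE with hE
  have hid : E ^ 2 = a ^ 2 + 22 * a * b + 125 * b ^ 2 := by
    have h := congrArg (red p) id_E2
    simp only [red, map_add, map_mul, map_pow, map_ofNat] at h
    exact h
  have a0 : PowerSeries.constantCoeff a = 1 := by
    rw [ha, al1_red_const, al1_sa0, Int.cast_one]
  have b0 : PowerSeries.constantCoeff b = 0 := by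
    rw [hb, al1_red_const, al1_sb0, Int.cast_zero]
  have b1 : PowerSeries.coeff 1 b = 1 := by
    rw [hb, red, PowerSeries.coeff_map, al1_sb1, map_one]
  have E0 : PowerSeries.constantCoeff E = 1 := by
    rw [hE, al1_red_const, al1_sE0, Int.cast_one]
  set t : (ZMod p)⟦X⟧ := PowerSeries.C (2⁻¹ : ZMod p) with ht
  have t2 : 2 * t = 1 := by
    have e : (2 : (ZMod p)⟦X⟧) = PowerSeries.C (2 : ZMod p) := by rw [map_ofNat]
    rw [ht, e, ← map_mul, mul_inv_cancel₀ h2, map_one]
  have t0 : PowerSeries.constantCoeff t = 2⁻¹ := PowerSeries.constantCoeff_C _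
  obtain ⟨al, hal, al0⟩ := exists_sqrt h2 (t * (E + a + 11 * b)) (by
    rw [map_mul, map_add, map_add, map_mul, a0, b0, E0, t0, mul_zero, add_zero]
    rw [one_add_one_eq_two]
    exact inv_mul_cancel₀ h2)
  have hinv : al * al⁻¹ = 1 := PowerSeries.mul_inv_cancel _ (by rw [al0]; exact one_ne_zero)
  have ali0 : PowerSeries.constantCoeff al⁻¹ = 1 := by
    have h := congrArg PowerSeries.constantCoeff hinv
    rw [map_mul, al0, one_mul, map_one] at h
    exact h
  set be : (ZMod p)⟦X⟧ := b * al⁻¹ with hbe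
  have hab : al * be = b := by
    rw [hbe, mul_left_comm, hinv, mul_one]
  have hbe2 : be ^ 2 = t * (E - a - 11 * b) := by
    have h1 : al ^ 2 * be ^ 2 = al ^ 2 * (t * (E - a - 11 * b)) := by
      have h4 : (4 : (ZMod p)⟦X⟧) * t ^ 2 = 1 := by
        linear_combination (2 * t + 1) * t2
      calc al ^ 2 * be ^ 2 = (al * be) ^ 2 := by ring
        _ = b ^ 2 := by rw [hab]
        _ = t ^ 2 * (E ^ 2 - (a + 11 * b) ^ 2) := by
          rw [hid]
          linear_combination (-b ^ 2) * h4
        _ = al ^ 2 * (t * (E - a - 11 * b)) := by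
          rw [hal]
          ring
    have h3 : al ^ 2 ≠ 0 := by
      apply pow_ne_zero
      intro h
      rw [h, map_zero] at al0
      exact zero_ne_one al0
    exact mul_left_cancel₀ h3 h1
  refine ⟨⟨MvPolynomial.aeval ![al, be], ?_, ?_, ?_, ?_, ?_, ?_⟩⟩
  · rw [MvPolynomial.aeval_X]
    exact al0
  · rw [MvPolynomial.aeval_X]
    change PowerSeries.constantCoeff (b * al⁻¹) = 0
    rw [map_mul, b0, zero_mul]
  · rw [MvPolynomial.aeval_X]
    change PowerSeries.coeff 1 (b * al⁻¹) = 1
    rw [al1_coeff_one_mul, b0, ali0, b1, zero_mul, zero_add, mul_one]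
  · have e : MvPolynomial.aeval ![al, be] (vX : U p) = al ^ 2 - 11 * al * be - be ^ 2 := by
      simp [vX, MvPolynomial.aeval_X]
    rw [e, hal, hbe2, mul_assoc, hab]
    linear_combination (a + 11 * b) * t2
  · have e : MvPolynomial.aeval ![al, be] (vY : U p) = al * be := by
      simp [vY, MvPolynomial.aeval_X]
    rw [e, hab]
  · have e : MvPolynomial.aeval ![al, be] (vW : U p) = al ^ 2 + be ^ 2 := by
      simp [vW, MvPolynomial.aeval_X]
    rw [e, hal, hbe2]
    linear_combination E * t2

end Pool.Agent.B5
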