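import Pool.Agent.B5.IB

/-!
B5 / AL2: the derivation. `der2_*`: computations (`MvPolynomial.mkDerivation_X`, Leibniz, ring). `der2_hom`: der2 raises the degree by 2.
`ev_der` : for the variable al = ev X0: 2 al^2 = E + a + 11 b, so 4 al D al = D E + D a + 11 D b, which by id_DE, id_Da, id_Db equals
2 al (al (-al^2 + 66 al be + 11 be^2) + P al) (use a = al^2 - 11 al be - be^2, b = al be, E = al^2 + be^2); cancel 2 al. The same for be = ev X1
(be is not 0). Then for monomials by the Leibniz rule, and sums. `ev_inj`: G = sum_i c_i X0^(d-i) X1^i, ev G = al^d * sum c_i (be/al)^i and be/al has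
order exactly 1, so all c_i vanish (look at the smallest i with c_i not 0).
-/

set_option autoImplicit false

namespace Pool.Agent.B5

open PowerSeries UpperHalfPlane
open scoped MatrixGroups ModularForm Manifold

variable {p : ℕ} [Fact p.Prime]

private theorem AL2_d0 : der2 (MvPolynomial.X 0 : U p) =
    MvPolynomial.X 0 * (- MvPolynomial.X 0 ^ 2 + 66 * MvPolynomial.X 0 * MvPolynomial.X 1
      + 11 * MvPolynomial.X 1 ^ 2) := by
  simp [der2, MvPolynomial.mkDerivation_X]

private theorem AL2_d1 : der2 (MvPolynomial.X 1 : U p) =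
    MvPolynomial.X 1 * (11 * MvPolynomial.X 0 ^ 2 - 66 * MvPolynomial.X 0 * MvPolynomial.X 1
      - MvPolynomial.X 1 ^ 2) := by
  simp [der2, MvPolynomial.mkDerivation_X]

private theorem AL2_mul (a b : U p) : der2 (a * b) = a * der2 b + b * der2 a := by
  rw [Derivation.leibniz, smul_eq_mul, smul_eq_mul]

private theorem AL2_nat (n : ℕ) : der2 ((n : U p)) = 0 := Derivation.map_natCast _ n

private theorem AL2_natmul (n : ℕ) (a : U p) : der2 ((n : U p) * a) = (n : U p) * der2 a := by
  rw [AL2_mul, AL2_nat, mul_zero, add_zero]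

theorem der2_vX : der2 (vX : U p) = -(2 * vX * vW) := by
  have h : (vX : U p) = MvPolynomial.X 0 * MvPolynomial.X 0
      - ((11 : ℕ) : U p) * (MvPolynomial.X 0 * MvPolynomial.X 1)
      - MvPolynomial.X 1 * MvPolynomial.X 1 := by
    unfold vX
    push_cast
    ring
  rw [h, map_sub, map_sub, AL2_natmul, AL2_mul, AL2_mul, AL2_mul, AL2_d0, AL2_d1]
  unfold vW
  push_cast
  ring

theorem der2_vY : der2 (vY : U p) = 10 * vY * vW := by
  unfold vY vW
  rw [AL2_mul, AL2_d0, AL2_d1]
  ring

theorem der2_vW : der2 (vW : U p) = 2 * (-vX ^ 2 + 44 * vX * vY + 625 * vY ^ 2) := by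
  have h : (vW : U p) = MvPolynomial.X 0 * MvPolynomial.X 0
      + MvPolynomial.X 1 * MvPolynomial.X 1 := by
    unfold vW
    ring
  rw [h, map_add, AL2_mul, AL2_mul, AL2_d0, AL2_d1]
  unfold vX vY
  ring

theorem vW_sq : (vW : U p) ^ 2 = vX ^ 2 + 22 * vX * vY + 125 * vY ^ 2 := by
  unfold vX vY vW
  ring

private theorem AL2_hnat (n : ℕ) {a : U p} {d : ℕ} (h : a.IsHomogeneous d) :
    ((n : U p) * a).IsHomogeneous d := by
  have h1 := (MvPolynomial.isHomogeneous_C (Fin 2) ((n : ZMod p))).mul h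
  rw [zero_add, map_natCast] at h1
  exact h1

private theorem AL2_hX (i : Fin 2) : (MvPolynomial.X i : U p).IsHomogeneous 1 :=
  MvPolynomial.isHomogeneous_X _ i

theorem vX_hom : (vX : U p).IsHomogeneous 2 := by
  have h : (vX : U p) = MvPolynomial.X 0 * MvPolynomial.X 0
      - ((11 : ℕ) : U p) * (MvPolynomial.X 0 * MvPolynomial.X 1)
      - MvPolynomial.X 1 * MvPolynomial.X 1 := by
    unfold vX
    push_cast
    ring
  rw [h]
  exact (((AL2_hX 0).mul (AL2_hX 0)).sub (AL2_hnat 11 ((AL2_hX 0).mul (AL2_hX 1)))).sub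
    ((AL2_hX 1).mul (AL2_hX 1))

theorem vY_hom : (vY : U p).IsHomogeneous 2 := (AL2_hX 0).mul (AL2_hX 1)

theorem vW_hom : (vW : U p).IsHomogeneous 2 := by
  have h : (vW : U p) = MvPolynomial.X 0 * MvPolynomial.X 0
      + MvPolynomial.X 1 * MvPolynomial.X 1 := by
    unfold vW
    ring
  rw [h]
  exact ((AL2_hX 0).mul (AL2_hX 0)).add ((AL2_hX 1).mul (AL2_hX 1))

theorem vQ_hom : (vQ : U p).IsHomogeneous 4 := by
  have h : (vQ : U p) = vX * vX + ((250 : ℕ) : U p) * (vX * vY)
      + ((3125 : ℕ) : U p) * (vY * vY) := by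
    unfold vQ
    push_cast
    ring
  rw [h]
  exact ((vX_hom.mul vX_hom).add (AL2_hnat 250 (vX_hom.mul vY_hom))).add
    (AL2_hnat 3125 (vY_hom.mul vY_hom))

theorem vR_hom : (vR : U p).IsHomogeneous 6 := by
  have h : (vR : U p) = vW * (vX * vX - ((500 : ℕ) : U p) * (vX * vY)
      - ((15625 : ℕ) : U p) * (vY * vY)) := by
    unfold vR
    push_cast
    ring
  rw [h]
  exact vW_hom.mul (((vX_hom.mul vX_hom).sub (AL2_hnat 500 (vX_hom.mul vY_hom))).sub
    (AL2_hnat 15625 (vY_hom.mul vY_hom)))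

private theorem AL2_f0 : (MvPolynomial.X 0 * (- MvPolynomial.X 0 ^ 2
    + 66 * MvPolynomial.X 0 * MvPolynomial.X 1 + 11 * MvPolynomial.X 1 ^ 2) : U p).IsHomogeneous 3 := by
  have h : (MvPolynomial.X 0 * (- MvPolynomial.X 0 ^ 2
    + 66 * MvPolynomial.X 0 * MvPolynomial.X 1 + 11 * MvPolynomial.X 1 ^ 2) : U p) =
    MvPolynomial.X 0 * (((66 : ℕ) : U p) * (MvPolynomial.X 0 * MvPolynomial.X 1)
      + ((11 : ℕ) : U p) * (MvPolynomial.X 1 * MvPolynomial.X 1)
      - MvPolynomial.X 0 * MvPolynomial.X 0) := by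
    push_cast
    ring
  rw [h]
  exact (AL2_hX 0).mul (((AL2_hnat 66 ((AL2_hX 0).mul (AL2_hX 1))).add
    (AL2_hnat 11 ((AL2_hX 1).mul (AL2_hX 1)))).sub ((AL2_hX 0).mul (AL2_hX 0)))

private theorem AL2_f1 : (MvPolynomial.X 1 * (11 * MvPolynomial.X 0 ^ 2
    - 66 * MvPolynomial.X 0 * MvPolynomial.X 1 - MvPolynomial.X 1 ^ 2) : U p).IsHomogeneous 3 := by
  have h : (MvPolynomial.X 1 * (11 * MvPolynomial.X 0 ^ 2
    - 66 * MvPolynomial.X 0 * MvPolynomial.X 1 - MvPolynomial.X 1 ^ 2) : U p) =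
    MvPolynomial.X 1 * (((11 : ℕ) : U p) * (MvPolynomial.X 0 * MvPolynomial.X 0)
      - ((66 : ℕ) : U p) * (MvPolynomial.X 0 * MvPolynomial.X 1)
      - MvPolynomial.X 1 * MvPolynomial.X 1) := by
    push_cast
    ring
  rw [h]
  exact (AL2_hX 1).mul (((AL2_hnat 11 ((AL2_hX 0).mul (AL2_hX 0))).sub
    (AL2_hnat 66 ((AL2_hX 0).mul (AL2_hX 1)))).sub ((AL2_hX 1).mul (AL2_hX 1)))

private theorem AL2_eq (G : U p) : der2 G = der2 (MvPolynomial.X 0) * MvPolynomial.pderiv 0 G +
    der2 (MvPolynomial.X 1) * MvPolynomial.pderiv 1 G := by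
  have h : (der2 : Derivation (ZMod p) (U p) (U p)) =
      (der2 (MvPolynomial.X 0) : U p) • MvPolynomial.pderiv 0 +
      (der2 (MvPolynomial.X 1) : U p) • MvPolynomial.pderiv 1 := by
    refine MvPolynomial.derivation_ext fun i => ?_
    fin_cases i
    · simp [MvPolynomial.pderiv_X_self, MvPolynomial.pderiv_X_of_ne]
    · simp [MvPolynomial.pderiv_X_self, MvPolynomial.pderiv_X_of_ne]
  have h2 := congrArg (fun D : Derivation (ZMod p) (U p) (U p) => D G) h
  simpa using h2

theorem der2_hom {G : U p} {d : ℕ} (hG : G.IsHomogeneous d) : (der2 G).IsHomogeneous (d + 2) := by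
  rcases Nat.eq_zero_or_pos d with h0 | h0
  · subst h0
    have h1 : G = MvPolynomial.C (MvPolynomial.coeff 0 G) := by
      rw [← MvPolynomial.totalDegree_eq_zero_iff_eq_C]
      exact Nat.le_zero.1 hG.totalDegree_le
    rw [h1]
    have h2 : der2 (MvPolynomial.C (MvPolynomial.coeff 0 G) : U p) = 0 :=
      MvPolynomial.derivation_C _ _
    rw [h2]
    exact MvPolynomial.isHomogeneous_zero _ _ _
  · rw [AL2_eq, AL2_d0, AL2_d1]
    have h1 := AL2_f0.mul (hG.pderiv (i := 0))
    have h2 := AL2_f1.mul (hG.pderiv (i := 1))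
    have e : 3 + (d - 1) = d + 2 := by omega
    rw [e] at h1 h2
    exact h1.add h2

private theorem AL2_red (c : ℤ⟦X⟧) : red p c = PowerSeries.map (Int.castRingHom (ZMod p)) c := rfl

theorem EV.hQ (e : EV p) : e.ev vQ = red p sQ := by
  rw [id_Q]
  unfold vQ
  simp only [map_add, map_mul, map_pow, map_ofNat, e.hX, e.hY, AL2_red]

theorem EV.hR (e : EV p) : e.ev vR = red p sR := by
  rw [id_R]
  unfold vR
  simp only [map_sub, map_mul, map_pow, map_ofNat, e.hX, e.hY, e.hW, AL2_red]

private theorem AL2_ev (e : EV p) (G : U p) : e.ev G = ∑ m ∈ G.support,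
    PowerSeries.C (MvPolynomial.coeff m G) *
      (e.ev (MvPolynomial.X 0) ^ m 0 * e.ev (MvPolynomial.X 1) ^ m 1) := by
  have h := MvPolynomial.aeval_unique e.ev
  conv_lhs => rw [h, MvPolynomial.aeval_def, MvPolynomial.eval₂_eq']
  refine Finset.sum_congr rfl fun m _ => ?_
  rw [Fin.prod_univ_two]
  rfl

private theorem AL2_coeff (e : EV p) (i k j : ℕ) (hij : i ≤ j) :
    PowerSeries.coeff i (e.ev (MvPolynomial.X 0) ^ k * e.ev (MvPolynomial.X 1) ^ j) =
      if i = j then 1 else 0 := by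
  obtain ⟨u, hu⟩ := PowerSeries.X_dvd_iff.2 e.be0
  have hu0 : PowerSeries.constantCoeff u = 1 := by
    have h := e.be1
    rw [hu] at h
    have h2 := PowerSeries.coeff_succ_X_mul 0 u
    rw [zero_add] at h2
    rw [h2] at h
    simpa using h
  have h1 : e.ev (MvPolynomial.X 0) ^ k * e.ev (MvPolynomial.X 1) ^ j =
      PowerSeries.X ^ j * (e.ev (MvPolynomial.X 0) ^ k * u ^ j) := by
    rw [hu]
    ring
  rw [h1, PowerSeries.coeff_X_pow_mul']
  by_cases hj : i = j
  · subst hj
    rw [if_pos le_rfl, if_pos rfl, Nat.sub_self, PowerSeries.coeff_zero_eq_constantCoeff_apply,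
      map_mul, map_pow, map_pow, e.al0, hu0, one_pow, one_pow, mul_one]
  · rw [if_neg (by omega), if_neg hj]

theorem EV.inj (e : EV p) {G : U p} {d : ℕ} (hG : G.IsHomogeneous d) (h : e.ev G = 0) : G = 0 := by
  by_contra hne
  have hs : G.support.Nonempty := MvPolynomial.support_nonempty.2 hne
  obtain ⟨m, hm, hmin⟩ := Finset.exists_min_image G.support (fun m => m 1) hs
  have hdeg : ∀ m' ∈ G.support, m' 0 + m' 1 = d := by
    intro m' hm'
    have h1 := hG (MvPolynomial.mem_support_iff.1 hm')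
    rw [Finsupp.weight_apply, Finsupp.sum_fintype _ _ (fun i => by simp)] at h1
    simpa [Fin.sum_univ_two] using h1
  have h1 : PowerSeries.coeff (m 1) (e.ev G) = MvPolynomial.coeff m G := by
    rw [AL2_ev, map_sum, Finset.sum_eq_single m]
    · rw [PowerSeries.coeff_C_mul, AL2_coeff e _ _ _ le_rfl, if_pos rfl, mul_one]
    · intro m' hm' hne'
      rw [PowerSeries.coeff_C_mul, AL2_coeff e _ _ _ (hmin m' hm'), if_neg, mul_zero]
      intro he
      apply hne'
      have h2 := hdeg m' hm'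
      have h3 := hdeg m hm
      ext i
      fin_cases i
      · show m' 0 = m 0
        omega
      · exact he.symm
    · intro h2
      exact absurd hm h2
  rw [h, map_zero] at h1
  exact (MvPolynomial.mem_support_iff.1 hm) h1.symm

private theorem AL2_dD {R : Type*} [CommRing R] (c : R⟦X⟧) :
    dD c = 6 * (PowerSeries.X * PowerSeries.derivative R c) := by
  ext n
  have e6 : (6 : R⟦X⟧) = PowerSeries.C (6 : R) := (map_ofNat PowerSeries.C 6).symm
  rw [dD, PowerSeries.coeff_mk, e6, PowerSeries.coeff_C_mul]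
  rcases n with _ | n
  · simp
  · rw [PowerSeries.coeff_succ_X_mul, PowerSeries.coeff_derivative]
    push_cast
    ring

private theorem AL2_dD_mul {R : Type*} [CommRing R] (a b : R⟦X⟧) :
    dD (a * b) = a * dD b + b * dD a := by
  rw [AL2_dD, AL2_dD, AL2_dD, Derivation.leibniz, smul_eq_mul, smul_eq_mul]
  ring

private theorem AL2_dD_add {R : Type*} [CommRing R] (a b : R⟦X⟧) :
    dD (a + b) = dD a + dD b := by
  rw [AL2_dD, AL2_dD, AL2_dD, map_add]
  ring

private theorem AL2_dD_C {R : Type*} [CommRing R] (a : R) :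
    dD (PowerSeries.C a) = 0 := by
  rw [AL2_dD]
  have h : PowerSeries.derivative R (PowerSeries.C a) = 0 := by
    simpa using PowerSeries.derivative_C a
  rw [h]
  ring

private theorem AL2_dD_nat {R : Type*} [CommRing R] (n : ℕ) (a : R⟦X⟧) :
    dD ((n : R⟦X⟧) * a) = n * dD a := by
  rw [AL2_dD_mul]
  have h : dD ((n : R⟦X⟧)) = 0 := by
    rw [← map_natCast (PowerSeries.C (R := R)) n]
    exact AL2_dD_C _
  rw [h]
  ring

private theorem AL2_dD_red (c : ℤ⟦X⟧) : dD (red p c) = red p (dD c) := by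
  ext n
  simp [dD, red, PowerSeries.coeff_mk, PowerSeries.coeff_map]

private theorem AL2_x (e : EV p) (hp : p ≠ 2) :
    2 * dD (e.ev (MvPolynomial.X 0)) = e.ev (der2 (MvPolynomial.X 0))
      + red p sP * e.ev (MvPolynomial.X 0) := by
  have hX := e.hX
  have hY := e.hY
  have hW := e.hW
  simp only [vX, vY, vW, map_add, map_sub, map_mul, map_pow, map_ofNat] at hX hY hW
  rw [AL2_d0]
  simp only [map_add, map_sub, map_mul, map_pow, map_ofNat, map_neg]
  set x := e.ev (MvPolynomial.X 0) with hx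
  set y := e.ev (MvPolynomial.X 1) with hy
  have hx0 : x ≠ 0 := by
    intro h0
    have h1 := e.al0
    rw [← hx, h0, map_zero] at h1
    exact zero_ne_one h1
  have h20 : (2 : (ZMod p)⟦X⟧) ≠ 0 := by
    intro h0
    have h1 : PowerSeries.constantCoeff (2 : (ZMod p)⟦X⟧) = 0 := by rw [h0, map_zero]
    rw [map_ofNat] at h1
    have h2 : ((2 : ℕ) : ZMod p) = 0 := by exact_mod_cast h1
    rw [ZMod.natCast_eq_zero_iff] at h2
    exact hp ((Nat.prime_dvd_prime_iff_eq Fact.out Nat.prime_two).1 h2)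
  have hDE : dD (red p sE) = red p sP * red p sE - red p sa ^ 2 + 44 * red p sa * red p sb
      + 625 * red p sb ^ 2 := by
    rw [AL2_dD_red, id_DE]
    simp only [AL2_red, map_add, map_sub, map_mul, map_pow, map_ofNat]
  have hDa : dD (red p sa) = red p sa * (red p sP - red p sE) := by
    rw [AL2_dD_red, id_Da]
    simp only [AL2_red, map_sub, map_mul]
  have hDb : dD (red p sb) = red p sb * (5 * red p sE + red p sP) := by
    rw [AL2_dD_red, id_Db]
    simp only [AL2_red, map_add, map_mul, map_ofNat]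
  have hsq : (2 : ℕ) * (x * x) = red p sE + (red p sa + (11 : ℕ) * red p sb) := by
    rw [← hX, ← hY, ← hW]
    push_cast
    ring
  have hd := congrArg dD hsq
  rw [AL2_dD_nat, AL2_dD_mul, AL2_dD_add, AL2_dD_add, AL2_dD_nat, hDE, hDa, hDb, ← hX, ← hY,
    ← hW] at hd
  have h2x : 2 * x ≠ 0 := mul_ne_zero h20 hx0
  refine mul_left_cancel₀ h2x ?_
  push_cast at hd
  linear_combination hd

private theorem AL2_y (e : EV p) (hp : p ≠ 2) :
    2 * dD (e.ev (MvPolynomial.X 1)) = e.ev (der2 (MvPolynomial.X 1))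
      + red p sP * e.ev (MvPolynomial.X 1) := by
  have hX := e.hX
  have hY := e.hY
  have hW := e.hW
  simp only [vX, vY, vW, map_add, map_sub, map_mul, map_pow, map_ofNat] at hX hY hW
  rw [AL2_d1]
  simp only [map_add, map_sub, map_mul, map_pow, map_ofNat, map_neg]
  set x := e.ev (MvPolynomial.X 0) with hx
  set y := e.ev (MvPolynomial.X 1) with hy
  have hy0 : y ≠ 0 := by
    intro h0
    have h1 := e.be1
    rw [← hy, h0, map_zero] at h1
    exact zero_ne_one h1
  have h20 : (2 : (ZMod p)⟦X⟧) ≠ 0 := by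
    intro h0
    have h1 : PowerSeries.constantCoeff (2 : (ZMod p)⟦X⟧) = 0 := by rw [h0, map_zero]
    rw [map_ofNat] at h1
    have h2 : ((2 : ℕ) : ZMod p) = 0 := by exact_mod_cast h1
    rw [ZMod.natCast_eq_zero_iff] at h2
    exact hp ((Nat.prime_dvd_prime_iff_eq Fact.out Nat.prime_two).1 h2)
  have hDE : dD (red p sE) = red p sP * red p sE - red p sa ^ 2 + 44 * red p sa * red p sb
      + 625 * red p sb ^ 2 := by
    rw [AL2_dD_red, id_DE]
    simp only [AL2_red, map_add, map_sub, map_mul, map_pow, map_ofNat]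
  have hDa : dD (red p sa) = red p sa * (red p sP - red p sE) := by
    rw [AL2_dD_red, id_Da]
    simp only [AL2_red, map_sub, map_mul]
  have hDb : dD (red p sb) = red p sb * (5 * red p sE + red p sP) := by
    rw [AL2_dD_red, id_Db]
    simp only [AL2_red, map_add, map_mul, map_ofNat]
  have hsq : (2 : ℕ) * (y * y) + (red p sa + (11 : ℕ) * red p sb) = red p sE := by
    rw [← hX, ← hY, ← hW]
    push_cast
    ring
  have hd := congrArg dD hsq
  rw [AL2_dD_add, AL2_dD_nat, AL2_dD_mul, AL2_dD_add, AL2_dD_nat, hDE, hDa, hDb, ← hX, ← hY,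
    ← hW] at hd
  have h2y : 2 * y ≠ 0 := mul_ne_zero h20 hy0
  refine mul_left_cancel₀ h2y ?_
  push_cast at hd
  linear_combination hd

private theorem AL2_pow (e : EV p) {G : U p}
    (h : 2 * dD (e.ev G) = e.ev (der2 G) + red p sP * e.ev G) (n : ℕ) :
    2 * dD (e.ev (G ^ n)) = e.ev (der2 (G ^ n)) + (n : (ZMod p)⟦X⟧) * red p sP * e.ev (G ^ n) := by
  induction n with
  | zero =>
    have h1 : der2 (1 : U p) = 0 := by
      have h0 : der2 (((1 : ℕ) : U p)) = 0 := AL2_nat 1
      rwa [Nat.cast_one] at h0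
    have h2 : dD (1 : (ZMod p)⟦X⟧) = 0 := by
      have := AL2_dD_C (R := ZMod p) 1
      rwa [map_one] at this
    rw [pow_zero, h1, map_one, map_zero, h2]
    push_cast
    ring
  | succ n ih =>
    rw [pow_succ, AL2_mul, map_mul, map_add, map_mul, map_mul, AL2_dD_mul]
    push_cast
    linear_combination e.ev G * ih + e.ev (G ^ n) * h

theorem EV.der (e : EV p) (hp : p ≠ 2) {G : U p} {d : ℕ} (hG : G.IsHomogeneous d) :
    2 * dD (e.ev G) = e.ev (der2 G) + (d : (ZMod p)⟦X⟧) * red p sP * e.ev G := by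
  have key : ∀ s : Finset (Fin 2 →₀ ℕ), s ⊆ G.support →
      2 * dD (e.ev (∑ m ∈ s, MvPolynomial.monomial m (MvPolynomial.coeff m G))) =
        e.ev (der2 (∑ m ∈ s, MvPolynomial.monomial m (MvPolynomial.coeff m G))) +
        (d : (ZMod p)⟦X⟧) * red p sP *
          e.ev (∑ m ∈ s, MvPolynomial.monomial m (MvPolynomial.coeff m G)) := by
    classical
    intro s
    induction s using Finset.induction_on with
    | empty =>
      intro _
      have h2 : dD (0 : (ZMod p)⟦X⟧) = 0 := by
        have := AL2_dD_C (R := ZMod p) 0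
        rwa [map_zero] at this
      rw [Finset.sum_empty, map_zero, map_zero, map_zero, h2]
      ring
    | insert m s hm ih =>
      intro hs
      rw [Finset.sum_insert hm, map_add, map_add, map_add, AL2_dD_add]
      have h1 := ih fun x hx => hs (Finset.mem_insert_of_mem hx)
      have hms : m ∈ G.support := hs (Finset.mem_insert_self _ _)
      have hdeg : m 0 + m 1 = d := by
        have h1 := hG (MvPolynomial.mem_support_iff.1 hms)
        rw [Finsupp.weight_apply, Finsupp.sum_fintype _ _ (fun i => by simp)] at h1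
        simpa [Fin.sum_univ_two] using h1
      have h2 : MvPolynomial.monomial m (MvPolynomial.coeff m G) =
          MvPolynomial.C (MvPolynomial.coeff m G) *
            (MvPolynomial.X 0 ^ m 0 * MvPolynomial.X 1 ^ m 1) := by
        rw [MvPolynomial.monomial_eq, Finsupp.prod_fintype _ _ (fun i => pow_zero _),
          Fin.prod_univ_two]
      have h3 := AL2_pow e (AL2_x e hp) (m 0)
      have h4 := AL2_pow e (AL2_y e hp) (m 1)
      have hC : ∀ c : ZMod p, e.ev (MvPolynomial.C c) = PowerSeries.C c := fun c => by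
        have := e.ev.commutes c
        exact this
      have hDC : der2 (MvPolynomial.C (MvPolynomial.coeff m G) : U p) = 0 :=
        MvPolynomial.derivation_C _ _
      rw [h2, AL2_mul, AL2_mul, hDC, mul_zero, add_zero, map_mul, map_mul, map_mul, map_add,
        map_mul, map_mul, hC, AL2_dD_mul, AL2_dD_mul, AL2_dD_C]
      have hd : (d : (ZMod p)⟦X⟧) = (m 0 : (ZMod p)⟦X⟧) + (m 1 : (ZMod p)⟦X⟧) := by
        rw [← hdeg]
        push_cast
        ring
      rw [hd] at h1 ⊢
      linear_combination h1 + PowerSeries.C (MvPolynomial.coeff m G) *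
        (e.ev (MvPolynomial.X 1 ^ m 1) * h3 + e.ev (MvPolynomial.X 0 ^ m 0) * h4)
  have h := key G.support subset_rfl
  have hsum : ∑ m ∈ G.support, MvPolynomial.monomial m (MvPolynomial.coeff m G) = G :=
    (MvPolynomial.as_sum G).symm
  rw [hsum] at h
  exact h

end Pool.Agent.B5
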