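import Mathlib

/-!
Project B5 (MP_d6455f_nt): residues of the number of 5-regular partitions modulo primes.
Common definitions.
-/

set_option autoImplicit false

namespace Pool.Agent.B5

open PowerSeries UpperHalfPlane
open scoped MatrixGroups ModularForm Manifold ArithmeticFunction.sigma

noncomputable section

/-- the number of partitions of `n` without part divisible by 5 -/
def b5 (n : ℕ) : ℕ :=
  ((Finset.univ : Finset (Nat.Partition n)).filter (fun p => ∀ j ∈ p.parts, ¬ 5 ∣ j)).card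

/-! ### Integer power series -/

/-- the Euler function, the product of `1 - X ^ n` -/
def phi : ℤ⟦X⟧ := PowerSeries.pentagonalSeries ℤ

/-- `c (X ^ 5)` -/
def ex5 (c : ℤ⟦X⟧) : ℤ⟦X⟧ := PowerSeries.expand 5 (by norm_num) c

def sB : ℤ⟦X⟧ := PowerSeries.mk (fun n => (b5 n : ℤ))

/-- Eisenstein series of weight 2, 4, 6 -/
def sP : ℤ⟦X⟧ := PowerSeries.mk (fun n => if n = 0 then 1 else -24 * (σ 1 n : ℤ))
def sQ : ℤ⟦X⟧ := PowerSeries.mk (fun n => if n = 0 then 1 else 240 * (σ 3 n : ℤ))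
def sR : ℤ⟦X⟧ := PowerSeries.mk (fun n => if n = 0 then 1 else -504 * (σ 5 n : ℤ))

/-- `(5 P(X^5) - P) / 4` -/
def sE : ℤ⟦X⟧ := PowerSeries.mk (fun n => if n = 0 then 1 else
  6 * (σ 1 n : ℤ) - (if 5 ∣ n then 30 * (σ 1 (n / 5) : ℤ) else 0))

/-- `phi ^ 5 / phi (X ^ 5)` -/
def sa : ℤ⟦X⟧ := phi ^ 5 * PowerSeries.invOfUnit (ex5 phi) 1

/-- `X * phi (X ^ 5) ^ 5 / phi` -/
def sb : ℤ⟦X⟧ := PowerSeries.X * (ex5 phi) ^ 5 * PowerSeries.invOfUnit phi 1

/-- the derivation `6 X d/dX` -/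
def dD {R : Type*} [CommRing R] (c : R⟦X⟧) : R⟦X⟧ :=
  PowerSeries.mk (fun n => 6 * (n : R) * PowerSeries.coeff n c)

/-- reduction modulo `p` -/
def red (p : ℕ) (c : ℤ⟦X⟧) : (ZMod p)⟦X⟧ := PowerSeries.map (Int.castRingHom (ZMod p)) c

/-- inclusion into complex power series -/
def toC (c : ℤ⟦X⟧) : ℂ⟦X⟧ := PowerSeries.map (Int.castRingHom ℂ) c

/-! ### Functions on the upper half-plane -/

/-- `q = exp (2 π i z)` -/
def qq (z : ℍ) : ℂ := Complex.exp (2 * Real.pi * Complex.I * (z : ℂ))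

/-- `g` is the sum of the power series `c` in `q` -/
def HasQ (g : ℍ → ℂ) (c : ℂ⟦X⟧) : Prop :=
  ∀ z : ℍ, HasSum (fun n : ℕ => PowerSeries.coeff n c * qq z ^ n) (g z)

/-- the point `N z` -/
def sc (N : ℕ+) (z : ℍ) : ℍ := ⟨(N : ℂ) * (z : ℂ), by
  have h1 : (0 : ℝ) < (N : ℕ) := by exact_mod_cast N.pos
  have h2 := z.im_pos
  have : ((N : ℂ) * (z : ℂ)).im = (N : ℕ) * (z : ℂ).im := by
    simp [Complex.mul_im]
  rw [this]
  exact mul_pos h1 h2⟩

/-- upper triangular real matrix of non-zero determinant -/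
def tri (a b d : ℝ) (h : a * d ≠ 0) : GL (Fin 2) ℝ :=
  Matrix.GeneralLinearGroup.mkOfDetNeZero !![a, b; 0, d] (by simpa [Matrix.det_fin_two] using h)

/-- holomorphic modular form of weight `k` for `Γ₁(N)` -/
structure MF (N : ℕ) (k : ℤ) (g : ℍ → ℂ) : Prop where
  holo : MDiff g
  inv : ∀ γ : SL(2, ℤ), γ ∈ CongruenceSubgroup.Gamma1 N → g ∣[k] γ = g
  bdd : ∀ γ : SL(2, ℤ), IsBoundedAtImInfty (g ∣[k] γ)

/-- holomorphic modular form of weight `k` for `Γ₀(5)` -/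
structure MF0 (k : ℤ) (g : ℍ → ℂ) : Prop where
  holo : MDiff g
  inv : ∀ γ : SL(2, ℤ), γ ∈ CongruenceSubgroup.Gamma0 5 → g ∣[k] γ = g
  bdd : ∀ γ : SL(2, ℤ), IsBoundedAtImInfty (g ∣[k] γ)

/-- translation by `j` and division by `5` -/
def dv (j : ℤ) (z : ℍ) : ℍ := ⟨((z : ℂ) + j) / 5, by
  have h2 := z.im_pos
  have : (((z : ℂ) + j) / 5).im = (z : ℂ).im / 5 := by
    have h5 : ((z : ℂ) + j) / 5 = ((z : ℂ) + j) * (((1 / 5 : ℝ)) : ℂ) := by push_cast; ring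
    rw [h5, Complex.mul_im]
    simp
    ring
  rw [this]
  positivity⟩

/-- `η(z + j)^5 / η((z + j) / 5)`, depends only on `j` modulo 5 -/
def wj (j : ℤ) (z : ℍ) : ℂ :=
  - (Real.sqrt 5 : ℂ) * ModularForm.eta ((z : ℂ) + j) ^ 5 / ModularForm.eta (dv j z)

/-- the product of `1 - q ^ n` -/
def ep (z : ℍ) : ℂ := ∏' n : ℕ, (1 - ModularForm.eta_q n z)

/-- `η(z)^5 / η(5 z)` -/
def fa (z : ℍ) : ℂ := ModularForm.eta z ^ 5 / ModularForm.eta (sc 5 z)

/-- `η(5 z)^5 / η(z)` -/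
def fb (z : ℍ) : ℂ := ModularForm.eta (sc 5 z) ^ 5 / ModularForm.eta z

/-- `(5 E2(5 z) - E2(z)) / 4` -/
def fE (z : ℍ) : ℂ := (5 * EisensteinSeries.E2 (sc 5 z) - EisensteinSeries.E2 z) / 4

/-- `η(6 z)^4` -/
def fH (z : ℍ) : ℂ := ModularForm.eta (sc 6 z) ^ 4

/-- Hecke operator on functions -/
def TQ (Q : ℕ+) (k : ℤ) (g : ℍ → ℂ) : ℍ → ℂ :=
  (∑ b ∈ Finset.range Q, g ∣[k] tri 1 (b : ℝ) (Q : ℝ) (by
    have : (0 : ℝ) < ((Q : ℕ) : ℝ) := by exact_mod_cast Q.pos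
    simp)) +
  g ∣[k] tri (Q : ℝ) 0 1 (by
    have : (0 : ℝ) < ((Q : ℕ) : ℝ) := by exact_mod_cast Q.pos
    simp)

/-- Hecke operator on power series, for weight `k` -/
def tq {R : Type*} [CommRing R] (Q k : ℕ) (c : R⟦X⟧) : R⟦X⟧ :=
  PowerSeries.mk (fun n => PowerSeries.coeff (Q * n) c +
    if Q ∣ n then (Q : R) ^ (k - 1) * PowerSeries.coeff (n / Q) c else 0)

/-- the lattice of integral forms -/
def LL (N k : ℕ) : Set ℤ⟦X⟧ := {c | ∃ g : ℍ → ℂ, MF N k g ∧ HasQ g (toC c)}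

/-! ### The polynomial ring over `ZMod p` -/

/-- polynomials in two variables (square roots of `(E+a+11b)/2` and `(E-a-11b)/2`) -/
abbrev U (p : ℕ) := MvPolynomial (Fin 2) (ZMod p)

variable {p : ℕ}

def vX : U p := MvPolynomial.X 0 ^ 2 - 11 * MvPolynomial.X 0 * MvPolynomial.X 1 - MvPolynomial.X 1 ^ 2
def vY : U p := MvPolynomial.X 0 * MvPolynomial.X 1
def vW : U p := MvPolynomial.X 0 ^ 2 + MvPolynomial.X 1 ^ 2
def vQ : U p := vX ^ 2 + 250 * vX * vY + 3125 * vY ^ 2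
def vR : U p := vW * (vX ^ 2 - 500 * vX * vY - 15625 * vY ^ 2)

/-- twice the Serre derivation -/
def der2 : Derivation (ZMod p) (U p) (U p) := MvPolynomial.mkDerivation (ZMod p)
  ![MvPolynomial.X 0 * (- MvPolynomial.X 0 ^ 2 + 66 * MvPolynomial.X 0 * MvPolynomial.X 1
      + 11 * MvPolynomial.X 1 ^ 2),
    MvPolynomial.X 1 * (11 * MvPolynomial.X 0 ^ 2 - 66 * MvPolynomial.X 0 * MvPolynomial.X 1
      - MvPolynomial.X 1 ^ 2)]

/-- q-expansions modulo `p` of the two square roots -/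
structure EV (p : ℕ) [Fact p.Prime] where
  ev : U p →ₐ[ZMod p] (ZMod p)⟦X⟧
  al0 : PowerSeries.constantCoeff (ev (MvPolynomial.X 0)) = 1
  be0 : PowerSeries.constantCoeff (ev (MvPolynomial.X 1)) = 0
  be1 : PowerSeries.coeff 1 (ev (MvPolynomial.X 1)) = 1
  hX : ev vX = red p sa
  hY : ev vY = red p sb
  hW : ev vW = red p sE

/-- properties of the Hasse invariant `A`, with `B = der2 A` -/
structure HA (p : ℕ) [Fact p.Prime] (e : EV p) (A : U p) : Prop where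
  hom : A.IsHomogeneous (p - 1)
  ev1 : e.ev A = 1
  modX : vX ∣ A - (-5 * vW) ^ ((p - 1) / 2)
  at0 : MvPolynomial.eval ![0, 1] A = 1
  at1 : MvPolynomial.eval ![1, 0] A = 1
  evB : e.ev (der2 A) = red p sP
  dB : der2 (der2 A) = -(vQ * A)

/-- the form of degree `j (p + 1)` whose product with `sB` is the `j`-th iterate of `2 (D + 1)` on `sB` -/
def JJ (A : U p) : ℕ → U p
  | 0 => 1
  | j + 1 => A * (der2 (JJ A j) + 2 * vW * JJ A j) + (j : U p) * der2 A * JJ A j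

end

end Pool.Agent.B5
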