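import Pool.Agent.B5.QC

/-!
B5 / EQ1: the Euler function. `ModularForm.eta` is exp(2 pi i z/24) times the product of (1 - eta_q n z),
eta_q n z = q^(n+1). `hasQ_ep`: pentagonal number theorem; in Mathlib: `PowerSeries.pentagonalSeries`,
`hasProd_one_sub_X_pow`, and the version for real/complex or topological rings in Mathlib.Combinatorics.Enumerative.Pentagonal
(or: both sides are limits of the finite products). `eta_add_one`, `eta_neg_inv`: see `ModularForm.eta_comp_eq_csqrt_I_inv`.
-/

set_option autoImplicit false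

namespace Pool.Agent.B5

open PowerSeries UpperHalfPlane
open scoped MatrixGroups ModularForm Manifold

theorem eta_eq (z : ℍ) :
    ModularForm.eta z = Complex.exp (2 * Real.pi * Complex.I * (z : ℂ) / 24) * ep z := by
  simp [ModularForm.eta, ep, Function.Periodic.qParam]

theorem ep_ne_zero (z : ℍ) : ep z ≠ 0 := ModularForm.eta_tprod_ne_zero z.2

theorem eta_ne_zero' (z : ℍ) : ModularForm.eta z ≠ 0 := ModularForm.eta_ne_zero z.2

theorem toC_phi : toC phi = PowerSeries.pentagonalSeries ℂ := by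
  ext n
  simp only [toC, phi, PowerSeries.coeff_map]
  by_cases h : n ∈ Set.range pentagonal
  · obtain ⟨k, rfl⟩ := h
    rw [PowerSeries.coeff_pentagonalSeries_pentagonal, PowerSeries.coeff_pentagonalSeries_pentagonal]
    simp
  · rw [PowerSeries.coeff_pentagonalSeries_eq_zero _ h,
      PowerSeries.coeff_pentagonalSeries_eq_zero _ h, map_zero]

theorem pent_norm_le (n : ℕ) : ‖PowerSeries.coeff n (PowerSeries.pentagonalSeries ℂ)‖ ≤ 1 := by
  by_cases h : n ∈ Set.range pentagonal
  · obtain ⟨k, rfl⟩ := h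
    rw [PowerSeries.coeff_pentagonalSeries_pentagonal]
    rcases Int.even_or_odd k with hk | hk
    · rw [Int.negOnePow_even k hk]
      simp
    · rw [Int.negOnePow_odd k hk]
      simp
  · rw [PowerSeries.coeff_pentagonalSeries_eq_zero _ h]
    simp

theorem prod_norm_le {x : ℂ} (hx : ‖x‖ < 1) (k m : ℕ) :
    ‖∏ i ∈ Finset.range m, (1 - x ^ (k + i + 1))‖ ≤ Real.exp ((1 - ‖x‖)⁻¹) := by
  have h0 := norm_nonneg x
  calc ‖∏ i ∈ Finset.range m, (1 - x ^ (k + i + 1))‖
      = ∏ i ∈ Finset.range m, ‖1 - x ^ (k + i + 1)‖ := norm_prod _ _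
    _ ≤ ∏ i ∈ Finset.range m, Real.exp (‖x‖ ^ i) := by
        refine Finset.prod_le_prod (fun i _ => norm_nonneg _) fun i _ => ?_
        have h1 : ‖1 - x ^ (k + i + 1)‖ ≤ 1 + ‖x‖ ^ (k + i + 1) := by
          refine (norm_sub_le _ _).trans ?_
          rw [norm_one, norm_pow]
        have h2 : ‖x‖ ^ (k + i + 1) ≤ ‖x‖ ^ i := pow_le_pow_of_le_one h0 hx.le (by omega)
        have h3 := Real.add_one_le_exp (‖x‖ ^ i)
        linarith
    _ = Real.exp (∑ i ∈ Finset.range m, ‖x‖ ^ i) := (Real.exp_sum _ _).symm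
    _ ≤ _ := by
        apply Real.exp_le_exp.2
        rw [← tsum_geometric_of_lt_one h0 hx]
        exact (summable_geometric_of_lt_one h0 hx).sum_le_tsum _ (fun i _ => pow_nonneg h0 i)

theorem term_norm_le {x : ℂ} (hx : ‖x‖ < 1) (k n : ℕ) :
    ‖x ^ ((k + 1) * n) * ∏ i ∈ Finset.range (n + 1), (1 - x ^ (k + i + 1))‖ ≤
      Real.exp ((1 - ‖x‖)⁻¹) * ‖x‖ ^ n := by
  have h0 := norm_nonneg x
  rw [norm_mul, norm_pow, mul_comm]
  have h1 : ‖x‖ ^ ((k + 1) * n) ≤ ‖x‖ ^ n :=
    pow_le_pow_of_le_one h0 hx.le (Nat.le_mul_of_pos_left n (Nat.succ_pos k))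
  exact mul_le_mul (prod_norm_le hx k (n + 1)) h1 (pow_nonneg h0 _) (Real.exp_pos _).le

theorem le_pent_neg (k : ℕ) : k ≤ pentagonal (-(k : ℤ)) := by
  have h := two_mul_natCast_pentagonal_neg (k : ℤ)
  have h1 : (2 : ℤ) * k ≤ k * (3 * k + 1) := by
    rcases Nat.eq_zero_or_pos k with rfl | hk
    · simp
    · have : (1 : ℤ) ≤ k := by exact_mod_cast hk
      nlinarith
  have h2 : (k : ℤ) ≤ (pentagonal (-(k : ℤ)) : ℤ) := by linarith
  exact_mod_cast h2

theorem le_pent_succ (k : ℕ) : k ≤ pentagonal ((k : ℤ) + 1) := by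
  have h := two_mul_natCast_pentagonal ((k : ℤ) + 1)
  have h0 : (0 : ℤ) ≤ k := Int.natCast_nonneg k
  have h2 : (k : ℤ) ≤ (pentagonal ((k : ℤ) + 1) : ℤ) := by nlinarith
  exact_mod_cast h2

theorem pent_disc {x : ℂ} (hx : ‖x‖ < 1) :
    HasSum (fun n : ℕ => PowerSeries.coeff n (PowerSeries.pentagonalSeries ℂ) * x ^ n)
      (∏' n : ℕ, (1 - x ^ (n + 1))) := by
  have h0 := norm_nonneg x
  have hgeo := summable_geometric_of_lt_one h0 hx
  -- summability
  have hS : Summable (fun n : ℕ =>
      PowerSeries.coeff n (PowerSeries.pentagonalSeries ℂ) * x ^ n) := by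
    refine Summable.of_norm_bounded hgeo fun n => ?_
    rw [norm_mul, norm_pow]
    have := mul_le_mul_of_nonneg_right (pent_norm_le n) (pow_nonneg h0 n)
    rwa [one_mul] at this
  have h1 := hS.hasSum
  set T := ∑' n : ℕ, PowerSeries.coeff n (PowerSeries.pentagonalSeries ℂ) * x ^ n with hT
  have h2 : HasSum (fun k : ℤ => ((Int.negOnePow k : ℤ) : ℂ) * x ^ pentagonal k) T := by
    have h3 : HasSum ((fun n : ℕ => PowerSeries.coeff n (PowerSeries.pentagonalSeries ℂ) * x ^ n)
        ∘ pentagonal) T := by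
      rw [pentagonal_injective.hasSum_iff]
      · exact h1
      · intro n hn
        rw [PowerSeries.coeff_pentagonalSeries_eq_zero _ hn, zero_mul]
    convert h3 using 2 with k
    simp
  have h4 : HasSum (fun k : ℕ => (-1 : ℂ) ^ k * (x ^ pentagonal (-(k : ℤ)) -
      x ^ pentagonal ((k : ℤ) + 1))) T := by
    rw [← neg_injective.hasSum_iff (fun y hy ↦ by absurd hy; use -y; simp)] at h2
    convert h2.nat_add_neg_add_one using 2 with k
    simp_rw [Function.comp_apply, neg_neg, Int.negOnePow_add]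
    simp
    ring
  have h5 := Pentagonal.tprod_one_sub_pow (x := x)
    (tendsto_pow_atTop_nhds_zero_of_norm_lt_one hx)
    (fun k => Summable.of_norm_bounded (hgeo.mul_left _) fun n => term_norm_le hx k n)
    (fun k => by
      have : Summable fun n : ℕ => ‖-x ^ (n + k + 1)‖ := by
        refine Summable.of_nonneg_of_le (fun n => norm_nonneg _) (fun n => ?_) hgeo
        rw [norm_neg, norm_pow]
        exact pow_le_pow_of_le_one h0 hx.le (by omega)
      simpa [sub_eq_add_neg] using multipliable_one_add_of_summable this)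
    h4.summable
    (by
      refine squeeze_zero_norm (a := fun k : ℕ => ‖x‖ ^ k *
        (Real.exp ((1 - ‖x‖)⁻¹) * (1 - ‖x‖)⁻¹)) (fun k => ?_) ?_
      · rw [norm_mul, norm_mul, norm_pow, norm_neg, norm_one, one_pow, one_mul, norm_pow]
        refine mul_le_mul ?_ ?_ (norm_nonneg _) (pow_nonneg h0 _)
        · refine pow_le_pow_of_le_one h0 hx.le ?_
          rw [Nat.le_div_iff_mul_le (by norm_num)]
          nlinarith
        · exact tsum_of_norm_bounded ((hasSum_geometric_of_lt_one h0 hx).mul_left _)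
            fun n => term_norm_le hx k n
      · have := (tendsto_pow_atTop_nhds_zero_of_lt_one h0 hx).mul_const
          (Real.exp ((1 - ‖x‖)⁻¹) * (1 - ‖x‖)⁻¹)
        rwa [zero_mul] at this)
  rw [h5, h4.tsum_eq]
  exact h1

theorem hasQ_ep : HasQ ep (toC phi) := by
  intro z
  rw [toC_phi]
  have h := pent_disc (norm_qq_lt z)
  have e : ep z = ∏' n : ℕ, (1 - qq z ^ (n + 1)) := by
    unfold ep qq
    simp [ModularForm.eta_q_eq_pow]
  rw [e]
  exact h

theorem eta_add_one (z : ℂ) :
    ModularForm.eta (z + 1) = Complex.exp (2 * Real.pi * Complex.I / 24) * ModularForm.eta z := by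
  have h1 : ∀ n, ModularForm.eta_q n (z + 1) = ModularForm.eta_q n z := by
    intro n
    rw [ModularForm.eta_q_eq_pow, ModularForm.eta_q_eq_pow, mul_add, mul_one,
      Complex.exp_add, Complex.exp_two_pi_mul_I, mul_one]
  unfold ModularForm.eta
  simp_rw [h1]
  rw [← mul_assoc]
  congr 1
  simp only [Function.Periodic.qParam]
  rw [← Complex.exp_add]
  congr 1
  push_cast
  ring

theorem log_div_I (z : ℍ) :
    Complex.log ((z : ℂ) / Complex.I) = Complex.log z - Complex.log Complex.I := by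
  have hz : (z : ℂ) ≠ 0 := z.ne_zero
  have e : Complex.exp (Complex.log z - Complex.log Complex.I) = (z : ℂ) / Complex.I := by
    rw [Complex.exp_sub, Complex.exp_log hz, Complex.exp_log Complex.I_ne_zero]
  rw [← e]
  have h1 : 0 < Complex.arg z := by
    have h2 : 0 ≤ Complex.arg z := Complex.arg_nonneg_iff.2 z.im_pos.le
    rcases h2.lt_or_eq with h | h
    · exact h
    · exfalso
      have h3 := (Complex.arg_eq_zero_iff.1 h.symm).2
      exact z.im_pos.ne' h3
  have h2 : Complex.arg z ≤ Real.pi := Complex.arg_le_pi _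
  have hpi := Real.pi_pos
  rw [Complex.log_exp]
  · rw [Complex.sub_im, Complex.log_im, Complex.log_I]
    simp
    linarith
  · rw [Complex.sub_im, Complex.log_im, Complex.log_I]
    simp
    linarith

/-- the transformation of eta(z)^5/eta(5z) at S, up to the form of the square roots -/
theorem eta_neg_inv (z : ℍ) : ModularForm.eta (-(z : ℂ)⁻¹) =
    Complex.exp (Complex.log ((z : ℂ) / Complex.I) / 2) * ModularForm.eta z := by
  have h1 : ModularForm.eta (-(z : ℂ)⁻¹) =
      (Complex.sqrt Complex.I)⁻¹ * (Complex.sqrt z * ModularForm.eta z) := by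
    simpa [neg_div] using ModularForm.eta_comp_eq_csqrt_I_inv z.2
  rw [h1, sqrt_eq_exp Complex.I_ne_zero, sqrt_eq_exp z.ne_zero, log_div_I,
    ← mul_assoc, ← Complex.exp_neg, ← Complex.exp_add]
  congr 2
  ring

theorem eta_neg_inv_pow4 (z : ℍ) :
    ModularForm.eta (-(z : ℂ)⁻¹) ^ 4 = - (z : ℂ) ^ 2 * ModularForm.eta z ^ 4 := by
  have hz : (z : ℂ) / Complex.I ≠ 0 := div_ne_zero z.ne_zero Complex.I_ne_zero
  rw [eta_neg_inv, mul_pow, ← Complex.exp_nat_mul]
  congr 1
  have h1 : ((4 : ℕ) : ℂ) * (Complex.log ((z : ℂ) / Complex.I) / 2) =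
      (2 : ℕ) * Complex.log ((z : ℂ) / Complex.I) := by
    push_cast
    ring
  rw [h1, Complex.exp_nat_mul, Complex.exp_log hz, div_pow, Complex.I_sq]
  ring

theorem eta_mdiff : MDiff (fun z : ℍ => ModularForm.eta z) := by
  rw [UpperHalfPlane.mdifferentiable_iff]
  intro z hz
  refine ((ModularForm.differentiableAt_eta_of_mem_upperHalfPlaneSet hz).congr_of_eventuallyEq
    ?_).differentiableWithinAt
  filter_upwards [isOpen_upperHalfPlaneSet.mem_nhds hz] with w hw
  simp [Function.comp, UpperHalfPlane.ofComplex_apply_of_im_pos hw]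

end Pool.Agent.B5
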