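import Pool.Agent.B5.QC

/-!
B5 / EQ2: q-expansions of Eisenstein series. `EisensteinSeries.hasSum_qExpansion_E2` (or similar),
`EisensteinSeries.E_qExpansion_coeff` with the Bernoulli numbers -1/30 and 1/42.
-/

set_option autoImplicit false

namespace Pool.Agent.B5

open PowerSeries UpperHalfPlane
open scoped MatrixGroups ModularForm Manifold

theorem EQ2_qParam (z : ℍ) : Function.Periodic.qParam (1 : ℝ) (z : ℂ) = qq z := by
  simp [Function.Periodic.qParam, qq]

theorem hasQ_E2 : HasQ EisensteinSeries.E2 (toC sP) := by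
  intro z
  have h := EisensteinSeries.hasSum_qExpansion_E2 (z := z)
  convert h using 1
  funext n
  rw [smul_eq_mul]
  congr 1
  simp only [toC, sP, PowerSeries.coeff_map, PowerSeries.coeff_mk]
  split_ifs <;> simp

theorem EQ2_aux {k : ℕ} (hk : 3 ≤ k) (hk2 : Even k) (c : ℤ) (s : ℤ⟦X⟧)
    (hc : -(2 * k / bernoulli k : ℂ) = (c : ℂ))
    (hs : s = PowerSeries.mk (fun n => if n = 0 then 1 else
      c * (ArithmeticFunction.sigma (k - 1) n : ℤ))) :
    HasQ (fun z => ModularForm.E hk z) (toC s) := by
  intro z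
  have h := ModularForm.hasSum_qExpansion (f := ModularForm.E hk) one_pos
    one_mem_strictPeriods_SL z
  convert h using 1
  funext n
  rw [EisensteinSeries.E_qExpansion_coeff hk hk2, EQ2_qParam, hc, hs]
  congr 1
  simp only [toC, PowerSeries.coeff_map, PowerSeries.coeff_mk]
  split_ifs <;> simp

theorem hasQ_E4 : HasQ (fun z => ModularForm.E₄ z) (toC sQ) := by
  refine EQ2_aux (k := 4) (by norm_num) (by decide) 240 sQ ?_ rfl
  rw [show bernoulli 4 = -1 / 30 by decide +kernel]
  norm_num

theorem hasQ_E6 : HasQ (fun z => ModularForm.E₆ z) (toC sR) := by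
  refine EQ2_aux (k := 6) (by norm_num) (by decide) (-504) sR ?_ rfl
  rw [show bernoulli 6 = 1 / 42 by decide +kernel]
  norm_num

end Pool.Agent.B5
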