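import Pool.Agent.B5.EQ1
import Pool.Agent.B5.EQ2

/-!
B5 / EQ3: q-expansions of fa, fb, fE, fH. fa = ep^5 / ep(5 .), the powers of exp cancel; `HasQ.inv`, `HasQ.scale`;
fb = q * ep(5 .)^5 / ep, fH = q * ep(6 .)^4, fE : coefficients of (5 sP(X^5) - sP)/4.
The function `ModularForm.eta (sc 5 z)` means eta at the complex number 5 z.
-/

set_option autoImplicit false

namespace Pool.Agent.B5

open PowerSeries UpperHalfPlane
open scoped MatrixGroups ModularForm Manifold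

theorem EQ3_cc_phi : PowerSeries.constantCoeff phi = 1 := by
  have h := PowerSeries.coeff_pentagonalSeries_pentagonal ℤ 0
  have h0 : pentagonal 0 = 0 := by simp [pentagonal]
  rw [h0] at h
  rw [← PowerSeries.coeff_zero_eq_constantCoeff_apply]
  simpa [phi] using h

theorem EQ3_cc_toC {c : ℤ⟦X⟧} (h : PowerSeries.constantCoeff c = 1) :
    PowerSeries.constantCoeff (toC c) = 1 := by
  rw [toC, ← PowerSeries.coeff_zero_eq_constantCoeff_apply, PowerSeries.coeff_map,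
    PowerSeries.coeff_zero_eq_constantCoeff_apply, h]
  simp

theorem EQ3_cc_ex5 : PowerSeries.constantCoeff (ex5 phi) = 1 := by
  rw [ex5, PowerSeries.constantCoeff_expand, EQ3_cc_phi]

theorem EQ3_toC_inv {u : ℤ⟦X⟧} (h : PowerSeries.constantCoeff u = 1) :
    toC (PowerSeries.invOfUnit u 1) = (toC u)⁻¹ := by
  have h1 : PowerSeries.constantCoeff (toC u) ≠ 0 := by
    rw [EQ3_cc_toC h]
    exact one_ne_zero
  rw [PowerSeries.eq_inv_iff_mul_eq_one h1, toC, toC, ← map_mul,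
    PowerSeries.invOfUnit_mul u 1 (by rw [h]; rfl), map_one]

theorem EQ3_toC_ex5 (c : ℤ⟦X⟧) : toC (ex5 c) =
    PowerSeries.expand ((5 : ℕ+) : ℕ) (5 : ℕ+).ne_zero (toC c) := by
  rw [toC, ex5, PowerSeries.map_expand]
  rfl

theorem EQ3_ep5 : HasQ (fun z => ep (sc 5 z)) (toC (ex5 phi)) := by
  rw [EQ3_toC_ex5]
  exact hasQ_ep.scale 5

theorem EQ3_eta5 (z : ℍ) : ModularForm.eta (sc 5 z) =
    Complex.exp (2 * Real.pi * Complex.I * (5 * (z : ℂ)) / 24) * ep (sc 5 z) := by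
  rw [eta_eq]
  simp [sc]

theorem EQ3_eta6 (z : ℍ) : ModularForm.eta (sc 6 z) =
    Complex.exp (2 * Real.pi * Complex.I * (6 * (z : ℂ)) / 24) * ep (sc 6 z) := by
  rw [eta_eq]
  simp [sc]

theorem hasQ_fa : HasQ fa (toC sa) := by
  have h1 : toC sa = (toC phi) ^ 5 * (toC (ex5 phi))⁻¹ := by
    rw [← EQ3_toC_inv EQ3_cc_ex5]
    simp [toC, sa]
  have h2 : fa = fun z => ep z ^ 5 * (ep (sc 5 z))⁻¹ := by
    funext z
    have h3 := ep_ne_zero (sc 5 z)
    rw [fa, EQ3_eta5, eta_eq, mul_pow, ← Complex.exp_nat_mul]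
    rw [show ((5 : ℕ) : ℂ) * (2 * Real.pi * Complex.I * (z : ℂ) / 24) =
      2 * Real.pi * Complex.I * (5 * (z : ℂ)) / 24 by push_cast; ring]
    have h4 := Complex.exp_ne_zero (2 * Real.pi * Complex.I * (5 * (z : ℂ)) / 24)
    field_simp
  rw [h1, h2]
  refine (hasQ_ep.pow 5).mul (EQ3_ep5.inv (fun z => ep_ne_zero _) ?_)
  rw [EQ3_cc_toC EQ3_cc_ex5]
  exact one_ne_zero

theorem hasQ_fb : HasQ fb (toC sb) := by
  have h1 : toC sb = PowerSeries.X * (toC (ex5 phi)) ^ 5 * (toC phi)⁻¹ := by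
    rw [← EQ3_toC_inv EQ3_cc_phi]
    simp [toC, sb]
  have h2 : fb = fun z => qq z * ep (sc 5 z) ^ 5 * (ep z)⁻¹ := by
    funext z
    have h3 := ep_ne_zero z
    rw [fb, EQ3_eta5, eta_eq, mul_pow, ← Complex.exp_nat_mul]
    have h4 := Complex.exp_ne_zero (2 * Real.pi * Complex.I * (z : ℂ) / 24)
    have h5 : Complex.exp (((5 : ℕ) : ℂ) * (2 * Real.pi * Complex.I * (5 * (z : ℂ)) / 24)) =
        qq z * Complex.exp (2 * Real.pi * Complex.I * (z : ℂ) / 24) := by
      rw [qq, ← Complex.exp_add]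
      congr 1
      push_cast
      ring
    rw [h5]
    field_simp
  rw [h1, h2]
  refine (hasQ_qq.mul (EQ3_ep5.pow 5)).mul (hasQ_ep.inv (fun z => ep_ne_zero _) ?_)
  rw [EQ3_cc_toC EQ3_cc_phi]
  exact one_ne_zero

theorem hasQ_fE : HasQ fE (toC sE) := by
  have h5 : HasQ (fun z => EisensteinSeries.E2 (sc 5 z)) (toC (ex5 sP)) := by
    rw [EQ3_toC_ex5]
    exact hasQ_E2.scale 5
  have h := ((HasQ.const (1 / 4)).mul (((HasQ.const 5).mul h5).sub hasQ_E2))
  have h1 : toC sE = PowerSeries.C (1 / 4) * (PowerSeries.C 5 * toC (ex5 sP) - toC sP) := by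
    ext n
    rw [PowerSeries.coeff_C_mul, map_sub, PowerSeries.coeff_C_mul]
    simp only [toC, PowerSeries.coeff_map, ex5, PowerSeries.coeff_expand, sP, sE,
      PowerSeries.coeff_mk]
    rcases Nat.eq_zero_or_pos n with rfl | hn
    · norm_num
    · have hn0 : n ≠ 0 := hn.ne'
      by_cases hd : 5 ∣ n
      · have hn5 : n / 5 ≠ 0 := by
          obtain ⟨m, rfl⟩ := hd
          omega
        simp [hn0, hd, hn5]
        ring
      · simp [hn0, hd]
        ring
  rw [h1]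
  have h2 : fE = fun z => 1 / 4 * (5 * EisensteinSeries.E2 (sc 5 z) - EisensteinSeries.E2 z) := by
    funext z
    rw [fE]
    ring
  rw [h2]
  exact h

theorem hasQ_fH : HasQ fH (PowerSeries.X * PowerSeries.expand 6 (by norm_num) (toC phi) ^ 4) := by
  have h6 : HasQ (fun z => ep (sc 6 z)) (PowerSeries.expand 6 (by norm_num) (toC phi)) :=
    hasQ_ep.scale 6
  have h2 : fH = fun z => qq z * ep (sc 6 z) ^ 4 := by
    funext z
    rw [fH, EQ3_eta6, mul_pow, ← Complex.exp_nat_mul]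
    congr 1
    rw [qq]
    congr 1
    push_cast
    ring
  rw [h2]
  exact hasQ_qq.mul (h6.pow 4)

end Pool.Agent.B5
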