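import Pool.Agent.B5.FA2

/-!
B5 / FA: fa(z) = eta(z)^5/eta(5z) is modular of weight 2 on Gamma0(5) with the quadratic character mod 5.

Let chi = jacobiSym . 5. For v = (c,d) in (ZMod 5)^2, v not 0, put F_(0,d) = chi(d) fa, F_(c,d) = chi(c) w_{d/c}. Then by FA1, FA2
F_v | S = F_{vS}, F_v | T = F_{vT} (vS = (d,-c), vT = (c, c+d)), hence F_v | gamma = F_{v gamma} for all gamma in SL(2,Z) (generated by S, T:
`slash_action_generators_SL2Z`, `SL2Z_generators`, or `Subgroup.closure_induction`). With v = (0,1): fa | gamma = F_{(c,d)}.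
For gamma in Gamma0(5) this is chi(d) fa; for every gamma it is a constant times fa or some w_j, bounded at infinity.
-/

set_option autoImplicit false

namespace Pool.Agent.B5

open PowerSeries UpperHalfPlane
open scoped MatrixGroups ModularForm Manifold

/-- the quadratic character modulo 5 as a complex number -/
private noncomputable def ch (d : ℤ) : ℂ := ((jacobiSym d 5 : ℤ) : ℂ)

private lemma ch_congr {a b : ℤ} (h : a ≡ b [ZMOD 5]) : ch a = ch b := by
  unfold ch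
  rw [jacobiSym.mod_left' (a₁ := a) (a₂ := b) (b := 5) (by exact_mod_cast h)]

private lemma ch_mul (a b : ℤ) : ch (a * b) = ch a * ch b := by
  unfold ch
  rw [jacobiSym.mul_left]
  push_cast
  rfl

private lemma ch_one : ch 1 = 1 := by
  unfold ch
  simp

private lemma ch_neg (a : ℤ) : ch (-a) = ch a := by
  have h : ch (-1) = 1 := by
    unfold ch
    have : jacobiSym (-1) 5 = 1 := by norm_num
    rw [this]
    simp
  have : (-a : ℤ) = -1 * a := by ring
  rw [this, ch_mul, h, one_mul]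

private lemma wj_nat (j : ℤ) (n : ℕ) : wj (j + 5 * n) = wj j := by
  induction n with
  | zero => simp
  | succ n ih =>
    have : j + 5 * ((n + 1 : ℕ) : ℤ) = (j + 5 * n) + 5 := by push_cast; ring
    rw [this, wj_add_five, ih]

private lemma wj_congr_fa {a b : ℤ} (h : a ≡ b [ZMOD 5]) : wj a = wj b := by
  obtain ⟨m, hm⟩ := h.dvd
  have hb : b = a + 5 * m := by linarith
  rcases le_total 0 m with h0 | h0
  · obtain ⟨n, rfl⟩ := Int.eq_ofNat_of_zero_le h0
    rw [hb, wj_nat]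
  · obtain ⟨n, hn⟩ := Int.eq_ofNat_of_zero_le (a := -m) (by omega)
    have ha : a = b + 5 * n := by rw [hb, ← hn]; ring
    rw [ha, wj_nat]

private lemma fun_smul (c : ℂ) (f : ℍ → ℂ) : (fun z => c * f z) = c • f := by
  ext z
  simp

private lemma slash_smul (c : ℂ) (f : ℍ → ℂ) (γ : SL(2, ℤ)) :
    (c • f) ∣[(2 : ℤ)] γ = c • (f ∣[(2 : ℤ)] γ) :=
  ModularForm.SL_smul_slash _ _ _ _

private lemma wj_S' (j j' : ℤ) (h : j * j' ≡ -1 [ZMOD 5]) :
    wj j ∣[(2 : ℤ)] ModularGroup.S = ch j • wj j' := by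
  rw [wj_S j j' h, ← fun_smul]
  rfl

private lemma fa_Tinv : fa ∣[(2 : ℤ)] ModularGroup.T⁻¹ = fa := by
  conv_lhs => rw [← fa_T]
  rw [← SlashAction.slash_mul, mul_inv_cancel, SlashAction.slash_one]

private lemma wj_Tinv (j : ℤ) : wj j ∣[(2 : ℤ)] ModularGroup.T⁻¹ = wj (j - 1) := by
  have h := wj_T (j - 1)
  rw [sub_add_cancel] at h
  rw [← h, ← SlashAction.slash_mul, mul_inv_cancel, SlashAction.slash_one]

/-- the values of `fa` on the cosets -/
private def PP (γ : SL(2, ℤ)) : Prop :=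
  ((5 : ℤ) ∣ γ 1 0 → fa ∣[(2 : ℤ)] γ = ch (γ 1 1) • fa) ∧
  (¬ (5 : ℤ) ∣ γ 1 0 → ∀ j : ℤ, j * γ 1 0 ≡ γ 1 1 [ZMOD 5] →
    fa ∣[(2 : ℤ)] γ = ch (γ 1 0) • wj j)

private lemma mulT (γ : SL(2, ℤ)) : (γ * ModularGroup.T) 1 0 = γ 1 0 ∧
    (γ * ModularGroup.T) 1 1 = γ 1 0 + γ 1 1 := by
  have h : ((γ * ModularGroup.T : SL(2, ℤ)) : Matrix (Fin 2) (Fin 2) ℤ) =
      (γ : Matrix (Fin 2) (Fin 2) ℤ) * !![1, 1; 0, 1] := by
    rw [Matrix.SpecialLinearGroup.coe_mul, ModularGroup.coe_T]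
  rw [h]
  constructor <;>
  simp [Matrix.mul_apply, Fin.sum_univ_two]

private lemma mulTinv (γ : SL(2, ℤ)) : (γ * ModularGroup.T⁻¹) 1 0 = γ 1 0 ∧
    (γ * ModularGroup.T⁻¹) 1 1 = γ 1 1 - γ 1 0 := by
  have h : ((γ * ModularGroup.T⁻¹ : SL(2, ℤ)) : Matrix (Fin 2) (Fin 2) ℤ) =
      (γ : Matrix (Fin 2) (Fin 2) ℤ) * !![1, -1; 0, 1] := by
    rw [Matrix.SpecialLinearGroup.coe_mul, ModularGroup.coe_T_inv]
  rw [h]
  constructor
  · simp [Matrix.mul_apply, Fin.sum_univ_two]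
  · simp [Matrix.mul_apply, Fin.sum_univ_two]
    ring

private lemma mulS (γ : SL(2, ℤ)) : (γ * ModularGroup.S) 1 0 = γ 1 1 ∧
    (γ * ModularGroup.S) 1 1 = - γ 1 0 := by
  have h : ((γ * ModularGroup.S : SL(2, ℤ)) : Matrix (Fin 2) (Fin 2) ℤ) =
      (γ : Matrix (Fin 2) (Fin 2) ℤ) * !![0, -1; 1, 0] := by
    rw [Matrix.SpecialLinearGroup.coe_mul, ModularGroup.coe_S]
  rw [h]
  constructor <;>
  simp [Matrix.mul_apply, Fin.sum_univ_two]

private lemma det' (γ : SL(2, ℤ)) : γ 0 0 * γ 1 1 - γ 0 1 * γ 1 0 = 1 := by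
  have h := γ.det_coe
  rw [Matrix.det_fin_two] at h
  exact h

private lemma PP_one : PP 1 := by
  constructor
  · intro _
    rw [SlashAction.slash_one]
    simp [ch_one]
  · intro h
    exact absurd (by simp) h

private lemma PP_T {γ : SL(2, ℤ)} (h : PP γ) : PP (γ * ModularGroup.T) := by
  obtain ⟨h1, h2⟩ := h
  obtain ⟨e1, e2⟩ := mulT γ
  constructor
  · intro hc
    rw [e1] at hc
    rw [SlashAction.slash_mul, h1 hc, slash_smul, fa_T, e2]
    congr 1
    refine (ch_congr ?_).symm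
    have : (γ 1 0 + γ 1 1) ≡ 0 + γ 1 1 [ZMOD 5] :=
      Int.ModEq.add_right _ ((Int.modEq_zero_iff_dvd).2 hc)
    simpa using this
  · intro hc j hj
    rw [e1] at hc hj
    rw [e2] at hj
    have hj' : (j - 1) * γ 1 0 ≡ γ 1 1 [ZMOD 5] := by
      have := hj.sub_right (γ 1 0)
      have e3 : (j - 1) * γ 1 0 = j * γ 1 0 - γ 1 0 := by ring
      rw [e3]
      simpa using this
    rw [SlashAction.slash_mul, h2 hc (j - 1) hj', slash_smul, wj_T, sub_add_cancel, e1]

private lemma PP_Tinv {γ : SL(2, ℤ)} (h : PP γ) : PP (γ * ModularGroup.T⁻¹) := by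
  obtain ⟨h1, h2⟩ := h
  obtain ⟨e1, e2⟩ := mulTinv γ
  constructor
  · intro hc
    rw [e1] at hc
    rw [SlashAction.slash_mul, h1 hc, slash_smul, fa_Tinv, e2]
    congr 1
    refine (ch_congr ?_).symm
    have : (γ 1 1 - γ 1 0) ≡ γ 1 1 - 0 [ZMOD 5] :=
      Int.ModEq.sub_left _ ((Int.modEq_zero_iff_dvd).2 hc)
    simpa using this
  · intro hc j hj
    rw [e1] at hc hj
    rw [e2] at hj
    have hj' : (j + 1) * γ 1 0 ≡ γ 1 1 [ZMOD 5] := by
      have := hj.add_right (γ 1 0)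
      have e3 : (j + 1) * γ 1 0 = j * γ 1 0 + γ 1 0 := by ring
      rw [e3]
      simpa using this
    rw [SlashAction.slash_mul, h2 hc (j + 1) hj', slash_smul, wj_Tinv, add_sub_cancel_right, e1]

private lemma five_prime : Prime (5 : ℤ) := Int.prime_iff_natAbs_prime.2 (by norm_num)

private lemma PP_S {γ : SL(2, ℤ)} (h : PP γ) : PP (γ * ModularGroup.S) := by
  obtain ⟨h1, h2⟩ := h
  obtain ⟨e1, e2⟩ := mulS γ
  constructor
  · intro hd
    rw [e1] at hd
    have hc : ¬ (5 : ℤ) ∣ γ 1 0 := by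
      intro hc
      have h3 := det' γ
      have : (5 : ℤ) ∣ 1 := by
        rw [← h3]
        exact dvd_sub (Dvd.dvd.mul_left hd _) (Dvd.dvd.mul_left hc _)
      omega
    have hj : 0 * γ 1 0 ≡ γ 1 1 [ZMOD 5] := by
      rw [zero_mul]
      exact ((Int.modEq_zero_iff_dvd).2 hd).symm
    rw [SlashAction.slash_mul, h2 hc 0 hj, slash_smul, wj_zero_S, e2, ch_neg]
  · intro hd j hj
    rw [e1] at hd hj
    rw [e2] at hj
    by_cases hc : (5 : ℤ) ∣ γ 1 0
    · rw [SlashAction.slash_mul, h1 hc, slash_smul, fa_S, e1]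
      congr 1
      refine wj_congr_fa ?_
      have h5 : (5 : ℤ) ∣ j * γ 1 1 := by
        have h6 : j * γ 1 1 ≡ 0 [ZMOD 5] :=
          hj.trans ((Int.modEq_zero_iff_dvd).2 ((dvd_neg).2 hc))
        exact (Int.modEq_zero_iff_dvd).1 h6
      rcases five_prime.dvd_or_dvd h5 with h7 | h7
      · exact ((Int.modEq_zero_iff_dvd).2 h7).symm
      · exact absurd h7 hd
    · have hc4 : (γ 1 0) ^ 4 ≡ 1 [ZMOD 5] := by
        have hcop : IsCoprime (γ 1 0) ((5 : ℕ) : ℤ) := by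
          rw [isCoprime_comm]
          refine (Int.isCoprime_iff_gcd_eq_one).2 ?_
          have := (Int.isCoprime_iff_gcd_eq_one (m := 5) (n := γ 1 0)).1
            ((five_prime.coprime_iff_not_dvd).2 hc)
          exact_mod_cast this
        have := Int.ModEq.pow_card_sub_one_eq_one (p := 5) (by norm_num) hcop
        simpa using this
      set c := γ 1 0 with hcdef
      set d := γ 1 1 with hddef
      have hk : (c ^ 3 * d) * c ≡ d [ZMOD 5] := by
        have := hc4.mul_right d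
        have e3 : (c ^ 3 * d) * c = c ^ 4 * d := by ring
        rw [e3]
        simpa using this
      have hkj : (c ^ 3 * d) * j ≡ -1 [ZMOD 5] := by
        have h8 := hj.mul_left (c ^ 3)
        have e3 : (c ^ 3 * d) * j = c ^ 3 * (j * d) := by ring
        rw [e3]
        refine h8.trans ?_
        have e4 : c ^ 3 * -c = - c ^ 4 := by ring
        rw [e4]
        exact hc4.neg
      rw [SlashAction.slash_mul, h2 hc (c ^ 3 * d) hk, slash_smul, wj_S' _ j hkj, e1, smul_smul]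
      congr 1
      rw [← ch_mul]
      refine ch_congr ?_
      have e5 : c * (c ^ 3 * d) = (c ^ 3 * d) * c := by ring
      rw [e5]
      exact hk

private lemma S_inv : (ModularGroup.S)⁻¹ = ModularGroup.S * ModularGroup.S * ModularGroup.S := by
  rw [_root_.inv_eq_iff_mul_eq_one]
  apply Subtype.ext
  simp only [Matrix.SpecialLinearGroup.coe_mul, ModularGroup.coe_S,
    Matrix.SpecialLinearGroup.coe_one]
  decide

private lemma PP_all (γ : SL(2, ℤ)) : PP γ := by
  have hγ : γ ∈ Subgroup.closure {ModularGroup.S, ModularGroup.T} := by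
    rw [SpecialLinearGroup.SL2Z_generators]
    trivial
  refine Subgroup.closure_induction_right (p := fun γ _ => PP γ) PP_one ?_ ?_ hγ
  · intro x _ y hy hx
    rcases hy with rfl | hy
    · exact PP_S hx
    · rw [Set.mem_singleton_iff] at hy
      rw [hy]
      exact PP_T hx
  · intro x _ y hy hx
    rcases hy with rfl | hy
    · rw [S_inv, ← mul_assoc, ← mul_assoc]
      exact PP_S (PP_S (PP_S hx))
    · rw [Set.mem_singleton_iff] at hy
      rw [hy]
      exact PP_Tinv hx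

theorem fa_slash (γ : SL(2, ℤ)) (h : γ ∈ CongruenceSubgroup.Gamma0 5) :
    fa ∣[(2 : ℤ)] γ = fun z => ((jacobiSym (γ 1 1) 5 : ℤ) : ℂ) * fa z := by
  have h5 : (5 : ℤ) ∣ γ 1 0 := by
    rw [CongruenceSubgroup.Gamma0_mem] at h
    exact (ZMod.intCast_zmod_eq_zero_iff_dvd (γ 1 0) 5).1 h
  rw [(PP_all γ).1 h5, ← fun_smul]
  rfl

theorem fa_bdd (γ : SL(2, ℤ)) : IsBoundedAtImInfty (fa ∣[(2 : ℤ)] γ) := by
  by_cases hc : (5 : ℤ) ∣ γ 1 0
  · rw [(PP_all γ).1 hc]
    exact Filter.BoundedAtFilter.smul _ fa_bdd_infty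
  · have hc4 : (γ 1 0) ^ 4 ≡ 1 [ZMOD 5] := by
      have hcop : IsCoprime (γ 1 0) ((5 : ℕ) : ℤ) := by
        rw [isCoprime_comm]
        refine (Int.isCoprime_iff_gcd_eq_one).2 ?_
        have := (Int.isCoprime_iff_gcd_eq_one (m := 5) (n := γ 1 0)).1
          ((five_prime.coprime_iff_not_dvd).2 hc)
        exact_mod_cast this
      have := Int.ModEq.pow_card_sub_one_eq_one (p := 5) (by norm_num) hcop
      simpa using this
    have hk : ((γ 1 0) ^ 3 * γ 1 1) * γ 1 0 ≡ γ 1 1 [ZMOD 5] := by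
      have := hc4.mul_right (γ 1 1)
      have e3 : ((γ 1 0) ^ 3 * γ 1 1) * γ 1 0 = (γ 1 0) ^ 4 * γ 1 1 := by ring
      rw [e3]
      simpa using this
    rw [(PP_all γ).2 hc _ hk]
    exact Filter.BoundedAtFilter.smul _ (wj_bdd_infty _)

end Pool.Agent.B5
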