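import Pool.Agent.B5.TR

/-!
B5 / MO: operations on modular forms (structures MF and MF0).

`scale`: for gamma = (a b; c d) in Gamma1(N M), M (gamma z) = gamma' (M z) with gamma' = (a, M b; c/M, d) in Gamma1(N);
boundedness by `scale_slash` and `bdd_int`.
-/

set_option autoImplicit false

namespace Pool.Agent.B5

open PowerSeries UpperHalfPlane
open scoped MatrixGroups ModularForm Manifold

variable {N : ℕ} {k l : ℤ} {g g' : ℍ → ℂ}

theorem mo_bdd_mul {u v : ℍ → ℂ} (hu : IsBoundedAtImInfty u) (hv : IsBoundedAtImInfty v) :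
    IsBoundedAtImInfty (u * v) := Filter.BoundedAtFilter.mul hu hv

theorem MF.add (h : MF N k g) (h' : MF N k g') : MF N k (fun z => g z + g' z) := by
  have he : (fun z => g z + g' z) = g + g' := rfl
  rw [he]
  refine ⟨h.holo.add h'.holo, ?_, ?_⟩
  · intro γ hγ
    rw [SlashAction.add_slash, h.inv γ hγ, h'.inv γ hγ]
  · intro γ
    rw [SlashAction.add_slash]
    exact Filter.BoundedAtFilter.add (h.bdd γ) (h'.bdd γ)

theorem MF.mul (h : MF N k g) (h' : MF N l g') : MF N (k + l) (fun z => g z * g' z) := by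
  have he : (fun z => g z * g' z) = g * g' := rfl
  rw [he]
  refine ⟨h.holo.mul h'.holo, ?_, ?_⟩
  · intro γ hγ
    rw [ModularForm.mul_slash_SL2, h.inv γ hγ, h'.inv γ hγ]
  · intro γ
    rw [ModularForm.mul_slash_SL2]
    exact mo_bdd_mul (h.bdd γ) (h'.bdd γ)

theorem MF.const (N : ℕ) (a : ℂ) : MF N 0 (fun _ => a) := by
  have he : (fun _ : ℍ => a) = Function.const ℍ a := rfl
  rw [he]
  refine ⟨mdifferentiable_const, ?_, ?_⟩
  · intro γ _
    exact ModularForm.is_invariant_const γ a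
  · intro γ
    rw [ModularForm.is_invariant_const γ a]
    exact Filter.const_boundedAtFilter _ _

theorem MF.smul (h : MF N k g) (a : ℂ) : MF N k (fun z => a * g z) := by
  have := (MF.const N a).mul h
  rwa [zero_add] at this

theorem MF.pow (h : MF N k g) (n : ℕ) : MF N (n * k) (fun z => g z ^ n) := by
  induction n with
  | zero =>
    simp only [Nat.cast_zero, zero_mul, pow_zero]
    exact MF.const N 1
  | succ n ih =>
    have := ih.mul h
    have e1 : (n : ℤ) * k + k = ((n + 1 : ℕ) : ℤ) * k := by push_cast; ring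
    rw [e1] at this
    exact this

theorem MF.zero (N : ℕ) (k : ℤ) : MF N k (fun _ => 0) := by
  have he : (fun _ : ℍ => (0 : ℂ)) = 0 := rfl
  rw [he]
  refine ⟨mdifferentiable_const, ?_, ?_⟩
  · intro γ _
    exact SlashAction.zero_slash k γ
  · intro γ
    rw [SlashAction.zero_slash]
    exact zero_form_isBoundedAtImInfty

theorem MF.mono (h : MF N k g) {N' : ℕ} (hN : N ∣ N') : MF N' k g := by
  refine ⟨h.holo, ?_, h.bdd⟩
  intro γ hγ
  apply h.inv γ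
  rw [CongruenceSubgroup.Gamma1_mem] at hγ ⊢
  obtain ⟨h1, h2, h3⟩ := hγ
  have key : ∀ x y : ℤ, (x : ZMod N') = (y : ZMod N') → (x : ZMod N) = (y : ZMod N) := by
    intro x y hxy
    rw [ZMod.intCast_eq_intCast_iff_dvd_sub] at hxy ⊢
    exact (Int.natCast_dvd_natCast.mpr hN).trans hxy
  refine ⟨?_, ?_, ?_⟩
  · have := key _ 1 (by rw [h1]; simp)
    simpa using this
  · have := key _ 1 (by rw [h2]; simp)
    simpa using this
  · have := key _ 0 (by rw [h3]; simp)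
    simpa using this

/-- the conjugate of `γ` by the scaling -/
theorem scale_conj (h : ℍ → ℂ) (k : ℤ) (M : ℕ+) (γ : SL(2, ℤ)) (c' : ℤ) (hc : γ 1 0 = (M : ℕ) * c') :
    ∃ γ' : SL(2, ℤ), γ' 0 0 = γ 0 0 ∧ γ' 0 1 = (M : ℕ) * γ 0 1 ∧ γ' 1 0 = c' ∧ γ' 1 1 = γ 1 1 ∧
      ∀ z, ((fun z => h (sc M z)) ∣[k] γ) z = (h ∣[k] γ') (sc M z) := by
  have hdet : γ 0 0 * γ 1 1 - γ 0 1 * γ 1 0 = 1 := by
    have := γ.2
    rw [Matrix.det_fin_two] at this
    exact this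
  let γ' : SL(2, ℤ) := ⟨!![γ 0 0, (M : ℕ) * γ 0 1; c', γ 1 1], by
    rw [Matrix.det_fin_two_of]
    rw [hc] at hdet
    linarith [hdet]⟩
  have h00 : γ' 0 0 = γ 0 0 := rfl
  have h01 : γ' 0 1 = (M : ℕ) * γ 0 1 := rfl
  have h10 : γ' 1 0 = c' := rfl
  have h11 : γ' 1 1 = γ 1 1 := rfl
  refine ⟨γ', h00, h01, h10, h11, ?_⟩
  intro z
  have hM : ((M : ℕ) : ℂ) ≠ 0 := by exact_mod_cast M.pos.ne'
  have hsc : ((sc M z : ℍ) : ℂ) = ((M : ℕ) : ℂ) * (z : ℂ) := rfl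
  have hden : (denom γ' (sc M z) : ℂ) = denom γ z := by
    have e1 : (denom γ' (sc M z) : ℂ) = ((γ' 1 0 : ℤ) : ℂ) * ((sc M z : ℍ) : ℂ) + ((γ' 1 1 : ℤ) : ℂ) := by
      simp [denom]
    have e2 : (denom γ z : ℂ) = ((γ 1 0 : ℤ) : ℂ) * (z : ℂ) + ((γ 1 1 : ℤ) : ℂ) := by
      simp [denom]
    rw [e1, e2, h10, h11, hsc, hc]
    push_cast
    ring
  have hpt : sc M (γ • z) = γ' • sc M z := by
    apply UpperHalfPlane.ext
    have hsc2 : ((sc M (γ • z) : ℍ) : ℂ) = ((M : ℕ) : ℂ) * ((γ • z : ℍ) : ℂ) := rfl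
    rw [hsc2, coe_specialLinearGroup_apply, coe_specialLinearGroup_apply, h00, h01, h10, h11, hsc, hc]
    have d1 : ((algebraMap ℤ ℝ ((M : ℕ) * c') : ℝ) : ℂ) * (z : ℂ) + ((algebraMap ℤ ℝ (γ 1 1) : ℝ) : ℂ)
        = ((algebraMap ℤ ℝ c' : ℝ) : ℂ) * (((M : ℕ) : ℂ) * (z : ℂ)) +
          ((algebraMap ℤ ℝ (γ 1 1) : ℝ) : ℂ) := by
      simp only [algebraMap_int_eq, Int.coe_castRingHom]
      push_cast
      ring
    rw [d1, ← mul_div_assoc]
    congr 1
    simp only [algebraMap_int_eq, Int.coe_castRingHom]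
    push_cast
    ring
  rw [ModularForm.SL_slash_apply, ModularForm.SL_slash_apply, hden, hpt]

theorem scale_bdd {h : ℍ → ℂ} {k : ℤ} (hb : ∀ γ : SL(2, ℤ), IsBoundedAtImInfty (h ∣[k] γ))
    (M : ℕ+) (γ : SL(2, ℤ)) : IsBoundedAtImInfty ((fun z => h (sc M z)) ∣[k] γ) := by
  have hM : (0 : ℝ) < ((M : ℕ) : ℝ) := by exact_mod_cast M.pos
  have hne : ((M : ℕ) : ℝ) * 1 ≠ 0 := by simp
  have e1 : (fun z => h (sc M z)) =
      (((M : ℕ) : ℂ) ^ (1 - k)) • (h ∣[k] tri ((M : ℕ) : ℝ) 0 1 hne) := by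
    rw [scale_slash h k M]
    rfl
  rw [e1, ModularForm.SL_smul_slash, ModularForm.SL_slash, ← SlashAction.slash_mul]
  apply Filter.BoundedAtFilter.smul
  apply bdd_int hb _ (!![((M : ℕ) : ℤ), 0; 0, 1] * (γ : Matrix (Fin 2) (Fin 2) ℤ))
  · intro i j
    have h1 : ((tri ((M : ℕ) : ℝ) 0 1 hne * (γ : GL (Fin 2) ℝ) : GL (Fin 2) ℝ) :
        Matrix (Fin 2) (Fin 2) ℝ) = !![((M : ℕ) : ℝ), 0; 0, 1] *
        ((γ : Matrix (Fin 2) (Fin 2) ℤ).map (algebraMap ℤ ℝ)) := rfl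
    rw [h1]
    fin_cases i <;> fin_cases j <;> simp [Matrix.mul_apply, Fin.sum_univ_two]
  · rw [Matrix.det_mul, γ.2, Matrix.det_fin_two_of]
    simp

theorem scale_mdiff {h : ℍ → ℂ} (hh : MDiff h) (M : ℕ+) : MDiff (fun z => h (sc M z)) := by
  have hne : ((M : ℕ) : ℝ) * 1 ≠ 0 := by simp
  have e1 : (fun z => h (sc M z)) =
      fun z => (((M : ℕ) : ℂ) ^ (1 - (1 : ℤ))) • (h ∣[(1 : ℤ)] tri ((M : ℕ) : ℝ) 0 1 hne) z := by
    rw [scale_slash h 1 M]
    rfl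
  rw [e1]
  simp only [sub_self, zpow_zero, one_smul]
  exact MDifferentiable.slash hh 1 _

theorem MF.scale (h : MF N k g) (M : ℕ+) : MF (N * M) k (fun z => g (sc M z)) := by
  refine ⟨scale_mdiff h.holo M, ?_, scale_bdd h.bdd M⟩
  intro γ hγ
  rw [CongruenceSubgroup.Gamma1_mem] at hγ
  obtain ⟨h1, h2, h3⟩ := hγ
  have key : ∀ x y : ℤ, (x : ZMod (N * M)) = (y : ZMod (N * M)) → (x : ZMod N) = (y : ZMod N) := by
    intro x y hxy
    rw [ZMod.intCast_eq_intCast_iff_dvd_sub] at hxy ⊢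
    exact (Int.natCast_dvd_natCast.mpr (Dvd.intro _ rfl)).trans hxy
  rw [ZMod.intCast_zmod_eq_zero_iff_dvd] at h3
  obtain ⟨c0, hc0⟩ := h3
  have hc : γ 1 0 = (M : ℕ) * ((N : ℤ) * c0) := by
    rw [hc0]
    push_cast
    ring
  obtain ⟨γ', g00, g01, g10, g11, hs⟩ := scale_conj g k M γ _ hc
  have hmem : γ' ∈ CongruenceSubgroup.Gamma1 N := by
    rw [CongruenceSubgroup.Gamma1_mem, g00, g11, g10]
    refine ⟨?_, ?_, ?_⟩
    · have := key _ 1 (by rw [h1]; simp)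
      simpa using this
    · have := key _ 1 (by rw [h2]; simp)
      simpa using this
    · simp
  funext z
  rw [hs z, h.inv γ' hmem]

end Pool.Agent.B5
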