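import Pool.Agent.B5.QC

/-!
B5 / QD: analysis of q-expansions (`HasQ g c` : for all z, g z is the sum of c n * q^n).
-/

set_option autoImplicit false

namespace Pool.Agent.B5

open PowerSeries UpperHalfPlane Filter
open scoped MatrixGroups ModularForm Manifold Topology Nat

variable {g g' : ℍ → ℂ} {c c' : ℂ⟦X⟧}

private theorem qd_qq (z : ℍ) : qq z = Function.Periodic.qParam 1 z := by
  simp [qq, Function.Periodic.qParam]

private theorem qd_qq_ne (z : ℍ) : qq z ≠ 0 := Complex.exp_ne_zero _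

private theorem qd_qq_lt (z : ℍ) : ‖qq z‖ < 1 := by
  rw [qd_qq]
  exact Function.Periodic.norm_qParam_lt_one one_pos z.im_pos

private theorem qd_qq_mem (z : ℍ) : qq z ∈ Metric.ball (0 : ℂ) 1 := by
  rw [mem_ball_zero_iff]
  exact qd_qq_lt z

private theorem qd_qq_tendsto : Tendsto qq atImInfty (𝓝 0) := by
  have h := qParam_tendsto_atImInfty (h := 1) one_pos
  refine h.congr fun z => ?_
  exact (qd_qq z).symm

private theorem qd_smul (h : HasQ g c) (z : ℍ) :
    HasSum (fun n : ℕ => (PowerSeries.coeff n c) • Function.Periodic.qParam 1 (z : ℂ) ^ n) (g z) := by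
  have h1 := h z
  rw [qd_qq] at h1
  simpa [smul_eq_mul] using h1

private theorem qd_comp {G : ℂ → ℂ} (hg : ∀ z, g z = G (qq z)) {w : ℂ} (hw : 0 < w.im) :
    (g ∘ ofComplex) w = G (Complex.exp (2 * Real.pi * Complex.I * w)) := by
  simp only [Function.comp_apply]
  rw [ofComplex_apply_of_im_pos hw, hg]
  rfl

theorem HasQ.mdiff (h : HasQ g c) : MDiff g := by
  obtain ⟨G, hG, -, hg⟩ := h.exists_disc
  rw [UpperHalfPlane.mdifferentiable_iff]
  have h1 : DifferentiableOn ℂ (fun w : ℂ => G (Complex.exp (2 * Real.pi * Complex.I * w)))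
      {z | 0 < z.im} := by
    intro w hw
    have hm : Complex.exp (2 * Real.pi * Complex.I * w) ∈ Metric.ball (0 : ℂ) 1 :=
      qd_qq_mem ⟨w, hw⟩
    have h2 : DifferentiableAt ℂ G (Complex.exp (2 * Real.pi * Complex.I * w)) :=
      (hG _ hm).differentiableAt (Metric.isOpen_ball.mem_nhds hm)
    exact (h2.comp w (by fun_prop)).differentiableWithinAt
  exact h1.congr fun w hw => qd_comp hg hw

theorem HasQ.bdd (h : HasQ g c) : IsBoundedAtImInfty g :=
  isBoundedAtImInfty_of_hasSum_qExpansion (h := 1) one_pos (qd_smul h)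

theorem HasQ.deriv (h : HasQ g c) : HasQ (Derivative.normalizedDerivOfComplex g)
    (PowerSeries.mk fun n => (n : ℂ) * PowerSeries.coeff n c) := by
  obtain ⟨G, hG, -, hg⟩ := h.exists_disc
  have ht : HasQ g (PowerSeries.mk fun n => ((n ! : ℂ))⁻¹ * iteratedDeriv n G 0) := by
    intro z
    have h1 := Complex.hasSum_taylorSeries_on_ball hG (qd_qq_mem z)
    rw [hg]
    have e : (fun n : ℕ => PowerSeries.coeff n
        (PowerSeries.mk fun n => ((n ! : ℂ))⁻¹ * iteratedDeriv n G 0) * qq z ^ n) =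
        fun n : ℕ => (n ! : ℂ)⁻¹ • (qq z - 0) ^ n • iteratedDeriv n G 0 := by
      funext n
      rw [PowerSeries.coeff_mk, sub_zero, smul_eq_mul, smul_eq_mul]
      ring
    rw [e]
    exact h1
  have hc : c = PowerSeries.mk fun n => ((n ! : ℂ))⁻¹ * iteratedDeriv n G 0 := h.unique ht
  have hcn : ∀ n, PowerSeries.coeff n c = ((n ! : ℂ))⁻¹ * iteratedDeriv n G 0 := by
    intro n
    rw [hc, PowerSeries.coeff_mk]
  have hG' : DifferentiableOn ℂ (_root_.deriv G) (Metric.ball 0 1) := hG.deriv Metric.isOpen_ball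
  intro z
  have hm := qd_qq_mem z
  have hval : Derivative.normalizedDerivOfComplex g z = qq z * _root_.deriv G (qq z) := by
    have h2 : HasDerivAt G (_root_.deriv G (qq z)) (qq z) :=
      ((hG _ hm).differentiableAt (Metric.isOpen_ball.mem_nhds hm)).hasDerivAt
    have h3 : HasDerivAt (fun w : ℂ => Complex.exp (2 * Real.pi * Complex.I * w))
        (Complex.exp (2 * Real.pi * Complex.I * (z : ℂ)) * (2 * Real.pi * Complex.I)) (z : ℂ) := by
      have h4 : HasDerivAt (fun w : ℂ => 2 * Real.pi * Complex.I * w) (2 * Real.pi * Complex.I)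
          (z : ℂ) := by
        simpa using (hasDerivAt_id (z : ℂ)).const_mul (2 * Real.pi * Complex.I : ℂ)
      exact h4.cexp
    have h5 : HasDerivAt (fun w : ℂ => G (Complex.exp (2 * Real.pi * Complex.I * w)))
        (_root_.deriv G (qq z) * (qq z * (2 * Real.pi * Complex.I))) (z : ℂ) :=
      HasDerivAt.comp (z : ℂ) h2 h3
    have h6 : (g ∘ ofComplex) =ᶠ[𝓝 (z : ℂ)]
        (fun w : ℂ => G (Complex.exp (2 * Real.pi * Complex.I * w))) := by
      filter_upwards [isOpen_upperHalfPlaneSet.mem_nhds z.im_pos] with w hw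
      exact qd_comp hg hw
    rw [Derivative.normalizedDerivOfComplex, (h5.congr_of_eventuallyEq h6).deriv]
    have h7 : (2 * (Real.pi : ℂ) * Complex.I) ≠ 0 := Complex.two_pi_I_ne_zero
    field_simp
  have h1 := Complex.hasSum_taylorSeries_on_ball hG' hm
  have h2 := h1.mul_left (qq z)
  rw [← hval] at h2
  have h3 : HasSum (fun n : ℕ => ((n + 1 : ℕ) : ℂ) * PowerSeries.coeff (n + 1) c *
      qq z ^ (n + 1)) (Derivative.normalizedDerivOfComplex g z) := by
    have e : (fun n : ℕ => ((n + 1 : ℕ) : ℂ) * PowerSeries.coeff (n + 1) c * qq z ^ (n + 1)) =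
        fun n : ℕ => qq z * (n ! : ℂ)⁻¹ • (qq z - 0) ^ n • iteratedDeriv n (_root_.deriv G) 0 := by
      funext n
      rw [hcn, sub_zero, smul_eq_mul, smul_eq_mul, ← iteratedDeriv_succ', Nat.factorial_succ]
      have h4 : ((n ! : ℕ) : ℂ) ≠ 0 := by exact_mod_cast Nat.factorial_ne_zero n
      have h5 : ((n + 1 : ℕ) : ℂ) ≠ 0 := by exact_mod_cast Nat.succ_ne_zero n
      push_cast at h5 ⊢
      field_simp
      ring
    rw [e]
    exact h2
  have h4 := (hasSum_nat_add_iff (f := fun n : ℕ => (n : ℂ) * PowerSeries.coeff n c * qq z ^ n)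
    1).1 h3
  simpa using h4

private theorem qd_periodic (h : ∀ z w : ℍ, (w : ℂ) = z + 1 → g w = g z) :
    Function.Periodic (g ∘ ofComplex) ((1 : ℝ) : ℂ) := by
  intro w
  by_cases hw : 0 < w.im
  · have h1 : 0 < (w + ((1 : ℝ) : ℂ)).im := by simpa using hw
    simp only [Function.comp_apply, ofComplex_apply_of_im_pos h1, ofComplex_apply_of_im_pos hw]
    apply h
    simp
  · have h1 : (w + ((1 : ℝ) : ℂ)).im ≤ 0 := by simpa using hw
    have h2 : w.im ≤ 0 := not_lt.1 hw
    simp only [Function.comp_apply]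
    rw [ofComplex_apply_of_im_nonpos h1, ofComplex_apply_of_im_nonpos h2]

private theorem qd_qq_shift {z w : ℍ} (h : (w : ℂ) = z + 1) : qq w = qq z := by
  simp only [qq]
  rw [h, mul_add, Complex.exp_add, mul_one, Complex.exp_two_pi_mul_I, mul_one]

private theorem qd_of (hp : ∀ z w : ℍ, (w : ℂ) = z + 1 → g w = g z) (hm : MDiff g)
    (hb : IsBoundedAtImInfty g) : HasQ g (qExpansion 1 g) := by
  intro z
  have h := hasSum_qExpansion (h := 1) one_pos (qd_periodic hp) hm hb z
  rw [qd_qq]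
  simpa [smul_eq_mul] using h

private theorem qd_T {k : ℤ} (h : g ∣[k] ModularGroup.T = g) (z w : ℍ) (hw : (w : ℂ) = z + 1) :
    g w = g z := by
  have h1 := congrFun h z
  rw [ModularForm.SL_slash_apply] at h1
  have h2 : ModularGroup.T • z = w := by
    apply UpperHalfPlane.ext
    have h3 := ModularGroup.coe_T_zpow_smul_eq (z := z) (n := 1)
    rw [zpow_one] at h3
    rw [h3, hw]
    simp
  have h3 : denom ((ModularGroup.T : SL(2, ℤ)) : GL (Fin 2) ℝ) z = 1 := by
    simp [ModularGroup.T, UpperHalfPlane.denom]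
  rw [h2, h3, one_zpow, mul_one] at h1
  exact h1

theorem HasQ.ofMF {N : ℕ} {k : ℤ} (h : MF N k g) : ∃ c : ℂ⟦X⟧, HasQ g c := by
  have hT : ModularGroup.T ∈ CongruenceSubgroup.Gamma1 N := by
    simp [CongruenceSubgroup.Gamma1_mem, ModularGroup.T]
  have hb := h.bdd 1
  rw [SlashAction.slash_one] at hb
  exact ⟨_, qd_of (qd_T (h.inv _ hT)) h.holo hb⟩

theorem HasQ.ofMF0 {k : ℤ} (h : MF0 k g) : ∃ c : ℂ⟦X⟧, HasQ g c := by
  have hT : ModularGroup.T ∈ CongruenceSubgroup.Gamma0 5 := by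
    simp [CongruenceSubgroup.Gamma0_mem, ModularGroup.T]
  have hb := h.bdd 1
  rw [SlashAction.slash_one] at hb
  exact ⟨_, qd_of (qd_T (h.inv _ hT)) h.holo hb⟩

theorem HasQ.qExpansion_eq (h : HasQ g c) : qExpansion 1 g = c := by
  refine HasQ.unique (g := g) (qd_of (fun z w hw => ?_) h.mdiff h.bdd) h
  have h1 := h w
  rw [qd_qq_shift hw] at h1
  exact h1.unique (h z)

private theorem qd_shift (h : HasQ g c) (B : ℕ) (hc : ∀ n < B, PowerSeries.coeff n c = 0) :
    HasQ (fun z => g z / qq z ^ B) (PowerSeries.mk fun n => PowerSeries.coeff (n + B) c) := by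
  intro z
  have h1 := (hasSum_nat_add_iff (f := fun n : ℕ => PowerSeries.coeff n c * qq z ^ n)
    (g := g z - ∑ i ∈ Finset.range B, PowerSeries.coeff i c * qq z ^ i) B).2
      (by rw [sub_add_cancel]; exact h z)
  have h2 : ∑ i ∈ Finset.range B, PowerSeries.coeff i c * qq z ^ i = 0 :=
    Finset.sum_eq_zero fun i hi => by rw [hc i (Finset.mem_range.1 hi), zero_mul]
  rw [h2, sub_zero] at h1
  have h3 := h1.div_const (qq z ^ B)
  have e : (fun n : ℕ => PowerSeries.coeff n (PowerSeries.mk fun n => PowerSeries.coeff (n + B) c) *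
      qq z ^ n) = fun n : ℕ => PowerSeries.coeff (n + B) c * qq z ^ (n + B) / qq z ^ B := by
    funext n
    rw [PowerSeries.coeff_mk, pow_add]
    have h4 : qq z ^ B ≠ 0 := pow_ne_zero _ (qd_qq_ne z)
    field_simp
  rw [e]
  exact h3

/-- if the coefficients below B vanish then g is q ^ B times a bounded function -/
theorem HasQ.factor (h : HasQ g c) (B : ℕ) (hc : ∀ n < B, PowerSeries.coeff n c = 0) :
    ∃ u : ℍ → ℂ, IsBoundedAtImInfty u ∧ ∀ z, g z = qq z ^ B * u z := by
  refine ⟨_, (qd_shift h B hc).bdd, fun z => ?_⟩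
  have h4 : qq z ^ B ≠ 0 := pow_ne_zero _ (qd_qq_ne z)
  field_simp

private theorem qd_tendsto (h : HasQ g c) : Tendsto g atImInfty (𝓝 (PowerSeries.coeff 0 c)) := by
  obtain ⟨G, hG, hs, hg⟩ := h.exists_disc
  have h0 : (0 : ℂ) ∈ Metric.ball (0 : ℂ) 1 := Metric.mem_ball_self one_pos
  have h1 : G 0 = PowerSeries.coeff 0 c := by
    have h2 := hs 0 h0
    have h3 : HasSum (fun n : ℕ => PowerSeries.coeff n c * (0 : ℂ) ^ n)
        (PowerSeries.coeff 0 c * (0 : ℂ) ^ 0) :=
      hasSum_single 0 fun n hn => by rw [zero_pow hn, mul_zero]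
    rw [pow_zero, mul_one] at h3
    exact h2.unique h3
  have h2 : ContinuousAt G 0 :=
    ((hG 0 h0).differentiableAt (Metric.isOpen_ball.mem_nhds h0)).continuousAt
  have h3 := h2.tendsto.comp qd_qq_tendsto
  rw [h1] at h3
  refine h3.congr fun z => ?_
  exact (hg z).symm

theorem HasQ.decay (h : HasQ g c) (B : ℕ) (u : ℍ → ℂ) (hu : IsBoundedAtImInfty u)
    (hg : ∀ z, g z = qq z ^ B * u z) (n : ℕ) (hn : n < B) : PowerSeries.coeff n c = 0 := by
  induction n using Nat.strong_induction_on with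
  | _ n ih =>
    have hc : ∀ k < n, PowerSeries.coeff k c = 0 := fun k hk => ih k hk (hk.trans hn)
    have h1 := qd_tendsto (qd_shift h n hc)
    rw [PowerSeries.coeff_mk, zero_add] at h1
    have h2 : (fun z => g z / qq z ^ n) = fun z => qq z ^ (B - n) * u z := by
      funext z
      have h4 : qq z ^ n ≠ 0 := pow_ne_zero _ (qd_qq_ne z)
      rw [hg, div_eq_iff h4]
      have h5 : qq z ^ B = qq z ^ (B - n) * qq z ^ n := by
        rw [← pow_add, Nat.sub_add_cancel hn.le]
      rw [h5]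
      ring
    rw [h2] at h1
    have h3 : Tendsto (fun z => qq z ^ (B - n)) atImInfty (𝓝 0) := by
      have h4 := qd_qq_tendsto.pow (B - n)
      rwa [zero_pow (Nat.sub_ne_zero_of_lt hn)] at h4
    have h4 : (fun z => qq z ^ (B - n)) =o[atImInfty] (fun _ => (1 : ℝ)) :=
      (Asymptotics.isLittleO_one_iff ℝ).2 h3
    have h5 : u =O[atImInfty] (fun _ => (1 : ℝ)) := hu
    have h6 := h4.mul_isBigO h5
    have h7 : Tendsto (fun z => qq z ^ (B - n) * u z) atImInfty (𝓝 0) := by
      rw [← Asymptotics.isLittleO_one_iff ℝ]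
      simpa using h6
    exact tendsto_nhds_unique h1 h7

end Pool.Agent.B5
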