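import Pool.Agent.B5.EQ1
import Pool.Agent.B5.QD
import Pool.Agent.B5.MO

/-!
B5 / FA1: the five functions w_j = -sqrt 5 * eta(z+j)^5 / eta((z+j)/5) and fa under S and T (all verified numerically).

eta(z+1) = exp(2 pi i/24) eta(z) gives wj (j+5) = wj j (25 - 1 = 24). eta(-1/z) = sqrt(z/i) eta(z) gives
fa | S = w_0 (weight 2): (z/i)^(5/2) / (z/(5i))^(1/2) = (z/i)^2 sqrt 5 (principal branches, real part of z/i positive).
w_0 | S = fa | S^2 = fa | (-1) = fa.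
For j j' = -1 mod 5: w_j | S = c_j w_{j'} with a constant c_j: indeed
w_j^24 = 5^12 Delta^5 / Delta((z+j)/5) (Delta = eta^24, `ModularForm.discriminant`), and Delta((z+j)/5) = const * Delta |_12 (1 j; 0 5), while
(1 j; 0 5) S = (j -1; 5 0) = gamma (1 j'; 0 5) with gamma in SL(2,Z); so (w_j | S)^24 = w_{j'}^24; the quotient is continuous on
the (connected) upper half-plane with 24-th power 1, so constant.
Constants: for j = 2, 3 (mod 5) we may take j' = j, and evaluation at z = i gives c_j = i^(-2) = -1 = chi(j) (w_j has no zeros).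
For j = 1: j' = 4, and fa | (S T)^3 = fa | (-1) = fa gives c_1 = 1:
fa|S = w_0, |T = w_1, |S = c_1 w_4, |T = c_1 w_5 = c_1 w_0, |S = c_1 fa, |T = c_1 fa. Then c_4 = 1 from S^2 = -1.
Boundedness: w_j = const * q^((5 - 1/5)/24) * (1 + ...) in terms of q^(1/5), fa = 1 + ....
-/

set_option autoImplicit false

namespace Pool.Agent.B5

open PowerSeries UpperHalfPlane
open scoped MatrixGroups ModularForm Manifold

theorem mdiff_div {f g : ℍ → ℂ} (hf : MDiff f) (hg : MDiff g) (h0 : ∀ z, g z ≠ 0) :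
    MDiff (fun z => f z / g z) := by
  rw [UpperHalfPlane.mdifferentiable_iff] at hf hg ⊢
  exact hf.div hg (fun z _ => h0 _)

theorem mdiff_of_differentiable {F : ℂ → ℂ} (hF : ∀ z : ℂ, 0 < z.im → DifferentiableAt ℂ F z) :
    MDiff (fun z : ℍ => F z) := by
  rw [UpperHalfPlane.mdifferentiable_iff]
  intro z hz
  refine ((hF z hz).congr_of_eventuallyEq ?_).differentiableWithinAt
  filter_upwards [isOpen_upperHalfPlaneSet.mem_nhds hz] with w hw
  simp [Function.comp, UpperHalfPlane.ofComplex_apply_of_im_pos hw]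

theorem fa_mdiff : MDiff fa := by
  have h5 : MDiff (fun z : ℍ => ModularForm.eta (sc 5 z)) :=
    scale_mdiff (h := fun z : ℍ => ModularForm.eta z) eta_mdiff 5
  exact mdiff_div (eta_mdiff.pow 5) h5 (fun z => eta_ne_zero' (sc 5 z))

theorem eta_shift_ne (j : ℤ) (z : ℍ) : ModularForm.eta ((z : ℂ) + j) ≠ 0 := by
  apply ModularForm.eta_ne_zero
  show 0 < ((z : ℂ) + j).im
  simpa using z.im_pos

theorem wj_ne_zero (j : ℤ) (z : ℍ) : wj j z ≠ 0 := by
  unfold wj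
  refine div_ne_zero (mul_ne_zero ?_ (pow_ne_zero _ (eta_shift_ne j z))) (eta_ne_zero' (dv j z))
  rw [neg_ne_zero]
  norm_num

theorem wj_mdiff (j : ℤ) : MDiff (wj j) := by
  have h1 : MDiff (fun z : ℍ => ModularForm.eta ((z : ℂ) + j)) := by
    apply mdiff_of_differentiable (F := fun z => ModularForm.eta (z + j))
    intro z hz
    have hd : DifferentiableAt ℂ ModularForm.eta (z + j) := by
      apply ModularForm.differentiableAt_eta_of_mem_upperHalfPlaneSet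
      show 0 < (z + (j : ℂ)).im
      simpa using hz
    exact DifferentiableAt.comp (g := ModularForm.eta) (f := fun z => z + (j : ℂ)) z hd (by fun_prop)
  have h2 : MDiff (fun z : ℍ => ModularForm.eta (dv j z)) := by
    apply mdiff_of_differentiable (F := fun z => ModularForm.eta ((z + j) / 5))
    intro z hz
    have hd : DifferentiableAt ℂ ModularForm.eta ((z + j) / 5) := by
      apply ModularForm.differentiableAt_eta_of_mem_upperHalfPlaneSet
      show 0 < ((z + (j : ℂ)) / 5).im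
      have := (dv j ⟨z, hz⟩).im_pos
      exact this
    exact DifferentiableAt.comp (g := ModularForm.eta) (f := fun z => (z + (j : ℂ)) / 5) z hd
      (by fun_prop)
  have h3 : MDiff (fun z : ℍ => -(Real.sqrt 5 : ℂ) * ModularForm.eta ((z : ℂ) + j) ^ 5) :=
    mdifferentiable_const.mul (h1.pow 5)
  exact mdiff_div h3 h2 (fun z => eta_ne_zero' (dv j z))

theorem eta_add_nat (n : ℕ) (z : ℂ) :
    ModularForm.eta (z + n) = Complex.exp (2 * Real.pi * Complex.I / 24) ^ n * ModularForm.eta z := by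
  induction n with
  | zero => simp
  | succ n ih =>
    have : z + ((n + 1 : ℕ) : ℂ) = (z + n) + 1 := by push_cast; ring
    rw [this, eta_add_one, ih]
    ring

theorem zeta24 : Complex.exp (2 * Real.pi * Complex.I / 24) ^ 24 = 1 := by
  rw [← Complex.exp_nat_mul]
  have : ((24 : ℕ) : ℂ) * (2 * Real.pi * Complex.I / 24) = 2 * Real.pi * Complex.I := by
    push_cast
    ring
  rw [this, Complex.exp_two_pi_mul_I]

theorem wj_add_five (j : ℤ) : wj (j + 5) = wj j := by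
  funext z
  unfold wj
  have e1 : (z : ℂ) + ((j + 5 : ℤ) : ℂ) = ((z : ℂ) + j) + ((5 : ℕ) : ℂ) := by push_cast; ring
  have e2 : ((dv (j + 5) z : ℍ) : ℂ) = ((dv j z : ℍ) : ℂ) + 1 := by
    show ((z : ℂ) + ((j + 5 : ℤ) : ℂ)) / 5 = ((z : ℂ) + j) / 5 + 1
    push_cast
    ring
  rw [e1, e2, eta_add_nat, eta_add_one]
  have hz := zeta24
  set ζ := Complex.exp (2 * Real.pi * Complex.I / 24) with hζ
  have hζ0 : ζ ≠ 0 := Complex.exp_ne_zero _
  have hn := eta_ne_zero' (dv j z)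
  have h25 : (ζ ^ 5) ^ 5 = ζ := by
    calc (ζ ^ 5) ^ 5 = ζ ^ 24 * ζ := by ring
      _ = ζ := by rw [hz, one_mul]
  rw [mul_pow, h25]
  field_simp

theorem T_apply (f : ℍ → ℂ) (k : ℤ) (z : ℍ) : (f ∣[k] ModularGroup.T) z = f ((1 : ℝ) +ᵥ z) := by
  rw [ModularForm.SL_slash_apply, modular_T_smul]
  simp [denom, ModularGroup.T]

theorem S_apply (f : ℍ → ℂ) (k : ℤ) (z : ℍ) :
    (f ∣[k] ModularGroup.S) z = f (ModularGroup.S • z) * (z : ℂ) ^ (-k) := by
  rw [ModularForm.SL_slash_apply]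
  simp [denom, ModularGroup.S]

theorem S_coe (z : ℍ) : ((ModularGroup.S • z : ℍ) : ℂ) = -(z : ℂ)⁻¹ := by
  rw [modular_S_smul]
  show (-(z : ℂ))⁻¹ = -(z : ℂ)⁻¹
  rw [inv_neg]

theorem fa_T : fa ∣[(2 : ℤ)] ModularGroup.T = fa := by
  funext z
  rw [T_apply]
  unfold fa
  have e1 : (((1 : ℝ) +ᵥ z : ℍ) : ℂ) = (z : ℂ) + 1 := by
    rw [coe_vadd]
    push_cast
    ring
  have e2 : ((sc 5 ((1 : ℝ) +ᵥ z) : ℍ) : ℂ) = ((sc 5 z : ℍ) : ℂ) + ((5 : ℕ) : ℂ) := by
    show ((5 : ℕ+) : ℂ) * (((1 : ℝ) +ᵥ z : ℍ) : ℂ) = ((5 : ℕ+) : ℂ) * (z : ℂ) + ((5 : ℕ) : ℂ)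
    rw [e1]
    have : (((5 : ℕ+) : ℕ) : ℂ) = 5 := rfl
    rw [this]
    push_cast
    ring
  rw [e1, e2, eta_add_one, eta_add_nat]
  set ζ := Complex.exp (2 * Real.pi * Complex.I / 24) with hζ
  have hζ0 : ζ ≠ 0 := Complex.exp_ne_zero _
  have hn := eta_ne_zero' (sc 5 z)
  rw [mul_pow]
  field_simp

theorem wj_T (j : ℤ) : wj j ∣[(2 : ℤ)] ModularGroup.T = wj (j + 1) := by
  funext z
  rw [T_apply]
  unfold wj
  have e1 : (((1 : ℝ) +ᵥ z : ℍ) : ℂ) = (z : ℂ) + 1 := by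
    rw [coe_vadd]
    push_cast
    ring
  have e2 : (dv j ((1 : ℝ) +ᵥ z) : ℍ) = dv (j + 1) z := by
    apply UpperHalfPlane.ext
    show ((((1 : ℝ) +ᵥ z : ℍ) : ℂ) + j) / 5 = ((z : ℂ) + ((j + 1 : ℤ) : ℂ)) / 5
    rw [e1]
    push_cast
    ring
  rw [e1, e2]
  have e3 : (z : ℂ) + 1 + j = (z : ℂ) + ((j + 1 : ℤ) : ℂ) := by
    push_cast
    ring
  rw [e3]

theorem fa_S : fa ∣[(2 : ℤ)] ModularGroup.S = wj 0 := by
  funext z
  rw [S_apply]
  unfold fa wj
  have hz0 : (z : ℂ) ≠ 0 := z.ne_zero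
  have e1 : ((sc 5 (ModularGroup.S • z) : ℍ) : ℂ) = -((dv 0 z : ℍ) : ℂ)⁻¹ := by
    show ((5 : ℕ+) : ℂ) * ((ModularGroup.S • z : ℍ) : ℂ) = -(((z : ℂ) + ((0 : ℤ) : ℂ)) / 5)⁻¹
    rw [S_coe]
    have : (((5 : ℕ+) : ℕ) : ℂ) = 5 := rfl
    rw [this]
    push_cast
    rw [add_zero]
    field_simp
  have e2 : (z : ℂ) + ((0 : ℤ) : ℂ) = z := by simp
  have e3 : ((dv 0 z : ℍ) : ℂ) / Complex.I = ((1 / 5 : ℝ) : ℂ) * ((z : ℂ) / Complex.I) := by
    show (((z : ℂ) + ((0 : ℤ) : ℂ)) / 5) / Complex.I = _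
    push_cast
    ring
  have hI : (z : ℂ) / Complex.I ≠ 0 := div_ne_zero hz0 Complex.I_ne_zero
  rw [e1, S_coe, eta_neg_inv, eta_neg_inv, e2, e3,
    Complex.log_ofReal_mul (by norm_num : (0 : ℝ) < 1 / 5) hI]
  set L := Complex.log ((z : ℂ) / Complex.I) with hL
  have hn := eta_ne_zero' (dv 0 z)
  have hx1 : Complex.exp (L / 2) ^ 5 = Complex.exp L ^ 2 * Complex.exp (L / 2) := by
    rw [← Complex.exp_nat_mul, ← Complex.exp_nat_mul, ← Complex.exp_add]
    congr 1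
    push_cast
    ring
  have hx2 : Complex.exp (((Real.log (1 / 5) : ℝ) + L) / 2) =
      ((Real.sqrt 5 : ℝ) : ℂ)⁻¹ * Complex.exp (L / 2) := by
    rw [add_div, Complex.exp_add]
    congr 1
    have h5 : ((Real.log (1 / 5) : ℝ) : ℂ) / 2 = ((-(Real.log 5 / 2) : ℝ) : ℂ) := by
      rw [one_div, Real.log_inv]
      push_cast
      ring
    rw [h5, ← Complex.ofReal_exp, Real.exp_neg]
    have h6 : Real.exp (Real.log 5 / 2) = Real.sqrt 5 := by
      rw [← Real.log_sqrt (by norm_num), Real.exp_log (by positivity)]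
    rw [h6]
    push_cast
    rfl
  have hE : Complex.exp L = (z : ℂ) / Complex.I := Complex.exp_log hI
  have hs5 : ((Real.sqrt 5 : ℝ) : ℂ) ≠ 0 := by
    norm_num
  have hEn : Complex.exp (L / 2) ≠ 0 := Complex.exp_ne_zero _
  rw [mul_pow, hx1, hx2, hE, div_pow, Complex.I_sq, zpow_neg]
  have hz2 : (z : ℂ) ^ (2 : ℤ) = (z : ℂ) ^ 2 := by norm_cast
  rw [hz2]
  field_simp

theorem slash_neg_one (f : ℍ → ℂ) : f ∣[(2 : ℤ)] (-1 : SL(2, ℤ)) = f := by
  funext z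
  rw [ModularForm.SL_slash_apply]
  have h1 : (-1 : SL(2, ℤ)) • z = z := by
    rw [ModularGroup.SL_neg_smul, one_smul]
  rw [h1]
  simp [denom]

theorem S_mul_S : ModularGroup.S * ModularGroup.S = (-1 : SL(2, ℤ)) := by
  ext i j
  fin_cases i <;> fin_cases j <;> simp [ModularGroup.S, Matrix.mul_apply, Fin.sum_univ_two]

theorem wj_zero_S : wj 0 ∣[(2 : ℤ)] ModularGroup.S = fa := by
  rw [← fa_S, ← SlashAction.slash_mul, S_mul_S, slash_neg_one]

theorem ep_bdd : IsBoundedAtImInfty ep := hasQ_ep.bdd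

theorem ep_inv_bdd : IsBoundedAtImInfty (fun z => (ep z)⁻¹) := by
  have h0 : PowerSeries.constantCoeff (toC phi) ≠ 0 := by
    rw [toC_phi]
    have h := PowerSeries.coeff_pentagonalSeries_pentagonal (R := ℂ) 0
    have h0 : pentagonal 0 = 0 := by decide
    rw [h0] at h
    rw [← PowerSeries.coeff_zero_eq_constantCoeff_apply, h]
    simp
  exact (hasQ_ep.inv ep_ne_zero h0).bdd

theorem fa_bdd_infty : IsBoundedAtImInfty fa := by
  have e : fa = fun z => ep z ^ 5 * (ep (sc 5 z))⁻¹ := by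
    funext z
    unfold fa
    rw [eta_eq, eta_eq, mul_pow, ← Complex.exp_nat_mul]
    have h1 : ((5 : ℕ) : ℂ) * (2 * Real.pi * Complex.I * (z : ℂ) / 24) =
        2 * Real.pi * Complex.I * ((sc 5 z : ℍ) : ℂ) / 24 := by
      have : ((sc 5 z : ℍ) : ℂ) = 5 * (z : ℂ) := rfl
      rw [this]
      push_cast
      ring
    rw [h1]
    have h2 := Complex.exp_ne_zero (2 * Real.pi * Complex.I * ((sc 5 z : ℍ) : ℂ) / 24)
    have h3 := ep_ne_zero (sc 5 z)
    field_simp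
  rw [isBoundedAtImInfty_iff]
  obtain ⟨M1, A1, h1⟩ := isBoundedAtImInfty_iff.mp ep_bdd
  obtain ⟨M2, A2, h2⟩ := isBoundedAtImInfty_iff.mp ep_inv_bdd
  refine ⟨M1 ^ 5 * M2, max A1 A2, ?_⟩
  intro z hz
  have hz1 := h1 z (le_trans (le_max_left _ _) hz)
  have him : (sc 5 z).im = 5 * z.im := by
    show ((sc 5 z : ℍ) : ℂ).im = 5 * (z : ℂ).im
    have : ((sc 5 z : ℍ) : ℂ) = 5 * (z : ℂ) := rfl
    rw [this]
    simp [Complex.mul_im]
  have hz2 := h2 (sc 5 z) (by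
    rw [him]
    have := z.im_pos
    have := le_trans (le_max_right A1 A2) hz
    linarith)
  rw [e]
  show ‖ep z ^ 5 * (ep (sc 5 z))⁻¹‖ ≤ _
  rw [norm_mul, norm_pow]
  exact mul_le_mul (pow_le_pow_left₀ (norm_nonneg _) hz1 5) hz2 (norm_nonneg _)
    (pow_nonneg ((norm_nonneg _).trans hz1) 5)

theorem wj_bdd_infty (j : ℤ) : IsBoundedAtImInfty (wj j) := by
  rw [isBoundedAtImInfty_iff]
  obtain ⟨M1, A1, h1⟩ := isBoundedAtImInfty_iff.mp ep_bdd
  obtain ⟨M2, A2, h2⟩ := isBoundedAtImInfty_iff.mp ep_inv_bdd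
  refine ⟨Real.sqrt 5 * (M1 ^ 5 * M2), max A1 (5 * A2), ?_⟩
  intro z hz
  let w : ℍ := ((j : ℝ) +ᵥ z : ℍ)
  have hw : (w : ℂ) = (z : ℂ) + j := by
    show (((j : ℝ) +ᵥ z : ℍ) : ℂ) = _
    rw [coe_vadd]
    push_cast
    ring
  have hwim : w.im = z.im := by
    show (((j : ℝ) +ᵥ z : ℍ)).im = _
    rw [vadd_im]
  have hdim : (dv j z).im = z.im / 5 := by
    have h3 : ((dv j z : ℍ) : ℂ) = ((z : ℂ) + j) * (((1 / 5 : ℝ)) : ℂ) := by
      show ((z : ℂ) + j) / 5 = _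
      push_cast
      ring
    show ((dv j z : ℍ) : ℂ).im = (z : ℂ).im / 5
    rw [h3, Complex.mul_im]
    simp
    ring
  have hz1 := h1 w (by rw [hwim]; exact le_trans (le_max_left _ _) hz)
  have hz2 := h2 (dv j z) (by
    rw [hdim]
    have := le_trans (le_max_right A1 (5 * A2)) hz
    linarith)
  have e : wj j z = -(Real.sqrt 5 : ℂ) * (Complex.exp (2 * Real.pi * Complex.I *
      ((z : ℂ) + j) / 5) * (ep w ^ 5 * (ep (dv j z))⁻¹)) := by
    unfold wj
    rw [← hw, eta_eq, eta_eq, mul_pow, ← Complex.exp_nat_mul]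
    have h4 : ((dv j z : ℍ) : ℂ) = (w : ℂ) / 5 := by
      rw [hw]
      rfl
    have h5 : Complex.exp (((5 : ℕ) : ℂ) * (2 * Real.pi * Complex.I * (w : ℂ) / 24)) =
        Complex.exp (2 * Real.pi * Complex.I * (w : ℂ) / 5) *
        Complex.exp (2 * Real.pi * Complex.I * ((dv j z : ℍ) : ℂ) / 24) := by
      rw [← Complex.exp_add, h4]
      congr 1
      push_cast
      ring
    rw [h5]
    have h2 := Complex.exp_ne_zero (2 * Real.pi * Complex.I * ((dv j z : ℍ) : ℂ) / 24)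
    have h3 := ep_ne_zero (dv j z)
    field_simp
  have hexp : ‖Complex.exp (2 * Real.pi * Complex.I * ((z : ℂ) + j) / 5)‖ ≤ 1 := by
    rw [Complex.norm_exp]
    have h6 : (2 * Real.pi * Complex.I * ((z : ℂ) + j) / 5).re = -(2 * Real.pi * z.im / 5) := by
      have h7 : 2 * Real.pi * Complex.I * ((z : ℂ) + j) / 5 =
          ((2 * Real.pi / 5 : ℝ) : ℂ) * (Complex.I * ((z : ℂ) + j)) := by
        push_cast
        ring
      rw [h7, Complex.re_ofReal_mul]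
      simp
      ring
    rw [h6]
    apply Real.exp_le_one_iff.mpr
    have := z.im_pos
    have := Real.pi_pos
    have : 0 ≤ 2 * Real.pi * z.im / 5 := by positivity
    linarith
  rw [e, norm_mul, norm_mul, norm_mul, norm_neg, norm_pow]
  have h8 : ‖((Real.sqrt 5 : ℝ) : ℂ)‖ = Real.sqrt 5 := by
    rw [Complex.norm_real, Real.norm_eq_abs, abs_of_nonneg (Real.sqrt_nonneg _)]
  rw [h8]
  apply mul_le_mul_of_nonneg_left _ (Real.sqrt_nonneg _)
  have h9 : ‖ep w‖ ^ 5 * ‖(ep (dv j z))⁻¹‖ ≤ M1 ^ 5 * M2 :=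
    mul_le_mul (pow_le_pow_left₀ (norm_nonneg _) hz1 5) hz2 (norm_nonneg _)
      (pow_nonneg ((norm_nonneg _).trans hz1) 5)
  calc _ ≤ 1 * (‖ep w‖ ^ 5 * ‖(ep (dv j z))⁻¹‖) :=
        mul_le_mul_of_nonneg_right hexp (by positivity)
    _ ≤ _ := by rw [one_mul]; exact h9

end Pool.Agent.B5
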