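import Pool.Agent.B5.FA1

/-!
B5 / FA2: w_j | S = chi(j) w_{j'} for j j' = -1 mod 5, chi = jacobiSym . 5. See the text in FA1 for the proof:
(1) it is a constant multiple; (2) the constants for j = 2, 3; (3) the constants for j = 1, 4.
-/

set_option autoImplicit false

namespace Pool.Agent.B5

open PowerSeries UpperHalfPlane
open scoped MatrixGroups ModularForm Manifold

theorem wj_congr {i j : ℤ} (h : i ≡ j [ZMOD 5]) : wj i = wj j := by
  have hp : Function.Periodic wj 5 := fun x => wj_add_five x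
  obtain ⟨m, hm⟩ := h.dvd
  have h1 := (hp.int_mul m) i
  have e : i + (m : ℤ) * 5 = j := by
    linarith
  simp only [Int.cast_id] at h1
  rw [e] at h1
  exact h1.symm

theorem disc_slash (γ : SL(2, ℤ)) :
    ModularForm.discriminant ∣[(12 : ℤ)] γ = ModularForm.discriminant := by
  have hmem : γ ∈ Subgroup.closure ({ModularGroup.S, ModularGroup.T} : Set SL(2, ℤ)) := by
    rw [SpecialLinearGroup.SL2Z_generators]
    exact Subgroup.mem_top γ
  induction hmem using Subgroup.closure_induction with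
  | mem x hx =>
    rcases hx with rfl | rfl
    · exact ModularForm.discriminant_S_invariant
    · exact ModularForm.discriminant_T_invariant
  | one => rw [SlashAction.slash_one]
  | mul x y _ _ hx hy => rw [SlashAction.slash_mul, hx, hy]
  | inv x _ hx =>
    have h1 : (ModularForm.discriminant ∣[(12 : ℤ)] x) ∣[(12 : ℤ)] x⁻¹ =
        ModularForm.discriminant := by
      rw [← SlashAction.slash_mul, mul_inv_cancel, SlashAction.slash_one]
    rwa [hx] at h1

theorem disc_smul (γ : SL(2, ℤ)) (z : ℍ) : ModularForm.discriminant (γ • z) =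
    (denom γ z : ℂ) ^ 12 * ModularForm.discriminant z := by
  have h := congrFun (disc_slash γ) z
  rw [ModularForm.SL_slash_apply] at h
  have h0 : (denom γ z : ℂ) ≠ 0 := denom_ne_zero _ _
  have h12 : (denom γ z : ℂ) ^ (-(12 : ℤ)) = ((denom γ z : ℂ) ^ 12)⁻¹ := by
    rw [zpow_neg]
    norm_cast
  rw [h12] at h
  rw [← h]
  field_simp

theorem eta_shift24 (j : ℤ) (z : ℍ) :
    ModularForm.eta ((z : ℂ) + j) ^ 24 = ModularForm.eta z ^ 24 := by
  have key : ∀ (n : ℕ) (w : ℂ), ModularForm.eta (w + n) ^ 24 = ModularForm.eta w ^ 24 := by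
    intro n w
    rw [eta_add_nat, mul_pow, ← pow_mul, mul_comm n 24, pow_mul, zeta24, one_pow, one_mul]
  rcases Int.eq_nat_or_neg j with ⟨n, rfl | rfl⟩
  · have := key n (z : ℂ)
    simpa using this
  · have := key n ((z : ℂ) + ((-(n : ℤ) : ℤ) : ℂ))
    have e : (z : ℂ) + ((-(n : ℤ) : ℤ) : ℂ) + (n : ℂ) = z := by
      push_cast
      ring
    rw [e] at this
    exact this.symm

theorem wj_pow24 (j : ℤ) (z : ℍ) : wj j z ^ 24 =
    5 ^ 12 * ModularForm.discriminant z ^ 5 / ModularForm.discriminant (dv j z) := by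
  unfold wj ModularForm.discriminant
  rw [div_pow, mul_pow]
  have h1 : (-(Real.sqrt 5 : ℂ)) ^ 24 = 5 ^ 12 := by
    have h2 : ((Real.sqrt 5 : ℝ) : ℂ) ^ 2 = 5 := by
      rw [← Complex.ofReal_pow, Real.sq_sqrt (by norm_num)]
      norm_num
    calc (-(Real.sqrt 5 : ℂ)) ^ 24 = ((Real.sqrt 5 : ℂ) ^ 2) ^ 12 := by ring
      _ = 5 ^ 12 := by rw [h2]
  have h3 : (ModularForm.eta ((z : ℂ) + j) ^ 5) ^ 24 = (ModularForm.eta z ^ 24) ^ 5 := by
    rw [← eta_shift24 j z]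
    ring
  rw [h1, h3]

theorem alg24 {x D : ℂ} (hx : x ≠ 0) (hD : D ≠ 0) (y : ℂ) :
    5 ^ 12 * (x ^ 12 * y) ^ 5 / (x ^ 12 * D) * ((x ^ 2)⁻¹) ^ 24 = 5 ^ 12 * y ^ 5 / D := by
  have h1 : x ^ 12 * D ≠ 0 := mul_ne_zero (pow_ne_zero _ hx) hD
  rw [inv_pow, div_mul_eq_mul_div, div_eq_div_iff h1 hD, ← pow_mul]
  have h2 : (x ^ (2 * 24))⁻¹ * x ^ 48 = 1 := inv_mul_cancel₀ (pow_ne_zero _ hx)
  calc 5 ^ 12 * (x ^ 12 * y) ^ 5 * (x ^ (2 * 24))⁻¹ * D
      = 5 ^ 12 * y ^ 5 * (x ^ 12 * D) * ((x ^ (2 * 24))⁻¹ * x ^ 48) := by ring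
    _ = 5 ^ 12 * y ^ 5 * (x ^ 12 * D) := by rw [h2, mul_one]

theorem wj_S_pow24 (j j' : ℤ) (h : j * j' ≡ -1 [ZMOD 5]) (z : ℍ) :
    (wj j ∣[(2 : ℤ)] ModularGroup.S) z ^ 24 = wj j' z ^ 24 := by
  obtain ⟨m, hm⟩ := h.dvd
  have hm' : j * j' + 1 = 5 * (-m) := by linarith
  let γ : SL(2, ℤ) := ⟨!![j, m; 5, -j'], by
    rw [Matrix.det_fin_two_of]
    linarith⟩
  have g00 : γ 0 0 = j := rfl
  have g01 : γ 0 1 = m := rfl
  have g10 : γ 1 0 = 5 := rfl
  have g11 : γ 1 1 = -j' := rfl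
  have hz0 : (z : ℂ) ≠ 0 := z.ne_zero
  have hw : ((dv j' z : ℍ) : ℂ) = ((z : ℂ) + j') / 5 := rfl
  have hden : (denom γ (dv j' z) : ℂ) = z := by
    have e1 : (denom γ (dv j' z) : ℂ) = ((γ 1 0 : ℤ) : ℂ) * ((dv j' z : ℍ) : ℂ) +
        ((γ 1 1 : ℤ) : ℂ) := by
      simp [denom]
    rw [e1, g10, g11, hw]
    push_cast
    ring
  have hpt : dv j (ModularGroup.S • z) = γ • dv j' z := by
    apply UpperHalfPlane.ext
    rw [coe_specialLinearGroup_apply, g00, g01, g10, g11, hw]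
    have hd2 : ((dv j (ModularGroup.S • z) : ℍ) : ℂ) =
        (((ModularGroup.S • z : ℍ) : ℂ) + j) / 5 := rfl
    rw [hd2, S_coe]
    simp only [algebraMap_int_eq, Int.coe_castRingHom]
    have hmC : (j : ℂ) * (j' : ℂ) + 1 = 5 * (-(m : ℂ)) := by exact_mod_cast hm'
    have e3 : ((5 : ℤ) : ℝ) = 5 := by norm_num
    have hden2 : (((5 : ℤ) : ℝ) : ℂ) * (((z : ℂ) + j') / 5) + (((-j' : ℤ) : ℝ) : ℂ) = z := by
      push_cast
      ring
    rw [hden2, eq_div_iff hz0, div_mul_eq_mul_div, div_eq_iff (by norm_num : (5 : ℂ) ≠ 0)]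
    have e4 : (-(z : ℂ)⁻¹ + j) * z = -1 + j * z := by
      field_simp
    rw [e4]
    push_cast
    linear_combination (-1 : ℂ) * hmC
  have hS : ModularForm.discriminant (ModularGroup.S • z) =
      (z : ℂ) ^ 12 * ModularForm.discriminant z := by
    rw [disc_smul]
    congr 2
    simp [denom, ModularGroup.S]
  rw [S_apply, mul_pow, wj_pow24, wj_pow24, hS, hpt, disc_smul, hden]
  have hd1 : ModularForm.discriminant (dv j' z) ≠ 0 := ModularForm.discriminant_ne_zero _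
  have hz2 : (z : ℂ) ^ (-(2 : ℤ)) = ((z : ℂ) ^ 2)⁻¹ := by
    rw [zpow_neg, zpow_ofNat]
  rw [hz2]
  exact alg24 hz0 hd1 _

theorem wj_S_const (j j' : ℤ) (h : j * j' ≡ -1 [ZMOD 5]) :
    ∃ c : ℂ, ∀ z, (wj j ∣[(2 : ℤ)] ModularGroup.S) z = c * wj j' z := by
  have hc1 : Continuous (wj j ∣[(2 : ℤ)] ModularGroup.S) := by
    rw [ModularForm.SL_slash]
    exact (MDifferentiable.slash (wj_mdiff j) 2 _).continuous
  have hc2 : Continuous (wj j') := (wj_mdiff j').continuous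
  have hR : Continuous (fun z => (wj j ∣[(2 : ℤ)] ModularGroup.S) z / wj j' z) :=
    hc1.div hc2 (wj_ne_zero j')
  have hfin : Set.Finite {x : ℂ | x ^ 24 = 1} := by
    have : {x : ℂ | x ^ 24 = 1} = ↑((Polynomial.nthRoots 24 (1 : ℂ)).toFinset) := by
      ext x
      simp [Polynomial.mem_nthRoots]
    rw [this]
    exact Finset.finite_toSet _
  obtain ⟨y, _, hy⟩ := (isPreconnected_univ (α := ℍ)).eqOn_const_of_mapsTo
    (T := {x : ℂ | x ^ 24 = 1}) hfin.isDiscrete hR.continuousOn (by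
      intro z _
      show ((wj j ∣[(2 : ℤ)] ModularGroup.S) z / wj j' z) ^ 24 = 1
      rw [div_pow, wj_S_pow24 j j' h, div_self (pow_ne_zero _ (wj_ne_zero j' z))])
    ⟨1, by simp⟩
  refine ⟨y, fun z => ?_⟩
  have h1 := hy (Set.mem_univ z)
  simp only [Function.const] at h1
  rw [← h1, div_mul_cancel₀ _ (wj_ne_zero j' z)]

theorem S_I : ModularGroup.S • UpperHalfPlane.I = UpperHalfPlane.I := by
  apply UpperHalfPlane.ext
  rw [S_coe]
  simp

theorem wj_S_self (j : ℤ) (h : j * j ≡ -1 [ZMOD 5]) :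
    wj j ∣[(2 : ℤ)] ModularGroup.S = fun z => (-1 : ℂ) * wj j z := by
  obtain ⟨c, hc⟩ := wj_S_const j j h
  have h1 := hc UpperHalfPlane.I
  rw [S_apply, S_I] at h1
  have h2 := wj_ne_zero j UpperHalfPlane.I
  have h3 : ((UpperHalfPlane.I : ℍ) : ℂ) ^ (-(2 : ℤ)) = -1 := by
    rw [zpow_neg]
    have : ((UpperHalfPlane.I : ℍ) : ℂ) ^ (2 : ℤ) = -1 := by
      have : ((UpperHalfPlane.I : ℍ) : ℂ) ^ (2 : ℤ) = ((UpperHalfPlane.I : ℍ) : ℂ) ^ 2 := by
        norm_cast
      rw [this]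
      simp
    rw [this]
    norm_num
  rw [h3] at h1
  have h4 : c = -1 := by
    have : c * wj j UpperHalfPlane.I = (-1) * wj j UpperHalfPlane.I := by
      rw [← h1]
      ring
    exact mul_right_cancel₀ h2 this
  funext z
  rw [hc z, h4]

theorem fa_ne_zero (z : ℍ) : fa z ≠ 0 := by
  unfold fa
  exact div_ne_zero (pow_ne_zero _ (eta_ne_zero' z)) (eta_ne_zero' (sc 5 z))

theorem ST_cube : ModularGroup.S * ModularGroup.T * ModularGroup.S * ModularGroup.T *
    ModularGroup.S * ModularGroup.T = (-1 : SL(2, ℤ)) := by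
  ext i j
  fin_cases i <;> fin_cases j <;>
    simp [ModularGroup.S, ModularGroup.T, Matrix.mul_apply, Fin.sum_univ_two]

theorem wj_one_S : wj 1 ∣[(2 : ℤ)] ModularGroup.S = wj 4 := by
  obtain ⟨c, hc⟩ := wj_S_const 1 4 (by decide)
  have hc' : wj 1 ∣[(2 : ℤ)] ModularGroup.S = c • wj 4 := by
    funext z
    rw [hc z]
    rfl
  have h1 : ((((((fa ∣[(2 : ℤ)] ModularGroup.S) ∣[(2 : ℤ)] ModularGroup.T) ∣[(2 : ℤ)]
      ModularGroup.S) ∣[(2 : ℤ)] ModularGroup.T) ∣[(2 : ℤ)] ModularGroup.S) ∣[(2 : ℤ)]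
      ModularGroup.T) = fa := by
    rw [← SlashAction.slash_mul, ← SlashAction.slash_mul, ← SlashAction.slash_mul,
      ← SlashAction.slash_mul, ← SlashAction.slash_mul, ← mul_assoc, ← mul_assoc, ← mul_assoc,
      ← mul_assoc, ST_cube, slash_neg_one]
  have h5 : wj (4 + 1) = wj 0 := wj_congr (by decide)
  rw [fa_S, wj_T, zero_add, hc', ModularForm.SL_smul_slash, wj_T, h5, ModularForm.SL_smul_slash,
    wj_zero_S, ModularForm.SL_smul_slash, fa_T] at h1
  have h2 := congrFun h1 UpperHalfPlane.I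
  have h3 : c * fa UpperHalfPlane.I = 1 * fa UpperHalfPlane.I := by
    rw [one_mul]
    exact h2
  have h4 : c = 1 := mul_right_cancel₀ (fa_ne_zero _) h3
  rw [hc', h4, one_smul]

theorem wj_four_S : wj 4 ∣[(2 : ℤ)] ModularGroup.S = wj 1 := by
  rw [← wj_one_S, ← SlashAction.slash_mul, S_mul_S, slash_neg_one]

theorem wj_S (j j' : ℤ) (h : j * j' ≡ -1 [ZMOD 5]) :
    wj j ∣[(2 : ℤ)] ModularGroup.S = fun z => ((jacobiSym j 5 : ℤ) : ℂ) * wj j' z := by
  have hj : j % 5 = 0 ∨ j % 5 = 1 ∨ j % 5 = 2 ∨ j % 5 = 3 ∨ j % 5 = 4 := by omega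
  have hj' : j' % 5 = 0 ∨ j' % 5 = 1 ∨ j' % 5 = 2 ∨ j' % 5 = 3 ∨ j' % 5 = 4 := by omega
  have hm : (j % 5) * (j' % 5) ≡ -1 [ZMOD 5] :=
    (Int.ModEq.mul (Int.mod_modEq j 5) (Int.mod_modEq j' 5)).trans h
  have e1 : wj j = wj (j % 5) := wj_congr (Int.mod_modEq j 5).symm
  have e2 : wj j' = wj (j' % 5) := wj_congr (Int.mod_modEq j' 5).symm
  have e3 : jacobiSym j 5 = jacobiSym (j % 5) 5 := by
    have := jacobiSym.mod_left j 5
    exact_mod_cast this
  rw [e1, e2, e3]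
  rcases hj with a | a | a | a | a <;> rcases hj' with b | b | b | b | b <;> rw [a, b] at hm <;>
    first
    | (exfalso; revert hm; decide)
    | (rw [a, b]
       first
       | (have hs : jacobiSym 1 5 = 1 := by norm_num
          rw [wj_one_S, hs]; funext z; simp)
       | (have hs : jacobiSym 4 5 = 1 := by norm_num
          rw [wj_four_S, hs]; funext z; simp)
       | (have hs : jacobiSym 2 5 = -1 := by norm_num
          rw [wj_S_self 2 (by decide), hs]; funext z; simp)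
       | (have hs : jacobiSym 3 5 = -1 := by norm_num
          rw [wj_S_self 3 (by decide), hs]; funext z; simp))

end Pool.Agent.B5
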