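import Pool.Agent.B5.Defs

/-!
B5 / TR: integer matrices of positive determinant and boundedness (used by MO, FB, FE, FH2).

`hermite`: an integer matrix of positive determinant is gamma * (a b; 0 d) with gamma in SL(2,Z), a, d > 0
(take the primitive vector proportional to the first column and complete it to an element of SL(2,Z)).
`bdd_tri`: (g |_k (a b; 0 d))(z) = const * g((a z + b)/d); see `IsBoundedAtImInfty.slash` in
Mathlib.NumberTheory.ModularForms.BoundedAtCusp.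
-/

set_option autoImplicit false

namespace Pool.Agent.B5

open PowerSeries UpperHalfPlane
open scoped MatrixGroups ModularForm Manifold

theorem hermite (A : Matrix (Fin 2) (Fin 2) ℤ) (hd : 0 < A.det) : ∃ (γ : SL(2, ℤ)) (a b d : ℤ),
    0 < a ∧ 0 < d ∧ A = (γ : Matrix (Fin 2) (Fin 2) ℤ) * !![a, b; 0, d] := by
  have hdet : A.det = A 0 0 * A 1 1 - A 0 1 * A 1 0 := Matrix.det_fin_two A
  have hg : 0 < Int.gcd (A 0 0) (A 1 0) := by
    rw [Nat.pos_iff_ne_zero]
    intro h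
    obtain ⟨h1, h2⟩ := Int.gcd_eq_zero_iff.1 h
    rw [hdet, h1, h2] at hd
    simp at hd
  obtain ⟨x, y, hxy, hx, hy⟩ := Int.exists_gcd_one hg
  set g : ℤ := (Int.gcd (A 0 0) (A 1 0) : ℤ) with hgd
  have hg' : 0 < g := by
    rw [hgd]
    exact Int.natCast_pos.2 hg
  have hbez : x * Int.gcdA x y + y * Int.gcdB x y = 1 := by
    rw [← Int.gcd_eq_gcd_ab, hxy]
    rfl
  set u := Int.gcdA x y
  set v := Int.gcdB x y
  let γ : SL(2, ℤ) := ⟨!![x, -v; y, u], by
    rw [Matrix.det_fin_two_of]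
    linarith⟩
  refine ⟨γ, g, u * A 0 1 + v * A 1 1, -y * A 0 1 + x * A 1 1, hg', ?_, ?_⟩
  · have h1 : g * (-y * A 0 1 + x * A 1 1) = A.det := by
      rw [hdet]
      linear_combination (-A 1 1) * hx + A 0 1 * hy
    rw [← h1] at hd
    exact (mul_pos_iff_of_pos_left hg').1 hd
  · change A = !![x, -v; y, u] * !![g, u * A 0 1 + v * A 1 1; 0, -y * A 0 1 + x * A 1 1]
    rw [Matrix.mul_fin_two]
    conv_lhs => rw [Matrix.eta_fin_two A]
    congr 1
    ext i j
    fin_cases i <;> fin_cases j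
    · simp
      linarith
    · simp
      linear_combination (-A 0 1) * hbez
    · simp
      linarith
    · simp
      linear_combination (-A 1 1) * hbez

theorem bdd_tri {g : ℍ → ℂ} (h : IsBoundedAtImInfty g) (k : ℤ) (a b d : ℝ) (hd : a * d ≠ 0) (ha : 0 < a * d) :
    IsBoundedAtImInfty (g ∣[k] tri a b d hd) := by
  refine IsBoundedAtImInfty.slash k ?_ h
  simp [tri, Matrix.GeneralLinearGroup.mkOfDetNeZero]

/-- an invariance up to constants in level one gives boundedness for all integer matrices -/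
theorem bdd_int {g : ℍ → ℂ} {k : ℤ} (h : ∀ γ : SL(2, ℤ), IsBoundedAtImInfty (g ∣[k] γ))
    (α : GL (Fin 2) ℝ) (A : Matrix (Fin 2) (Fin 2) ℤ)
    (hA : ∀ i j, (α : Matrix (Fin 2) (Fin 2) ℝ) i j = (A i j : ℝ)) (hd : 0 < A.det) :
    IsBoundedAtImInfty (g ∣[k] α) := by
  obtain ⟨γ, a, b, d, ha, hd', hAm⟩ := hermite A hd
  have had : (0 : ℝ) < (a : ℝ) * (d : ℝ) := by
    have h1 : (0 : ℝ) < a := by exact_mod_cast ha
    have h2 : (0 : ℝ) < d := by exact_mod_cast hd'
    positivity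
  have hα : α = (γ : GL (Fin 2) ℝ) * tri (a : ℝ) (b : ℝ) (d : ℝ) had.ne' := by
    ext i j
    rw [hA, hAm]
    fin_cases i <;> fin_cases j <;>
      simp [tri, Matrix.GeneralLinearGroup.mkOfDetNeZero, Matrix.mul_apply, Fin.sum_univ_two]
  rw [hα, SlashAction.slash_mul]
  exact bdd_tri (h γ) k _ _ _ _ had

/-- g(M z) as a slash -/
theorem scale_slash (g : ℍ → ℂ) (k : ℤ) (M : ℕ+) : (fun z => g (sc M z)) =
    fun z => ((M : ℕ) : ℂ) ^ (1 - k) * (g ∣[k] tri ((M : ℕ) : ℝ) 0 1 (by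
      have : (0 : ℝ) < ((M : ℕ) : ℝ) := by exact_mod_cast M.pos
      simp)) z := by
  funext z
  have hM : (0 : ℝ) < ((M : ℕ) : ℝ) := by exact_mod_cast M.pos
  have hMc : ((M : ℕ) : ℂ) ≠ 0 := by exact_mod_cast M.ne_zero
  have hd : (M : ℝ) * 1 ≠ 0 := by simp
  have hdet : (tri ((M : ℕ) : ℝ) 0 1 hd).det.val = (M : ℕ) := by
    simp [tri, Matrix.GeneralLinearGroup.mkOfDetNeZero, Matrix.det_fin_two]
  have hsm : tri ((M : ℕ) : ℝ) 0 1 hd • z = sc M z := by
    apply UpperHalfPlane.ext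
    rw [UpperHalfPlane.coe_smul_of_det_pos (by rw [hdet]; exact hM)]
    simp [UpperHalfPlane.num, UpperHalfPlane.denom, tri, sc,
      Matrix.GeneralLinearGroup.mkOfDetNeZero]
  have hden : denom (tri ((M : ℕ) : ℝ) 0 1 hd) z = 1 := by
    simp [UpperHalfPlane.denom, tri, Matrix.GeneralLinearGroup.mkOfDetNeZero]
  rw [ModularForm.slash_apply, hsm, hden, hdet, one_zpow, mul_one]
  have hσ : ∀ w : ℂ, σ (tri ((M : ℕ) : ℝ) 0 1 hd) w = w := by
    intro w
    have : 0 < (tri ((M : ℕ) : ℝ) 0 1 hd).det.val := by rw [hdet]; exact hM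
    rw [σ, if_pos this, ContinuousAlgEquiv.refl_apply]
  rw [hσ, abs_of_pos hM]
  push_cast
  rw [mul_comm (g _), ← mul_assoc, ← zpow_add₀ hMc]
  simp

end Pool.Agent.B5
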