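import Pool.Agent.B5.FA
import Pool.Agent.B5.TR

/-!
B5 / FB: fb(z) = eta(5z)^5/eta(z), by the Fricke involution W = (0 -1; 5 0).

fa(-1/(5z)) = eta(-1/(5z))^5/eta(-1/z) = const * z^2 * fb(z), so fb = C * fa |_2 W with a non-zero constant C
(weight 2 slash with W in GL(2,R); eta(-1/w) = sqrt(w/i) eta(w), `eta_neg_inv`).
For gamma = (a b; c d) in Gamma0(5): W gamma W^(-1) = (d, -c/5; -5b, a) in Gamma0(5), with lower right entry a, and
chi(a) = chi(d) since ad = 1 mod 5. So fb | gamma = chi(d) fb.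
Boundedness: W gamma is an integer matrix of determinant 5, use `bdd_int` and `fa_bdd`.
-/

set_option autoImplicit false

namespace Pool.Agent.B5

open PowerSeries UpperHalfPlane
open scoped MatrixGroups ModularForm Manifold

namespace FB

theorem h51 : (5 : ℝ) * 1 ≠ 0 := by norm_num

theorem coe_entry (γ : SL(2, ℤ)) (i j : Fin 2) :
    ((γ : GL (Fin 2) ℝ) : Matrix (Fin 2) (Fin 2) ℝ) i j = ((γ i j : ℤ) : ℝ) := rfl

/-- the Fricke matrix `(0 -1; 5 0)` -/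
noncomputable def W : GL (Fin 2) ℝ :=
  ((ModularGroup.S : SL(2, ℤ)) : GL (Fin 2) ℝ) * tri 5 0 1 h51

theorem W_coe : (W : Matrix (Fin 2) (Fin 2) ℝ) = !![0, -1; 5, 0] := by
  have h1 : (((ModularGroup.S : SL(2, ℤ)) : GL (Fin 2) ℝ) : Matrix (Fin 2) (Fin 2) ℝ) =
      !![0, -1; 1, 0] := by
    ext i j
    rw [coe_entry]
    fin_cases i <;> fin_cases j <;> simp [ModularGroup.S]
  have h2 : ((tri 5 0 1 h51 : GL (Fin 2) ℝ) : Matrix (Fin 2) (Fin 2) ℝ) = !![5, 0; 0, 1] := rfl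
  rw [W, Units.val_mul, h1, h2]
  ext i j
  fin_cases i <;> fin_cases j <;> simp [Matrix.mul_apply, Fin.sum_univ_two]

/-- the constant -/
noncomputable def K : ℂ := - (Real.sqrt 5 : ℂ)⁻¹ * (5 : ℂ)⁻¹

theorem fb_eq : fb = K • (fa ∣[(2 : ℤ)] W) := by
  have h1 : fa ∣[(2 : ℤ)] W = wj 0 ∣[(2 : ℤ)] (tri 5 0 1 h51 : GL (Fin 2) ℝ) := by
    rw [W, SlashAction.slash_mul, ← ModularForm.SL_slash, fa_S]
  rw [h1]
  have h2 := scale_slash (wj 0) 2 5
  ext z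
  have h3 := congrFun h2 z
  have h4 : wj 0 (sc 5 z) = - (Real.sqrt 5 : ℂ) * fb z := by
    unfold wj fb
    have h5 : dv 0 (sc 5 z) = z := by
      ext
      simp only [dv, sc]
      push_cast
      simp
    rw [h5]
    push_cast
    rw [add_zero, mul_div_assoc]
  simp only [Pi.smul_apply, smul_eq_mul]
  rw [h4] at h3
  have h6 : ((((5 : ℕ+) : ℕ) : ℂ)) ^ (1 - (2 : ℤ)) = (5 : ℂ)⁻¹ := by
    norm_num
  rw [h6] at h3
  have hs : (Real.sqrt 5 : ℂ) ≠ 0 := by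
    rw [Complex.ofReal_ne_zero]
    positivity
  have h7 : fb z = - (Real.sqrt 5 : ℂ)⁻¹ * (- (Real.sqrt 5 : ℂ) * fb z) := by
    field_simp
  rw [h7, h3, K]
  have h8 : (tri (((5 : ℕ+) : ℕ) : ℝ) 0 1 (by simp) : GL (Fin 2) ℝ) = tri 5 0 1 h51 := by
    ext i j
    fin_cases i <;> fin_cases j <;> simp [tri]
  rw [h8]
  ring

theorem fb_slash_eq (γ : SL(2, ℤ)) :
    fb ∣[(2 : ℤ)] γ = K • (fa ∣[(2 : ℤ)] (W * (γ : GL (Fin 2) ℝ))) := by
  rw [fb_eq, ModularForm.SL_smul_slash, SlashAction.slash_mul, ModularForm.SL_slash]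

end FB

theorem fb_slash (γ : SL(2, ℤ)) (h : γ ∈ CongruenceSubgroup.Gamma0 5) :
    fb ∣[(2 : ℤ)] γ = fun z => ((jacobiSym (γ 1 1) 5 : ℤ) : ℂ) * fb z := by
  have hdet : γ 0 0 * γ 1 1 - γ 0 1 * γ 1 0 = 1 := by
    have := γ.det_coe
    rw [Matrix.det_fin_two] at this
    exact this
  rw [CongruenceSubgroup.Gamma0_mem] at h
  have h5 : (5 : ℤ) ∣ γ 1 0 := by
    have := (ZMod.intCast_zmod_eq_zero_iff_dvd (γ 1 0) 5).mp h
    exact_mod_cast this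
  obtain ⟨c, hc⟩ := h5
  let δ : SL(2, ℤ) := ⟨!![γ 1 1, -c; -5 * γ 0 1, γ 0 0], by
    rw [Matrix.det_fin_two_of]
    rw [hc] at hdet
    linarith⟩
  have hδ : δ ∈ CongruenceSubgroup.Gamma0 5 := by
    rw [CongruenceSubgroup.Gamma0_mem]
    change ((-5 * γ 0 1 : ℤ) : ZMod 5) = 0
    rw [ZMod.intCast_zmod_eq_zero_iff_dvd]
    exact ⟨- γ 0 1, by push_cast; ring⟩
  have hW : FB.W * (γ : GL (Fin 2) ℝ) = (δ : GL (Fin 2) ℝ) * FB.W := by
    apply Units.ext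
    rw [Units.val_mul, Units.val_mul, FB.W_coe]
    have hc' : ((γ 1 0 : ℤ) : ℝ) = 5 * (c : ℝ) := by rw [hc]; push_cast; ring
    ext i j
    rw [Matrix.mul_apply, Matrix.mul_apply, Fin.sum_univ_two, Fin.sum_univ_two]
    simp only [FB.coe_entry]
    have d00 : δ 0 0 = γ 1 1 := rfl
    have d01 : δ 0 1 = -c := rfl
    have d10 : δ 1 0 = -5 * γ 0 1 := rfl
    have d11 : δ 1 1 = γ 0 0 := rfl
    fin_cases i <;> fin_cases j <;>
      simp [d00, d01, d10, d11, hc', mul_comm]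
  rw [FB.fb_slash_eq, hW, SlashAction.slash_mul, ← ModularForm.SL_slash, fa_slash δ hδ]
  have h1 : (fun z => ((jacobiSym (δ 1 1) 5 : ℤ) : ℂ) * fa z) =
      ((jacobiSym (δ 1 1) 5 : ℤ) : ℂ) • fa := rfl
  rw [h1, ModularForm.smul_slash, map_intCast, smul_comm, ← FB.fb_eq]
  have h2 : jacobiSym (δ 1 1) 5 = jacobiSym (γ 1 1) 5 := by
    have h3 : jacobiSym (γ 0 0) 5 * jacobiSym (γ 1 1) 5 = 1 := by
      rw [← jacobiSym.mul_left, jacobiSym.mod_left]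
      have : (γ 0 0 * γ 1 1) % ((5 : ℕ) : ℤ) = 1 := by
        rw [hc] at hdet
        have : γ 0 0 * γ 1 1 = 1 + 5 * (γ 0 1 * c) := by linarith
        rw [this]
        push_cast
        omega
      rw [this, jacobiSym.one_left]
    change jacobiSym (γ 0 0) 5 = jacobiSym (γ 1 1) 5
    rcases Int.mul_eq_one_iff_eq_one_or_neg_one.mp h3 with ⟨h4, h5⟩ | ⟨h4, h5⟩ <;> rw [h4, h5]
  rw [h2]
  rfl

theorem fb_bdd (γ : SL(2, ℤ)) : IsBoundedAtImInfty (fb ∣[(2 : ℤ)] γ) := by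
  rw [FB.fb_slash_eq]
  have h1 : IsBoundedAtImInfty (fa ∣[(2 : ℤ)] (FB.W * (γ : GL (Fin 2) ℝ))) := by
    refine bdd_int fa_bdd _ (!![0, -1; 5, 0] * (γ : Matrix (Fin 2) (Fin 2) ℤ)) ?_ ?_
    · intro i j
      rw [Units.val_mul, FB.W_coe]
      fin_cases i <;> fin_cases j <;> simp [Matrix.mul_apply, Fin.sum_univ_two]
    · rw [Matrix.det_mul, γ.det_coe, Matrix.det_fin_two_of]
      norm_num
  exact (Filter.const_boundedAtFilter _ FB.K).mul h1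

theorem fb_mdiff : MDiff fb := by
  rw [FB.fb_eq]
  exact (MDifferentiable.slash fa_mdiff 2 FB.W).const_smul FB.K

end Pool.Agent.B5
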