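import Pool.Agent.B5.TR

/-!
B5 / FE: fE(z) = (5 E2(5z) - E2(z))/4 is modular of weight 2 on Gamma0(5).

By `E2_slash_action`: E2(gamma z) = (cz+d)^2 E2(z) + (6/(pi i)) c (cz+d) (up to the exact form of `D2`). For gamma in Gamma0(5),
5 * gamma z = gamma' (5z) with gamma' = (a, 5b; c/5, d), cz + d = (c/5)(5z) + d, so the correction terms cancel:
5 * (6/(pi i)) (c/5)(cz+d) - (6/(pi i)) c (cz+d) = 0.
Boundedness of fE | gamma for arbitrary gamma in SL(2,Z): E2 | gamma' is bounded at infinity for all gamma' in SL(2,Z)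
(it is E2 + const * c/(cz+d), and 1/(cz+d) is bounded there), then E2(5 .) | gamma by `scale_slash` and `bdd_int`.
-/

set_option autoImplicit false

namespace Pool.Agent.B5

open PowerSeries UpperHalfPlane
open scoped MatrixGroups ModularForm Manifold

lemma FE_denom (γ : SL(2, ℤ)) (z : ℍ) :
    denom (γ : GL (Fin 2) ℝ) (z : ℂ) = ((γ 1 0 : ℤ) : ℂ) * z + ((γ 1 1 : ℤ) : ℂ) :=
  ModularGroup.denom_apply γ z

lemma FE_E2 (γ : SL(2, ℤ)) (z : ℍ) :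
    EisensteinSeries.E2 (γ • z) * denom (γ : GL (Fin 2) ℝ) (z : ℂ) ^ (-2 : ℤ) =
      EisensteinSeries.E2 z - (1 / (2 * riemannZeta 2)) *
        (2 * Real.pi * Complex.I * ((γ 1 0 : ℤ) : ℂ) / denom (γ : GL (Fin 2) ℝ) (z : ℂ)) := by
  have h := congrFun (EisensteinSeries.E2_slash_action γ) z
  rw [ModularForm.SL_slash_apply] at h
  rw [h]
  rfl

theorem fE_slash (γ : SL(2, ℤ)) (h : γ ∈ CongruenceSubgroup.Gamma0 5) :
    fE ∣[(2 : ℤ)] γ = fE := by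
  rw [CongruenceSubgroup.Gamma0_mem, ZMod.intCast_zmod_eq_zero_iff_dvd] at h
  obtain ⟨c, hc⟩ := h
  have hdet : (γ 0 0 : ℤ) * γ 1 1 - γ 0 1 * γ 1 0 = 1 := by
    have := γ.det_coe
    rwa [Matrix.det_fin_two] at this
  have hdet' : (!![γ 0 0, 5 * γ 0 1; c, γ 1 1] : Matrix (Fin 2) (Fin 2) ℤ).det = 1 := by
    rw [Matrix.det_fin_two_of]
    rw [hc] at hdet
    push_cast at hdet
    linarith
  let γ' : SL(2, ℤ) := ⟨!![γ 0 0, 5 * γ 0 1; c, γ 1 1], hdet'⟩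
  have h00 : γ' 0 0 = γ 0 0 := rfl
  have h01 : γ' 0 1 = 5 * γ 0 1 := rfl
  have h10 : γ' 1 0 = c := rfl
  have h11 : γ' 1 1 = γ 1 1 := rfl
  ext z
  have hden : denom (γ' : GL (Fin 2) ℝ) (sc 5 z : ℂ) = denom (γ : GL (Fin 2) ℝ) (z : ℂ) := by
    have h5 : ((sc 5 z : ℍ) : ℂ) = 5 * (z : ℂ) := rfl
    rw [FE_denom, FE_denom, h10, h11, hc, h5]
    push_cast
    ring
  have hden0 := denom_ne_zero (γ : GL (Fin 2) ℝ) z
  have hpt : sc 5 (γ • z) = γ' • sc 5 z := by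
    apply UpperHalfPlane.ext
    have h5 : ((sc 5 (γ • z) : ℍ) : ℂ) = 5 * ((γ • z : ℍ) : ℂ) := rfl
    have h5' : ((sc 5 z : ℍ) : ℂ) = 5 * (z : ℂ) := rfl
    rw [h5, coe_specialLinearGroup_apply, coe_specialLinearGroup_apply, h5', h00, h01, h10, h11]
    have hd1 : ((algebraMap ℤ ℝ (γ 1 0) : ℝ) : ℂ) * z + ((algebraMap ℤ ℝ (γ 1 1) : ℝ) : ℂ) =
        ((algebraMap ℤ ℝ c : ℝ) : ℂ) * (5 * z) + ((algebraMap ℤ ℝ (γ 1 1) : ℝ) : ℂ) := by
      rw [hc]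
      simp
      ring
    rw [hd1, ← mul_div_assoc]
    congr 1
    simp
    ring
  have e1 := FE_E2 γ z
  have e2 := FE_E2 γ' (sc 5 z)
  rw [← hpt, hden, h10] at e2
  rw [ModularForm.SL_slash_apply]
  have e3 : fE (γ • z) * denom (γ : GL (Fin 2) ℝ) (z : ℂ) ^ (-2 : ℤ) =
      (5 * (EisensteinSeries.E2 (sc 5 (γ • z)) * denom (γ : GL (Fin 2) ℝ) (z : ℂ) ^ (-2 : ℤ)) -
        EisensteinSeries.E2 (γ • z) * denom (γ : GL (Fin 2) ℝ) (z : ℂ) ^ (-2 : ℤ)) / 4 := by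
    rw [fE]; ring
  rw [e3, e1, e2, fE, hc]
  push_cast
  ring

lemma FE_bdd_D2 (γ : SL(2, ℤ)) : IsBoundedAtImInfty (EisensteinSeries.D2 γ) := by
  rw [isBoundedAtImInfty_iff]
  refine ⟨2 * Real.pi, 1, fun z hz => ?_⟩
  have h0 : EisensteinSeries.D2 γ z =
      2 * Real.pi * Complex.I * ((γ 1 0 : ℤ) : ℂ) / denom (γ : GL (Fin 2) ℝ) (z : ℂ) := rfl
  have hden0 := denom_ne_zero (γ : GL (Fin 2) ℝ) z
  have hpos : 0 < ‖denom (γ : GL (Fin 2) ℝ) (z : ℂ)‖ := norm_pos_iff.2 hden0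
  rw [h0, norm_div, div_le_iff₀ hpos]
  have hn : ‖2 * (Real.pi : ℂ) * Complex.I * ((γ 1 0 : ℤ) : ℂ)‖ =
      2 * Real.pi * |((γ 1 0 : ℤ) : ℝ)| := by
    rw [norm_mul, norm_mul, norm_mul, Complex.norm_I, Complex.norm_real, Complex.norm_intCast,
      Real.norm_of_nonneg Real.pi_pos.le]
    simp
  rw [hn]
  have h2 : (0 : ℝ) ≤ 2 * Real.pi := by positivity
  refine mul_le_mul_of_nonneg_left ?_ h2
  have him : (denom (γ : GL (Fin 2) ℝ) (z : ℂ)).im = ((γ 1 0 : ℤ) : ℝ) * z.im := by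
    rw [FE_denom]
    simp
  calc |((γ 1 0 : ℤ) : ℝ)| = |((γ 1 0 : ℤ) : ℝ)| * 1 := (mul_one _).symm
    _ ≤ |((γ 1 0 : ℤ) : ℝ)| * |z.im| := by
        refine mul_le_mul_of_nonneg_left ?_ (abs_nonneg _)
        rw [abs_of_pos z.im_pos]; exact hz
    _ = |(denom (γ : GL (Fin 2) ℝ) (z : ℂ)).im| := by rw [him, abs_mul]
    _ ≤ ‖denom (γ : GL (Fin 2) ℝ) (z : ℂ)‖ := Complex.abs_im_le_norm _

lemma FE_bdd_E2 (γ : SL(2, ℤ)) : IsBoundedAtImInfty (EisensteinSeries.E2 ∣[(2 : ℤ)] γ) := by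
  rw [EisensteinSeries.E2_slash_action, sub_eq_add_neg]
  refine Filter.BoundedAtFilter.add EisensteinSeries.isBoundedAtImInfty_E2 ?_
  exact Filter.BoundedAtFilter.neg (Filter.BoundedAtFilter.smul _ (FE_bdd_D2 γ))

lemma FE_scale : (fun z => EisensteinSeries.E2 (sc 5 z)) =
    (1 / 5 : ℂ) • (EisensteinSeries.E2 ∣[(2 : ℤ)] tri ((5 : ℕ+) : ℕ) 0 1 (by
      have : (0 : ℝ) < (((5 : ℕ+) : ℕ) : ℝ) := by exact_mod_cast (5 : ℕ+).pos
      simp)) := by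
  rw [scale_slash EisensteinSeries.E2 2 5]
  ext z
  simp only [Pi.smul_apply, smul_eq_mul]
  congr 1
  norm_num

lemma FE_eq : fE = (1 / 4 : ℂ) • (EisensteinSeries.E2 ∣[(2 : ℤ)] tri ((5 : ℕ+) : ℕ) 0 1 (by
      have : (0 : ℝ) < (((5 : ℕ+) : ℕ) : ℝ) := by exact_mod_cast (5 : ℕ+).pos
      simp)) - (1 / 4 : ℂ) • EisensteinSeries.E2 := by
  ext z
  have h := congrFun FE_scale z
  simp only [Pi.smul_apply, smul_eq_mul] at h
  simp only [Pi.sub_apply, Pi.smul_apply, smul_eq_mul, fE]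
  rw [h]
  ring

theorem fE_bdd (γ : SL(2, ℤ)) : IsBoundedAtImInfty (fE ∣[(2 : ℤ)] γ) := by
  rw [FE_eq, sub_eq_add_neg, SlashAction.add_slash, SlashAction.neg_slash,
    ModularForm.SL_smul_slash, ModularForm.SL_smul_slash]
  refine Filter.BoundedAtFilter.add (Filter.BoundedAtFilter.smul _ ?_)
    (Filter.BoundedAtFilter.neg (Filter.BoundedAtFilter.smul _ (FE_bdd_E2 γ)))
  rw [ModularForm.SL_slash, ← SlashAction.slash_mul]
  refine bdd_int FE_bdd_E2 _ (!![5, 0; 0, 1] * (γ : Matrix (Fin 2) (Fin 2) ℤ)) ?_ ?_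
  · intro i j
    rw [Matrix.GeneralLinearGroup.coe_mul, Matrix.mul_apply, Matrix.mul_apply]
    simp only [Fin.sum_univ_two]
    fin_cases i <;> fin_cases j <;> simp [tri]
  · rw [Matrix.det_mul, γ.det_coe, Matrix.det_fin_two_of]
    norm_num

theorem fE_mdiff : MDiff fE := by
  rw [FE_eq]
  exact ((E2_mdifferentiable.slash 2 _).const_smul _).sub (E2_mdifferentiable.const_smul _)

end Pool.Agent.B5
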