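import Pool.Agent.B5.EQ1

/-!
B5 / FH1: the multiplier of eta^4 is trivial on Gamma(6).

Let h(z) = eta(z)^4. h(z+1) = exp(2 pi i/6) h(z), h(-1/z) = (z/i)^2 h(z) = -z^2 h(z). So h |_2 T = zeta h (zeta = exp(2 pi i/6)),
h |_2 S = -h, and for all gamma in SL(2,Z): h |_2 gamma = kappa(gamma) h with kappa(gamma)^6 = 1 (generators S, T).
kappa is a homomorphism SL(2,Z) -> C^*. Claim: kappa(gamma) = 1 if gamma = 1 mod 6 (`eta4_slash`).
kappa^3 : T -> -1, S -> -1. There is a homomorphism s2 : SL(2, ZMod 2) -> {1,-1} (the sign of S_3) with s2 T = s2 S = -1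
(define it as 1 on 1 and on the two elements of trace 1, else -1; multiplicativity by `decide`), so kappa^3 = s2 o (mod 2).
kappa^2 : T -> zeta^2 =: w (a primitive cube root of unity), S -> 1. There is a homomorphism s3 : SL(2, ZMod 3) -> ZMod 3 (additive) with
s3 T = 1, s3 S = 0, for instance s3 (a b; c d) = (a + d) c - b d (c^2 - 1) (check it by `decide`, or use another formula),
so kappa^2 = w ^ s3 (mod 3). If gamma = 1 mod 6 then kappa^3 = kappa^2 = 1, so kappa = 1.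
-/

set_option autoImplicit false

namespace Pool.Agent.B5

open PowerSeries UpperHalfPlane
open scoped MatrixGroups ModularForm Manifold

namespace FH1

/-- the sign character of `SL(2, ZMod 2)` in coordinates -/
def s2 (a b c d : ZMod 2) : ℤ :=
  if (a = 1 ∧ b = 0 ∧ c = 0 ∧ d = 1) ∨ a + d = 1 then 1 else -1

/-- the additive character of `SL(2, ZMod 3)` in coordinates -/
def s3 (a b c d : ZMod 3) : ZMod 3 := (a + d) * c - b * d * (c ^ 2 - 1)

theorem s2_mul : ∀ a b c d a' b' c' d' : ZMod 2, a * d - b * c = 1 → a' * d' - b' * c' = 1 →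
    s2 (a * a' + b * c') (a * b' + b * d') (c * a' + d * c') (c * b' + d * d') =
      s2 a b c d * s2 a' b' c' d' := by
  decide

theorem s3_mul : ∀ a b c d a' b' c' d' : ZMod 3, a * d - b * c = 1 → a' * d' - b' * c' = 1 →
    s3 (a * a' + b * c') (a * b' + b * d') (c * a' + d * c') (c * b' + d * d') =
      s3 a b c d + s3 a' b' c' d' := by
  decide +kernel

/-- the cube root of unity `exp (- 2 π i / 3)` -/
noncomputable def w : ℂ := Complex.exp (- (2 * Real.pi * Complex.I / 3))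

theorem w_pow : w ^ 3 = 1 := by
  rw [w, ← Complex.exp_nat_mul, Complex.exp_eq_one_iff]
  refine ⟨-1, ?_⟩
  push_cast
  ring

theorem neg_w : - w = Complex.exp (2 * Real.pi * Complex.I / 6) := by
  have h1 : (-1 : ℂ) = Complex.exp (Real.pi * Complex.I) := Complex.exp_pi_mul_I.symm
  have h2 : - w = (-1) * w := by ring
  rw [h2, h1, w, ← Complex.exp_add]
  congr 1
  ring

theorem w_val_add (x y : ZMod 3) : w ^ (x + y).val = w ^ x.val * w ^ y.val := by
  rw [← pow_add, ZMod.val_add]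
  have h : w ^ (x.val + y.val) = w ^ ((x.val + y.val) % 3 + 3 * ((x.val + y.val) / 3)) := by
    rw [Nat.mod_add_div]
  rw [h, pow_add, pow_mul, w_pow, one_pow, mul_one]

/-- the multiplier of `η ^ 4` -/
noncomputable def kap (γ : SL(2, ℤ)) : ℂ :=
  ((s2 (γ 0 0 : ZMod 2) (γ 0 1 : ZMod 2) (γ 1 0 : ZMod 2) (γ 1 1 : ZMod 2) : ℤ) : ℂ) *
    w ^ (s3 (γ 0 0 : ZMod 3) (γ 0 1 : ZMod 3) (γ 1 0 : ZMod 3) (γ 1 1 : ZMod 3)).val

theorem det_cast (n : ℕ) (γ : SL(2, ℤ)) :
    (γ 0 0 : ZMod n) * (γ 1 1 : ZMod n) - (γ 0 1 : ZMod n) * (γ 1 0 : ZMod n) = 1 := by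
  have h : γ 0 0 * γ 1 1 - γ 0 1 * γ 1 0 = 1 := by
    have := γ.det_coe
    rw [Matrix.det_fin_two] at this
    exact this
  have h2 : ((γ 0 0 * γ 1 1 - γ 0 1 * γ 1 0 : ℤ) : ZMod n) = ((1 : ℤ) : ZMod n) := by rw [h]
  push_cast at h2
  exact h2

theorem kap_mul (γ δ : SL(2, ℤ)) : kap (γ * δ) = kap γ * kap δ := by
  have e : ∀ i j : Fin 2, (γ * δ) i j = γ i 0 * δ 0 j + γ i 1 * δ 1 j := by
    intro i j
    rw [Matrix.SpecialLinearGroup.coe_mul, Matrix.mul_apply, Fin.sum_univ_two]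
  have h2 := s2_mul _ _ _ _ _ _ _ _ (det_cast 2 γ) (det_cast 2 δ)
  have h3 := s3_mul _ _ _ _ _ _ _ _ (det_cast 3 γ) (det_cast 3 δ)
  unfold kap
  rw [e 0 0, e 0 1, e 1 0, e 1 1]
  push_cast
  rw [h2, h3, w_val_add]
  push_cast
  ring

theorem kap_one : kap 1 = 1 := by
  have h2 : s2 1 0 0 1 = 1 := by decide
  have h3 : s3 1 0 0 1 = 0 := by decide
  unfold kap
  simp [h2, h3]

theorem kap_of_mem (γ : SL(2, ℤ)) (h : γ ∈ CongruenceSubgroup.Gamma 6) : kap γ = 1 := by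
  rw [CongruenceSubgroup.Gamma_mem] at h
  obtain ⟨h1, h2, h3, h4⟩ := h
  have key : ∀ (n : ℕ), n ∣ 6 → ∀ a b : ℤ, (a : ZMod 6) = (b : ZMod 6) → (a : ZMod n) = (b : ZMod n) := by
    intro n hn a b hab
    rw [ZMod.intCast_eq_intCast_iff_dvd_sub] at hab ⊢
    exact dvd_trans (by exact_mod_cast hn) hab
  have d2 : (2 : ℕ) ∣ 6 := by norm_num
  have d3 : (3 : ℕ) ∣ 6 := by norm_num
  have a1 := key 2 d2 (γ 0 0) 1 (by simpa using h1)
  have a2 := key 2 d2 (γ 0 1) 0 (by simpa using h2)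
  have a3 := key 2 d2 (γ 1 0) 0 (by simpa using h3)
  have a4 := key 2 d2 (γ 1 1) 1 (by simpa using h4)
  have b1 := key 3 d3 (γ 0 0) 1 (by simpa using h1)
  have b2 := key 3 d3 (γ 0 1) 0 (by simpa using h2)
  have b3 := key 3 d3 (γ 1 0) 0 (by simpa using h3)
  have b4 := key 3 d3 (γ 1 1) 1 (by simpa using h4)
  have c2 : s2 1 0 0 1 = 1 := by decide
  have c3 : s3 1 0 0 1 = 0 := by decide
  unfold kap
  rw [a1, a2, a3, a4, b1, b2, b3, b4]
  simp [c2, c3]

/-- `η ^ 4` -/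
noncomputable def h4 : ℍ → ℂ := fun z => ModularForm.eta z ^ 4

theorem h4_T : h4 ∣[(2 : ℤ)] ModularGroup.T = kap ModularGroup.T • h4 := by
  have hk : kap ModularGroup.T = Complex.exp (2 * Real.pi * Complex.I / 6) := by
    have c2 : s2 1 1 0 1 = -1 := by decide
    have c3 : (s3 1 1 0 1).val = 1 := by decide
    unfold kap
    rw [← neg_w]
    simp [ModularGroup.T, c2, c3]
  ext z
  rw [hk, ModularForm.SL_slash_apply, ModularGroup.denom_apply, modular_T_smul]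
  simp only [h4, Pi.smul_apply, smul_eq_mul]
  have h1 : ModularForm.eta ((((1 : ℝ) +ᵥ z : ℍ)) : ℂ) =
      Complex.exp (2 * Real.pi * Complex.I / 24) * ModularForm.eta z := by
    have : ((((1 : ℝ) +ᵥ z : ℍ)) : ℂ) = (z : ℂ) + 1 := by
      rw [UpperHalfPlane.coe_vadd]
      push_cast
      ring
    rw [this, eta_add_one]
  rw [h1, mul_pow, ← Complex.exp_nat_mul]
  have h2 : ((4 : ℕ) : ℂ) * (2 * Real.pi * Complex.I / 24) = 2 * Real.pi * Complex.I / 6 := by
    push_cast; ring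
  rw [h2]
  simp [ModularGroup.T]

theorem h4_S : h4 ∣[(2 : ℤ)] ModularGroup.S = kap ModularGroup.S • h4 := by
  have hk : kap ModularGroup.S = -1 := by
    have c2 : s2 0 1 1 0 = -1 := by decide
    have c3 : (s3 0 (-1) 1 0).val = 0 := by decide
    unfold kap
    simp [ModularGroup.S, c2, c3]
  ext z
  rw [hk, ModularForm.SL_slash_apply, UpperHalfPlane.modular_S_smul]
  simp only [h4, Pi.smul_apply, smul_eq_mul]
  have h1 : ModularForm.eta ((UpperHalfPlane.mk (-(z : ℂ))⁻¹ z.im_inv_neg_coe_pos : ℍ) : ℂ) ^ 4 =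
      - (z : ℂ) ^ 2 * ModularForm.eta z ^ 4 := by
    rw [← eta_neg_inv_pow4]
    simp [inv_neg]
  rw [h1, ModularGroup.denom_S]
  have hz : (z : ℂ) ≠ 0 := z.ne_zero
  rw [zpow_neg]
  have : ((z : ℂ) ^ (2 : ℤ)) = (z : ℂ) ^ 2 := by norm_cast
  rw [this]
  field_simp

theorem h4_slash (γ : SL(2, ℤ)) : h4 ∣[(2 : ℤ)] γ = kap γ • h4 := by
  have hmem : γ ∈ Subgroup.closure ({ModularGroup.S, ModularGroup.T} : Set SL(2, ℤ)) := by
    rw [SpecialLinearGroup.SL2Z_generators]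
    exact Subgroup.mem_top γ
  induction hmem using Subgroup.closure_induction with
  | mem x hx =>
    rcases hx with rfl | rfl
    · exact h4_S
    · exact h4_T
  | one => rw [SlashAction.slash_one, kap_one, one_smul]
  | mul x y _ _ hx hy =>
    rw [SlashAction.slash_mul, hx, ModularForm.SL_smul_slash, hy, smul_smul, kap_mul]
  | inv x _ hx =>
    have h1 : (h4 ∣[(2 : ℤ)] x) ∣[(2 : ℤ)] x⁻¹ = h4 := by
      rw [← SlashAction.slash_mul, mul_inv_cancel, SlashAction.slash_one]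
    have h2 : kap x * kap x⁻¹ = 1 := by rw [← kap_mul, mul_inv_cancel, kap_one]
    rw [hx, ModularForm.SL_smul_slash] at h1
    have h3 : kap x⁻¹ • (kap x • h4 ∣[(2 : ℤ)] x⁻¹) = kap x⁻¹ • h4 := by rw [h1]
    rw [smul_smul, mul_comm, h2, one_smul] at h3
    exact h3

theorem h4_bdd : IsBoundedAtImInfty h4 := by
  have h0 := ModularForm.discriminant_isZeroAtImInfty
  have h1 := h0.isBoundedAtImInfty
  rw [UpperHalfPlane.isBoundedAtImInfty_iff] at h1 ⊢
  obtain ⟨M, A, hM⟩ := h1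
  refine ⟨max M 1, A, fun z hz => ?_⟩
  have h2 := hM z hz
  by_contra hcon
  push Not at hcon
  have h3 : ‖h4 z‖ ^ 6 ≤ M := by
    have : ‖h4 z‖ ^ 6 = ‖ModularForm.discriminant z‖ := by
      rw [← norm_pow]
      congr 1
      simp only [h4, ModularForm.discriminant]
      ring
    rw [this]
    exact h2
  have h4' : (1 : ℝ) ≤ ‖h4 z‖ := le_trans (le_max_right _ _) hcon.le
  have h5 : ‖h4 z‖ ≤ ‖h4 z‖ ^ 6 := le_self_pow₀ h4' (by norm_num)
  have h6 : M < ‖h4 z‖ := lt_of_le_of_lt (le_max_left _ _) hcon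
  linarith

end FH1

theorem eta4_slash (γ : SL(2, ℤ)) (h : γ ∈ CongruenceSubgroup.Gamma 6) :
    (fun z : ℍ => ModularForm.eta z ^ 4) ∣[(2 : ℤ)] γ = fun z : ℍ => ModularForm.eta z ^ 4 := by
  have := FH1.h4_slash γ
  rw [FH1.kap_of_mem γ h, one_smul] at this
  exact this

theorem eta4_bdd (γ : SL(2, ℤ)) :
    IsBoundedAtImInfty ((fun z : ℍ => ModularForm.eta z ^ 4) ∣[(2 : ℤ)] γ) := by
  have h1 : (fun z : ℍ => ModularForm.eta z ^ 4) ∣[(2 : ℤ)] γ = FH1.kap γ • FH1.h4 := FH1.h4_slash γ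
  rw [h1]
  exact (Filter.const_boundedAtFilter _ (FH1.kap γ)).mul FH1.h4_bdd

end Pool.Agent.B5
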