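import Pool.Agent.B5.FH1
import Pool.Agent.B5.TR
import Pool.Agent.B5.MO

/-!
B5 / FH2: fH(z) = eta(6z)^4 is modular of weight 2 on Gamma1(36).

For gamma = (a b; c d) in Gamma1(36): 6 * gamma z = gamma' (6z), gamma' = (a, 6b; c/6, d) = 1 mod 6, and
c z + d = (c/6)(6z) + d. Boundedness: `scale_slash`, `bdd_int`, `eta4_bdd`.
-/

set_option autoImplicit false

namespace Pool.Agent.B5

open PowerSeries UpperHalfPlane
open scoped MatrixGroups ModularForm Manifold

theorem MF_fH : MF 36 2 fH := by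
  have e0 : fH = fun z => (fun w : ℍ => ModularForm.eta w ^ 4) (sc 6 z) := rfl
  rw [e0]
  have hm : MDiff (fun w : ℍ => ModularForm.eta w ^ 4) := eta_mdiff.pow 4
  refine ⟨scale_mdiff (h := fun w : ℍ => ModularForm.eta w ^ 4) hm 6, ?_,
    scale_bdd (h := fun w : ℍ => ModularForm.eta w ^ 4) (fun γ => eta4_bdd γ) 6⟩
  · intro γ hγ
    rw [CongruenceSubgroup.Gamma1_mem] at hγ
    obtain ⟨h1, h2, h3⟩ := hγ
    have key : ∀ x y : ℤ, (x : ZMod 36) = (y : ZMod 36) → (x : ZMod 6) = (y : ZMod 6) := by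
      intro x y hxy
      rw [ZMod.intCast_eq_intCast_iff_dvd_sub] at hxy ⊢
      exact Dvd.dvd.trans (by norm_num) hxy
    rw [ZMod.intCast_zmod_eq_zero_iff_dvd] at h3
    obtain ⟨c0, hc0⟩ := h3
    have hc : γ 1 0 = ((6 : ℕ+) : ℕ) * (6 * c0) := by
      rw [hc0]
      have : (((6 : ℕ+) : ℕ) : ℤ) = 6 := rfl
      rw [this]
      push_cast
      ring
    obtain ⟨γ', g00, g01, g10, g11, hs⟩ :=
      scale_conj (fun w : ℍ => ModularForm.eta w ^ 4) 2 6 γ _ hc
    have hmem : γ' ∈ CongruenceSubgroup.Gamma 6 := by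
      rw [CongruenceSubgroup.Gamma_mem, g00, g11, g10, g01]
      refine ⟨?_, ?_, ?_, ?_⟩
      · have := key _ 1 (by rw [h1]; simp)
        simpa using this
      · have : (((6 : ℕ+) : ℕ) : ℤ) = 6 := rfl
        rw [this, ZMod.intCast_zmod_eq_zero_iff_dvd]
        exact Dvd.intro _ rfl
      · rw [ZMod.intCast_zmod_eq_zero_iff_dvd]
        exact Dvd.intro _ rfl
      · have := key _ 1 (by rw [h2]; simp)
        simpa using this
    funext z
    rw [hs z, eta4_slash γ' hmem]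

end Pool.Agent.B5
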