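import Pool.Agent.B5.SV
import Pool.Agent.B5.FH2
import Pool.Agent.B5.MO

/-!
B5 / FO: the integral form. Lift G of `sieve` to G' over the integers, homogeneous of degree d = (p^2-3)/2 (lift the coefficients on the support).
The function fH(z) * G'(fa(6z), fb(6z), fE(6z)) is in MF 180 (2 + 2 d), 2 + 2d = p^2 - 1: fa, fb, fE are MF 5 2 (for gamma in Gamma1(5) the lower right entry is
1 mod 5, jacobiSym 1), MF.scale gives MF 30 2, MF.mono; fH is MF 36 2. Its q-expansion is X * expand 6 (phi^4 * G'(sa, sb, sE)) (hasQ_fH, HasQ.scale,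
...), so the coefficient 6 n + 1 is that of phi^4 * G'(sa,sb,sE) at n.
`form_five`: fH itself, weight 2, level 36; sB * sa = phi^4 and sa = phi^5/phi(X^5) = 1 mod 5 (Frobenius: phi^5 = phi(X^5) in ZMod 5).
-/

set_option autoImplicit false

namespace Pool.Agent.B5

open PowerSeries UpperHalfPlane
open scoped MatrixGroups ModularForm Manifold

private theorem FO_jac {γ : SL(2, ℤ)} (h : γ ∈ CongruenceSubgroup.Gamma1 5) :
    γ ∈ CongruenceSubgroup.Gamma0 5 ∧ jacobiSym (γ 1 1) 5 = 1 := by
  rw [CongruenceSubgroup.Gamma1_mem] at h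
  refine ⟨?_, ?_⟩
  · rw [CongruenceSubgroup.Gamma0_mem]
    exact h.2.2
  · have h1 : (γ 1 1) % 5 = 1 := by
      have h2 : ((γ 1 1 : ℤ) : ZMod 5) = ((1 : ℤ) : ZMod 5) := by
        rw [h.2.1]
        norm_num
      have h3 := (ZMod.intCast_eq_intCast_iff _ _ 5).1 h2
      exact h3
    rw [jacobiSym.mod_left]
    push_cast
    rw [h1, jacobiSym.one_left]

private theorem FO_fa : MF 5 2 fa where
  holo := fa_mdiff
  inv := fun γ h => by
    obtain ⟨h1, h2⟩ := FO_jac h
    rw [fa_slash γ h1, h2]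
    funext z
    simp
  bdd := fa_bdd

private theorem FO_fb : MF 5 2 fb where
  holo := fb_mdiff
  inv := fun γ h => by
    obtain ⟨h1, h2⟩ := FO_jac h
    rw [fb_slash γ h1, h2]
    funext z
    simp
  bdd := fb_bdd

private theorem FO_fE : MF 5 2 fE where
  holo := fE_mdiff
  inv := fun γ h => fE_slash γ (FO_jac h).1
  bdd := fE_bdd

private theorem FO_wt {N : ℕ} {k l : ℤ} {g : ℍ → ℂ} (h : MF N k g) (e : k = l) : MF N l g := by
  subst e
  exact h

private theorem FO_toC_mul (a b : ℤ⟦X⟧) : toC (a * b) = toC a * toC b := map_mul _ a b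

private theorem FO_toC_add (a b : ℤ⟦X⟧) : toC (a + b) = toC a + toC b := map_add _ a b

private theorem FO_toC_pow (a : ℤ⟦X⟧) (n : ℕ) : toC (a ^ n) = toC a ^ n := map_pow _ a n

private theorem FO_toC_int (c : ℤ) : toC ((c : ℤ⟦X⟧)) = PowerSeries.C (c : ℂ) := by
  have h1 : toC ((c : ℤ⟦X⟧)) = (c : ℂ⟦X⟧) := map_intCast (PowerSeries.map (Int.castRingHom ℂ)) c
  rw [h1, map_intCast]

private theorem FO_toC_zero : toC 0 = 0 := map_zero (PowerSeries.map (Int.castRingHom ℂ))

private theorem FO_mono (m : Fin 3 →₀ ℕ) (c : ℤ) {d : ℕ} (hd : m 0 + m 1 + m 2 = d) :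
    MF 5 (2 * d : ℤ) (fun z => MvPolynomial.aeval ![fa z, fb z, fE z]
      (MvPolynomial.monomial m c : MvPolynomial (Fin 3) ℤ)) ∧
    HasQ (fun z => MvPolynomial.aeval ![fa z, fb z, fE z]
      (MvPolynomial.monomial m c : MvPolynomial (Fin 3) ℤ))
      (toC (MvPolynomial.aeval ![sa, sb, sE]
        (MvPolynomial.monomial m c : MvPolynomial (Fin 3) ℤ))) := by
  have e1 : ∀ z, MvPolynomial.aeval ![fa z, fb z, fE z]
      (MvPolynomial.monomial m c : MvPolynomial (Fin 3) ℤ) =
      (c : ℂ) * (fa z ^ m 0 * fb z ^ m 1 * fE z ^ m 2) := by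
    intro z
    rw [MvPolynomial.aeval_monomial, Finsupp.prod_fintype _ _ (fun i => pow_zero _),
      Fin.prod_univ_three]
    rfl
  have e2 : MvPolynomial.aeval ![sa, sb, sE]
      (MvPolynomial.monomial m c : MvPolynomial (Fin 3) ℤ) =
      (c : ℤ⟦X⟧) * (sa ^ m 0 * sb ^ m 1 * sE ^ m 2) := by
    rw [MvPolynomial.aeval_monomial, Finsupp.prod_fintype _ _ (fun i => pow_zero _),
      Fin.prod_univ_three, eq_intCast]
    rfl
  have e3 : (fun z => MvPolynomial.aeval ![fa z, fb z, fE z]
      (MvPolynomial.monomial m c : MvPolynomial (Fin 3) ℤ)) =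
      fun z => (c : ℂ) * (fa z ^ m 0 * fb z ^ m 1 * fE z ^ m 2) := funext e1
  rw [e3, e2]
  constructor
  · refine FO_wt ((((FO_fa.pow (m 0)).mul (FO_fb.pow (m 1))).mul (FO_fE.pow (m 2))).smul (c : ℂ)) ?_
    rw [← hd]
    push_cast
    ring
  · rw [FO_toC_mul, FO_toC_mul, FO_toC_mul, FO_toC_pow, FO_toC_pow, FO_toC_pow, FO_toC_int]
    exact (HasQ.const (c : ℂ)).mul (((hasQ_fa.pow (m 0)).mul (hasQ_fb.pow (m 1))).mul
      (hasQ_fE.pow (m 2)))

private theorem FO_poly (G : MvPolynomial (Fin 3) ℤ) {d : ℕ} (hG : G.IsHomogeneous d) :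
    MF 5 (2 * d : ℤ) (fun z => MvPolynomial.aeval ![fa z, fb z, fE z] G) ∧
    HasQ (fun z => MvPolynomial.aeval ![fa z, fb z, fE z] G)
      (toC (MvPolynomial.aeval ![sa, sb, sE] G)) := by
  classical
  have key : ∀ s : Finset (Fin 3 →₀ ℕ), s ⊆ G.support →
      MF 5 (2 * d : ℤ) (fun z => MvPolynomial.aeval ![fa z, fb z, fE z]
        (∑ m ∈ s, MvPolynomial.monomial m (MvPolynomial.coeff m G))) ∧
      HasQ (fun z => MvPolynomial.aeval ![fa z, fb z, fE z]
        (∑ m ∈ s, MvPolynomial.monomial m (MvPolynomial.coeff m G)))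
        (toC (MvPolynomial.aeval ![sa, sb, sE]
          (∑ m ∈ s, MvPolynomial.monomial m (MvPolynomial.coeff m G)))) := by
    intro s
    induction s using Finset.induction_on with
    | empty =>
      intro _
      simp only [Finset.sum_empty, map_zero, FO_toC_zero]
      refine ⟨MF.zero _ _, ?_⟩
      have h := HasQ.const 0
      rw [map_zero] at h
      exact h
    | insert m s hm ih =>
      intro hs
      obtain ⟨i1, i2⟩ := ih fun x hx => hs (Finset.mem_insert_of_mem hx)
      have hms : m ∈ G.support := hs (Finset.mem_insert_self _ _)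
      have hdeg : m 0 + m 1 + m 2 = d := by
        have h1 := hG (MvPolynomial.mem_support_iff.1 hms)
        rw [Finsupp.weight_apply, Finsupp.sum_fintype _ _ (fun i => by simp)] at h1
        simpa [Fin.sum_univ_three] using h1
      obtain ⟨j1, j2⟩ := FO_mono m (MvPolynomial.coeff m G) hdeg
      simp only [Finset.sum_insert hm, map_add, FO_toC_add]
      exact ⟨j1.add i1, j2.add i2⟩
  have h := key G.support subset_rfl
  have hsum : ∑ m ∈ G.support, MvPolynomial.monomial m (MvPolynomial.coeff m G) = G :=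
    (MvPolynomial.as_sum G).symm
  rw [hsum] at h
  exact h

private theorem FO_lift (p : ℕ) [Fact p.Prime] (G : MvPolynomial (Fin 3) (ZMod p)) {d : ℕ}
    (hG : G.IsHomogeneous d) : ∃ G' : MvPolynomial (Fin 3) ℤ, G'.IsHomogeneous d ∧
      MvPolynomial.map (Int.castRingHom (ZMod p)) G' = G := by
  classical
  refine ⟨∑ m ∈ G.support, MvPolynomial.monomial m (((MvPolynomial.coeff m G).val : ℤ)), ?_, ?_⟩
  · refine MvPolynomial.IsHomogeneous.sum _ _ _ fun m hm => ?_
    refine MvPolynomial.isHomogeneous_monomial _ ?_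
    have h1 := hG (MvPolynomial.mem_support_iff.1 hm)
    rw [Finsupp.weight_apply, Finsupp.sum_fintype _ _ (fun i => by simp)] at h1
    rw [Finsupp.degree_eq_sum]
    simpa using h1
  · rw [map_sum]
    conv_rhs => rw [MvPolynomial.as_sum G]
    refine Finset.sum_congr rfl fun m _ => ?_
    rw [MvPolynomial.map_monomial]
    congr 1
    simp

private theorem FO_red_aeval (p : ℕ) [Fact p.Prime] (G : MvPolynomial (Fin 3) ℤ) :
    red p (MvPolynomial.aeval ![sa, sb, sE] G) =
      MvPolynomial.aeval ![red p sa, red p sb, red p sE]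
        (MvPolynomial.map (Int.castRingHom (ZMod p)) G) := by
  induction G using MvPolynomial.induction_on with
  | C a =>
    rw [MvPolynomial.map_C, MvPolynomial.aeval_C, MvPolynomial.aeval_C, eq_intCast, eq_intCast,
      map_intCast]
    exact map_intCast (PowerSeries.map (Int.castRingHom (ZMod p))) a
  | add a b ha hb =>
    rw [map_add, map_add, map_add, ← ha, ← hb]
    exact map_add (PowerSeries.map (Int.castRingHom (ZMod p))) _ _
  | mul_X a i ha =>
    rw [map_mul, map_mul, map_mul, ← ha, MvPolynomial.map_X, MvPolynomial.aeval_X,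
      MvPolynomial.aeval_X]
    have h : (![red p sa, red p sb, red p sE] : Fin 3 → (ZMod p)⟦X⟧) i =
        red p ((![sa, sb, sE] : Fin 3 → ℤ⟦X⟧) i) := by
      fin_cases i <;> rfl
    rw [h]
    exact map_mul (PowerSeries.map (Int.castRingHom (ZMod p))) _ _

private theorem FO_exp (c : ℤ⟦X⟧) : toC (PowerSeries.expand 6 (by norm_num) c) =
    PowerSeries.expand 6 (by norm_num) (toC c) :=
  PowerSeries.map_expand _ _ _ _

private theorem FO_toC_X : toC PowerSeries.X = PowerSeries.X :=
  PowerSeries.map_X _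

private theorem FO_coeff (c : ℤ⟦X⟧) (n : ℕ) :
    PowerSeries.coeff (6 * n + 1) (PowerSeries.X * PowerSeries.expand 6 (by norm_num) c) =
      PowerSeries.coeff n c := by
  rw [PowerSeries.coeff_succ_X_mul, PowerSeries.coeff_expand_mul]

theorem form_gt (p : ℕ) [Fact p.Prime] (hp : 5 < p) :
    ∃ c ∈ LL 180 (p ^ 2 - 1), ∀ n : ℕ, ((PowerSeries.coeff (6 * n + 1) c : ℤ) : ZMod p) =
        (((legendreSym p (6 * n + 1)) ^ 2 - legendreSym p (-5) * legendreSym p (6 * n + 1) : ℤ) : ZMod p)
          * (b5 n : ZMod p) := by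
  obtain ⟨G, hG, hco⟩ := sieve p hp
  obtain ⟨G', hG', hmap⟩ := FO_lift p G hG
  obtain ⟨h1, h2⟩ := FO_poly G' hG'
  set d : ℕ := (p ^ 2 - 3) / 2 with hd
  set S : ℤ⟦X⟧ := MvPolynomial.aeval ![sa, sb, sE] G' with hS
  refine ⟨PowerSeries.X * PowerSeries.expand 6 (by norm_num) (phi ^ 4 * S), ?_, ?_⟩
  · refine ⟨fun z => fH z * (MvPolynomial.aeval ![fa (sc 6 z), fb (sc 6 z), fE (sc 6 z)] G'), ?_, ?_⟩
    · have h3 : MF 180 (2 * d : ℤ)
          (fun z => MvPolynomial.aeval ![fa (sc 6 z), fb (sc 6 z), fE (sc 6 z)] G') :=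
        (h1.scale 6).mono (by
          show 5 * 6 ∣ 180
          norm_num)
      have h4 : MF 180 2 fH := MF_fH.mono (by norm_num)
      refine FO_wt (h4.mul h3) ?_
      have h5 : 2 * d = p ^ 2 - 3 := by
        have hodd : p % 2 = 1 := by
          rcases (Fact.out : p.Prime).eq_two_or_odd with h | h
          · omega
          · exact h
        have h6 : p ^ 2 % 2 = 1 := by
          rw [Nat.pow_mod, hodd]
        have h7 : 9 ≤ p ^ 2 := by nlinarith
        omega
      have h7 : 9 ≤ p ^ 2 := by nlinarith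
      have h8 : ((p ^ 2 - 1 : ℕ) : ℤ) = ((2 + 2 * d : ℕ) : ℤ) := by
        congr 1
        omega
      rw [h8]
      push_cast
      ring
    · have h3 : HasQ (fun z => MvPolynomial.aeval ![fa (sc 6 z), fb (sc 6 z), fE (sc 6 z)] G')
          (PowerSeries.expand 6 (by norm_num) (toC S)) := h2.scale 6
      have h4 := hasQ_fH.mul h3
      have e : toC (PowerSeries.X * PowerSeries.expand 6 (by norm_num) (phi ^ 4 * S)) =
          PowerSeries.X * PowerSeries.expand 6 (by norm_num) (toC phi) ^ 4 *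
            PowerSeries.expand 6 (by norm_num) (toC S) := by
        rw [FO_toC_mul, FO_toC_X, FO_exp, FO_toC_mul, FO_toC_pow, map_mul, map_pow]
        ring
      rw [e]
      exact h4
  · intro n
    rw [FO_coeff, ← hco n, ← hmap]
    have h3 : red p (phi ^ 4 * S) = red p phi ^ 4 *
        MvPolynomial.aeval ![red p sa, red p sb, red p sE]
          (MvPolynomial.map (Int.castRingHom (ZMod p)) G') := by
      rw [← FO_red_aeval]
      show PowerSeries.map (Int.castRingHom (ZMod p)) (phi ^ 4 * S) = _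
      rw [map_mul, map_pow]
      rfl
    rw [← h3]
    show _ = PowerSeries.coeff n (PowerSeries.map (Int.castRingHom (ZMod p)) (phi ^ 4 * S))
    rw [PowerSeries.coeff_map]
    rfl

private theorem FO_frob (c : (ZMod 5)⟦X⟧) :
    PowerSeries.expand 5 (by norm_num) c = c ^ 5 := by
  haveI : Fact (Nat.Prime 5) := ⟨by norm_num⟩
  have h := MvPowerSeries.map_frobenius_expand (σ := Unit) (R := ZMod 5) 5 (by norm_num) (f := c)
  have h1 : frobenius (ZMod 5) 5 = RingHom.id (ZMod 5) := by
    ext x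
    simp [frobenius_def, ZMod.pow_card]
  rw [h1, MvPowerSeries.map_id] at h
  exact h

theorem form_five : ∃ c ∈ LL 36 2, ∀ n : ℕ, ((PowerSeries.coeff (6 * n + 1) c : ℤ) : ZMod 5) =
    (b5 n : ZMod 5) := by
  refine ⟨PowerSeries.X * PowerSeries.expand 6 (by norm_num) (phi ^ 4), ⟨fH, MF_fH, ?_⟩, ?_⟩
  · have e : toC (PowerSeries.X * PowerSeries.expand 6 (by norm_num) (phi ^ 4)) =
        PowerSeries.X * PowerSeries.expand 6 (by norm_num) (toC phi) ^ 4 := by
      rw [FO_toC_mul, FO_toC_X, FO_exp, FO_toC_pow, map_pow]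
    rw [e]
    exact hasQ_fH
  · intro n
    haveI : Fact (Nat.Prime 5) := ⟨by norm_num⟩
    rw [FO_coeff, ← id_B2]
    have hsa : red 5 sa = 1 := by
      have h1 : red 5 sa * red 5 (ex5 phi) = red 5 phi ^ 5 := by
        have h2 := congrArg (PowerSeries.map (Int.castRingHom (ZMod 5))) sa_mul
        rw [map_mul, map_pow] at h2
        exact h2
      have h3 : red 5 (ex5 phi) = PowerSeries.expand 5 (by norm_num) (red 5 phi) :=
        PowerSeries.map_expand _ _ _ _
      rw [h3, FO_frob] at h1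
      have h4 : red 5 phi ^ 5 ≠ 0 := by
        apply pow_ne_zero
        intro h0
        have h5 : PowerSeries.constantCoeff (red 5 phi) = 1 := by
          show PowerSeries.constantCoeff (PowerSeries.map (Int.castRingHom (ZMod 5)) phi) = 1
          rw [← PowerSeries.coeff_zero_eq_constantCoeff_apply, PowerSeries.coeff_map,
            PowerSeries.coeff_zero_eq_constantCoeff_apply, phi_coeff_zero, map_one]
        rw [h0, map_zero] at h5
        exact zero_ne_one h5
      exact mul_right_cancel₀ h4 (h1.trans (one_mul _).symm)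
    have h6 : red 5 (sB * sa) = red 5 sB := by
      have h7 : red 5 (sB * sa) = red 5 sB * red 5 sa := map_mul _ _ _
      rw [h7, hsa, mul_one]
    have h8 := congrArg (PowerSeries.coeff n) h6
    have h9 : PowerSeries.coeff n (red 5 (sB * sa)) =
        ((PowerSeries.coeff n (sB * sa) : ℤ) : ZMod 5) := PowerSeries.coeff_map _ _ _
    have h10 : PowerSeries.coeff n (red 5 sB) = ((PowerSeries.coeff n sB : ℤ) : ZMod 5) :=
      PowerSeries.coeff_map _ _ _
    rw [h9, h10] at h8
    rw [h8, sB, PowerSeries.coeff_mk]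
    push_cast
    rfl

end Pool.Agent.B5
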