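import Pool.Agent.B5.QD
import Pool.Agent.B5.EQ1
import Pool.Agent.B5.EQ2

/-!
B5 / HA1: level one forms with integral coefficients are, modulo a prime p > 3, isobaric polynomials in Q, R.

Induction on the weight: subtract a multiple of a monomial in E4 and E6, divide by the discriminant
(whose coefficients are integral by the product formula) and use 1728 Delta = E4^3 - E6^2.
-/

set_option autoImplicit false

namespace Pool.Agent.B5

open PowerSeries UpperHalfPlane
open scoped MatrixGroups ModularForm Manifold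

namespace HA1

theorem hasQ_disc : HasQ ModularForm.discriminant (toC (PowerSeries.X * phi ^ 24)) := by
  have h1 : HasQ (fun z => qq z * ep z ^ 24) (PowerSeries.X * toC phi ^ 24) :=
    hasQ_qq.mul (hasQ_ep.pow 24)
  have h2 : (toC (PowerSeries.X * phi ^ 24) : ℂ⟦X⟧) = PowerSeries.X * toC phi ^ 24 := by
    simp [toC]
  rw [h2]
  intro z
  have h3 := h1 z
  have h4 : ModularForm.discriminant z = qq z * ep z ^ 24 := by
    simp only [ModularForm.discriminant]
    rw [eta_eq, mul_pow, ← Complex.exp_nat_mul]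
    congr 1
    unfold qq
    congr 1
    push_cast
    ring
  rw [h4]
  exact h3

theorem disc_int : PowerSeries.C (1728 : ℤ) * (PowerSeries.X * phi ^ 24) = sQ ^ 3 - sR ^ 2 := by
  apply toC_injective
  have h1 : HasQ (fun z => (1728 : ℂ) * ModularForm.discriminant z)
      (PowerSeries.C (1728 : ℂ) * toC (PowerSeries.X * phi ^ 24)) :=
    (HasQ.const 1728).mul hasQ_disc
  have h2 : HasQ (fun z => ModularForm.E₄ z ^ 3 - ModularForm.E₆ z ^ 2) (toC sQ ^ 3 - toC sR ^ 2) :=
    (hasQ_E4.pow 3).sub (hasQ_E6.pow 2)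
  have h3 : (fun z => (1728 : ℂ) * ModularForm.discriminant z) =
      (fun z => ModularForm.E₄ z ^ 3 - ModularForm.E₆ z ^ 2) := by
    funext z
    rw [ModularForm.discriminant_eq_E₄_cube_sub_E₆_sq]
    ring
  rw [h3] at h1
  have h4 := h1.unique h2
  have h5 : toC (PowerSeries.C (1728 : ℤ) * (PowerSeries.X * phi ^ 24)) =
      PowerSeries.C (1728 : ℂ) * toC (PowerSeries.X * phi ^ 24) := by
    unfold toC
    rw [map_mul, PowerSeries.map_C]
    norm_num
  rw [h5, h4]
  simp [toC]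

theorem phi_const : PowerSeries.coeff 0 phi = 1 := by
  unfold phi
  have h0 : pentagonal 0 = 0 := by simp [pentagonal_def]
  have h1 := PowerSeries.coeff_pentagonalSeries_pentagonal ℤ 0
  rw [h0] at h1
  simpa using h1

theorem toC_mul (a b : ℤ⟦X⟧) : toC (a * b) = toC a * toC b := by simp [toC]

theorem toC_sub (a b : ℤ⟦X⟧) : toC (a - b) = toC a - toC b := by simp [toC]

theorem toC_pow (a : ℤ⟦X⟧) (n : ℕ) : toC (a ^ n) = toC a ^ n := by simp [toC]

theorem qE4 : qExpansion 1 (ModularForm.E₄ : ModularForm 𝒮ℒ 4) = toC sQ := hasQ_E4.qExpansion_eq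

theorem qE6 : qExpansion 1 (ModularForm.E₆ : ModularForm 𝒮ℒ 6) = toC sR := hasQ_E6.qExpansion_eq

theorem qDisc : qExpansion 1 ModularForm.discriminant = toC (PowerSeries.X * phi ^ 24) :=
  hasQ_disc.qExpansion_eq

theorem coeff_toC (a : ℤ⟦X⟧) (n : ℕ) : PowerSeries.coeff n (toC a) = ((PowerSeries.coeff n a : ℤ) : ℂ) := by
  simp [toC]

theorem coeff0_sQ : PowerSeries.constantCoeff sQ = 1 := by
  simp [sQ, ← PowerSeries.coeff_zero_eq_constantCoeff_apply]

theorem coeff0_sR : PowerSeries.constantCoeff sR = 1 := by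
  simp [sR, ← PowerSeries.coeff_zero_eq_constantCoeff_apply]

/-- the form `E4 ^ i * E6 ^ j` -/
noncomputable def mon (i j : ℕ) (k : ℤ) (h : (i : ℤ) * 4 + (j : ℤ) * 6 = k) : ModularForm 𝒮ℒ k :=
  ModularForm.mcast (by rw [← h]) ((ModularForm.E₄.pow i).mul (ModularForm.E₆.pow j))

theorem qMon (i j : ℕ) (k : ℤ) (h : (i : ℤ) * 4 + (j : ℤ) * 6 = k) :
    qExpansion 1 (mon i j k h) = toC (sQ ^ i * sR ^ j) := by
  unfold mon
  rw [ModularForm.qExpansion_mcast, ModularForm.qExpansion_mul one_pos one_mem_strictPeriods_SL,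
    ModularForm.qExpansion_pow one_pos one_mem_strictPeriods_SL,
    ModularForm.qExpansion_pow one_pos one_mem_strictPeriods_SL, qE4, qE6, toC_mul, toC_pow, toC_pow]

theorem exists_ij (k : ℕ) (h : Even k) (h4 : 4 ≤ k) : ∃ i j : ℕ, i * 4 + j * 6 = k := by
  obtain ⟨m, hm⟩ := h
  rcases Nat.even_or_odd m with h2 | h2
  · obtain ⟨n, hn⟩ := h2
    exact ⟨n, 0, by omega⟩
  · obtain ⟨n, hn⟩ := h2
    exact ⟨n - 1, 1, by omega⟩

theorem levelOne_aux (p : ℕ) [Fact p.Prime] (hp : 3 < p) (k : ℕ) :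
    ∀ (f : ModularForm 𝒮ℒ (k : ℤ)) (c : ℤ⟦X⟧), qExpansion 1 f = toC c →
    ∃ A : MvPolynomial (Fin 2) (ZMod p), A.IsWeightedHomogeneous ![4, 6] k ∧
      MvPolynomial.aeval ![red p sQ, red p sR] A = red p c := by
  induction k using Nat.strong_induction_on with
  | _ k ih =>
  intro f c hc
  -- the zero case
  have hzero : c = 0 → ∃ A : MvPolynomial (Fin 2) (ZMod p), A.IsWeightedHomogeneous ![4, 6] k ∧
      MvPolynomial.aeval ![red p sQ, red p sR] A = red p c := by
    intro h0
    refine ⟨0, MvPolynomial.isWeightedHomogeneous_zero _ _ _, ?_⟩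
    rw [h0]
    simp [red]
  have hz2 : f = 0 → c = 0 := by
    intro hf
    apply toC_injective
    rw [← hc, hf]
    have : ((0 : ModularForm 𝒮ℒ (k : ℤ)) : ℍ → ℂ) = 0 := rfl
    rw [this, qExpansion_zero]
    simp [toC]
  by_cases hk0 : k = 0
  · subst hk0
    obtain ⟨a, ha⟩ := ModularFormClass.levelOne_weight_zero_const (F := ModularForm 𝒮ℒ ((0 : ℕ) : ℤ)) f
    have hq : HasQ (f : ℍ → ℂ) (PowerSeries.C a) := by
      rw [ha]
      exact HasQ.const a
    have h1 : toC c = PowerSeries.C a := by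
      rw [← hc]
      exact hq.qExpansion_eq
    have h2 : c = PowerSeries.C (PowerSeries.coeff 0 c) := by
      ext n
      have h3 := congrArg (PowerSeries.coeff n) h1
      rw [coeff_toC, PowerSeries.coeff_C] at h3
      rw [PowerSeries.coeff_C]
      by_cases hn : n = 0
      · rw [if_pos hn, hn]
      · rw [if_neg hn] at h3 ⊢
        exact_mod_cast h3
    refine ⟨MvPolynomial.C ((PowerSeries.coeff 0 c : ℤ) : ZMod p),
      MvPolynomial.isWeightedHomogeneous_C _ _, ?_⟩
    conv_rhs => rw [h2]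
    simp [red]
  by_cases hkodd : Odd k
  · exact hzero (hz2 (ModularForm.levelOne_odd_weight_eq_zero (by exact_mod_cast hkodd) f))
  have hkev : Even k := Nat.not_odd_iff_even.mp hkodd
  by_cases hk2 : k = 2
  · subst hk2
    exact hzero (hz2 (rank_zero_iff_forall_zero.mp ModularForm.levelOne_weight_two_rank_zero f))
  have hk4 : 4 ≤ k := by
    obtain ⟨m, hm⟩ := hkev
    omega
  obtain ⟨i, j, hij⟩ := exists_ij k hkev hk4
  have hijz : (i : ℤ) * 4 + (j : ℤ) * 6 = (k : ℤ) := by exact_mod_cast hij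
  set a : ℤ := PowerSeries.coeff 0 c with ha
  set g := mon i j k hijz with hg
  set h := f - (a : ℂ) • g with hh
  set e : ℤ⟦X⟧ := c - PowerSeries.C a * (sQ ^ i * sR ^ j) with he
  have hqh : qExpansion 1 h = toC e := by
    rw [hh, FunLike.coe_sub, ModularForm.qExpansion_sub one_pos one_mem_strictPeriods_SL,
      FunLike.coe_smul, ModularForm.qExpansion_smul one_pos one_mem_strictPeriods_SL, hc, hg, qMon, he,
      toC_sub, toC_mul]
    congr 1
    rw [PowerSeries.smul_eq_C_mul]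
    congr 1
    simp [toC]
  have he0 : PowerSeries.coeff 0 e = 0 := by
    rw [he, map_sub, PowerSeries.coeff_C_mul]
    simp [coeff0_sQ, coeff0_sR, ha]
  have hcusp : PowerSeries.coeff 0 (qExpansion 1 h) = 0 := by
    rw [hqh, coeff_toC, he0, Int.cast_zero]
  have hfin : red p c = PowerSeries.C (a : ZMod p) * (red p sQ ^ i * red p sR ^ j) + red p e := by
    have : c = PowerSeries.C a * (sQ ^ i * sR ^ j) + e := by rw [he]; ring
    rw [this]
    simp [red]
  have hA1 : MvPolynomial.IsWeightedHomogeneous (![4, 6] : Fin 2 → ℕ)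
      (MvPolynomial.C ((a : ℤ) : ZMod p) * (MvPolynomial.X 0 ^ i * MvPolynomial.X 1 ^ j)) k := by
    have h1 := ((MvPolynomial.isWeightedHomogeneous_X (ZMod p) (![4, 6] : Fin 2 → ℕ) 0).pow i).mul
      ((MvPolynomial.isWeightedHomogeneous_X (ZMod p) (![4, 6] : Fin 2 → ℕ) 1).pow j)
    have h2 := (MvPolynomial.isWeightedHomogeneous_C (![4, 6] : Fin 2 → ℕ) ((a : ℤ) : ZMod p)).mul h1
    convert h2 using 1
    simp
    omega
  have hA1v : MvPolynomial.aeval ![red p sQ, red p sR]
      (MvPolynomial.C ((a : ℤ) : ZMod p) * (MvPolynomial.X 0 ^ i * MvPolynomial.X 1 ^ j)) =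
      PowerSeries.C (a : ZMod p) * (red p sQ ^ i * red p sR ^ j) := by
    simp
  by_cases hk12 : k < 12
  · have hr := rank_zero_iff_forall_zero.mp
      (CuspForm.rank_eq_zero_of_weight_lt_twelve (k := (k : ℤ)) (by exact_mod_cast hk12))
      (ModularForm.toCuspForm h hcusp)
    have h0 : (h : ℍ → ℂ) = 0 := by
      funext z
      have := congrArg (fun F : CuspForm 𝒮ℒ (k : ℤ) => F z) hr
      simpa using this
    have he' : e = 0 := by
      apply toC_injective
      rw [← hqh, h0, qExpansion_zero]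
      simp [toC]
    refine ⟨_, hA1, ?_⟩
    rw [hA1v, hfin, he']
    simp [red]
  push Not at hk12
  set g' : ModularForm 𝒮ℒ ((k : ℤ) - 12) :=
    CuspForm.discriminantEquiv (ModularForm.toCuspForm h hcusp) with hg'
  have hq' := ModularForm.qExpansion_eq_qExpansion_discriminant_mul h hcusp
  rw [← hg', hqh, qDisc] at hq'
  obtain ⟨e', he'⟩ : ∃ e' : ℤ⟦X⟧, e = PowerSeries.X * e' := by
    apply PowerSeries.X_dvd_iff.mpr
    rw [← PowerSeries.coeff_zero_eq_constantCoeff_apply]
    exact he0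
  have hphi : PowerSeries.constantCoeff (phi ^ 24) = ((1 : ℤˣ) : ℤ) := by
    rw [map_pow, ← PowerSeries.coeff_zero_eq_constantCoeff_apply, phi_const]
    simp
  set u : ℤ⟦X⟧ := PowerSeries.invOfUnit (phi ^ 24) 1 with hu
  have hphiu : phi ^ 24 * u = 1 := PowerSeries.mul_invOfUnit _ _ hphi
  have hq'' : toC e' = toC (phi ^ 24) * qExpansion 1 g' := by
    have h1 : (PowerSeries.X : ℂ⟦X⟧) * toC e' = PowerSeries.X * (toC (phi ^ 24) * qExpansion 1 g') := by
      have h2 : (PowerSeries.X : ℂ⟦X⟧) * toC e' = toC e := by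
        rw [he', toC_mul]
        simp [toC]
      rw [h2, hq', toC_mul]
      simp [toC]
      ring
    exact mul_left_cancel₀ PowerSeries.X_ne_zero h1
  have hd : qExpansion 1 g' = toC (e' * u) := by
    rw [toC_mul, hq'']
    have : toC (phi ^ 24) * toC u = 1 := by
      rw [← toC_mul, hphiu]
      simp [toC]
    calc qExpansion 1 g' = (toC (phi ^ 24) * toC u) * qExpansion 1 g' := by rw [this, one_mul]
      _ = _ := by ring
  have hcast : ((k : ℤ) - 12) = ((k - 12 : ℕ) : ℤ) := by omega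
  obtain ⟨A', hA', hA'v⟩ := ih (k - 12) (by omega) (ModularForm.mcast hcast g') (e' * u) (by
    rw [ModularForm.qExpansion_mcast]
    exact hd)
  have hee : e = (PowerSeries.X * phi ^ 24) * (e' * u) := by
    rw [he']
    calc PowerSeries.X * e' = PowerSeries.X * (phi ^ 24 * u) * e' := by rw [hphiu, mul_one]
      _ = _ := by ring
  have h1728 : ((1728 : ℤ) : ZMod p) ≠ 0 := by
    rw [Ne, ZMod.intCast_zmod_eq_zero_iff_dvd]
    intro hdvd
    have h2 : p ∣ 2 ^ 6 * 3 ^ 3 := by
      have : ((2 ^ 6 * 3 ^ 3 : ℕ) : ℤ) = 1728 := by norm_num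
      rw [← this] at hdvd
      exact_mod_cast hdvd
    rcases (Fact.out : p.Prime).dvd_mul.mp h2 with h3 | h3
    · have := Nat.le_of_dvd (by norm_num) ((Fact.out : p.Prime).dvd_of_dvd_pow h3)
      omega
    · have := Nat.le_of_dvd (by norm_num) ((Fact.out : p.Prime).dvd_of_dvd_pow h3)
      omega
  have hred : red p (PowerSeries.X * phi ^ 24) =
      PowerSeries.C (((1728 : ℤ) : ZMod p)⁻¹) * (red p sQ ^ 3 - red p sR ^ 2) := by
    have h1 := congrArg (red p) disc_int
    have h2 : red p (PowerSeries.C (1728 : ℤ) * (PowerSeries.X * phi ^ 24)) =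
        PowerSeries.C ((1728 : ℤ) : ZMod p) * red p (PowerSeries.X * phi ^ 24) := by
      unfold red
      rw [map_mul, PowerSeries.map_C]
      rfl
    have h3 : red p (sQ ^ 3 - sR ^ 2) = red p sQ ^ 3 - red p sR ^ 2 := by simp [red]
    rw [h2, h3] at h1
    rw [← h1, ← mul_assoc, ← map_mul, inv_mul_cancel₀ h1728, map_one, one_mul]
  refine ⟨MvPolynomial.C ((a : ℤ) : ZMod p) * (MvPolynomial.X 0 ^ i * MvPolynomial.X 1 ^ j) +
    MvPolynomial.C (((1728 : ℤ) : ZMod p)⁻¹) * (MvPolynomial.X 0 ^ 3 - MvPolynomial.X 1 ^ 2) * A',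
    ?_, ?_⟩
  · refine hA1.add ?_
    have h1 := (MvPolynomial.isWeightedHomogeneous_X (ZMod p) (![4, 6] : Fin 2 → ℕ) 0).pow 3
    have h2 := (MvPolynomial.isWeightedHomogeneous_X (ZMod p) (![4, 6] : Fin 2 → ℕ) 1).pow 2
    have h3 : MvPolynomial.IsWeightedHomogeneous (![4, 6] : Fin 2 → ℕ)
        (MvPolynomial.X 0 ^ 3 - MvPolynomial.X 1 ^ 2 : MvPolynomial (Fin 2) (ZMod p)) 12 := by
      have h1' : MvPolynomial.IsWeightedHomogeneous (![4, 6] : Fin 2 → ℕ)
        (MvPolynomial.X 0 ^ 3 : MvPolynomial (Fin 2) (ZMod p)) 12 := by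
        convert h1 using 1
        simp
      have h2' : MvPolynomial.IsWeightedHomogeneous (![4, 6] : Fin 2 → ℕ)
        (MvPolynomial.X 1 ^ 2 : MvPolynomial (Fin 2) (ZMod p)) 12 := by
        convert h2 using 1
        simp
      exact (MvPolynomial.weightedHomogeneousSubmodule (ZMod p) (![4, 6] : Fin 2 → ℕ) 12).sub_mem h1' h2'
    have h4 := ((MvPolynomial.isWeightedHomogeneous_C (![4, 6] : Fin 2 → ℕ)
      (((1728 : ℤ) : ZMod p)⁻¹)).mul h3).mul hA'
    convert h4 using 1
    omega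
  · rw [map_add, hA1v, map_mul, hA'v, hfin]
    refine congrArg (fun t => PowerSeries.C (a : ZMod p) * (red p sQ ^ i * red p sR ^ j) + t) ?_
    rw [hee]
    have h1 : red p (PowerSeries.X * phi ^ 24 * (e' * u)) =
        red p (PowerSeries.X * phi ^ 24) * red p (e' * u) := by
      unfold red
      rw [map_mul]
    rw [h1, hred]
    refine congrArg (fun t => t * red p (e' * u)) ?_
    generalize (((1728 : ℤ) : ZMod p)⁻¹) = w
    rw [map_mul, MvPolynomial.aeval_C, map_sub, map_pow, map_pow, MvPolynomial.aeval_X,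
      MvPolynomial.aeval_X]
    rfl

end HA1

theorem levelOne_int (p : ℕ) [Fact p.Prime] (hp : 3 < p) (k : ℕ)
    (f : ModularForm 𝒮ℒ (k : ℤ)) (c : ℤ⟦X⟧) (hc : HasQ f (toC c)) :
    ∃ A : MvPolynomial (Fin 2) (ZMod p), A.IsWeightedHomogeneous ![4, 6] k ∧
      MvPolynomial.aeval ![red p sQ, red p sR] A = red p c :=
  HA1.levelOne_aux p hp k f c hc.qExpansion_eq

end Pool.Agent.B5
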