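import Pool.Agent.B5.HA1

/-!
B5 / HA2: the Hasse invariant as a polynomial in Q, R. Let k = p - 1 >= 4. E_k = 1 - (2k/B_k) sum sigma_(k-1)(n) q^n,
B_k = N/D with p | D and p does not divide N by von Staudt - Clausen. The form N E_k has the integral q-expansion
N - 2 k D sum ..., congruent to N mod p. Apply `levelOne_int` and divide by N.
-/

set_option autoImplicit false

namespace Pool.Agent.B5

open PowerSeries UpperHalfPlane
open scoped MatrixGroups ModularForm Manifold ArithmeticFunction.sigma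

namespace HA2

theorem sum_inv_primes (S : Finset ℕ) (hS : ∀ q ∈ S, q ≠ 0) :
    ∃ R : ℤ, ((∏ q ∈ S, q : ℕ) : ℚ) * ∑ q ∈ S, (1 : ℚ) / q = R := by
  refine ⟨∑ q ∈ S, ((∏ r ∈ S.erase q, r : ℕ) : ℤ), ?_⟩
  rw [Finset.mul_sum]
  push_cast
  apply Finset.sum_congr rfl
  intro q hq
  rw [← Finset.mul_prod_erase S (fun r => (r : ℚ)) hq]
  have h0 : (q : ℚ) ≠ 0 := by exact_mod_cast hS q hq
  field_simp

theorem exists_ND (p : ℕ) [hpp : Fact p.Prime] (hp : 3 < p) :
    ∃ N D : ℤ, (p : ℤ) ∣ D ∧ ¬ (p : ℤ) ∣ N ∧ D ≠ 0 ∧ bernoulli (p - 1) * D = N := by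
  have hpr : p.Prime := hpp.out
  obtain ⟨m, hm⟩ : ∃ m, p - 1 = 2 * m := by
    rcases hpr.eq_two_or_odd with h | h
    · omega
    · exact ⟨(p - 1) / 2, by omega⟩
  rw [hm]
  obtain ⟨T, hT⟩ := Bernoulli.vonStaudt_clausen m
  set S := (Finset.range (2 * m + 2)).filter (fun q => q.Prime ∧ (q - 1) ∣ 2 * m) with hS
  have hpS : p ∈ S := by
    rw [hS, Finset.mem_filter, Finset.mem_range]
    refine ⟨by omega, hpr, ?_⟩
    rw [hm]
  rw [← Finset.add_sum_erase S (fun q : ℕ => (1 : ℚ) / q) hpS] at hT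
  have hprime : ∀ q ∈ S.erase p, q.Prime := by
    intro q hq
    have := Finset.mem_of_mem_erase hq
    rw [hS, Finset.mem_filter] at this
    exact this.2.1
  obtain ⟨R, hR⟩ := sum_inv_primes (S.erase p) (fun q hq => (hprime q hq).ne_zero)
  set M : ℕ := ∏ q ∈ S.erase p, q with hM
  have hcop : ¬ p ∣ M := by
    rw [hM, Prime.dvd_finsetProd_iff hpr.prime]
    rintro ⟨q, hq, hdvd⟩
    have h1 := (Nat.prime_dvd_prime_iff_eq hpr (hprime q hq)).mp hdvd
    exact (Finset.ne_of_mem_erase hq) h1.symm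
  have hM0 : M ≠ 0 := by
    intro h
    exact hcop (h ▸ dvd_zero p)
  have hp0 : (p : ℚ) ≠ 0 := by exact_mod_cast hpr.ne_zero
  refine ⟨T * p * M - M - R * p, p * M, ⟨M, rfl⟩, ?_, ?_, ?_⟩
  · intro h
    apply hcop
    have h2 : (p : ℤ) ∣ (M : ℤ) := by
      have h3 : (M : ℤ) = p * (T * M - R) - (T * p * M - M - R * p) := by ring
      rw [h3]
      exact dvd_sub (dvd_mul_right _ _) h
    exact_mod_cast h2
  · exact mul_ne_zero (by exact_mod_cast hpr.ne_zero) (by exact_mod_cast hM0)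
  · have hB : bernoulli (2 * m) = T - (1 / (p : ℚ) + ∑ q ∈ S.erase p, (1 : ℚ) / q) := by
      rw [hT]; ring
    push_cast
    rw [hB, ← hR]
    field_simp
    ring

end HA2

theorem exists_A0 (p : ℕ) [Fact p.Prime] (hp : 3 < p) :
    ∃ A : MvPolynomial (Fin 2) (ZMod p), A.IsWeightedHomogeneous ![4, 6] (p - 1) ∧
      MvPolynomial.aeval ![red p sQ, red p sR] A = (1 : (ZMod p)⟦X⟧) := by
  obtain ⟨N, D, hD, hN, hD0, hND⟩ := HA2.exists_ND p hp
  have hpr : p.Prime := Fact.out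
  have hk3 : 3 ≤ p - 1 := by omega
  have hk2 : Even (p - 1) := by
    rcases hpr.eq_two_or_odd with h | h
    · omega
    · exact ⟨(p - 1) / 2, by omega⟩
  have hN0 : N ≠ 0 := by
    intro h
    exact hN (h ▸ dvd_zero _)
  have hB0 : bernoulli (p - 1) ≠ 0 := by
    intro h
    rw [h, zero_mul] at hND
    exact hN0 (by exact_mod_cast hND.symm)
  set c : ℤ⟦X⟧ := PowerSeries.mk (fun n => if n = 0 then N else
    -(2 * ((p - 1 : ℕ) : ℤ) * D * (σ (p - 1 - 1) n : ℤ))) with hc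
  have hq : qExpansion 1 ((N : ℂ) • (ModularForm.E hk3) : ModularForm 𝒮ℒ ((p - 1 : ℕ) : ℤ)) = toC c := by
    rw [FunLike.coe_smul, ModularForm.qExpansion_smul one_pos one_mem_strictPeriods_SL]
    ext n
    rw [PowerSeries.coeff_smul, EisensteinSeries.E_qExpansion_coeff hk3 hk2, HA1.coeff_toC, hc,
      PowerSeries.coeff_mk]
    by_cases hn : n = 0
    · simp [hn]
    · rw [if_neg hn, if_neg hn]
      have h1 : ((bernoulli (p - 1) : ℚ) : ℂ) * (D : ℂ) = (N : ℂ) := by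
        have := congrArg (fun t : ℚ => (t : ℂ)) hND
        push_cast at this
        exact this
      have hB0' : ((bernoulli (p - 1) : ℚ) : ℂ) ≠ 0 := by exact_mod_cast hB0
      rw [smul_eq_mul, ← h1]
      push_cast
      field_simp
  obtain ⟨A, hA, hAv⟩ := HA1.levelOne_aux p hp (p - 1) _ c hq
  have hN' : ((N : ℤ) : ZMod p) ≠ 0 := by
    rw [Ne, ZMod.intCast_zmod_eq_zero_iff_dvd]
    exact hN
  have hred : red p c = PowerSeries.C ((N : ℤ) : ZMod p) := by
    ext n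
    rw [hc, red, PowerSeries.coeff_map, PowerSeries.coeff_mk, PowerSeries.coeff_C]
    by_cases hn : n = 0
    · simp [hn]
    · rw [if_neg hn, if_neg hn]
      have h2 : ((D : ℤ) : ZMod p) = 0 := (ZMod.intCast_zmod_eq_zero_iff_dvd _ _).mpr hD
      simp [h2]
  refine ⟨MvPolynomial.C (((N : ℤ) : ZMod p)⁻¹) * A, ?_, ?_⟩
  · have h4 := (MvPolynomial.isWeightedHomogeneous_C (![4, 6] : Fin 2 → ℕ)
      (((N : ℤ) : ZMod p)⁻¹)).mul hA
    rw [zero_add] at h4
    exact h4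
  · rw [map_mul, hAv, hred, MvPolynomial.aeval_C]
    have : (algebraMap (ZMod p) (ZMod p)⟦X⟧) (((N : ℤ) : ZMod p)⁻¹) =
      PowerSeries.C (((N : ℤ) : ZMod p)⁻¹) := rfl
    rw [this, ← map_mul, inv_mul_cancel₀ hN', map_one]

end Pool.Agent.B5
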