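import Pool.Agent.B5.HA2
import Pool.Agent.B5.AL2

/-!
B5 / HA3: the Hasse invariant A := A0(vQ, vR), with A0 from HA2, and its properties. The sum s of the coefficients of A0
is the constant coefficient of A0(sQ, sR) = 1 modulo p, so s = 1. Modulo vX, vQ = (-5 vW)^2 and vR = (-5 vW)^3.
-/

set_option autoImplicit false

namespace Pool.Agent.B5

open PowerSeries UpperHalfPlane
open scoped MatrixGroups ModularForm Manifold

namespace HA3

variable {p : ℕ} [Fact p.Prime]

theorem aeval_sum {S : Type*} [CommRing S] [Algebra (ZMod p) S] (x : Fin 2 → S)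
    (A : MvPolynomial (Fin 2) (ZMod p)) :
    MvPolynomial.aeval x A = ∑ d ∈ A.support, algebraMap (ZMod p) S (A.coeff d) *
      (x 0 ^ d 0 * x 1 ^ d 1) := by
  rw [MvPolynomial.aeval_def, MvPolynomial.eval₂_eq']
  apply Finset.sum_congr rfl
  intro d hd
  rw [Fin.prod_univ_two]

theorem weight_eq {k : ℕ} {A : MvPolynomial (Fin 2) (ZMod p)}
    (hA : A.IsWeightedHomogeneous (![4, 6] : Fin 2 → ℕ) k) (d : Fin 2 →₀ ℕ) (hd : d ∈ A.support) :
    4 * d 0 + 6 * d 1 = k := by
  have h1 := hA (MvPolynomial.mem_support_iff.mp hd)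
  rw [Finsupp.weight_apply, Finsupp.sum_fintype _ _ (by simp)] at h1
  simp [Fin.sum_univ_two] at h1
  omega

theorem aeval_scale {S : Type*} [CommRing S] [Algebra (ZMod p) S] (t : S) {k : ℕ}
    {A : MvPolynomial (Fin 2) (ZMod p)}
    (hA : A.IsWeightedHomogeneous (![4, 6] : Fin 2 → ℕ) k) :
    MvPolynomial.aeval ![t ^ 2, t ^ 3] A = t ^ (k / 2) *
      MvPolynomial.aeval (![1, 1] : Fin 2 → S) A := by
  rw [aeval_sum, aeval_sum, Finset.mul_sum]
  apply Finset.sum_congr rfl
  intro d hd
  have h1 := weight_eq hA d hd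
  have h2 : k / 2 = 2 * d 0 + 3 * d 1 := by omega
  simp only [Matrix.cons_val_zero, Matrix.cons_val_one, one_pow, mul_one]
  rw [h2]
  ring

theorem aeval_hom {k : ℕ} {A : MvPolynomial (Fin 2) (ZMod p)}
    (hA : A.IsWeightedHomogeneous (![4, 6] : Fin 2 → ℕ) k) {v w : U p} (hv : v.IsHomogeneous 4)
    (hw : w.IsHomogeneous 6) : (MvPolynomial.aeval ![v, w] A).IsHomogeneous k := by
  rw [aeval_sum]
  apply MvPolynomial.IsHomogeneous.sum
  intro d hd
  have h1 := weight_eq hA d hd
  simp only [Matrix.cons_val_zero, Matrix.cons_val_one]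
  have h2 : (algebraMap (ZMod p) (U p) (A.coeff d) * (v ^ d 0 * w ^ d 1)).IsHomogeneous
      (0 + (4 * d 0 + 6 * d 1)) :=
    (MvPolynomial.isHomogeneous_C _ _).mul ((hv.pow _).mul (hw.pow _))
  rw [zero_add, h1] at h2
  exact h2

theorem sum_one (A : MvPolynomial (Fin 2) (ZMod p))
    (hAv : MvPolynomial.aeval ![red p sQ, red p sR] A = (1 : (ZMod p)⟦X⟧)) :
    MvPolynomial.eval ![1, 1] A = 1 := by
  have h1 := congrArg (PowerSeries.constantCoeff (R := ZMod p)) hAv
  rw [map_one] at h1
  have hQ : PowerSeries.constantCoeff (red p sQ) = 1 := by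
    rw [← PowerSeries.coeff_zero_eq_constantCoeff_apply, red, PowerSeries.coeff_map,
      PowerSeries.coeff_zero_eq_constantCoeff_apply, HA1.coeff0_sQ, map_one]
  have hR : PowerSeries.constantCoeff (red p sR) = 1 := by
    rw [← PowerSeries.coeff_zero_eq_constantCoeff_apply, red, PowerSeries.coeff_map,
      PowerSeries.coeff_zero_eq_constantCoeff_apply, HA1.coeff0_sR, map_one]
  rw [aeval_sum, map_sum] at h1
  rw [MvPolynomial.eval_eq']
  refine Eq.trans ?_ h1
  apply Finset.sum_congr rfl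
  intro d hd
  rw [Fin.prod_univ_two]
  simp only [Matrix.cons_val_zero, Matrix.cons_val_one, map_mul, map_pow, hQ, hR, one_pow, mul_one]
  simp [PowerSeries.algebraMap_apply]

theorem red_dD (c : ℤ⟦X⟧) : red p (dD c) = dD (red p c) := by
  ext n
  simp [red, dD]

end HA3

theorem exists_A (p : ℕ) [Fact p.Prime] (hp : 3 < p) (e : EV p) : ∃ A : U p, HA p e A := by
  obtain ⟨A0, hA0, hA0v⟩ := exists_A0 p hp
  have hs := HA3.sum_one A0 hA0v
  have hpr : p.Prime := Fact.out
  have hp1 : (((p - 1 : ℕ) : ZMod p)) = -1 := by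
    rw [Nat.cast_sub hpr.one_le]
    simp
  set A : U p := MvPolynomial.aeval ![vQ, vR] A0 with hA
  have hhom : A.IsHomogeneous (p - 1) := HA3.aeval_hom hA0 vQ_hom vR_hom
  have hev : e.ev A = 1 := by
    rw [hA, ← hA0v]
    have := MvPolynomial.comp_aeval_apply (R := ZMod p) (![vQ, vR] : Fin 2 → U p) e.ev A0
    rw [this]
    congr 1
    congr 1
    funext i
    fin_cases i
    · exact e.hQ
    · exact e.hR
  have hevB : e.ev (der2 A) = red p sP := by
    have h1 := e.der (by omega) hhom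
    rw [hev, mul_one] at h1
    have h2 : dD (1 : (ZMod p)⟦X⟧) = 0 := by
      ext n
      rw [dD, PowerSeries.coeff_mk, PowerSeries.coeff_one]
      by_cases hn : n = 0
      · simp [hn]
      · simp [hn]
    have h3 : ((p - 1 : ℕ) : (ZMod p)⟦X⟧) = -1 := by
      have : ((p - 1 : ℕ) : (ZMod p)⟦X⟧) = PowerSeries.C ((p - 1 : ℕ) : ZMod p) := by simp
      rw [this, hp1]
      simp
    rw [h2, h3] at h1
    linear_combination -h1
  refine ⟨A, hhom, hev, ?_, ?_, ?_, hevB, ?_⟩
  · -- modX
    have h2 := vW_sq (p := p)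
    have hQ : (vQ : U p) - (-5 * vW) ^ 2 = vX * (-24 * vX - 300 * vY) := by
      unfold vQ
      linear_combination (-25 : U p) * h2
    have hR : (vR : U p) - (-5 * vW) ^ 3 = vX * (vW * (126 * vX + 2250 * vY)) := by
      unfold vR
      linear_combination (125 * vW : U p) * h2
    rw [← Ideal.mem_span_singleton, ← Ideal.Quotient.eq]
    set φ := Ideal.Quotient.mkₐ (ZMod p) (Ideal.span {(vX : U p)}) with hφ
    have hφQ : φ vQ = φ (-5 * vW) ^ 2 := by
      rw [← map_pow]
      exact Ideal.Quotient.eq.mpr (Ideal.mem_span_singleton.mpr ⟨_, hQ⟩)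
    have hφR : φ vR = φ (-5 * vW) ^ 3 := by
      rw [← map_pow]
      exact Ideal.Quotient.eq.mpr (Ideal.mem_span_singleton.mpr ⟨_, hR⟩)
    have h3 : φ A = φ (-5 * vW) ^ ((p - 1) / 2) := by
      rw [hA]
      rw [MvPolynomial.comp_aeval_apply (R := ZMod p) (![vQ, vR] : Fin 2 → U p) φ A0]
      have h4 : (fun i => φ ((![vQ, vR] : Fin 2 → U p) i)) = ![φ (-5 * vW) ^ 2, φ (-5 * vW) ^ 3] := by
        funext i
        fin_cases i
        · exact hφQ
        · exact hφR
      rw [h4, HA3.aeval_scale _ hA0]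
      have h5 : MvPolynomial.aeval (![1, 1] : Fin 2 → (U p ⧸ Ideal.span {(vX : U p)})) A0 =
          algebraMap (ZMod p) _ (MvPolynomial.eval ![1, 1] A0) := by
        rw [HA3.aeval_sum, MvPolynomial.eval_eq', map_sum]
        apply Finset.sum_congr rfl
        intro d hd
        rw [Fin.prod_univ_two]
        simp
      rw [h5, hs, map_one, mul_one]
    have h6 : φ A = φ ((-5 * vW) ^ ((p - 1) / 2)) := by rw [h3, map_pow]
    exact h6
  · -- at0
    have h1 : MvPolynomial.eval ![0, 1] A = MvPolynomial.eval ![1, 1] A0 := by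
      rw [hA, HA3.aeval_sum, map_sum, MvPolynomial.eval_eq']
      apply Finset.sum_congr rfl
      intro d hd
      rw [Fin.prod_univ_two]
      simp only [map_mul, map_pow, Matrix.cons_val_zero, Matrix.cons_val_one]
      have hq : MvPolynomial.eval ![0, 1] (vQ : U p) = 1 := by
        simp [vQ, vX, vY]
      have hr : MvPolynomial.eval ![0, 1] (vR : U p) = 1 := by
        simp [vR, vX, vY, vW]
      rw [hq, hr]
      simp
    rw [h1, hs]
  · -- at1
    have h1 : MvPolynomial.eval ![1, 0] A = MvPolynomial.eval ![1, 1] A0 := by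
      rw [hA, HA3.aeval_sum, map_sum, MvPolynomial.eval_eq']
      apply Finset.sum_congr rfl
      intro d hd
      rw [Fin.prod_univ_two]
      simp only [map_mul, map_pow, Matrix.cons_val_zero, Matrix.cons_val_one]
      have hq : MvPolynomial.eval ![1, 0] (vQ : U p) = 1 := by
        simp [vQ, vX, vY]
      have hr : MvPolynomial.eval ![1, 0] (vR : U p) = 1 := by
        simp [vR, vX, vY, vW]
      rw [hq, hr]
      simp
    rw [h1, hs]
  · -- dB
    have hB : (der2 A).IsHomogeneous (p - 1 + 2) := der2_hom hhom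
    have hBB : (der2 (der2 A)).IsHomogeneous (p - 1 + 2 + 2) := der2_hom hB
    have hQA : (vQ * A).IsHomogeneous (4 + (p - 1)) := vQ_hom.mul hhom
    have hdeg : 4 + (p - 1) = p - 1 + 2 + 2 := by omega
    rw [hdeg] at hQA
    have h1 := e.der (by omega) hB
    rw [hevB] at h1
    have h3 : ((p - 1 + 2 : ℕ) : (ZMod p)⟦X⟧) = 1 := by
      have h4 : ((p - 1 + 2 : ℕ) : (ZMod p)⟦X⟧) = PowerSeries.C ((p - 1 + 2 : ℕ) : ZMod p) :=
        (map_natCast (PowerSeries.C (R := ZMod p)) (p - 1 + 2)).symm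
      rw [h4]
      have h5 : (((p - 1 + 2 : ℕ) : ZMod p)) = 1 := by
        rw [Nat.cast_add, hp1]
        norm_num
      rw [h5, map_one]
    rw [h3, one_mul] at h1
    have h6 : 2 * dD (red p sP) = red p sP ^ 2 - red p sQ := by
      have h7 := congrArg (red p) id_DP
      rw [← HA3.red_dD]
      have h8 : red p (2 * dD sP) = 2 * red p (dD sP) := by
        simp only [red, map_mul, map_ofNat]
      have h9 : red p (sP ^ 2 - sQ) = red p sP ^ 2 - red p sQ := by
        simp only [red, map_sub, map_pow]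
      rw [← h8, h7, h9]
    have h10 : e.ev (der2 (der2 A) + vQ * A) = 0 := by
      rw [map_add, map_mul, hev, e.hQ]
      linear_combination -h1 + h6
    have h11 := e.inj (hBB.add hQA) h10
    exact eq_neg_of_add_eq_zero_left h11

end Pool.Agent.B5
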