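import Pool.Agent.B5.MO

/-!
B5 / HK1: the Hecke operator TQ, for a prime Q = 1 mod N, preserves MF N k.

Write al_b = (1 b; 0 Q) for 0 <= b < Q and al_inf = (Q 0; 0 1). For gamma = (a B; c d) in Gamma1(N) right multiplication by gamma
permutes the cosets Gamma1(N) al_*: 
al_b gamma = gamma' al_b' : (a + b c, B + b d; Q c, Q d). If Q does not divide a + b c choose b' with b'(a+bc) = B + bd mod Q, then
 gamma' = (a+bc, (B+bd-b'(a+bc))/Q; Qc, d - b'c). If Q | a + b c : al_b gamma = gamma' al_inf, gamma' = ((a+bc)/Q, B+bd; c, Qd).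
al_inf gamma = (Qa, QB; c, d): if Q does not divide c choose b' with b' c = d mod Q: gamma' = (Qa, B - b'a; c, (d - b'c)/Q), al_b'.
 If Q | c: gamma' = (a, QB; c/Q, d), al_inf. All gamma' are in Gamma1(N) because Q = 1 mod N. The map on the Q + 1 indices is injective
(if al gamma in Gamma al'' and al' gamma in Gamma al'' then al' in Gamma al, and the al's are in different cosets), so a permutation.
Hence (TQ g) | gamma = TQ g. Holomorphy: `MDifferentiable.slash` (Mathlib.NumberTheory.ModularForms.Basic). Boundedness: `bdd_int`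
applied to al_* gamma.
-/

set_option autoImplicit false

namespace Pool.Agent.B5

open PowerSeries UpperHalfPlane
open scoped MatrixGroups ModularForm Manifold

/-- representatives of the Hecke cosets over the integers -/
def iA (Q : ℕ) : Option (Fin Q) → Matrix (Fin 2) (Fin 2) ℤ
  | some b => !![1, ((b : ℕ) : ℤ); 0, (Q : ℤ)]
  | none => !![(Q : ℤ), 0; 0, 1]

lemma iA_det (Q : ℕ) (i : Option (Fin Q)) : (iA Q i).det = Q := by
  cases i <;> simp [iA, Matrix.det_fin_two]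

lemma pnat_ne (Q : ℕ+) : ((Q : ℕ) : ℝ) ≠ 0 := by
  have : (0 : ℝ) < ((Q : ℕ) : ℝ) := by exact_mod_cast Q.pos
  exact this.ne'

/-- representatives of the Hecke cosets -/
noncomputable def rA (Q : ℕ+) : Option (Fin Q) → GL (Fin 2) ℝ
  | some b => tri 1 (((b : ℕ) : ℝ)) ((Q : ℕ) : ℝ) (by simp)
  | none => tri ((Q : ℕ) : ℝ) 0 1 (by simp)

lemma rA_apply (Q : ℕ+) (i : Option (Fin Q)) (r s : Fin 2) :
    (rA Q i : Matrix (Fin 2) (Fin 2) ℝ) r s = (iA Q i r s : ℝ) := by
  cases i <;> fin_cases r <;> fin_cases s <;>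
    simp [rA, iA, tri, Matrix.GeneralLinearGroup.mkOfDetNeZero]

lemma TQ_eq (Q : ℕ+) (k : ℤ) (g : ℍ → ℂ) : TQ Q k g = ∑ i : Option (Fin Q), g ∣[k] rA Q i := by
  rw [Fintype.sum_option, add_comm]
  unfold TQ
  rw [Finset.sum_range]
  rfl

lemma iA_inj {Q : ℕ} (hQ : Q.Prime) (i j : Option (Fin Q)) (δ : Matrix (Fin 2) (Fin 2) ℤ)
    (h : iA Q i = δ * iA Q j) : i = j := by
  have hQ1 : (1 : ℤ) < Q := by exact_mod_cast hQ.one_lt
  have e := fun r s => congrFun (congrFun h r) s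
  have e00 := e 0 0
  have e01 := e 0 1
  have e10 := e 1 0
  have e11 := e 1 1
  rcases i with _ | b <;> rcases j with _ | b' <;>
    simp [iA, Matrix.mul_apply, Fin.sum_univ_two] at e00 e01 e10 e11
  · rfl
  · exfalso
    rw [← e10, zero_mul, zero_add] at e11
    have := Int.eq_one_or_neg_one_of_mul_eq_one (e11.symm.trans rfl |> fun h => (mul_comm _ _).trans h)
    omega
  · exfalso
    have := Int.eq_one_or_neg_one_of_mul_eq_one ((mul_comm _ _).trans e00.symm)
    omega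
  · rw [← e00, one_mul] at e01
    have hb := b.isLt
    have hb' := b'.isLt
    have : δ 0 1 = 0 := by
      by_contra hne
      have h1 : ((b : ℕ) : ℤ) - (b' : ℕ) = δ 0 1 * Q := by linarith
      have h2 : |((b : ℕ) : ℤ) - (b' : ℕ)| < Q := by
        rw [abs_lt]
        constructor <;> omega
      rw [h1, abs_mul, abs_of_nonneg (by omega : (0 : ℤ) ≤ Q)] at h2
      have h3 : 1 ≤ |δ 0 1| := Int.one_le_abs hne
      nlinarith
    rw [this, zero_mul, add_zero] at e01
    congr 1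
    exact Fin.ext (by exact_mod_cast e01)

lemma exists_solution {Q : ℕ} (hQ : Q.Prime) (x y : ℤ) (hx : ¬ (Q : ℤ) ∣ x) :
    ∃ b : Fin Q, ∃ m : ℤ, y - ((b : ℕ) : ℤ) * x = Q * m := by
  have hQ0 : (0 : ℤ) < Q := by exact_mod_cast hQ.pos
  have hQp : Prime (Q : ℤ) := Nat.prime_iff_prime_int.1 hQ
  obtain ⟨v, u, huv⟩ := (hQp.irreducible.coprime_iff_not_dvd).2 hx
  have hlt := Int.emod_lt_of_pos (y * u) hQ0
  have hnn := Int.emod_nonneg (y * u) hQ0.ne'
  refine ⟨⟨((y * u) % Q).toNat, by omega⟩, y * v + (y * u / Q) * x, ?_⟩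
  have h1 : ((((y * u) % Q).toNat : ℕ) : ℤ) = y * u - Q * (y * u / Q) := by
    rw [Int.toNat_of_nonneg hnn]
    have := Int.emod_add_mul_ediv (y * u) Q
    linarith
  simp only [h1]
  linear_combination (-y) * huv

lemma mk_gamma1 {N : ℕ} (a b c d : ℤ) (hdet : a * d - b * c = 1) (ha : (a : ZMod N) = 1)
    (hd : (d : ZMod N) = 1) (hc : (c : ZMod N) = 0) : ∃ γ' ∈ CongruenceSubgroup.Gamma1 N,
      (γ' : Matrix (Fin 2) (Fin 2) ℤ) = !![a, b; c, d] := by
  refine ⟨⟨!![a, b; c, d], by rw [Matrix.det_fin_two_of]; exact hdet⟩, ?_, rfl⟩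
  exact (CongruenceSubgroup.Gamma1_mem N _).2 ⟨ha, hd, hc⟩

lemma coset_step {N Q : ℕ} (hQ : Q.Prime) (hN : Q ≡ 1 [MOD N]) (i : Option (Fin Q)) (γ : SL(2, ℤ))
    (hγ : γ ∈ CongruenceSubgroup.Gamma1 N) : ∃ j : Option (Fin Q), ∃ γ' ∈ CongruenceSubgroup.Gamma1 N,
      iA Q i * (γ : Matrix (Fin 2) (Fin 2) ℤ) = (γ' : Matrix (Fin 2) (Fin 2) ℤ) * iA Q j := by
  have hQN : ((Q : ℤ) : ZMod N) = 1 := by
    have := (ZMod.natCast_eq_natCast_iff _ _ _).2 hN
    push_cast at this ⊢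
    exact this
  rw [CongruenceSubgroup.Gamma1_mem] at hγ
  obtain ⟨ha, hd, hc⟩ := hγ
  have hdet := γ.det_coe
  rw [Matrix.det_fin_two] at hdet
  have hγe : (γ : Matrix (Fin 2) (Fin 2) ℤ) = !![γ 0 0, γ 0 1; γ 1 0, γ 1 1] := by
    ext r s
    fin_cases r <;> fin_cases s <;> rfl
  rw [hγe]
  generalize (γ 0 0 : ℤ) = a at *
  generalize (γ 0 1 : ℤ) = B at *
  generalize (γ 1 0 : ℤ) = c at *
  generalize (γ 1 1 : ℤ) = d at *
  rcases i with _ | b
  · by_cases hx : (Q : ℤ) ∣ c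
    · obtain ⟨m, rfl⟩ := hx
      rw [Int.cast_mul, hQN, one_mul] at hc
      obtain ⟨γ', h1, h2⟩ := mk_gamma1 (N := N) a (Q * B) m d (by linear_combination hdet) ha hd hc
      refine ⟨none, γ', h1, ?_⟩
      rw [h2]
      simp [iA, mul_comm]
    · obtain ⟨b', m, hm⟩ := exists_solution hQ c d hx
      have hm' : (m : ZMod N) = 1 := by
        have hm' := congrArg (Int.cast : ℤ → ZMod N) hm
        rw [Int.cast_sub, Int.cast_mul, Int.cast_mul, hc, hd, hQN, one_mul, mul_zero, sub_zero] at hm'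
        exact hm'.symm
      obtain ⟨γ', h1, h2⟩ := mk_gamma1 (N := N) (Q * a) (B - (b' : ℕ) * a) c m
        (by linear_combination hdet - a * hm) (by rw [Int.cast_mul, hQN, ha, one_mul]) hm' hc
      refine ⟨some b', γ', h1, ?_⟩
      rw [h2]
      ext r s
      fin_cases r <;> fin_cases s <;> simp [iA, Matrix.mul_apply, Fin.sum_univ_two]
      · ring
      · linear_combination hm
  · by_cases hx : (Q : ℤ) ∣ a + (b : ℕ) * c
    · obtain ⟨m, hm⟩ := hx
      have hm' : (m : ZMod N) = 1 := by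
        have hm' := congrArg (Int.cast : ℤ → ZMod N) hm
        rw [Int.cast_add, Int.cast_mul, Int.cast_mul, hc, ha, hQN, one_mul, mul_zero, add_zero] at hm'
        exact hm'.symm
      obtain ⟨γ', h1, h2⟩ := mk_gamma1 (N := N) m (B + (b : ℕ) * d) c (Q * d)
        (by linear_combination hdet - d * hm) hm' (by rw [Int.cast_mul, hQN, hd, one_mul]) hc
      refine ⟨none, γ', h1, ?_⟩
      rw [h2]
      ext r s
      fin_cases r <;> fin_cases s <;> simp [iA, Matrix.mul_apply, Fin.sum_univ_two]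
      · linear_combination hm
      · ring
    · obtain ⟨b', m, hm⟩ := exists_solution hQ (a + (b : ℕ) * c) (B + (b : ℕ) * d) hx
      obtain ⟨γ', h1, h2⟩ := mk_gamma1 (N := N) (a + (b : ℕ) * c) m (Q * c) (d - (b' : ℕ) * c)
        (by linear_combination hdet + c * hm)
        (by rw [Int.cast_add, Int.cast_mul, hc, ha, mul_zero, add_zero])
        (by rw [Int.cast_sub, Int.cast_mul, hc, hd, mul_zero, sub_zero])
        (by rw [Int.cast_mul, hc, mul_zero])
      refine ⟨some b', γ', h1, ?_⟩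
      rw [h2]
      ext r s
      fin_cases r <;> fin_cases s <;> simp [iA, Matrix.mul_apply, Fin.sum_univ_two]
      · linear_combination hm
      · ring

/-- an identity between integer matrices, in `GL(2, R)` -/
lemma gl_step (Q : ℕ+) (i j : Option (Fin Q)) (γ γ' : SL(2, ℤ))
    (h : iA Q i * (γ : Matrix (Fin 2) (Fin 2) ℤ) = (γ' : Matrix (Fin 2) (Fin 2) ℤ) * iA Q j) :
    rA Q i * (Matrix.SpecialLinearGroup.mapGL ℝ γ) =
      (Matrix.SpecialLinearGroup.mapGL ℝ γ') * rA Q j := by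
  apply Matrix.GeneralLinearGroup.ext
  intro r s
  have h' := congrFun (congrFun h r) s
  rw [Matrix.mul_apply, Matrix.mul_apply, Fin.sum_univ_two, Fin.sum_univ_two] at h'
  rw [Matrix.GeneralLinearGroup.coe_mul, Matrix.GeneralLinearGroup.coe_mul, Matrix.mul_apply,
    Matrix.mul_apply, Fin.sum_univ_two, Fin.sum_univ_two, rA_apply, rA_apply, rA_apply, rA_apply,
    Matrix.SpecialLinearGroup.mapGL_coe_matrix, Matrix.SpecialLinearGroup.mapGL_coe_matrix]
  simp only [algebraMap_int_eq, Matrix.SpecialLinearGroup.map_apply_coe, RingHom.mapMatrix_apply,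
    Matrix.map_apply, eq_intCast]
  exact_mod_cast h'

lemma slash_gl (g : ℍ → ℂ) (k : ℤ) (Q : ℕ+) (i : Option (Fin Q)) (γ : SL(2, ℤ)) :
    (g ∣[k] rA Q i) ∣[k] γ = g ∣[k] (rA Q i * (Matrix.SpecialLinearGroup.mapGL ℝ γ)) := by
  rw [SlashAction.slash_mul]
  rfl

theorem MF_TQ {N : ℕ} {k : ℤ} {g : ℍ → ℂ} (hg : MF N k g) (Q : ℕ+) (hQ : (Q : ℕ).Prime)
    (hN : (Q : ℕ) ≡ 1 [MOD N]) : MF N k (TQ Q k g) := by
  classical
  refine ⟨?_, ?_, ?_⟩
  · rw [TQ_eq]
    refine Finset.sum_induction (fun i => g ∣[k] rA Q i) (fun f => MDiff f)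
      (fun a b ha hb => ha.add hb) ?_ (fun i _ => hg.holo.slash k _)
    exact mdifferentiable_const
  · intro γ hγ
    choose σ δ hδ hσ using fun i : Option (Fin Q) => coset_step (N := N) hQ hN i γ hγ
    have hinj : Function.Injective σ := by
      intro i i' hii
      refine iA_inj hQ i i' ((δ i : Matrix (Fin 2) (Fin 2) ℤ) *
        ((δ i')⁻¹ : SL(2, ℤ)).1) ?_
      have h1 := hσ i
      have h2 := hσ i'
      rw [← hii] at h2
      have h3 : iA Q (σ i) = ((δ i')⁻¹ : SL(2, ℤ)).1 * (iA Q i' * (γ : Matrix (Fin 2) (Fin 2) ℤ)) := by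
        rw [h2, ← mul_assoc]
        have : ((δ i')⁻¹ : SL(2, ℤ)).1 * (δ i').1 = 1 := by
          exact congrArg Subtype.val (inv_mul_cancel (δ i'))
        rw [this, one_mul]
      have h4 : iA Q i * (γ : Matrix (Fin 2) (Fin 2) ℤ) =
          (δ i : Matrix (Fin 2) (Fin 2) ℤ) * ((δ i')⁻¹ : SL(2, ℤ)).1 * iA Q i' *
            (γ : Matrix (Fin 2) (Fin 2) ℤ) := by
        rw [h1, h3]
        simp only [mul_assoc]
      have h5 : (γ : Matrix (Fin 2) (Fin 2) ℤ) * (γ⁻¹ : SL(2, ℤ)).1 = 1 := by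
        exact congrArg Subtype.val (mul_inv_cancel γ)
      calc iA Q i = iA Q i * (γ : Matrix (Fin 2) (Fin 2) ℤ) * (γ⁻¹ : SL(2, ℤ)).1 := by
            rw [mul_assoc, h5, mul_one]
        _ = _ := by
            rw [h4, mul_assoc _ _ (γ⁻¹ : SL(2, ℤ)).1, h5, mul_one]
    have hbij : Function.Bijective σ := Finite.injective_iff_bijective.1 hinj
    have e1 : (∑ i : Option (Fin Q), g ∣[k] rA Q i) ∣[k] γ =
        ∑ i : Option (Fin Q), (g ∣[k] rA Q i) ∣[k] γ := SlashAction.sum_slash _ _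
    rw [TQ_eq, e1]
    refine (Finset.sum_congr rfl (fun i _ => ?_)).trans
      (Equiv.sum_comp (Equiv.ofBijective σ hbij) (fun j => g ∣[k] rA Q j))
    rw [slash_gl, gl_step Q i (σ i) γ (δ i) (hσ i), SlashAction.slash_mul]
    have : g ∣[k] (Matrix.SpecialLinearGroup.mapGL ℝ (δ i)) = g := hg.inv (δ i) (hδ i)
    rw [this]
    rfl
  · intro γ
    have e1 : (∑ i : Option (Fin Q), g ∣[k] rA Q i) ∣[k] γ =
        ∑ i : Option (Fin Q), (g ∣[k] rA Q i) ∣[k] γ := SlashAction.sum_slash _ _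
    rw [TQ_eq, e1]
    refine Finset.sum_induction (fun i => (g ∣[k] rA Q i) ∣[k] γ) (fun f => IsBoundedAtImInfty f)
      (fun a b ha hb => ha.add hb) ?_ (fun i _ => ?_)
    · exact Filter.const_boundedAtFilter _ _
    · rw [slash_gl]
      refine bdd_int hg.bdd _ (iA Q i * (γ : Matrix (Fin 2) (Fin 2) ℤ)) (fun r s => ?_) ?_
      · rw [Matrix.GeneralLinearGroup.coe_mul, Matrix.mul_apply, Matrix.mul_apply, Fin.sum_univ_two,
          Fin.sum_univ_two, rA_apply, rA_apply, Matrix.SpecialLinearGroup.mapGL_coe_matrix]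
        simp only [algebraMap_int_eq, Matrix.SpecialLinearGroup.map_apply_coe, RingHom.mapMatrix_apply,
    Matrix.map_apply, eq_intCast]
        push_cast
        rfl
      · rw [Matrix.det_mul, iA_det, γ.det_coe, mul_one]
        exact_mod_cast Q.pos

end Pool.Agent.B5
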