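import Pool.Agent.B5.Defs

/-!
B5 / QC: algebra of q-expansions (`HasQ g c` : for all z, g z is the sum of c n * q^n).

Hints. `qq z` is `Function.Periodic.qParam 1 z`; every q with 0 < |q| < 1 is a value of qq, so the series
converges absolutely in the unit disc (`Summable.norm` in C, or comparison with a larger radius). `unique`: the function
G(q) = sum c n q^n is analytic on the unit disc (see `qExpansion_coeff_unique` in
Mathlib.NumberTheory.ModularForms.QExpansion). `mul`: Cauchy product. `inv`: G is analytic and without zero on the unit disc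
(G 0 = constant coefficient), so 1/G is the sum of its Taylor series (`DifferentiableOn.hasFPowerSeriesOnBall`,
`Complex.hasSum_taylorSeries_on_ball`), and the product of the two series is 1 by `unique`.
-/

set_option autoImplicit false

namespace Pool.Agent.B5

open PowerSeries UpperHalfPlane
open scoped MatrixGroups ModularForm Manifold

variable {g g' : ℍ → ℂ} {c c' : ℂ⟦X⟧}

theorem norm_qq_lt (z : ℍ) : ‖qq z‖ < 1 := by
  have h := UpperHalfPlane.norm_exp_two_pi_I_lt_one z
  simpa [qq] using h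

theorem qq_ne_zero (z : ℍ) : qq z ≠ 0 := Complex.exp_ne_zero _

theorem exists_qq {q : ℂ} (h0 : q ≠ 0) (h1 : ‖q‖ < 1) : ∃ z : ℍ, qq z = q := by
  have hpi : (2 * (Real.pi : ℂ) * Complex.I) ≠ 0 := by
    simp [Real.pi_ne_zero, Complex.I_ne_zero]
  have him : 0 < (Complex.log q / (2 * Real.pi * Complex.I)).im := by
    have h2 : Complex.log q / (2 * Real.pi * Complex.I) =
        (-Complex.I * Complex.log q) * ((1 / (2 * Real.pi) : ℝ) : ℂ) := by
      push_cast
      field_simp
      rw [Complex.I_sq]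
      ring
    rw [h2, Complex.mul_im, Complex.ofReal_im, Complex.ofReal_re, mul_zero, zero_add]
    have h3 : (-Complex.I * Complex.log q).im = - Real.log ‖q‖ := by
      simp [Complex.log_re]
    rw [h3]
    have h4 : Real.log ‖q‖ < 0 := Real.log_neg (norm_pos_iff.2 h0) h1
    have h5 : (0 : ℝ) < 1 / (2 * Real.pi) := by positivity
    nlinarith
  refine ⟨⟨Complex.log q / (2 * Real.pi * Complex.I), him⟩, ?_⟩
  change Complex.exp (2 * Real.pi * Complex.I * (Complex.log q / (2 * Real.pi * Complex.I))) = q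
  rw [mul_div_cancel₀ _ hpi, Complex.exp_log h0]

/-- the formal series -/
noncomputable def fms (c : ℂ⟦X⟧) : FormalMultilinearSeries ℂ ℂ ℂ :=
  FormalMultilinearSeries.ofScalars ℂ (fun n => PowerSeries.coeff n c)

theorem fms_apply (c : ℂ⟦X⟧) (n : ℕ) (y : ℂ) :
    fms c n (fun _ => y) = PowerSeries.coeff n c * y ^ n := by
  rw [fms, FormalMultilinearSeries.ofScalars_apply_eq, smul_eq_mul]

theorem fms_norm (c : ℂ⟦X⟧) (n : ℕ) : ‖fms c n‖ = ‖PowerSeries.coeff n c‖ := by
  rw [FormalMultilinearSeries.norm_apply_eq_norm_coef, fms,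
    FormalMultilinearSeries.coeff_ofScalars]

theorem eball_one : Metric.eball (0 : ℂ) 1 = Metric.ball 0 1 := by
  have h := Metric.eball_coe (x := (0 : ℂ)) (ε := 1)
  simpa using h

/-- summability in the whole disc gives a power series -/
theorem fms_ball {c : ℂ⟦X⟧} {G : ℂ → ℂ}
    (h : ∀ q ∈ Metric.ball (0 : ℂ) 1, HasSum (fun n : ℕ => PowerSeries.coeff n c * q ^ n) (G q)) :
    HasFPowerSeriesOnBall G (fms c) 0 1 := by
  refine ⟨?_, one_pos, ?_⟩
  · refine ENNReal.le_of_forall_nnreal_lt fun r hr => ?_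
    have hr1 : (r : ℝ) < 1 := by exact_mod_cast hr
    have hmem : ((r : ℝ) : ℂ) ∈ Metric.ball (0 : ℂ) 1 := by
      rw [mem_ball_zero_iff, Complex.norm_real, Real.norm_of_nonneg r.coe_nonneg]
      exact hr1
    refine (fms c).le_radius_of_tendsto (l := 0) ?_
    have h1 := (h _ hmem).summable.tendsto_atTop_zero.norm
    rw [norm_zero] at h1
    refine h1.congr fun n => ?_
    rw [fms_norm, norm_mul, norm_pow, Complex.norm_real, Real.norm_of_nonneg r.coe_nonneg]
  · intro y hy
    rw [zero_add]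
    have hy' : y ∈ Metric.ball (0 : ℂ) 1 := by
      rwa [eball_one] at hy
    refine (h y hy').congr_fun ?_
    intro n
    exact fms_apply c n y

/-- the sum function on the unit disc -/
theorem HasQ.exists_disc (h : HasQ g c) : ∃ G : ℂ → ℂ, DifferentiableOn ℂ G (Metric.ball 0 1) ∧
    (∀ q ∈ Metric.ball (0 : ℂ) 1, HasSum (fun n : ℕ => PowerSeries.coeff n c * q ^ n) (G q)) ∧
    ∀ z, g z = G (qq z) := by
  have hsum : ∀ q ∈ Metric.ball (0 : ℂ) 1,
      Summable (fun n : ℕ => PowerSeries.coeff n c * q ^ n) := by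
    intro q hq
    rw [mem_ball_zero_iff] at hq
    by_cases h0 : q = 0
    · subst h0
      refine summable_of_ne_finset_zero (s := {0}) fun n hn => ?_
      rw [Finset.mem_singleton] at hn
      rw [zero_pow hn, mul_zero]
    · obtain ⟨z, rfl⟩ := exists_qq h0 hq
      exact (h z).summable
  have h2 : ∀ q ∈ Metric.ball (0 : ℂ) 1, HasSum (fun n : ℕ => PowerSeries.coeff n c * q ^ n)
      (∑' n : ℕ, PowerSeries.coeff n c * q ^ n) := fun q hq => (hsum q hq).hasSum
  refine ⟨fun q => ∑' n : ℕ, PowerSeries.coeff n c * q ^ n, ?_, h2, fun z => (h z).tsum_eq.symm⟩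
  have h3 := (fms_ball h2).differentiableOn
  rwa [eball_one] at h3

theorem HasQ.unique (h : HasQ g c) (h' : HasQ g c') : c = c' := by
  obtain ⟨G, -, h1, h2⟩ := h.exists_disc
  obtain ⟨G', -, h1', h2'⟩ := h'.exists_disc
  have e : ∀ q ∈ Metric.ball (0 : ℂ) 1, q ≠ 0 → G q = G' q := by
    intro q hq h0
    obtain ⟨z, rfl⟩ := exists_qq h0 (mem_ball_zero_iff.1 hq)
    rw [← h2, ← h2']
  have hb : Metric.ball (0 : ℂ) 1 ∈ nhds (0 : ℂ) := Metric.ball_mem_nhds _ one_pos
  have hG := fms_ball h1
  have hG' := fms_ball h1'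
  have e2 : ∀ᶠ q in nhds (0 : ℂ), G q = G' q := by
    have e3 : ∀ᶠ q in nhdsWithin (0 : ℂ) {0}ᶜ, G q = G' q := by
      rw [eventually_nhdsWithin_iff]
      filter_upwards [hb] with q hq h0
      exact e q hq h0
    exact (AnalyticAt.frequently_eq_iff_eventually_eq hG.analyticAt hG'.analyticAt).1
      e3.frequently
  have h5 := HasFPowerSeriesAt.eq_formalMultilinearSeries_of_eventually
    hG.hasFPowerSeriesAt hG'.hasFPowerSeriesAt e2
  ext n
  have h6 := congrArg (fun p => FormalMultilinearSeries.coeff p n) h5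
  simpa [fms, FormalMultilinearSeries.coeff_ofScalars] using h6

theorem HasQ.add (h : HasQ g c) (h' : HasQ g' c') : HasQ (fun z => g z + g' z) (c + c') := by
  intro z
  refine ((h z).add (h' z)).congr_fun fun n => ?_
  rw [map_add, add_mul]

theorem HasQ.sub (h : HasQ g c) (h' : HasQ g' c') : HasQ (fun z => g z - g' z) (c - c') := by
  intro z
  refine ((h z).sub (h' z)).congr_fun fun n => ?_
  rw [map_sub, sub_mul]

theorem HasQ.const (a : ℂ) : HasQ (fun _ => a) (PowerSeries.C a) := by
  intro z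
  have h := hasSum_single (f := fun n : ℕ => PowerSeries.coeff n (PowerSeries.C a) * qq z ^ n) 0
    (fun n hn => by rw [PowerSeries.coeff_C, if_neg hn, zero_mul])
  simpa [PowerSeries.coeff_C] using h

theorem HasQ.mul (h : HasQ g c) (h' : HasQ g' c') : HasQ (fun z => g z * g' z) (c * c') := by
  intro z
  have h1 := (h z).summable.norm
  have h2 := (h' z).summable.norm
  have h3 := tsum_mul_tsum_eq_tsum_sum_antidiagonal_of_summable_norm h1 h2
  have h4 := (summable_norm_sum_mul_antidiagonal_of_summable_norm h1 h2).of_norm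
  rw [(h z).tsum_eq, (h' z).tsum_eq] at h3
  have h5 := h4.hasSum
  rw [← h3] at h5
  refine h5.congr_fun fun n => ?_
  rw [PowerSeries.coeff_mul, Finset.sum_mul]
  refine Finset.sum_congr rfl fun kl hkl => ?_
  rw [← Finset.HasAntidiagonal.mem_antidiagonal.1 hkl, pow_add]
  ring

theorem HasQ.pow (h : HasQ g c) (n : ℕ) : HasQ (fun z => g z ^ n) (c ^ n) := by
  induction n with
  | zero =>
    have := HasQ.const 1
    simpa using this
  | succ n ih =>
    have := ih.mul h
    simpa [pow_succ] using this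

theorem qq_sc (N : ℕ+) (z : ℍ) : qq (sc N z) = qq z ^ (N : ℕ) := by
  unfold qq sc
  rw [← Complex.exp_nat_mul]
  congr 1
  change 2 * (Real.pi : ℂ) * Complex.I * ((N : ℂ) * (z : ℂ)) = _
  ring

theorem HasQ.scale (h : HasQ g c) (N : ℕ+) :
    HasQ (fun z => g (sc N z)) (PowerSeries.expand (N : ℕ) N.ne_zero c) := by
  intro z
  have h1 := h (sc N z)
  have hinj : Function.Injective (fun n : ℕ => (N : ℕ) * n) := fun a b hab =>
    Nat.eq_of_mul_eq_mul_left N.pos hab
  rw [← hinj.hasSum_iff]
  · refine h1.congr_fun fun n => ?_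
    simp only [Function.comp]
    rw [PowerSeries.coeff_expand_mul, qq_sc, pow_mul]
  · intro n hn
    rw [PowerSeries.coeff_expand_of_not_dvd, zero_mul]
    rintro ⟨m, hm⟩
    exact hn ⟨m, hm.symm⟩

/-- the function q itself -/
theorem hasQ_qq : HasQ qq (PowerSeries.X : ℂ⟦X⟧) := by
  intro z
  have h := hasSum_single (f := fun n : ℕ => PowerSeries.coeff n (PowerSeries.X : ℂ⟦X⟧) * qq z ^ n) 1
    (fun n hn => by rw [PowerSeries.coeff_X, if_neg hn, zero_mul])
  simpa using h

theorem HasQ.inv (h : HasQ g c) (h0 : ∀ z, g z ≠ 0) (hc : PowerSeries.constantCoeff c ≠ 0) :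
    HasQ (fun z => (g z)⁻¹) c⁻¹ := by
  obtain ⟨G, hd, h1, h2⟩ := h.exists_disc
  have hG0 : G 0 = PowerSeries.constantCoeff c := by
    have e1 := h1 0 (Metric.mem_ball_self one_pos)
    have e2 := hasSum_single (f := fun n : ℕ => PowerSeries.coeff n c * (0 : ℂ) ^ n) 0
      (fun n hn => by rw [zero_pow hn, mul_zero])
    have e3 := e1.unique e2
    simpa using e3
  have hne : ∀ q ∈ Metric.ball (0 : ℂ) 1, G q ≠ 0 := by
    intro q hq
    by_cases hq0 : q = 0
    · rw [hq0, hG0]
      exact hc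
    · obtain ⟨z, rfl⟩ := exists_qq hq0 (mem_ball_zero_iff.1 hq)
      rw [← h2]
      exact h0 z
  have hd' : DifferentiableOn ℂ (fun q => (G q)⁻¹) (Metric.ball 0 1) := hd.inv hne
  set d : ℂ⟦X⟧ := PowerSeries.mk fun n =>
    ((Nat.factorial n : ℂ))⁻¹ * iteratedDeriv n (fun q => (G q)⁻¹) 0 with hdd
  have hQ : HasQ (fun z => (g z)⁻¹) d := by
    intro z
    have hz : qq z ∈ Metric.ball (0 : ℂ) 1 := mem_ball_zero_iff.2 (norm_qq_lt z)
    have e1 := Complex.hasSum_taylorSeries_on_ball hd' hz
    simp only [sub_zero, smul_eq_mul] at e1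
    rw [← h2] at e1
    refine e1.congr_fun fun n => ?_
    rw [hdd, PowerSeries.coeff_mk]
    ring
  have e2 : HasQ (fun _ => (1 : ℂ)) (d * c) := by
    have e3 := hQ.mul h
    intro z
    have e4 := e3 z
    simp only at e4
    rwa [inv_mul_cancel₀ (h0 z)] at e4
  have e5 : d * c = 1 := by
    have := e2.unique (HasQ.const 1)
    simpa using this
  have e6 : d = c⁻¹ := (PowerSeries.eq_inv_iff_mul_eq_one hc).2 e5
  rw [← e6]
  exact hQ

theorem toC_injective {a b : ℤ⟦X⟧} (h : toC a = toC b) : a = b := by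
  ext n
  have h1 := congrArg (PowerSeries.coeff n) h
  simpa [toC] using h1

end Pool.Agent.B5
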