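import Pool.Agent.B5.HK1
import Pool.Agent.B5.QC

/-!
B5 / HK2: q-expansion of the Hecke operator: (g | al_b)(z) = Q^(-1) g((z+b)/Q) and (g | al_inf)(z) = Q^(k-1) g(Qz),
and the sum over b of exp(2 pi i n b/Q) is Q or 0.
-/

set_option autoImplicit false

namespace Pool.Agent.B5

open PowerSeries UpperHalfPlane
open scoped MatrixGroups ModularForm Manifold

lemma hk_tri_det (a b d : ℝ) (h : a * d ≠ 0) : (tri a b d h).det.val = a * d := by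
  simp [tri, Matrix.GeneralLinearGroup.mkOfDetNeZero, Matrix.det_fin_two]

lemma hk_tri_smul (a b d : ℝ) (h : a * d ≠ 0) (h0 : 0 < a * d) (z : ℍ) :
    ((tri a b d h • z : ℍ) : ℂ) = (a * (z : ℂ) + b) / d := by
  rw [coe_smul_of_det_pos (by rw [hk_tri_det]; exact h0)]
  simp [num, denom, tri, Matrix.GeneralLinearGroup.mkOfDetNeZero]

lemma hk_tri_slash (g : ℍ → ℂ) (k : ℤ) (a b d : ℝ) (h : a * d ≠ 0) (h0 : 0 < a * d) (z : ℍ) :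
    (g ∣[k] tri a b d h) z =
      g (tri a b d h • z) * (((a * d : ℝ)) : ℂ) ^ (k - 1) * (d : ℂ) ^ (-k) := by
  rw [ModularForm.slash_apply]
  have h1 : 0 < (tri a b d h).det.val := by rw [hk_tri_det]; exact h0
  have h2 : σ (tri a b d h) = ContinuousAlgEquiv.refl ℝ ℂ := by
    unfold σ
    rw [if_pos h1]
  rw [h2, hk_tri_det, abs_of_pos h0]
  simp [denom, tri, Matrix.GeneralLinearGroup.mkOfDetNeZero]

/-- the sum over the classes mod `Q` -/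
lemma hk_geom (Q : ℕ+) (n : ℕ) : ∑ b ∈ Finset.range (Q : ℕ),
    Complex.exp (2 * Real.pi * Complex.I * (n * b / ((Q : ℕ) : ℂ))) =
      if (Q : ℕ) ∣ n then ((Q : ℕ) : ℂ) else 0 := by
  have hζ := Complex.isPrimitiveRoot_exp (Q : ℕ) Q.ne_zero
  set ζ := Complex.exp (2 * Real.pi * Complex.I / ((Q : ℕ) : ℂ)) with hζd
  have h1 : ∀ b ∈ Finset.range (Q : ℕ),
      Complex.exp (2 * Real.pi * Complex.I * (n * b / ((Q : ℕ) : ℂ))) = (ζ ^ n) ^ b := by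
    intro b _
    rw [← pow_mul, hζd, ← Complex.exp_nat_mul]
    congr 1
    push_cast
    ring
  rw [Finset.sum_congr rfl h1]
  split_ifs with hd
  · rw [(hζ.pow_eq_one_iff_dvd n).2 hd]
    simp
  · have hne : ζ ^ n ≠ 1 := fun h => hd ((hζ.pow_eq_one_iff_dvd n).1 h)
    rw [geom_sum_eq hne, ← pow_mul, mul_comm, pow_mul, hζ.pow_eq_one, one_pow, sub_self, zero_div]

lemma hk_inj (Q : ℕ+) : Function.Injective (fun m : ℕ => (Q : ℕ) * m) :=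
  fun _ _ h => Nat.eq_of_mul_eq_mul_left Q.pos h

lemma hk_range {Q : ℕ+} {n : ℕ} (h : n ∉ Set.range (fun m : ℕ => (Q : ℕ) * m)) : ¬ (Q : ℕ) ∣ n := by
  rintro ⟨m, rfl⟩
  exact h ⟨m, rfl⟩

lemma hk_congr {f f' : ℕ → ℂ} {a : ℂ} (h : HasSum f a) (he : ∀ n, f' n = f n) :
    HasSum f' a := by
  have : f' = f := funext he
  rwa [this]

lemma hk_part1 {k : ℕ} {g : ℍ → ℂ} {c : ℂ⟦X⟧} (hg : HasQ g c) (Q : ℕ+) (z : ℍ) :
    HasSum (fun n : ℕ => PowerSeries.coeff ((Q : ℕ) * n) c * qq z ^ n)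
      (∑ b ∈ Finset.range (Q : ℕ), (g ∣[(k : ℤ)] tri 1 (b : ℝ) ((Q : ℕ) : ℝ) (by simp)) z) := by
  have hQ0 : ((Q : ℕ) : ℂ) ≠ 0 := by exact_mod_cast Q.ne_zero
  have hQr : (0 : ℝ) < ((Q : ℕ) : ℝ) := by exact_mod_cast Q.pos
  have hb : ∀ b ∈ Finset.range (Q : ℕ), HasSum (fun n : ℕ => PowerSeries.coeff n c *
      (Complex.exp (2 * Real.pi * Complex.I * (n * (z : ℂ) / ((Q : ℕ) : ℂ))) *
        Complex.exp (2 * Real.pi * Complex.I * (n * b / ((Q : ℕ) : ℂ)))) * ((Q : ℕ) : ℂ)⁻¹)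
      ((g ∣[(k : ℤ)] tri 1 (b : ℝ) ((Q : ℕ) : ℝ) (by simp)) z) := by
    intro b _
    have h0 : (0 : ℝ) < 1 * ((Q : ℕ) : ℝ) := by rw [one_mul]; exact hQr
    rw [hk_tri_slash g k 1 (b : ℝ) ((Q : ℕ) : ℝ) (by simp) h0 z]
    have h1 := (hg (tri 1 (b : ℝ) ((Q : ℕ) : ℝ) (by simp) • z)).mul_right (((Q : ℕ) : ℂ)⁻¹)
    have h2 : (((1 * ((Q : ℕ) : ℝ) : ℝ)) : ℂ) ^ ((k : ℤ) - 1) * ((((Q : ℕ) : ℝ)) : ℂ) ^ (-(k : ℤ)) =
        ((Q : ℕ) : ℂ)⁻¹ := by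
      have : (((1 * ((Q : ℕ) : ℝ) : ℝ)) : ℂ) = ((Q : ℕ) : ℂ) := by push_cast; ring
      rw [this, Complex.ofReal_natCast, ← zpow_add₀ hQ0]
      rw [show (k : ℤ) - 1 + -(k : ℤ) = -1 by ring, zpow_neg_one]
    have h3 : g (tri 1 (b : ℝ) ((Q : ℕ) : ℝ) (by simp) • z) * (((1 * ((Q : ℕ) : ℝ) : ℝ)) : ℂ) ^ ((k : ℤ) - 1) *
        ((((Q : ℕ) : ℝ)) : ℂ) ^ (-(k : ℤ)) = g (tri 1 (b : ℝ) ((Q : ℕ) : ℝ) (by simp) • z) * ((Q : ℕ) : ℂ)⁻¹ := by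
      rw [mul_assoc, h2]
    rw [h3]
    have h4 : qq (tri 1 (b : ℝ) ((Q : ℕ) : ℝ) (by simp) • z) =
        Complex.exp (2 * Real.pi * Complex.I * (((z : ℂ) + b) / ((Q : ℕ) : ℂ))) := by
      unfold qq
      rw [hk_tri_smul _ _ _ _ h0]
      push_cast
      rw [one_mul]
    rw [h4] at h1
    refine hk_congr h1 (fun n => ?_)
    rw [← Complex.exp_add, ← Complex.exp_nat_mul]
    congr 3
    ring
  have hs := hasSum_sum hb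
  have he : (fun n : ℕ => ∑ b ∈ Finset.range (Q : ℕ), PowerSeries.coeff n c *
      (Complex.exp (2 * Real.pi * Complex.I * (n * (z : ℂ) / ((Q : ℕ) : ℂ))) *
        Complex.exp (2 * Real.pi * Complex.I * (n * b / ((Q : ℕ) : ℂ)))) * ((Q : ℕ) : ℂ)⁻¹) =
      fun n : ℕ => if (Q : ℕ) ∣ n then PowerSeries.coeff n c *
        Complex.exp (2 * Real.pi * Complex.I * (n * (z : ℂ) / ((Q : ℕ) : ℂ))) else 0 := by
    funext n
    have h3 := hk_geom Q n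
    rw [← Finset.sum_mul, ← Finset.mul_sum, ← Finset.mul_sum, h3]
    split_ifs
    · field_simp
    · simp
  rw [he, ← (hk_inj Q).hasSum_iff (fun n hn => if_neg (hk_range hn))] at hs
  convert hs using 2 with n
  simp only [Function.comp_apply, dvd_mul_right, if_true]
  congr 1
  unfold qq
  rw [← Complex.exp_nat_mul]
  congr 1
  push_cast
  field_simp

lemma hk_part2 {k : ℕ} (hk : 1 ≤ k) {g : ℍ → ℂ} {c : ℂ⟦X⟧} (hg : HasQ g c) (Q : ℕ+) (z : ℍ) :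
    HasSum (fun n : ℕ => (if (Q : ℕ) ∣ n then ((Q : ℕ) : ℂ) ^ (k - 1) * PowerSeries.coeff (n / Q) c else 0)
      * qq z ^ n)
      ((g ∣[(k : ℤ)] tri ((Q : ℕ) : ℝ) 0 1 (by simp)) z) := by
  have hQ0 : ((Q : ℕ) : ℂ) ≠ 0 := by exact_mod_cast Q.ne_zero
  have hQr : (0 : ℝ) < ((Q : ℕ) : ℝ) := by exact_mod_cast Q.pos
  have h0 : (0 : ℝ) < ((Q : ℕ) : ℝ) * 1 := by rw [mul_one]; exact hQr
  rw [hk_tri_slash g k ((Q : ℕ) : ℝ) 0 1 (by simp) h0 z]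
  have h1 := (hg (tri ((Q : ℕ) : ℝ) 0 1 (by simp) • z)).mul_right (((Q : ℕ) : ℂ) ^ (k - 1))
  have h2 : ((((Q : ℕ) : ℝ) * 1 : ℝ) : ℂ) ^ ((k : ℤ) - 1) * (((1 : ℝ)) : ℂ) ^ (-(k : ℤ)) =
      ((Q : ℕ) : ℂ) ^ (k - 1) := by
    have : ((((Q : ℕ) : ℝ) * 1 : ℝ) : ℂ) = ((Q : ℕ) : ℂ) := by push_cast; ring
    rw [this, Complex.ofReal_one, one_zpow, mul_one]
    rw [show (k : ℤ) - 1 = ((k - 1 : ℕ) : ℤ) by omega, zpow_natCast]
  rw [mul_assoc, h2]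
  rw [← (hk_inj Q).hasSum_iff (fun n hn => by rw [if_neg (hk_range hn), zero_mul])]
  refine hk_congr h1 (fun n => ?_)
  simp only [Function.comp_apply, dvd_mul_right, if_true, Nat.mul_div_cancel_left _ Q.pos]
  have h3 : qq (tri ((Q : ℕ) : ℝ) 0 1 (by simp) • z) = qq z ^ (Q : ℕ) := by
    unfold qq
    rw [hk_tri_smul _ _ _ _ h0, ← Complex.exp_nat_mul]
    congr 1
    push_cast
    ring
  rw [h3, pow_mul]
  ring

theorem HasQ_TQ {k : ℕ} (hk : 1 ≤ k) {g : ℍ → ℂ} {c : ℂ⟦X⟧} (hg : HasQ g c) (Q : ℕ+) :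
    HasQ (TQ Q k g) (tq Q k c) := by
  intro z
  have h := (hk_part1 (k := k) hg Q z).add (hk_part2 hk hg Q z)
  have e : TQ Q k g z = (∑ b ∈ Finset.range (Q : ℕ), (g ∣[(k : ℤ)] tri 1 (b : ℝ) ((Q : ℕ) : ℝ) (by simp)) z)
      + (g ∣[(k : ℤ)] tri ((Q : ℕ) : ℝ) 0 1 (by simp)) z := by
    unfold TQ
    rw [Pi.add_apply, Finset.sum_apply]
  rw [e]
  convert h using 2 with n
  simp only [tq, PowerSeries.coeff_mk]
  rw [add_mul]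

theorem LL_tq {N k : ℕ} (hk : 1 ≤ k) {c : ℤ⟦X⟧} (hc : c ∈ LL N k) (Q : ℕ) (hQ : Q.Prime)
    (hN : Q ≡ 1 [MOD N]) : tq Q k c ∈ LL N k := by
  obtain ⟨Q, rfl⟩ : ∃ Q' : ℕ+, (Q' : ℕ) = Q := ⟨⟨Q, hQ.pos⟩, rfl⟩
  obtain ⟨g, hg, hc⟩ := hc
  refine ⟨TQ Q k g, MF_TQ hg Q hQ hN, ?_⟩
  have h := HasQ_TQ hk hc Q
  have e : tq (Q : ℕ) k (toC c) = toC (tq Q k c) := by
    ext n
    simp only [tq, toC, PowerSeries.coeff_mk, PowerSeries.coeff_map]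
    split_ifs
    · simp
    · simp
  rwa [e] at h

end Pool.Agent.B5
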