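import Pool.Agent.B5.Defs

/-!
B5 / IA1: the generating function of 5-regular partitions.
-/

set_option autoImplicit false

namespace Pool.Agent.B5

open PowerSeries UpperHalfPlane
open scoped MatrixGroups ModularForm Manifold

section IA1Top

open Filter Topology
open scoped PowerSeries.WithPiTopology

private theorem ia1_expand_cont :
    Continuous (fun c : ℤ⟦X⟧ => PowerSeries.expand 5 (by norm_num) c) := by
  rw [continuous_iff_continuousAt]
  intro c
  rw [ContinuousAt, PowerSeries.WithPiTopology.tendsto_iff_coeff_tendsto]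
  intro d
  simp only [PowerSeries.coeff_expand]
  by_cases h : 5 ∣ d
  · simp only [h, if_true]
    exact (PowerSeries.WithPiTopology.continuous_coeff ℤ (d / 5)).continuousAt
  · simp only [h, if_false]
    exact tendsto_const_nhds

private theorem ia1_prod1 : HasProd (fun i : ℕ => (1 - (X : ℤ⟦X⟧) ^ (5 * (i + 1)))) (ex5 phi) := by
  have h1 := PowerSeries.WithPiTopology.hasProd_one_sub_X_pow ℤ
  have h2 := h1.map (PowerSeries.expand 5 (by norm_num) : ℤ⟦X⟧ →ₐ[ℤ] ℤ⟦X⟧) ia1_expand_cont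
  have h3 : ((PowerSeries.expand 5 (by norm_num) : ℤ⟦X⟧ →ₐ[ℤ] ℤ⟦X⟧) ∘
      (fun n : ℕ => (1 - X ^ (n + 1) : ℤ⟦X⟧))) = fun i : ℕ => (1 - (X : ℤ⟦X⟧) ^ (5 * (i + 1))) := by
    funext i
    simp only [Function.comp_apply, map_sub, map_one, map_pow, PowerSeries.expand_X, ← pow_mul]
  rw [h3] at h2
  exact h2

private theorem ia1_prod2 : HasProd (fun i : ℕ => if 5 ∣ i + 1 then (1 - (X : ℤ⟦X⟧) ^ (i + 1)) else 1)
    (ex5 phi) := by
  have hinj : Function.Injective (fun i : ℕ => 5 * (i + 1) - 1) := by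
    intro a b h
    simp only at h
    omega
  rw [← hinj.hasProd_iff]
  · have h1 : ((fun i : ℕ => if 5 ∣ i + 1 then (1 - (X : ℤ⟦X⟧) ^ (i + 1)) else 1) ∘
        (fun i : ℕ => 5 * (i + 1) - 1)) = fun i : ℕ => (1 - (X : ℤ⟦X⟧) ^ (5 * (i + 1))) := by
      funext i
      have h2 : 5 * (i + 1) - 1 + 1 = 5 * (i + 1) := by omega
      simp only [Function.comp_apply, h2, dvd_mul_right, if_true]
    rw [h1]
    exact ia1_prod1
  · intro x hx
    rw [if_neg]
    rintro ⟨k, hk⟩
    apply hx
    refine ⟨k - 1, ?_⟩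
    simp only
    omega

theorem id_B1 : sB * phi = ex5 phi := by
  have h1 : HasProd (fun i : ℕ => if ¬ 5 ∣ i + 1 then ∑' j : ℕ, (X : ℤ⟦X⟧) ^ ((i + 1) * j) else 1)
      sB := by
    have hs : sB = PowerSeries.mk (fun n =>
        ((Nat.Partition.restricted n (fun i => ¬ 5 ∣ i)).card : ℤ)) := by
      ext n
      simp only [sB, PowerSeries.coeff_mk, b5, Nat.Partition.restricted]
    rw [hs]
    exact Nat.Partition.hasProd_powerSeriesMk_card_restricted ℤ (fun i => ¬ 5 ∣ i)
  have h2 : HasProd (fun n : ℕ => (1 - X ^ (n + 1) : ℤ⟦X⟧)) phi :=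
    PowerSeries.WithPiTopology.hasProd_one_sub_X_pow ℤ
  have h3 := h1.mul h2
  refine h3.unique ?_
  convert ia1_prod2 using 1
  funext i
  by_cases h : 5 ∣ i + 1
  · simp [h]
  · simp only [h, not_false_eq_true, if_true, if_false]
    simp_rw [pow_mul]
    exact PowerSeries.WithPiTopology.tsum_pow_mul_one_sub_of_constantCoeff_eq_zero (by simp)

end IA1Top

theorem phi_coeff_zero : PowerSeries.constantCoeff phi = 1 := by
  have h := PowerSeries.coeff_pentagonalSeries_pentagonal ℤ 0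
  have h0 : pentagonal 0 = 0 := by simp [pentagonal]
  rw [h0] at h
  rw [← PowerSeries.coeff_zero_eq_constantCoeff_apply, phi, h]
  simp

theorem ex5_coeff_zero : PowerSeries.constantCoeff (ex5 phi) = 1 := by
  rw [← PowerSeries.coeff_zero_eq_constantCoeff_apply, ex5, PowerSeries.coeff_expand]
  simp [phi_coeff_zero]

theorem sa_mul : sa * ex5 phi = phi ^ 5 := by
  rw [sa, mul_assoc, mul_comm (PowerSeries.invOfUnit _ _),
    PowerSeries.mul_invOfUnit _ _ (by rw [ex5_coeff_zero]; rfl), mul_one]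

theorem sb_mul : sb * phi = PowerSeries.X * ex5 phi ^ 5 := by
  rw [sb, mul_assoc, mul_comm (PowerSeries.invOfUnit _ _),
    PowerSeries.mul_invOfUnit _ _ (by rw [phi_coeff_zero]; rfl), mul_one]

theorem id_B2 : sB * sa = phi ^ 4 := by
  have h0 : ex5 phi ≠ 0 := by
    intro h
    have := ex5_coeff_zero
    rw [h] at this
    simp at this
  apply mul_right_cancel₀ h0
  rw [mul_assoc, sa_mul, ← id_B1]
  ring

end Pool.Agent.B5
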