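import Pool.Agent.B5.EQ3
import Pool.Agent.B5.QD

/-!
B5 / LD: logarithmic derivatives. D = (1/(2 pi i)) d/dz.

`ModularForm.logDeriv_eta_eq_E2` gives D eta = eta * E2 / 24, and D (eta (5 z)) = 5 eta(5 z) E2(5 z) / 24.
By definition 5 E2(5z) = 4 fE + E2. So D fa / fa = 5 E2/24 - 5 E2(5z)/24 = (E2 - fE)/6,
D fb / fb = (25 E2(5z) - E2)/24 = (5 fE + E2)/6, and ep = exp(-2 pi i z/24) eta gives D ep / ep = (E2 - 1)/24.
-/

set_option autoImplicit false

namespace Pool.Agent.B5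

open PowerSeries UpperHalfPlane
open scoped MatrixGroups ModularForm Manifold

lemma LD_aux (F : ℍ → ℂ) (f : ℂ → ℂ) (hF : ∀ w : ℍ, F w = f w) (z : ℍ) (h0 : f z ≠ 0) :
    Derivative.normalizedDerivOfComplex F z =
      F z * logDeriv f (z : ℂ) / (2 * Real.pi * Complex.I) := by
  have h1 : (F ∘ UpperHalfPlane.ofComplex) =ᶠ[nhds (z : ℂ)] f := by
    filter_upwards [isOpen_upperHalfPlaneSet.mem_nhds z.2] with w hw
    rw [Function.comp_apply, hF, UpperHalfPlane.ofComplex_apply_of_im_pos hw]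
  unfold Derivative.normalizedDerivOfComplex
  rw [h1.deriv_eq, hF, logDeriv_apply]
  have hpi : (2 * Real.pi * Complex.I : ℂ) ≠ 0 := Complex.two_pi_I_ne_zero
  field_simp

lemma LD_sc (z : ℍ) : ((sc 5 z : ℍ) : ℂ) = 5 * (z : ℂ) := by
  simp [sc]

lemma LD_eta_diff (z : ℍ) : DifferentiableAt ℂ ModularForm.eta (z : ℂ) :=
  ModularForm.differentiableAt_eta_of_mem_upperHalfPlaneSet z.2

lemma LD_eta_ne (z : ℍ) : ModularForm.eta (z : ℂ) ≠ 0 := ModularForm.eta_ne_zero z.2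

lemma LD_log5 (z : ℍ) : logDeriv (fun w : ℂ => ModularForm.eta (5 * w)) (z : ℂ) =
    5 * (Real.pi * Complex.I / 12 * EisensteinSeries.E2 (sc 5 z)) := by
  have h1 : DifferentiableAt ℂ ModularForm.eta (5 * (z : ℂ)) := by
    rw [← LD_sc]; exact LD_eta_diff _
  have h2 := logDeriv_comp (f := ModularForm.eta) (g := fun w : ℂ => 5 * w) (x := (z : ℂ)) h1
    (by fun_prop)
  have h3 : (ModularForm.eta ∘ fun w : ℂ => 5 * w) = fun w : ℂ => ModularForm.eta (5 * w) := rfl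
  rw [h3] at h2
  rw [h2]
  have h4 : deriv (fun w : ℂ => 5 * w) (z : ℂ) = 5 := by
    rw [deriv_const_mul_field]; simp
  rw [h4, ← LD_sc, ModularForm.logDeriv_eta_eq_E2]
  ring

theorem D_fa (z : ℍ) : Derivative.normalizedDerivOfComplex fa z =
    fa z * (EisensteinSeries.E2 z - fE z) / 6 := by
  have h5 : ModularForm.eta (5 * (z : ℂ)) ≠ 0 := by rw [← LD_sc]; exact LD_eta_ne _
  have hd5 : DifferentiableAt ℂ (fun w : ℂ => ModularForm.eta (5 * w)) (z : ℂ) := by
    have h1 : DifferentiableAt ℂ ModularForm.eta (5 * (z : ℂ)) := by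
      rw [← LD_sc]; exact LD_eta_diff _
    exact h1.comp (z : ℂ) (by fun_prop)
  have h := LD_aux fa (fun w => ModularForm.eta w ^ 5 / ModularForm.eta (5 * w))
    (fun w => by rw [fa, LD_sc]) z (div_ne_zero (pow_ne_zero _ (LD_eta_ne z)) h5)
  have h7 := logDeriv_div (f := fun w : ℂ => ModularForm.eta w ^ 5)
    (g := fun w : ℂ => ModularForm.eta (5 * w)) (z : ℂ) (pow_ne_zero _ (LD_eta_ne z)) h5
    ((LD_eta_diff z).fun_pow 5) hd5
  rw [h, h7, LD_log5, logDeriv_fun_pow (LD_eta_diff z), ModularForm.logDeriv_eta_eq_E2, fE]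
  have hpi : (Real.pi : ℂ) ≠ 0 := by exact_mod_cast Real.pi_ne_zero
  have hI := Complex.I_ne_zero
  field_simp
  push_cast
  ring

theorem D_fb (z : ℍ) : Derivative.normalizedDerivOfComplex fb z =
    fb z * (5 * fE z + EisensteinSeries.E2 z) / 6 := by
  have h5 : ModularForm.eta (5 * (z : ℂ)) ≠ 0 := by rw [← LD_sc]; exact LD_eta_ne _
  have hd5 : DifferentiableAt ℂ (fun w : ℂ => ModularForm.eta (5 * w)) (z : ℂ) := by
    have h1 : DifferentiableAt ℂ ModularForm.eta (5 * (z : ℂ)) := by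
      rw [← LD_sc]; exact LD_eta_diff _
    exact h1.comp (z : ℂ) (by fun_prop)
  have h := LD_aux fb (fun w => ModularForm.eta (5 * w) ^ 5 / ModularForm.eta w)
    (fun w => by rw [fb, LD_sc]) z (div_ne_zero (pow_ne_zero _ h5) (LD_eta_ne z))
  have h7 := logDeriv_div (f := fun w : ℂ => ModularForm.eta (5 * w) ^ 5)
    (g := fun w : ℂ => ModularForm.eta w) (z : ℂ) (pow_ne_zero _ h5) (LD_eta_ne z)
    (hd5.fun_pow 5) (LD_eta_diff z)
  rw [h, h7, logDeriv_fun_pow hd5, LD_log5, ModularForm.logDeriv_eta_eq_E2, fE]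
  have hpi : (Real.pi : ℂ) ≠ 0 := by exact_mod_cast Real.pi_ne_zero
  have hI := Complex.I_ne_zero
  field_simp
  push_cast
  ring

theorem D_ep (z : ℍ) : Derivative.normalizedDerivOfComplex ep z =
    ep z * (EisensteinSeries.E2 z - 1) / 24 := by
  have hne : (∏' n : ℕ, (1 - ModularForm.eta_q n (z : ℂ))) ≠ 0 :=
    ModularForm.eta_tprod_ne_zero z.2
  have h := LD_aux ep (fun w => ∏' n : ℕ, (1 - ModularForm.eta_q n w))
    (fun w => rfl) z hne
  have h1 := ModularForm.logDeriv_eta_eq_E2 z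
  unfold ModularForm.eta at h1
  rw [logDeriv_mul _ (Function.Periodic.qParam_ne_zero _) hne (by fun_prop)
    (ModularForm.differentiableAt_eta_tprod z.2), ModularForm.logDeriv_qParam 24 z] at h1
  rw [h, eq_sub_of_add_eq' h1]
  have hpi : (Real.pi : ℂ) ≠ 0 := by exact_mod_cast Real.pi_ne_zero
  have hI := Complex.I_ne_zero
  field_simp
  push_cast
  ring

end Pool.Agent.B5
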