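import Pool.Agent.B5.EQ2
import Pool.Agent.B5.QD

/-!
B5 / LE (Ramanujan): D E2 - E2^2/12 has weight 4 for SL(2,Z): under S and T by `E2_slash_action` and
`Derivative.normalizedDerivOfComplex_SL_slash` (or differentiate E2(-1/z) = z^2 E2(z) + (6/(pi i)) z directly; the forms are generated
by S and T: `slash_action_generators_SL2Z`); it is holomorphic and bounded at infinity with constant term -1/12, and weight 4
level 1 forms are multiples of E4 (`sturm_bound_levelOne` applied to D E2 - E2^2/12 + E4/12).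
-/

set_option autoImplicit false

namespace Pool.Agent.B5

open PowerSeries UpperHalfPlane
open scoped MatrixGroups ModularForm Manifold Topology

lemma LE_hasDerivAt_D2 (γ : SL(2, ℤ)) (z : ℍ) :
    HasDerivAt (EisensteinSeries.D2 γ ∘ ofComplex)
      (-(2 * Real.pi * Complex.I) * ((γ 1 0 : ℂ) / denom γ z) ^ 2) (z : ℂ) := by
  have h := (hasDerivAt_denom_zpow (γ : GL (Fin 2) ℝ) (-1) z).const_mul
    (2 * Real.pi * Complex.I * (γ 1 0 : ℂ))
  have hz := denom_ne_zero (γ : GL (Fin 2) ℝ) z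
  refine (h.congr_of_eventuallyEq ?_).congr_deriv ?_
  · filter_upwards [isOpen_upperHalfPlaneSet.mem_nhds z.im_pos] with w hw
    have hw' : ((ofComplex w : ℍ) : ℂ) = w := by rw [ofComplex_apply_of_im_pos hw]
    simp only [Function.comp_apply, EisensteinSeries.D2, hw', zpow_neg_one, div_eq_mul_inv]
  · have h10 : (((γ : GL (Fin 2) ℝ) 1 0 : ℝ) : ℂ) = ((γ 1 0 : ℤ) : ℂ) := by simp
    rw [h10]
    have hzp : denom (γ : GL (Fin 2) ℝ) (z : ℂ) ^ (-1 - 1 : ℤ) =
        (denom (γ : GL (Fin 2) ℝ) (z : ℂ) ^ 2)⁻¹ := by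
      rw [show (-1 - 1 : ℤ) = -(2 : ℤ) by norm_num, zpow_neg]
      norm_cast
    rw [hzp]
    push_cast
    field_simp

noncomputable def LEG : ℍ → ℂ := Derivative.normalizedDerivOfComplex EisensteinSeries.E2 -
  (1 / 12 : ℂ) • (EisensteinSeries.E2 * EisensteinSeries.E2)

lemma LE_slash (γ : SL(2, ℤ)) : LEG ∣[(4 : ℤ)] γ = LEG := by
  have hE := EisensteinSeries.E2_slash_action γ
  have hD := Derivative.normalizedDerivOfComplex_SL_slash (k := 2) E2_mdifferentiable (γ := γ)
  have hm := ModularForm.mul_slash_SL2 2 2 γ EisensteinSeries.E2 EisensteinSeries.E2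
  rw [show (2 : ℤ) + 2 = 4 by norm_num] at hD hm
  ext z
  have hDz := congrFun hD z
  have hder : Derivative.normalizedDerivOfComplex (EisensteinSeries.E2 ∣[(2 : ℤ)] γ) z =
      Derivative.normalizedDerivOfComplex EisensteinSeries.E2 z +
        (1 / (2 * riemannZeta 2)) * ((γ 1 0 : ℂ) / denom γ z) ^ 2 := by
    rw [hE]
    simp only [Derivative.normalizedDerivOfComplex]
    have h1 : HasDerivAt (EisensteinSeries.E2 ∘ ofComplex)
        (deriv (EisensteinSeries.E2 ∘ ofComplex) z) (z : ℂ) :=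
      (mdifferentiableAt_iff.mp (E2_mdifferentiable z)).hasDerivAt
    have h2 := h1.sub ((LE_hasDerivAt_D2 γ z).const_smul (1 / (2 * riemannZeta 2)))
    have h3 : ((EisensteinSeries.E2 - (1 / (2 * riemannZeta 2)) • EisensteinSeries.D2 γ) ∘
        ofComplex) = EisensteinSeries.E2 ∘ ofComplex -
        (1 / (2 * riemannZeta 2)) • (EisensteinSeries.D2 γ ∘ ofComplex) := rfl
    rw [h3, h2.deriv, smul_eq_mul]
    have hI : (2 * (Real.pi : ℂ) * Complex.I) ≠ 0 := Complex.two_pi_I_ne_zero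
    field_simp
    ring
  rw [hder] at hDz
  simp only [Pi.sub_apply] at hDz
  have hEz : (EisensteinSeries.E2 ∣[(2 : ℤ)] γ) z =
      EisensteinSeries.E2 z - (1 / (2 * riemannZeta 2)) * EisensteinSeries.D2 γ z := by
    rw [hE]; rfl
  have hmz := congrFun hm z
  simp only [Pi.mul_apply] at hmz
  rw [LEG, sub_eq_add_neg, SlashAction.add_slash, SlashAction.neg_slash, ModularForm.SL_smul_slash]
  simp only [Pi.add_apply, Pi.neg_apply, Pi.smul_apply, smul_eq_mul, Pi.mul_apply]
  rw [hmz]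
  have h4 : (Derivative.normalizedDerivOfComplex EisensteinSeries.E2 ∣[(4 : ℤ)] γ) z =
      Derivative.normalizedDerivOfComplex EisensteinSeries.E2 z +
        (1 / (2 * riemannZeta 2)) * ((γ 1 0 : ℂ) / denom γ z) ^ 2 +
      (2 : ℤ) * (2 * Real.pi * Complex.I)⁻¹ * ((γ 1 0 : ℂ) / denom γ z) *
        (EisensteinSeries.E2 ∣[(2 : ℤ)] γ) z := by
    rw [hDz]; ring
  rw [h4, hEz, riemannZeta_two, EisensteinSeries.D2]
  have hpi : (Real.pi : ℂ) ≠ 0 := by exact_mod_cast Real.pi_ne_zero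
  have hden := denom_ne_zero (γ : GL (Fin 2) ℝ) z
  have hI := Complex.I_ne_zero
  have hI2 := Complex.I_sq
  push_cast
  field_simp
  linear_combination (24 * ((γ 1 0 : ℤ) : ℂ) * Real.pi * denom (γ : GL (Fin 2) ℝ) (z : ℂ) *
    EisensteinSeries.E2 z - 72 * ((γ 1 0 : ℤ) : ℂ) ^ 2 * Complex.I) * hI2

lemma LE_hasQ : HasQ (fun z => LEG z + (1 / 12) * ModularForm.E₄ z)
    ((PowerSeries.mk fun n => (n : ℂ) * PowerSeries.coeff n (toC sP)) -
      PowerSeries.C (1 / 12) * (toC sP * toC sP) + PowerSeries.C (1 / 12) * toC sQ) := by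
  exact ((hasQ_E2.deriv.sub ((HasQ.const (1 / 12)).mul (hasQ_E2.mul hasQ_E2)))).add
    ((HasQ.const (1 / 12)).mul hasQ_E4)

lemma LE_mdiff : MDiff LEG :=
  (Derivative.normalizedDerivOfComplex_mdifferentiable E2_mdifferentiable).sub
    ((E2_mdifferentiable.mul E2_mdifferentiable).const_smul _)

noncomputable def LEF : ModularForm 𝒮ℒ 4 where
  toFun := fun z => LEG z + (1 / 12) * ModularForm.E₄ z
  slash_action_eq' := by
    rintro _ ⟨γ, rfl⟩
    have h1 : (fun z => LEG z + (1 / 12) * ModularForm.E₄ z) = LEG + (1 / 12 : ℂ) • ⇑ModularForm.E₄ := by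
      ext z; simp
    have h2 : ⇑ModularForm.E₄ ∣[(4 : ℤ)] γ = ⇑ModularForm.E₄ :=
      SlashInvariantForm.slash_action_eqn ModularForm.E₄ _ ⟨γ, rfl⟩
    change (fun z => LEG z + (1 / 12) * ModularForm.E₄ z) ∣[(4 : ℤ)] γ = _
    rw [h1, SlashAction.add_slash, ModularForm.SL_smul_slash, LE_slash, h2]
  holo' := LE_hasQ.mdiff
  bdd_at_cusps' := by
    intro c hc
    rw [OnePoint.isBoundedAt_iff_forall_SL2Z hc]
    intro γ _
    have h1 : (fun z => LEG z + (1 / 12) * ModularForm.E₄ z) = LEG + (1 / 12 : ℂ) • ⇑ModularForm.E₄ := by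
      ext z; simp
    have h2 : ⇑ModularForm.E₄ ∣[(4 : ℤ)] γ = ⇑ModularForm.E₄ :=
      SlashInvariantForm.slash_action_eqn ModularForm.E₄ _ ⟨γ, rfl⟩
    have h3 : (fun z => LEG z + (1 / 12) * ModularForm.E₄ z) ∣[(4 : ℤ)] γ =
        (fun z => LEG z + (1 / 12) * ModularForm.E₄ z) := by
      rw [h1, SlashAction.add_slash, ModularForm.SL_smul_slash, LE_slash, h2]
    change IsBoundedAtImInfty ((fun z => LEG z + (1 / 12) * ModularForm.E₄ z) ∣[(4 : ℤ)] γ)
    rw [h3]
    exact LE_hasQ.bdd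

theorem D_E2 (z : ℍ) : Derivative.normalizedDerivOfComplex EisensteinSeries.E2 z =
    (EisensteinSeries.E2 z ^ 2 - ModularForm.E₄ z) / 12 := by
  have hF : LEF = 0 := by
    apply ModularForm.sturm_bound_levelOne
    have hq : qExpansion 1 (⇑LEF) = _ := LE_hasQ.qExpansion_eq
    rw [hq]
    have : ((4 : ℤ).toNat / 12 : ℕ) = 0 := by decide
    rw [this, Nat.cast_zero, pos_iff_ne_zero, PowerSeries.order_ne_zero_iff_constCoeff_eq_zero]
    have hP0 : PowerSeries.constantCoeff (toC sP) = 1 := by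
      rw [toC, ← PowerSeries.coeff_zero_eq_constantCoeff_apply, PowerSeries.coeff_map]
      simp [sP]
    have hQ0 : PowerSeries.constantCoeff (toC sQ) = 1 := by
      rw [toC, ← PowerSeries.coeff_zero_eq_constantCoeff_apply, PowerSeries.coeff_map]
      simp [sQ]
    have hM0 : PowerSeries.constantCoeff
        (PowerSeries.mk fun n => (n : ℂ) * PowerSeries.coeff n (toC sP)) = 0 := by
      rw [← PowerSeries.coeff_zero_eq_constantCoeff_apply, PowerSeries.coeff_mk]
      simp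
    rw [map_add, map_sub, map_mul, map_mul, map_mul, hP0, hQ0, hM0, PowerSeries.constantCoeff_C]
    ring
  have h := congrArg (fun f : ModularForm 𝒮ℒ 4 => f z) hF
  have h' : LEG z + (1 / 12) * ModularForm.E₄ z = 0 := h
  rw [LEG] at h'
  simp only [Pi.sub_apply, Pi.smul_apply, Pi.mul_apply, smul_eq_mul] at h'
  linear_combination h'

end Pool.Agent.B5
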