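import Pool.Agent.B5.IA1
import Pool.Agent.B5.LD
import Pool.Agent.B5.LE

/-!
B5 / IA2: the differential identities for power series, from LD, LE by `HasQ.deriv`, `HasQ.unique`, `toC_injective`.
-/

set_option autoImplicit false

namespace Pool.Agent.B5

open PowerSeries UpperHalfPlane
open scoped MatrixGroups ModularForm Manifold

private theorem ia2_toC_mul (a b : ℤ⟦X⟧) : toC (a * b) = toC a * toC b := by
  simp only [toC, map_mul]

private theorem ia2_toC_add (a b : ℤ⟦X⟧) : toC (a + b) = toC a + toC b := by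
  simp only [toC, map_add]

private theorem ia2_toC_sub (a b : ℤ⟦X⟧) : toC (a - b) = toC a - toC b := by
  simp only [toC, map_sub]

private theorem ia2_toC_int (k : ℤ) : toC (k : ℤ⟦X⟧) = PowerSeries.C (k : ℂ) := by
  simp only [toC, map_intCast]

/-- from an identity for the derivative of the function to the identity of power series -/
private theorem ia2_aux {g h : ℍ → ℂ} {c d : ℤ⟦X⟧} (hg : HasQ g (toC c)) (hh : HasQ h (toC d))
    (k : ℤ) (hD : ∀ z, ((6 * k : ℤ) : ℂ) * Derivative.normalizedDerivOfComplex g z = h z) :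
    (k : ℤ⟦X⟧) * dD c = d := by
  have h1 := (HasQ.const ((6 * k : ℤ) : ℂ)).mul hg.deriv
  have h2 : (fun z => ((6 * k : ℤ) : ℂ) * Derivative.normalizedDerivOfComplex g z) = h :=
    funext hD
  rw [h2] at h1
  have h3 := h1.unique hh
  apply toC_injective
  rw [← h3, ia2_toC_mul, ia2_toC_int]
  ext n
  rw [PowerSeries.coeff_C_mul, PowerSeries.coeff_C_mul, PowerSeries.coeff_mk]
  simp only [toC, dD, PowerSeries.coeff_map, PowerSeries.coeff_mk, eq_intCast]
  push_cast
  ring

theorem id_Da : dD sa = sa * (sP - sE) := by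
  have h := ia2_aux hasQ_fa (h := fun z => fa z * (EisensteinSeries.E2 z - fE z))
    (d := sa * (sP - sE)) (by
      rw [ia2_toC_mul, ia2_toC_sub]
      exact hasQ_fa.mul (hasQ_E2.sub hasQ_fE)) 1 (by
      intro z
      rw [D_fa]
      push_cast
      ring)
  simpa using h

theorem id_Db : dD sb = sb * (5 * sE + sP) := by
  have h := ia2_aux hasQ_fb (h := fun z => fb z * (5 * fE z + EisensteinSeries.E2 z))
    (d := sb * (((5 : ℤ) : ℤ⟦X⟧) * sE + sP)) (by
      rw [ia2_toC_mul, ia2_toC_add, ia2_toC_mul, ia2_toC_int]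
      exact hasQ_fb.mul (((HasQ.const _).mul hasQ_fE).add hasQ_E2)) 1 (by
      intro z
      rw [D_fb]
      push_cast
      ring)
  simpa using h

theorem id_Dphi : 4 * dD phi = phi * (sP - 1) := by
  have h := ia2_aux hasQ_ep (h := fun z => ep z * (EisensteinSeries.E2 z - 1))
    (d := phi * (sP - ((1 : ℤ) : ℤ⟦X⟧))) (by
      rw [ia2_toC_mul, ia2_toC_sub, ia2_toC_int]
      refine hasQ_ep.mul (hasQ_E2.sub ?_)
      simpa using HasQ.const 1) 4 (by
      intro z
      rw [D_ep]
      push_cast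
      ring)
  simpa using h

theorem id_DP : 2 * dD sP = sP ^ 2 - sQ := by
  have h := ia2_aux hasQ_E2 (h := fun z => EisensteinSeries.E2 z ^ 2 - ModularForm.E₄ z)
    (d := sP ^ 2 - sQ) (by
      rw [ia2_toC_sub, pow_two, ia2_toC_mul, ← pow_two]
      exact (hasQ_E2.pow 2).sub hasQ_E4) 2 (by
      intro z
      rw [D_E2]
      push_cast
      ring)
  simpa using h

private theorem ia2_dD (c : ℤ⟦X⟧) : dD c = 6 * (PowerSeries.X * PowerSeries.derivative ℤ c) := by
  ext n
  rw [show (6 : ℤ⟦X⟧) = PowerSeries.C (6 : ℤ) from (map_ofNat PowerSeries.C 6).symm,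
    PowerSeries.coeff_C_mul]
  cases n with
  | zero => simp [dD]
  | succ n =>
    rw [PowerSeries.coeff_succ_X_mul, PowerSeries.coeff_derivative, dD, PowerSeries.coeff_mk]
    push_cast
    ring

private theorem ia2_dD_mul (a b : ℤ⟦X⟧) : dD (a * b) = dD a * b + a * dD b := by
  rw [ia2_dD, ia2_dD, ia2_dD, Derivation.leibniz, smul_eq_mul, smul_eq_mul]
  ring

private theorem ia2_dD_ex5 (c : ℤ⟦X⟧) : dD (ex5 c) = 5 * ex5 (dD c) := by
  ext n
  rw [show (5 : ℤ⟦X⟧) = PowerSeries.C (5 : ℤ) from (map_ofNat PowerSeries.C 5).symm,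
    PowerSeries.coeff_C_mul]
  simp only [dD, ex5, PowerSeries.coeff_mk, PowerSeries.coeff_expand]
  by_cases h : 5 ∣ n
  · obtain ⟨m, rfl⟩ := h
    simp only [dvd_mul_right, if_true]
    rw [Nat.mul_div_cancel_left _ (by norm_num : 0 < 5)]
    push_cast
    ring
  · simp [h]

private theorem ia2_sE : 4 * sE = 5 * ex5 sP - sP := by
  ext n
  rw [show (5 : ℤ⟦X⟧) = PowerSeries.C (5 : ℤ) from (map_ofNat PowerSeries.C 5).symm,
    show (4 : ℤ⟦X⟧) = PowerSeries.C (4 : ℤ) from (map_ofNat PowerSeries.C 4).symm, map_sub,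
    PowerSeries.coeff_C_mul, PowerSeries.coeff_C_mul]
  simp only [sE, ex5, sP, PowerSeries.coeff_mk, PowerSeries.coeff_expand]
  by_cases h0 : n = 0
  · subst h0
    simp
  · by_cases h : 5 ∣ n
    · obtain ⟨m, rfl⟩ := h
      have hm : m ≠ 0 := by
        rintro rfl
        exact h0 rfl
      simp only [dvd_mul_right, if_true, h0, if_false]
      rw [Nat.mul_div_cancel_left _ (by norm_num : 0 < 5), if_neg hm]
      ring
    · simp only [h, h0, if_false]
      ring

theorem id_DB : dD sB + sB = sB * sE := by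
  have hphi : phi ≠ 0 := by
    intro h
    have := phi_coeff_zero
    rw [h] at this
    simp at this
  have h1 : dD sB * phi + sB * dD phi = 5 * ex5 (dD phi) := by
    rw [← ia2_dD_mul, id_B1, ia2_dD_ex5]
  have h2 : 4 * ex5 (dD phi) = ex5 phi * (ex5 sP - 1) := by
    have h3 : ex5 (4 * dD phi) = 4 * ex5 (dD phi) := by
      simp only [ex5, map_mul, map_ofNat]
    rw [← h3, id_Dphi]
    simp only [ex5, map_mul, map_sub, map_one]
  have h4 := ia2_sE
  have h5 := id_Dphi
  have h6 := id_B1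
  have h7 : (4 * phi) * (dD sB + sB) = (4 * phi) * (sB * sE) := by
    linear_combination 4 * h1 + 5 * h2 - sB * h5 - 5 * (ex5 sP - 1) * h6 - sB * phi * h4
  refine mul_left_cancel₀ ?_ h7
  refine mul_ne_zero ?_ hphi
  intro h
  have := congrArg PowerSeries.constantCoeff h
  rw [map_ofNat, map_zero] at this
  norm_num at this

end Pool.Agent.B5
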