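import Pool.Agent.B5.S5
import Pool.Agent.B5.FB
import Pool.Agent.B5.FE
import Pool.Agent.B5.IA2
import Pool.Agent.B5.EQ3

/-!
B5 / IB: the algebraic identities. fE^2 - fa^2 - 22 fa fb - 125 fb^2, E4 - fa^2 - 250 fa fb - 3125 fb^2 are in MF0 4, and
E6 - fE (fa^2 - 500 fa fb - 15625 fb^2) in MF0 6 (jacobiSym (d) 5 squared is 1 as d is coprime to 5). By `sturm5` compare coefficients n <= 2 (n <= 3):
phi = 1 - X - X^2 + O(X^5), sa = phi^5 + O(X^5) = 1 - 5X + 5X^2 + 10X^3 + ..., sb = X + X^2 + 2X^3 + ...,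
sE = 1 + 6X + 18X^2 + 24X^3 + ... .
`id_DE` : differentiate `id_E2` (derivation dD, sE is not a zero divisor; ℤ⟦X⟧ is a domain):
2 sE dD sE = 2 sa^2 (P-E) + 22 sa sb (4E + 2P) + 250 sb^2 (5E + P).
-/

set_option autoImplicit false

namespace Pool.Agent.B5

open PowerSeries UpperHalfPlane
open scoped MatrixGroups ModularForm Manifold

/-- the first four coefficients -/
def C4 (f : ℤ⟦X⟧) (a b c d : ℤ) : Prop :=
  PowerSeries.coeff 0 f = a ∧ PowerSeries.coeff 1 f = b ∧ PowerSeries.coeff 2 f = c ∧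
    PowerSeries.coeff 3 f = d

theorem C4.mul {f g : ℤ⟦X⟧} {a b c d a' b' c' d' : ℤ} (h : C4 f a b c d) (h' : C4 g a' b' c' d') :
    C4 (f * g) (a * a') (a * b' + b * a') (a * c' + b * b' + c * a')
      (a * d' + b * c' + c * b' + d * a') := by
  obtain ⟨h0, h1, h2, h3⟩ := h
  obtain ⟨g0, g1, g2, g3⟩ := h'
  refine ⟨?_, ?_, ?_, ?_⟩ <;> rw [PowerSeries.coeff_mul]
  · simp [h0, g0, -PowerSeries.coeff_zero_eq_constantCoeff]
  · simp [Finset.Nat.antidiagonal_succ, h0, h1, g0, g1, -PowerSeries.coeff_zero_eq_constantCoeff]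
  · simp [Finset.Nat.antidiagonal_succ, h0, h1, h2, g0, g1, g2,
      -PowerSeries.coeff_zero_eq_constantCoeff]
    ring
  · simp [Finset.Nat.antidiagonal_succ, h0, h1, h2, h3, g0, g1, g2, g3,
      -PowerSeries.coeff_zero_eq_constantCoeff]
    ring

theorem C4.self (f : ℤ⟦X⟧) : C4 f (PowerSeries.coeff 0 f) (PowerSeries.coeff 1 f)
    (PowerSeries.coeff 2 f) (PowerSeries.coeff 3 f) := ⟨rfl, rfl, rfl, rfl⟩

theorem C4.congr {f g : ℤ⟦X⟧} {a b c d a' b' c' d' : ℤ} (h : C4 f a b c d)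
    (h' : C4 g a' b' c' d') (e : f = g) : a = a' ∧ b = b' ∧ c = c' ∧ d = d' := by
  subst e
  obtain ⟨h0, h1, h2, h3⟩ := h
  obtain ⟨g0, g1, g2, g3⟩ := h'
  exact ⟨h0.symm.trans g0, h1.symm.trans g1, h2.symm.trans g2, h3.symm.trans g3⟩

theorem C4.phi : C4 phi 1 (-1) (-1) 0 := by
  refine ⟨?_, ?_, ?_, ?_⟩
  · have h := PowerSeries.coeff_pentagonalSeries_pentagonal ℤ 0
    have e : pentagonal 0 = 0 := by rfl
    rw [e] at h
    rw [Pool.Agent.B5.phi, h]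
    simp
  · have h := PowerSeries.coeff_pentagonalSeries_pentagonal ℤ 1
    have e : pentagonal 1 = 1 := by rfl
    rw [e] at h
    rw [Pool.Agent.B5.phi, h]
    simp
  · have h := PowerSeries.coeff_pentagonalSeries_pentagonal ℤ (-1)
    have e : pentagonal (-1) = 2 := by rfl
    rw [e] at h
    rw [Pool.Agent.B5.phi, h]
    simp
  · rw [Pool.Agent.B5.phi]
    apply PowerSeries.coeff_pentagonalSeries_eq_zero
    rintro ⟨k, hk⟩
    have h1 : pentagonal (-1) < pentagonal k := by rw [hk]; decide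
    have h2 : pentagonal k < pentagonal 2 := by rw [hk]; decide
    rcases lt_or_ge k 0 with h | h
    · have h3 : k < -1 := by
        rcases lt_trichotomy k (-1) with h4 | h4 | h4
        · exact h4
        · rw [h4] at h1; exact absurd h1 (lt_irrefl _)
        · omega
      have h5 : pentagonal (-2) ≤ pentagonal k :=
        pentagonal_strictAntiOn.antitoneOn (by simpa using h.le) (by simp) (by omega)
      have e : pentagonal (-2) = 7 := by rfl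
      omega
    · have h3 : k ≤ 1 := by
        by_contra hc
        have h4 : pentagonal 2 ≤ pentagonal k :=
          pentagonal_strictMonoOn.monotoneOn (by simp) (by simpa using h) (by omega)
        omega
      have h4 : pentagonal k ≤ pentagonal 1 :=
        pentagonal_strictMonoOn.monotoneOn (by simpa using h) (by simp) h3
      have e : pentagonal 1 = 1 := by rfl
      omega

theorem C4.ex5phi : C4 (ex5 Pool.Agent.B5.phi) 1 0 0 0 := by
  refine ⟨?_, ?_, ?_, ?_⟩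
  · rw [PowerSeries.coeff_zero_eq_constantCoeff]
    exact ex5_coeff_zero
  all_goals
    unfold ex5
    apply PowerSeries.coeff_expand_of_not_dvd
    decide

theorem C4.sa : C4 sa 1 (-5) 5 10 := by
  have h := (C4.self Pool.Agent.B5.sa).mul C4.ex5phi
  have h2 := C4.phi.mul C4.phi
  have h4 := h2.mul h2
  have h5 := h4.mul C4.phi
  have e : Pool.Agent.B5.sa * ex5 Pool.Agent.B5.phi = Pool.Agent.B5.phi * Pool.Agent.B5.phi *
    (Pool.Agent.B5.phi * Pool.Agent.B5.phi) * Pool.Agent.B5.phi := by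
    rw [sa_mul]; ring
  obtain ⟨e0, e1, e2, e3⟩ := h.congr h5 e
  norm_num at e0 e1 e2 e3
  refine ⟨?_, ?_, ?_, ?_⟩
  · simpa using e0
  · simpa using e1
  · simpa using e2
  · simpa using e3

theorem C4.sb : C4 sb 0 1 1 2 := by
  have h := (C4.self Pool.Agent.B5.sb).mul C4.phi
  have h2 := C4.ex5phi.mul C4.ex5phi
  have h4 := h2.mul h2
  have h5 := h4.mul C4.ex5phi
  have hX : C4 (PowerSeries.X : ℤ⟦X⟧) 0 1 0 0 := by
    refine ⟨?_, ?_, ?_, ?_⟩ <;> simp [PowerSeries.coeff_X]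
  have h6 := hX.mul h5
  have e : Pool.Agent.B5.sb * Pool.Agent.B5.phi = PowerSeries.X *
      (ex5 Pool.Agent.B5.phi * ex5 Pool.Agent.B5.phi *
      (ex5 Pool.Agent.B5.phi * ex5 Pool.Agent.B5.phi) * ex5 Pool.Agent.B5.phi) := by
    rw [sb_mul]; ring
  obtain ⟨e0, e1, e2, e3⟩ := h.congr h6 e
  norm_num [-PowerSeries.coeff_zero_eq_constantCoeff] at e0 e1 e2 e3
  refine ⟨?_, ?_, ?_, ?_⟩
  · exact e0
  · linarith
  · linarith
  · linarith

theorem C4.sE : C4 sE 1 6 18 24 := by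
  refine ⟨?_, ?_, ?_, ?_⟩ <;> rw [Pool.Agent.B5.sE, PowerSeries.coeff_mk]
  · rfl
  all_goals
    rw [if_neg (by norm_num), if_neg (by norm_num)]
    rfl

theorem C4.sQ : C4 sQ 1 240 2160 6720 := by
  refine ⟨?_, ?_, ?_, ?_⟩ <;> rw [Pool.Agent.B5.sQ, PowerSeries.coeff_mk] <;> rfl

theorem C4.sR : C4 sR 1 (-504) (-16632) (-122976) := by
  refine ⟨?_, ?_, ?_, ?_⟩ <;> rw [Pool.Agent.B5.sR, PowerSeries.coeff_mk] <;> rfl

/-- invariance under `Γ₀(5)` and boundedness at all cusps -/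
def Gd (k : ℤ) (g : ℍ → ℂ) : Prop :=
  (∀ γ : SL(2, ℤ), γ ∈ CongruenceSubgroup.Gamma0 5 → g ∣[k] γ = g) ∧
    ∀ γ : SL(2, ℤ), IsBoundedAtImInfty (g ∣[k] γ)

theorem Gd.mul {k l : ℤ} {f g : ℍ → ℂ} (hf : Gd k f) (hg : Gd l g) : Gd (k + l) (f * g) := by
  refine ⟨fun γ hγ => ?_, fun γ => ?_⟩
  · rw [ModularForm.mul_slash_SL2, hf.1 γ hγ, hg.1 γ hγ]
  · rw [ModularForm.mul_slash_SL2]
    exact (hf.2 γ).mul (hg.2 γ)

theorem Gd.sub {k : ℤ} {f g : ℍ → ℂ} (hf : Gd k f) (hg : Gd k g) : Gd k (f - g) := by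
  have e : ∀ γ : SL(2, ℤ), (f - g) ∣[k] γ = f ∣[k] γ - g ∣[k] γ := by
    intro γ
    rw [sub_eq_add_neg, SlashAction.add_slash, SlashAction.neg_slash, ← sub_eq_add_neg]
  refine ⟨fun γ hγ => ?_, fun γ => ?_⟩
  · rw [e, hf.1 γ hγ, hg.1 γ hγ]
  · rw [e, sub_eq_add_neg]
    exact (hf.2 γ).add (hg.2 γ).neg

theorem Gd.smul {k : ℤ} {f : ℍ → ℂ} (hf : Gd k f) (a : ℂ) : Gd k (a • f) := by
  refine ⟨fun γ hγ => ?_, fun γ => ?_⟩
  · rw [ModularForm.SL_smul_slash, hf.1 γ hγ]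
  · rw [ModularForm.SL_smul_slash]
    exact (hf.2 γ).smul a

theorem Gd.chi {f g : ℍ → ℂ}
    (hf : ∀ γ : SL(2, ℤ), γ ∈ CongruenceSubgroup.Gamma0 5 →
      f ∣[(2 : ℤ)] γ = fun z => ((jacobiSym (γ 1 1) 5 : ℤ) : ℂ) * f z)
    (hfb : ∀ γ : SL(2, ℤ), IsBoundedAtImInfty (f ∣[(2 : ℤ)] γ))
    (hg : ∀ γ : SL(2, ℤ), γ ∈ CongruenceSubgroup.Gamma0 5 →
      g ∣[(2 : ℤ)] γ = fun z => ((jacobiSym (γ 1 1) 5 : ℤ) : ℂ) * g z)
    (hgb : ∀ γ : SL(2, ℤ), IsBoundedAtImInfty (g ∣[(2 : ℤ)] γ)) : Gd (2 + 2) (f * g) := by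
  refine ⟨fun γ hγ => ?_, fun γ => ?_⟩
  · rw [ModularForm.mul_slash_SL2, hf γ hγ, hg γ hγ]
    have hdet : γ 0 0 * γ 1 1 - γ 0 1 * γ 1 0 = 1 := by
      have := γ.det_coe
      rw [Matrix.det_fin_two] at this
      exact this
    have hdvd : (5 : ℤ) ∣ γ 1 0 := by
      have h1 := CongruenceSubgroup.Gamma0_mem.1 hγ
      exact (ZMod.intCast_zmod_eq_zero_iff_dvd _ 5).1 h1
    have hcop : Int.gcd (γ 1 1) 5 = 1 := by
      rw [← Int.isCoprime_iff_gcd_eq_one]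
      obtain ⟨t, ht⟩ := hdvd
      exact ⟨γ 0 0, -(γ 0 1 * t), by rw [ht] at hdet; linarith⟩
    have hsq : ((jacobiSym (γ 1 1) 5 : ℤ) : ℂ) * ((jacobiSym (γ 1 1) 5 : ℤ) : ℂ) = 1 := by
      have h2 := jacobiSym.sq_one hcop
      have h3 : (jacobiSym (γ 1 1) 5) * (jacobiSym (γ 1 1) 5) = 1 := by
        rw [← sq]; exact h2
      exact_mod_cast h3
    funext z
    show (((jacobiSym (γ 1 1) 5 : ℤ) : ℂ) * f z) * (((jacobiSym (γ 1 1) 5 : ℤ) : ℂ) * g z) =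
      f z * g z
    calc _ = (((jacobiSym (γ 1 1) 5 : ℤ) : ℂ) * ((jacobiSym (γ 1 1) 5 : ℤ) : ℂ)) *
          (f z * g z) := by ring
      _ = _ := by rw [hsq, one_mul]
  · rw [ModularForm.mul_slash_SL2]
    exact (hfb γ).mul (hgb γ)

theorem Gd.fE : Gd 2 fE := ⟨fE_slash, fE_bdd⟩

theorem Gd.E4 : Gd 4 (fun z => ModularForm.E₄ z) := by
  refine ⟨fun γ _ => ?_, fun γ => ?_⟩
  · exact SlashInvariantForm.slash_action_eqn ModularForm.E₄ _ ⟨γ, rfl⟩
  · exact ModularFormClass.bdd_at_infty_slash ModularForm.E₄ γ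

theorem Gd.E6 : Gd 6 (fun z => ModularForm.E₆ z) := by
  refine ⟨fun γ _ => ?_, fun γ => ?_⟩
  · exact SlashInvariantForm.slash_action_eqn ModularForm.E₆ _ ⟨γ, rfl⟩
  · exact ModularFormClass.bdd_at_infty_slash ModularForm.E₆ γ

theorem ib_zero {k : ℕ} {g : ℍ → ℂ} {f : ℤ⟦X⟧} (hg : Gd k g) (hq : HasQ g (toC f))
    (h0 : ∀ n, 2 * n ≤ k → PowerSeries.coeff n f = 0) : f = 0 := by
  have h1 := sturm5 k g (toC f) ⟨hq.mdiff, hg.1, hg.2⟩ hq (by
    intro n hn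
    simp [toC, h0 n hn])
  apply toC_injective
  rw [h1]
  simp [toC]

theorem C4.sub {f g : ℤ⟦X⟧} {a b c d a' b' c' d' : ℤ} (h : C4 f a b c d) (h' : C4 g a' b' c' d') :
    C4 (f - g) (a - a') (b - b') (c - c') (d - d') := by
  obtain ⟨h0, h1, h2, h3⟩ := h
  obtain ⟨g0, g1, g2, g3⟩ := h'
  exact ⟨by rw [map_sub, h0, g0], by rw [map_sub, h1, g1], by rw [map_sub, h2, g2],
    by rw [map_sub, h3, g3]⟩

theorem C4.cmul {f : ℤ⟦X⟧} {a b c d : ℤ} (n : ℤ) (h : C4 f a b c d) :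
    C4 (PowerSeries.C n * f) (n * a) (n * b) (n * c) (n * d) := by
  obtain ⟨h0, h1, h2, h3⟩ := h
  exact ⟨by rw [PowerSeries.coeff_C_mul, h0], by rw [PowerSeries.coeff_C_mul, h1],
    by rw [PowerSeries.coeff_C_mul, h2], by rw [PowerSeries.coeff_C_mul, h3]⟩

/-- a function with an integral expansion -/
def HZ (g : ℍ → ℂ) (c : ℤ⟦X⟧) : Prop := HasQ g (toC c)

theorem HZ.mul {f g : ℍ → ℂ} {c d : ℤ⟦X⟧} (h : HZ f c) (h' : HZ g d) : HZ (f * g) (c * d) := by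
  have h1 := HasQ.mul h h'
  have e : toC (c * d) = toC c * toC d := map_mul _ _ _
  unfold HZ
  rw [e]
  exact h1

theorem HZ.sub {f g : ℍ → ℂ} {c d : ℤ⟦X⟧} (h : HZ f c) (h' : HZ g d) : HZ (f - g) (c - d) := by
  have h1 := HasQ.sub h h'
  have e : toC (c - d) = toC c - toC d := map_sub _ _ _
  unfold HZ
  rw [e]
  exact h1

theorem HZ.smul {f : ℍ → ℂ} {c : ℤ⟦X⟧} (h : HZ f c) (n : ℤ) :
    HZ ((n : ℂ) • f) (PowerSeries.C n * c) := by
  have h1 := HasQ.mul (HasQ.const (n : ℂ)) h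
  have e : toC (PowerSeries.C n * c) = PowerSeries.C (n : ℂ) * toC c := by
    unfold toC
    rw [map_mul, PowerSeries.map_C]
    simp
  unfold HZ
  rw [e]
  exact h1

theorem C_int (n : ℤ) : (PowerSeries.C n : ℤ⟦X⟧) = (n : ℤ⟦X⟧) := by simp

theorem id_E2 : sE ^ 2 = sa ^ 2 + 22 * sa * sb + 125 * sb ^ 2 := by
  have hE : HZ fE sE := hasQ_fE
  have ha : HZ fa sa := hasQ_fa
  have hb : HZ fb sb := hasQ_fb
  have h1 := (((hE.mul hE).sub (ha.mul ha)).sub ((ha.mul hb).smul 22)).sub ((hb.mul hb).smul 125)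
  have c1 := (((C4.sE.mul C4.sE).sub (C4.sa.mul C4.sa)).sub ((C4.sa.mul C4.sb).cmul 22)).sub
    ((C4.sb.mul C4.sb).cmul 125)
  have g1 : Gd 4 _ := (((Gd.fE.mul Gd.fE).sub (Gd.chi fa_slash fa_bdd fa_slash fa_bdd)).sub
    ((Gd.chi fa_slash fa_bdd fb_slash fb_bdd).smul ((22 : ℤ) : ℂ))).sub
    ((Gd.chi fb_slash fb_bdd fb_slash fb_bdd).smul ((125 : ℤ) : ℂ))
  have h2 := ib_zero (k := 4) g1 h1 (by
    obtain ⟨e0, e1, e2, _⟩ := c1
    intro n hn
    have hn' : n ≤ 2 := by omega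
    interval_cases n
    · rw [e0]; norm_num
    · rw [e1]; norm_num
    · rw [e2]; norm_num)
  rw [C_int, C_int] at h2
  push_cast at h2
  linear_combination h2

theorem id_Q : sQ = sa ^ 2 + 250 * sa * sb + 3125 * sb ^ 2 := by
  have hE : HZ (fun z => ModularForm.E₄ z) sQ := hasQ_E4
  have ha : HZ fa sa := hasQ_fa
  have hb : HZ fb sb := hasQ_fb
  have h1 := ((hE.sub (ha.mul ha)).sub ((ha.mul hb).smul 250)).sub ((hb.mul hb).smul 3125)
  have c1 := ((C4.sQ.sub (C4.sa.mul C4.sa)).sub ((C4.sa.mul C4.sb).cmul 250)).sub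
    ((C4.sb.mul C4.sb).cmul 3125)
  have g1 : Gd 4 _ := ((Gd.E4.sub (Gd.chi fa_slash fa_bdd fa_slash fa_bdd)).sub
    ((Gd.chi fa_slash fa_bdd fb_slash fb_bdd).smul ((250 : ℤ) : ℂ))).sub
    ((Gd.chi fb_slash fb_bdd fb_slash fb_bdd).smul ((3125 : ℤ) : ℂ))
  have h2 := ib_zero (k := 4) g1 h1 (by
    obtain ⟨e0, e1, e2, _⟩ := c1
    intro n hn
    have hn' : n ≤ 2 := by omega
    interval_cases n
    · rw [e0]; norm_num
    · rw [e1]; norm_num
    · rw [e2]; norm_num)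
  rw [C_int, C_int] at h2
  push_cast at h2
  linear_combination h2

theorem id_R : sR = sE * (sa ^ 2 - 500 * sa * sb - 15625 * sb ^ 2) := by
  have hR : HZ (fun z => ModularForm.E₆ z) sR := hasQ_E6
  have hE : HZ fE sE := hasQ_fE
  have ha : HZ fa sa := hasQ_fa
  have hb : HZ fb sb := hasQ_fb
  have h1 := hR.sub (hE.mul (((ha.mul ha).sub ((ha.mul hb).smul 500)).sub
    ((hb.mul hb).smul 15625)))
  have c1 := C4.sR.sub (C4.sE.mul (((C4.sa.mul C4.sa).sub ((C4.sa.mul C4.sb).cmul 500)).sub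
    ((C4.sb.mul C4.sb).cmul 15625)))
  have gq := Gd.fE.mul (((Gd.chi fa_slash fa_bdd fa_slash fa_bdd).sub
    ((Gd.chi fa_slash fa_bdd fb_slash fb_bdd).smul ((500 : ℤ) : ℂ))).sub
    ((Gd.chi fb_slash fb_bdd fb_slash fb_bdd).smul ((15625 : ℤ) : ℂ)))
  have e6 : (2 + (2 + 2) : ℤ) = 6 := by norm_num
  rw [e6] at gq
  have g1 := Gd.E6.sub gq
  have h2 := ib_zero (k := 6) g1 h1 (by
    obtain ⟨e0, e1, e2, e3⟩ := c1
    intro n hn
    have hn' : n ≤ 3 := by omega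
    interval_cases n
    · rw [e0]; norm_num
    · rw [e1]; norm_num
    · rw [e2]; norm_num
    · rw [e3]; norm_num)
  rw [C_int, C_int] at h2
  push_cast at h2
  linear_combination h2

theorem dD_eq (f : ℤ⟦X⟧) : dD f = 6 * (PowerSeries.X * PowerSeries.derivative ℤ f) := by
  ext n
  have h6 : (6 : ℤ⟦X⟧) = PowerSeries.C (6 : ℤ) := by simp
  rw [h6, PowerSeries.coeff_C_mul]
  unfold dD
  rw [PowerSeries.coeff_mk]
  cases n with
  | zero => simp
  | succ n =>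
    rw [PowerSeries.coeff_succ_X_mul, PowerSeries.coeff_derivative]
    push_cast
    ring

theorem dD_add (f g : ℤ⟦X⟧) : dD (f + g) = dD f + dD g := by
  rw [dD_eq, dD_eq, dD_eq, map_add]; ring

theorem dD_mul (f g : ℤ⟦X⟧) : dD (f * g) = f * dD g + g * dD f := by
  rw [dD_eq, dD_eq, dD_eq, Derivation.leibniz, smul_eq_mul, smul_eq_mul]; ring

theorem dD_cmul (n : ℤ) (f : ℤ⟦X⟧) : dD (PowerSeries.C n * f) = PowerSeries.C n * dD f := by
  ext m
  unfold dD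
  rw [PowerSeries.coeff_mk, PowerSeries.coeff_C_mul, PowerSeries.coeff_C_mul,
    PowerSeries.coeff_mk]
  ring

theorem id_DE : dD sE = sP * sE - sa ^ 2 + 44 * sa * sb + 625 * sb ^ 2 := by
  have h22 : (22 : ℤ⟦X⟧) = PowerSeries.C (22 : ℤ) := by simp
  have h125 : (125 : ℤ⟦X⟧) = PowerSeries.C (125 : ℤ) := by simp
  have h1 : sE * sE = sa * sa + PowerSeries.C (22 : ℤ) * (sa * sb) +
      PowerSeries.C (125 : ℤ) * (sb * sb) := by
    rw [← h22, ← h125]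
    linear_combination id_E2
  have h2 := congrArg dD h1
  rw [dD_add, dD_add, dD_cmul, dD_cmul, dD_mul, dD_mul, dD_mul, dD_mul, id_Da, id_Db, ← h22,
    ← h125] at h2
  have h0 : sE ≠ 0 := by
    intro h
    have := C4.sE.1
    rw [h] at this
    simp at this
  have h2' : (2 : ℤ⟦X⟧) ≠ 0 := by
    intro h
    have := congrArg (PowerSeries.coeff 0) h
    rw [show (2 : ℤ⟦X⟧) = PowerSeries.C (2 : ℤ) by simp, PowerSeries.coeff_C] at this
    simp at this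
  apply mul_left_cancel₀ (mul_ne_zero h2' h0)
  linear_combination h2 - 2 * sP * id_E2

end Pool.Agent.B5
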