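import Pool.Agent.B5.AL2

/-!
B5 / J1: the polynomials JJ. `JJ_hom`: induction (der2_hom). `JJ_ev`: with f = red p sB, f_j := f * ev (JJ A j): 2 (dD + 1) f_j = f_(j+1) by
id_DB (dD f + f = f E), EV.der with degree j (p+1) = j in ZMod p, ev A = 1, ev (der2 A) = P (HA.evB), ev vW = E;
the coefficient n of 2 (dD + 1) g is 2 (6 n + 1) times that of g. `JJ_modX`: modulo vX (a der2-stable ideal, der2_vX): der2 vW = 1250 vY^2 = 10 vW^2 (vW_sq),
A = (-5 vW)^r (r = (p-1)/2), so der2 A = r * 10 * vW * A = -5 vW A, hence der2 ((2 vW A)^j) = 5 j vW (2 vW A)^j, and by induction JJ A j = (2 vW A)^j.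
`JJ_factor`: JJ A (j+1) = A * KK with KK = (j+1)! (der2 A)^j 2 vW mod A: write JJ A (j+1) = A K_(j+1), K_1 = 2 vW,
K_(j+1) = A (der2 K_j + 2 vW K_j) + (j+1) (der2 A) K_j.
-/

set_option autoImplicit false

namespace Pool.Agent.B5

open PowerSeries UpperHalfPlane
open scoped MatrixGroups ModularForm Manifold

variable {p : ℕ} [Fact p.Prime]

theorem JJ_hom {A : U p} (hA : A.IsHomogeneous (p - 1)) (j : ℕ) :
    (JJ A j).IsHomogeneous (j * (p + 1)) := by
  have hp : 1 ≤ p := (Fact.out : p.Prime).one_lt.le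
  induction j with
  | zero =>
    rw [Nat.zero_mul]
    exact MvPolynomial.isHomogeneous_one _ _
  | succ j ih =>
    change (A * (der2 (JJ A j) + 2 * vW * JJ A j) + (j : U p) * der2 A * JJ A j).IsHomogeneous _
    have h2 : ((2 : U p)).IsHomogeneous 0 := by
      have : (2 : U p) = MvPolynomial.C 2 := (map_ofNat MvPolynomial.C 2).symm
      rw [this]
      exact MvPolynomial.isHomogeneous_C _ _
    have hj : ((j : U p)).IsHomogeneous 0 := by
      have : (j : U p) = MvPolynomial.C (j : ZMod p) := by simp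
      rw [this]
      exact MvPolynomial.isHomogeneous_C _ _
    have e1 : (A * (der2 (JJ A j) + 2 * vW * JJ A j)).IsHomogeneous ((j + 1) * (p + 1)) := by
      have h3 : (der2 (JJ A j) + 2 * vW * JJ A j).IsHomogeneous (j * (p + 1) + 2) := by
        refine (der2_hom ih).add ?_
        have h4 := (h2.mul (vW_hom (p := p))).mul ih
        convert h4 using 1
        ring
      have h5 := hA.mul h3
      convert h5 using 1
      obtain ⟨r, rfl⟩ : ∃ r, p = r + 1 := ⟨p - 1, by omega⟩
      rw [Nat.add_sub_cancel]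
      ring
    have e2 : ((j : U p) * der2 A * JJ A j).IsHomogeneous ((j + 1) * (p + 1)) := by
      have h5 := (hj.mul (der2_hom hA)).mul ih
      convert h5 using 1
      obtain ⟨r, rfl⟩ : ∃ r, p = r + 1 := ⟨p - 1, by omega⟩
      rw [Nat.add_sub_cancel]
      ring
    exact e1.add e2

theorem dD_mul_j1 {R : Type*} [CommRing R] (f g : R⟦X⟧) : dD (f * g) = dD f * g + f * dD g := by
  ext n
  simp only [dD, PowerSeries.coeff_mk, map_add, PowerSeries.coeff_mul]
  rw [Finset.mul_sum, ← Finset.sum_add_distrib]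
  refine Finset.sum_congr rfl fun kl hkl => ?_
  rw [← Finset.HasAntidiagonal.mem_antidiagonal.1 hkl]
  push_cast
  ring

theorem dD_red (c : ℤ⟦X⟧) : dD (red p c) = red p (dD c) := by
  ext n
  simp only [dD, red, PowerSeries.coeff_mk, PowerSeries.coeff_map]
  simp

theorem cast_p_ser : ((p : ℕ) : (ZMod p)⟦X⟧) = 0 := by
  have h : ((p : ℕ) : (ZMod p)⟦X⟧) = PowerSeries.C ((p : ℕ) : ZMod p) :=
    (map_natCast (PowerSeries.C : ZMod p →+* (ZMod p)⟦X⟧) p).symm
  rw [h, ZMod.natCast_self, map_zero]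

theorem cast_p_U : ((p : ℕ) : U p) = 0 := by
  have h : ((p : ℕ) : U p) = MvPolynomial.C ((p : ℕ) : ZMod p) := by simp
  rw [h, ZMod.natCast_self, map_zero]

theorem JJ_step (hp : 3 < p) (e : EV p) {A : U p} (hA : HA p e A) (j : ℕ) :
    red p sB * e.ev (JJ A (j + 1)) =
      2 * (dD (red p sB * e.ev (JJ A j)) + red p sB * e.ev (JJ A j)) := by
  have h1 := e.der (by omega) (JJ_hom hA.hom j)
  have h2 : dD (red p sB) + red p sB = red p sB * red p sE := by
    have h := congrArg (red p) id_DB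
    simp only [red, map_add, map_mul] at h
    rw [dD_red]
    exact h
  have h3 : ((j * (p + 1) : ℕ) : (ZMod p)⟦X⟧) = (j : (ZMod p)⟦X⟧) := by
    push_cast
    rw [cast_p_ser]
    ring
  rw [h3] at h1
  have h4 : e.ev (JJ A (j + 1)) = e.ev (der2 (JJ A j)) + 2 * red p sE * e.ev (JJ A j) +
      (j : (ZMod p)⟦X⟧) * red p sP * e.ev (JJ A j) := by
    change e.ev (A * (der2 (JJ A j) + 2 * vW * JJ A j) + (j : U p) * der2 A * JJ A j) = _
    simp only [map_add, map_mul, hA.ev1, hA.evB, e.hW, map_natCast, map_ofNat]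
    ring
  rw [h4, dD_mul_j1]
  linear_combination (-(red p sB)) * h1 - 2 * e.ev (JJ A j) * h2

theorem JJ_ev (hp : 3 < p) (e : EV p) {A : U p} (hA : HA p e A) (j n : ℕ) :
    PowerSeries.coeff n (red p sB * e.ev (JJ A j)) = (2 * (6 * (n : ZMod p) + 1)) ^ j * (b5 n : ZMod p) := by
  induction j with
  | zero =>
    have : JJ A 0 = 1 := rfl
    rw [this, map_one, mul_one, pow_zero, one_mul]
    simp [red, sB]
  | succ j ih =>
    rw [JJ_step hp e hA j]
    have h2 : (2 : (ZMod p)⟦X⟧) = PowerSeries.C 2 := (map_ofNat PowerSeries.C 2).symm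
    rw [h2, PowerSeries.coeff_C_mul, map_add, ih, dD, PowerSeries.coeff_mk, ih, pow_succ]
    ring

theorem der2_A (hp : 3 < p) (e : EV p) {A : U p} (hA : HA p e A) :
    vX ∣ der2 A + 5 * vW * A := by
  obtain ⟨a, ha⟩ := hA.modX
  have hodd : Odd p := (Fact.out : p.Prime).odd_of_ne_two (by omega)
  obtain ⟨m, hm⟩ := hodd
  obtain ⟨s, hs⟩ : ∃ s, (p - 1) / 2 = s + 1 := ⟨(p - 1) / 2 - 1, by omega⟩
  rw [hs] at ha
  have h2r : 2 * ((s : U p) + 1) + 1 = 0 := by
    have h1 : ((p : ℕ) : U p) = 0 := cast_p_U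
    have h2 : p = 2 * (s + 1) + 1 := by omega
    have h4 := congrArg (fun n : ℕ => (n : U p)) h2
    rw [h1] at h4
    rw [h4]
    push_cast
    ring
  have hA' : A = (-5 * vW) ^ (s + 1) + vX * a := by linear_combination ha
  have hd5 : der2 (-5 * vW : U p) = -5 * der2 vW := by
    have : (-5 * vW : U p) = (-5 : ZMod p) • vW := by
      rw [MvPolynomial.smul_eq_C_mul]
      congr 1
      rw [map_neg, map_ofNat]
    rw [this, Derivation.map_smul, MvPolynomial.smul_eq_C_mul]
    congr 1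
    rw [map_neg, map_ofNat]
  have h3 : der2 A = ((s : U p) + 1) * (-5 * vW) ^ s * (-5 * der2 vW) +
      (der2 vX * a + vX * der2 a) := by
    rw [hA', map_add, Derivation.leibniz_pow, hd5, Derivation.leibniz, Nat.add_sub_cancel]
    simp only [smul_eq_mul, nsmul_eq_mul]
    push_cast
    ring
  rw [h3, der2_vX, der2_vW, hA']
  refine ⟨((s : U p) + 1) * (-5 * vW) ^ s * (-5 * (-12 * vX - 132 * vY)) + 3 * vW * a + der2 a, ?_⟩
  have hW := vW_sq (p := p)
  rw [pow_succ]
  linear_combination (-50 * ((s : U p) + 1) * (-5 * vW) ^ s * (-1)) * hW +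
    (-25 * (-5 * vW) ^ s * vW ^ 2) * h2r

theorem JJ_modX (hp : 3 < p) (e : EV p) {A : U p} (hA : HA p e A) (j : ℕ) :
    vX ∣ JJ A j - (2 * vW * A) ^ j := by
  obtain ⟨t, ht⟩ := der2_A hp e hA
  have hW := vW_sq (p := p)
  -- the derivative of `M = 2 vW A`
  obtain ⟨u, hu⟩ : vX ∣ der2 (2 * vW * A) - 5 * vW * (2 * vW * A) := by
    have h2 : der2 (2 * vW * A : U p) = 2 * (der2 vW * A + vW * der2 A) := by
      have h3 : (2 * vW * A : U p) = vW * A + vW * A := by ring
      rw [h3, map_add, Derivation.leibniz]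
      simp only [smul_eq_mul]
      ring
    rw [h2, der2_vW]
    refine ⟨2 * (-12 * vX - 132 * vY) * A + 2 * vW * t, ?_⟩
    linear_combination (2 * vW) * ht - (20 * A) * hW
  induction j with
  | zero =>
    have : JJ A 0 = 1 := rfl
    rw [this, pow_zero, sub_self]
    exact dvd_zero _
  | succ j ih =>
    obtain ⟨v, hv⟩ := ih
    have hJ : JJ A j = (2 * vW * A) ^ j + vX * v := by linear_combination hv
    have hdJ : vX ∣ der2 (JJ A j) - 5 * (j : U p) * vW * (2 * vW * A) ^ j := by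
      rw [hJ, map_add, Derivation.leibniz, der2_vX]
      simp only [smul_eq_mul]
      have h5 : vX ∣ der2 ((2 * vW * A) ^ j) - 5 * (j : U p) * vW * (2 * vW * A) ^ j := by
        rw [Derivation.leibniz_pow]
        simp only [smul_eq_mul, nsmul_eq_mul]
        rcases Nat.eq_zero_or_pos j with h0 | h0
        · subst h0
          simp
        · obtain ⟨i, rfl⟩ : ∃ i, j = i + 1 := ⟨j - 1, by omega⟩
          rw [Nat.add_sub_cancel, pow_succ]
          refine ⟨((i + 1 : ℕ) : U p) * (2 * vW * A) ^ i * u, ?_⟩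
          linear_combination (((i + 1 : ℕ) : U p) * (2 * vW * A) ^ i) * hu
      obtain ⟨w, hw⟩ := h5
      exact ⟨w + der2 v - 2 * vW * v, by linear_combination hw⟩
    obtain ⟨w, hw⟩ := hdJ
    change vX ∣ A * (der2 (JJ A j) + 2 * vW * JJ A j) + (j : U p) * der2 A * JJ A j - _
    refine ⟨A * w + 2 * vW * A * v + (j : U p) * t * JJ A j - 5 * (j : U p) * vW * A * v, ?_⟩
    rw [pow_succ]
    linear_combination A * hw + (2 * vW * A - 5 * (j : U p) * vW * A) * hJ +
      ((j : U p) * JJ A j) * ht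

theorem JJ_factor (A : U p) (j : ℕ) : ∃ K L : U p,
    JJ A (j + 1) = A * K ∧ K = (((j + 1).factorial : ℕ) : U p) * der2 A ^ j * (2 * vW) + A * L := by
  induction j with
  | zero =>
    refine ⟨2 * vW, 0, ?_, by simp⟩
    change A * (der2 (JJ A 0) + 2 * vW * JJ A 0) + ((0 : ℕ) : U p) * der2 A * JJ A 0 = _
    have : JJ A 0 = 1 := rfl
    rw [this]
    simp
  | succ j ih =>
    obtain ⟨K, L, h1, h2⟩ := ih
    refine ⟨A * (der2 K + 2 * vW * K) + ((j + 1 : ℕ) + 1 : U p) * der2 A * K,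
      der2 K + 2 * vW * K + ((j + 1 : ℕ) + 1 : U p) * der2 A * L, ?_, ?_⟩
    · change A * (der2 (JJ A (j + 1)) + 2 * vW * JJ A (j + 1)) +
        ((j + 1 : ℕ) : U p) * der2 A * JJ A (j + 1) = _
      rw [h1]
      rw [Derivation.leibniz, smul_eq_mul, smul_eq_mul]
      ring
    · have h3 : ((((j + 1) + 1).factorial : ℕ) : U p) =
          ((j + 1 : ℕ) + 1 : U p) * (((j + 1).factorial : ℕ) : U p) := by
        rw [Nat.factorial_succ (j + 1)]
        push_cast
        ring
      rw [h3, pow_succ]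
      conv_lhs => rw [show ((j + 1 : ℕ) + 1 : U p) * der2 A * K =
        ((j + 1 : ℕ) + 1 : U p) * der2 A * ((((j + 1).factorial : ℕ) : U p) * der2 A ^ j * (2 * vW) + A * L)
          from by rw [← h2]]
      ring

end Pool.Agent.B5
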