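import Pool.Agent.B5.ST
import Pool.Agent.B5.MO

/-!
B5 / LF: the lattice LL N k is a finitely generated subgroup.
LL N k is an additive subgroup; with B from `sturm`, c -> (c_0, ..., c_B) is injective on it, with values in Z^(B+1),
a Noetherian Z-module. (`toC` is injective, `QC.toC_injective`.)
-/

set_option autoImplicit false

namespace Pool.Agent.B5

open PowerSeries UpperHalfPlane
open scoped MatrixGroups ModularForm Manifold

theorem LL_fg (N k : ℕ) (hN : N ≠ 0) :
    ∃ L : Submodule ℤ ℤ⟦X⟧, L.FG ∧ ∀ c, c ∈ L ↔ c ∈ LL N k := by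
  classical
  let L : Submodule ℤ ℤ⟦X⟧ :=
    { carrier := LL N k
      add_mem' := by
        rintro a b ⟨g, hg, hgq⟩ ⟨g', hg', hgq'⟩
        refine ⟨_, hg.add hg', ?_⟩
        have := hgq.add hgq'
        rwa [show toC (a + b) = toC a + toC b from map_add _ _ _]
      zero_mem' := by
        refine ⟨_, MF.zero N k, ?_⟩
        rw [show toC 0 = 0 from map_zero _]
        intro z
        simp [hasSum_zero]
      smul_mem' := by
        rintro m a ⟨g, hg, hgq⟩
        refine ⟨_, hg.smul (m : ℂ), ?_⟩
        have h1 := (HasQ.const (m : ℂ)).mul hgq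
        have h2 : toC (m • a) = PowerSeries.C (m : ℂ) * toC a := by
          ext n
          simp [toC]
        rw [h2]
        exact h1 }
  obtain ⟨B, hB⟩ := sturm N k hN
  refine ⟨L, ?_, fun c => Iff.rfl⟩
  let φ : ℤ⟦X⟧ →ₗ[ℤ] (Fin (B + 1) → ℤ) := LinearMap.pi (fun i => PowerSeries.coeff (R := ℤ) i)
  have hinj : Function.Injective (φ.comp L.subtype) := by
    rw [← LinearMap.ker_eq_bot, LinearMap.ker_eq_bot']
    rintro ⟨c, g, hg, hgq⟩ hc
    have : toC c = 0 := by
      apply hB g (toC c) hg hgq
      intro n hn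
      have h1 := congrFun hc ⟨n, by omega⟩
      simp only [φ, LinearMap.comp_apply, LinearMap.pi_apply, Submodule.subtype_apply, Pi.zero_apply] at h1
      simp only [toC, PowerSeries.coeff_map, eq_intCast, Int.cast_eq_zero]
      exact h1
    have h2 : c = 0 := toC_injective (by rw [this]; exact (map_zero _).symm)
    exact Subtype.ext h2
  have hN : IsNoetherian ℤ L := isNoetherian_of_injective (φ.comp L.subtype) hinj
  exact (isNoetherian_submodule.mp hN) L le_rfl

end Pool.Agent.B5
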