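import Pool.Agent.B5.J1
import Pool.Agent.B5.HA3
import Pool.Agent.B5.AL1

/-!
B5 / NV: nonvanishing, p > 5. See the header of the stub: `coprime_AB` by dehomogenisation over an algebraic closure (a common root of the two
polynomials `A1`, `B1` contradicts the two differential relations), `nonvanish` from it, `JJ_factor` and `EV.inj`.
-/

set_option autoImplicit false

namespace Pool.Agent.B5

open PowerSeries UpperHalfPlane
open scoped MatrixGroups ModularForm Manifold

section NVPoly

variable {p : ℕ} [Fact p.Prime] {K : Type} [Field K] [Algebra (ZMod p) K]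

/-- dehomogenisation -/
private noncomputable def nvPsi (p : ℕ) [Fact p.Prime] (K : Type) [Field K]
    [Algebra (ZMod p) K] : U p →ₐ[ZMod p] Polynomial K :=
  MvPolynomial.aeval ![Polynomial.X, 1]

private theorem nvPsi_X0 : nvPsi p K (MvPolynomial.X 0) = Polynomial.X := by
  rw [nvPsi, MvPolynomial.aeval_X]
  rfl

private theorem nvPsi_X1 : nvPsi p K (MvPolynomial.X 1) = 1 := by
  rw [nvPsi, MvPolynomial.aeval_X]
  rfl

private theorem nv_der (G : U p) : nvPsi p K (der2 G) =
    Polynomial.X * (-Polynomial.X ^ 2 + 66 * Polynomial.X + 11) *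
      nvPsi p K (MvPolynomial.pderiv 0 G) +
    (11 * Polynomial.X ^ 2 - 66 * Polynomial.X - 1) * nvPsi p K (MvPolynomial.pderiv 1 G) := by
  induction G using MvPolynomial.induction_on with
  | C a =>
    have h1 : der2 (MvPolynomial.C a : U p) = 0 := by
      rw [← MvPolynomial.algebraMap_eq]
      exact Derivation.map_algebraMap _ _
    rw [h1]
    simp
  | add f g hf hg =>
    rw [map_add, map_add, hf, hg, map_add, map_add, map_add, map_add]
    ring
  | mul_X f i hf =>
    rw [Derivation.leibniz, Derivation.leibniz, Derivation.leibniz]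
    simp only [smul_eq_mul, map_add, map_mul, hf]
    fin_cases i
    · have h1 : der2 (MvPolynomial.X 0 : U p) = MvPolynomial.X 0 *
          (- MvPolynomial.X 0 ^ 2 + 66 * MvPolynomial.X 0 * MvPolynomial.X 1
            + 11 * MvPolynomial.X 1 ^ 2) := by
        rw [der2, MvPolynomial.mkDerivation_X]
        rfl
      simp only [Fin.zero_eta, h1, map_mul, map_add, map_neg, map_pow, map_ofNat, nvPsi_X0,
        nvPsi_X1, MvPolynomial.pderiv_X_self, map_one]
      rw [MvPolynomial.pderiv_X_of_ne (by decide : (0 : Fin 2) ≠ 1)]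
      simp only [map_zero]
      ring
    · have h1 : der2 (MvPolynomial.X 1 : U p) = MvPolynomial.X 1 *
          (11 * MvPolynomial.X 0 ^ 2 - 66 * MvPolynomial.X 0 * MvPolynomial.X 1
            - MvPolynomial.X 1 ^ 2) := by
        rw [der2, MvPolynomial.mkDerivation_X]
        rfl
      simp only [Fin.mk_one, h1, map_mul, map_sub, map_pow, map_ofNat, nvPsi_X0,
        nvPsi_X1, MvPolynomial.pderiv_X_self, map_one]
      rw [MvPolynomial.pderiv_X_of_ne (by decide : (1 : Fin 2) ≠ 0)]
      simp only [map_zero]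
      ring

private theorem nv_deriv (G : U p) : Polynomial.derivative (nvPsi p K G) =
    nvPsi p K (MvPolynomial.pderiv 0 G) := by
  induction G using MvPolynomial.induction_on with
  | C a =>
    rw [MvPolynomial.pderiv_C, map_zero, ← MvPolynomial.algebraMap_eq, AlgHom.commutes,
      IsScalarTower.algebraMap_apply (ZMod p) K (Polynomial K)]
    exact Polynomial.derivative_C
  | add f g hf hg => rw [map_add, map_add, hf, hg, map_add, map_add]
  | mul_X f i hf =>
    rw [map_mul, Polynomial.derivative_mul, hf, Derivation.leibniz]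
    simp only [smul_eq_mul, map_add, map_mul]
    fin_cases i
    · simp only [Fin.zero_eta, nvPsi_X0, MvPolynomial.pderiv_X_self, map_one,
        Polynomial.derivative_X]
      ring
    · simp only [Fin.mk_one, nvPsi_X1, Polynomial.derivative_one]
      rw [MvPolynomial.pderiv_X_of_ne (by decide : (1 : Fin 2) ≠ 0)]
      simp only [map_zero]
      ring

private theorem nv_main {G : U p} {d : ℕ} (hG : G.IsHomogeneous d) : nvPsi p K (der2 G) =
    (d : Polynomial K) * (11 * Polynomial.X ^ 2 - 66 * Polynomial.X - 1) * nvPsi p K G +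
      (-12 * Polynomial.X * (Polynomial.X ^ 2 - 11 * Polynomial.X - 1)) *
        Polynomial.derivative (nvPsi p K G) := by
  have h1 := hG.sum_X_mul_pderiv
  rw [Fin.sum_univ_two] at h1
  have h2 := congrArg (nvPsi p K) h1
  rw [map_add, map_mul, map_mul, nvPsi_X0, nvPsi_X1, map_nsmul, nsmul_eq_mul] at h2
  rw [nv_der, nv_deriv]
  linear_combination (11 * Polynomial.X ^ 2 - 66 * Polynomial.X - 1) * h2

private theorem nv_mono {G : U p} {d : ℕ} (hG : G.IsHomogeneous d) :
    (nvPsi p K G).natDegree ≤ d ∧ (nvPsi p K G).coeff d =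
      algebraMap (ZMod p) K (MvPolynomial.eval ![1, 0] G) := by
  have h1 : ∀ m ∈ G.support, nvPsi p K (MvPolynomial.monomial m (G.coeff m)) =
      Polynomial.monomial (m 0) (algebraMap (ZMod p) K (G.coeff m)) := by
    intro m hm
    rw [nvPsi, MvPolynomial.aeval_monomial, Finsupp.prod_fintype _ _ (fun i => pow_zero _),
      Fin.prod_univ_two, IsScalarTower.algebraMap_apply (ZMod p) K (Polynomial K)]
    simp only [Matrix.cons_val_zero, Matrix.cons_val_one, one_pow, mul_one]
    rw [← Polynomial.C_mul_X_pow_eq_monomial]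
    rfl
  have hdeg : ∀ m ∈ G.support, m 0 + m 1 = d := by
    intro m hm
    have hdeg : m.degree = d := by
      by_contra hne
      exact (MvPolynomial.mem_support_iff.1 hm) (hG.coeff_eq_zero hne)
    rw [← hdeg, Finsupp.degree_eq_sum, Fin.sum_univ_two]
  have h2 : nvPsi p K G = ∑ m ∈ G.support,
      Polynomial.monomial (m 0) (algebraMap (ZMod p) K (G.coeff m)) := by
    conv_lhs => rw [← MvPolynomial.support_sum_monomial_coeff G]
    rw [map_sum]
    exact Finset.sum_congr rfl h1
  constructor
  · rw [h2]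
    refine Polynomial.natDegree_sum_le_of_forall_le _ _ ?_
    intro m hm
    refine (Polynomial.natDegree_monomial_le _).trans ?_
    have := hdeg m hm
    omega
  · have h3 : MvPolynomial.eval ![1, 0] G = ∑ m ∈ G.support,
        if m 0 = d then G.coeff m else 0 := by
      conv_lhs => rw [← MvPolynomial.support_sum_monomial_coeff G]
      rw [map_sum]
      refine Finset.sum_congr rfl fun m hm => ?_
      rw [MvPolynomial.eval_monomial, Finsupp.prod_fintype _ _ (fun i => pow_zero _),
        Fin.prod_univ_two]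
      simp only [Matrix.cons_val_zero, Matrix.cons_val_one, one_pow, one_mul]
      have := hdeg m hm
      by_cases h : m 0 = d
      · rw [if_pos h]
        have h4 : m 1 = 0 := by omega
        rw [h4, pow_zero, mul_one]
      · rw [if_neg h, zero_pow (by omega), mul_zero]
    rw [h3, h2, Polynomial.finsetSum_coeff, map_sum]
    refine Finset.sum_congr rfl fun m _ => ?_
    rw [Polynomial.coeff_monomial]
    split_ifs <;> simp

private theorem nv_eval0 (G : U p) : (nvPsi p K G).eval 0 =
    algebraMap (ZMod p) K (MvPolynomial.eval ![0, 1] G) := by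
  have h1 : ((Polynomial.evalRingHom (0 : K)).comp (nvPsi p K).toRingHom) =
      (algebraMap (ZMod p) K).comp (MvPolynomial.eval ![0, 1]) := by
    refine MvPolynomial.ringHom_ext ?_ ?_
    · intro a
      simp only [RingHom.comp_apply, MvPolynomial.eval_C]
      have : (nvPsi p K).toRingHom (MvPolynomial.C a) = Polynomial.C (algebraMap (ZMod p) K a) := by
        have h2 : nvPsi p K (MvPolynomial.C a) = Polynomial.C (algebraMap (ZMod p) K a) := by
          rw [← MvPolynomial.algebraMap_eq, AlgHom.commutes,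
            IsScalarTower.algebraMap_apply (ZMod p) K (Polynomial K)]
          rfl
        exact h2
      rw [this, Polynomial.coe_evalRingHom, Polynomial.eval_C]
    · intro i
      simp only [RingHom.comp_apply, MvPolynomial.eval_X]
      fin_cases i
      · change Polynomial.eval 0 (nvPsi p K (MvPolynomial.X 0)) = algebraMap (ZMod p) K 0
        rw [nvPsi_X0, Polynomial.eval_X, map_zero]
      · change Polynomial.eval 0 (nvPsi p K (MvPolynomial.X 1)) = algebraMap (ZMod p) K 1
        rw [nvPsi_X1, Polynomial.eval_one, map_one]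
  exact DFunLike.congr_fun h1 G

end NVPoly

theorem coprime_AB (p : ℕ) [Fact p.Prime] (hp : 5 < p) (e : EV p) {A : U p} (hA : HA p e A)
    (h : A ∣ der2 A ^ (p - 2) * vW) : False := by
  have hprime : p.Prime := Fact.out
  let K := AlgebraicClosure (ZMod p)
  have hchar : CharP K p := charP_of_injective_algebraMap (algebraMap (ZMod p) K).injective p
  have hne : ∀ k : ℕ, 0 < k → k < p → ((k : ℕ) : K) ≠ 0 := by
    intro k h0 h1 h
    rw [CharP.cast_eq_zero_iff K p] at h
    exact absurd (Nat.le_of_dvd h0 h) (by omega)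
  set A1 : Polynomial K := nvPsi p K A with hA1
  set B1 : Polynomial K := nvPsi p K (der2 A) with hB1
  have hvX : nvPsi p K vX = Polynomial.X ^ 2 - 11 * Polynomial.X - 1 := by
    simp only [vX, map_sub, map_pow, map_mul, map_ofNat, nvPsi_X0, nvPsi_X1]
    ring
  have hvW : nvPsi p K vW = Polynomial.X ^ 2 + 1 := by
    simp only [vW, map_add, map_pow, nvPsi_X0, nvPsi_X1]
    ring
  have hdegA := (nv_mono (K := K) hA.hom).1
  have hcoeff : A1.coeff (p - 1) = 1 := by
    rw [hA1, (nv_mono (K := K) hA.hom).2, hA.at1, map_one]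
  have hA0 : A1.eval 0 = 1 := by
    rw [hA1, nv_eval0, hA.at0, map_one]
  have hA1ne : A1 ≠ 0 := by
    intro h0
    rw [h0] at hcoeff
    simp at hcoeff
  have hp0 : ((p : ℕ) : Polynomial K) = 0 := by
    have h1 : ((p : ℕ) : K) = 0 := CharP.cast_eq_zero K p
    rw [← map_natCast Polynomial.C, h1, map_zero]
  have hd1 : (((p - 1 : ℕ)) : Polynomial K) = -1 := by
    have h1 : (((p - 1 : ℕ)) : Polynomial K) + 1 = ((p - 1 + 1 : ℕ) : Polynomial K) := by
      push_cast
      ring
    rw [Nat.sub_add_cancel (by omega : 1 ≤ p), hp0] at h1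
    linear_combination h1
  have hd2 : (((p - 1 + 2 : ℕ)) : Polynomial K) = 1 := by
    push_cast
    linear_combination hd1
  -- the two relations
  have hrel1 : B1 = -(11 * Polynomial.X ^ 2 - 66 * Polynomial.X - 1) * A1 +
      (-12 * Polynomial.X * (Polynomial.X ^ 2 - 11 * Polynomial.X - 1)) *
        Polynomial.derivative A1 := by
    rw [hB1, nv_main hA.hom, hd1, ← hA1]
    ring
  have hrel2 : -(nvPsi p K vQ * A1) = (11 * Polynomial.X ^ 2 - 66 * Polynomial.X - 1) * B1 +
      (-12 * Polynomial.X * (Polynomial.X ^ 2 - 11 * Polynomial.X - 1)) *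
        Polynomial.derivative B1 := by
    have h1 := nv_main (K := K) (der2_hom hA.hom)
    rw [hA.dB, hd2, map_neg, map_mul, ← hA1, ← hB1] at h1
    rw [h1]
    ring
  -- no common root
  have hcop : IsCoprime A1 B1 := by
    rw [Polynomial.isCoprime_iff_aeval_ne_zero_of_isAlgClosed (k := K) (K := K)]
    intro x
    by_contra hcon
    push Not at hcon
    obtain ⟨hx1, hx2⟩ := hcon
    rw [Polynomial.coe_aeval_eq_eval] at hx1 hx2
    -- `g x ≠ 0`
    have hx0 : x ≠ 0 := by
      rintro rfl
      rw [hA0] at hx1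
      exact one_ne_zero hx1
    have h5 : (5 : K) ≠ 0 := by exact_mod_cast hne 5 (by norm_num) (by omega)
    have h12 : (12 : K) ≠ 0 := by
      have h2 : (2 : K) ≠ 0 := by exact_mod_cast hne 2 (by norm_num) (by omega)
      have h3 : (3 : K) ≠ 0 := by exact_mod_cast hne 3 (by norm_num) (by omega)
      have : (12 : K) = 2 * 2 * 3 := by norm_num
      rw [this]
      exact mul_ne_zero (mul_ne_zero h2 h2) h3
    have hX1 : x ^ 2 - 11 * x - 1 ≠ 0 := by
      intro hX
      obtain ⟨q, hq⟩ := hA.modX
      have h1 := congrArg (fun f => (nvPsi p K f).eval x) hq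
      simp only [map_sub, map_mul, map_pow, map_neg, map_ofNat, hvX, hvW, ← hA1,
        Polynomial.eval_sub, Polynomial.eval_mul, Polynomial.eval_pow, Polynomial.eval_neg,
        Polynomial.eval_add, Polynomial.eval_X, Polynomial.eval_one, Polynomial.eval_ofNat,
        hx1, hX, zero_mul, zero_sub, neg_eq_zero] at h1
      have h2 := eq_zero_of_pow_eq_zero h1
      have h3 : x ^ 2 + 1 = 0 := by
        rcases mul_eq_zero.1 h2 with h4 | h4
        · exact absurd (neg_eq_zero.1 h4) h5
        · exact h4
      have h4 : (5 : K) * 5 * 5 * (x * x) = 0 := by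
        linear_combination (x ^ 2 + 1) * h3 - (x ^ 2 - 11 * x - 1) * hX - 22 * x * hX
      have h6 : x * x = 0 := by
        rcases mul_eq_zero.1 h4 with h7 | h7
        · exact absurd h7 (mul_ne_zero (mul_ne_zero h5 h5) h5)
        · exact h7
      exact hx0 (mul_self_eq_zero.1 h6)
    have hg : -12 * x * (x ^ 2 - 11 * x - 1) ≠ 0 :=
      mul_ne_zero (mul_ne_zero (neg_ne_zero.2 h12) hx0) hX1
    -- the multiplicity
    obtain ⟨a, ha, hax⟩ := Polynomial.exists_eq_pow_rootMultiplicity_mul_and_not_dvd A1 hA1ne x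
    set m := A1.rootMultiplicity x with hm
    have hax' : a.eval x ≠ 0 := fun h0 => hax (Polynomial.dvd_iff_isRoot.2 h0)
    have hm1 : 1 ≤ m := by
      rw [hm]
      exact (Polynomial.rootMultiplicity_pos hA1ne).2 hx1
    have hmp : m < p := by
      have h1 : m ≤ A1.natDegree := by
        have h3 : (Polynomial.X - Polynomial.C x) ^ m ∣ A1 := ⟨a, ha⟩
        have h4 := Polynomial.natDegree_le_of_dvd h3 hA1ne
        rw [Polynomial.natDegree_pow, Polynomial.natDegree_X_sub_C, mul_one] at h4
        exact h4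
      have h2 : A1.natDegree ≤ p - 1 := hdegA
      omega
    obtain ⟨k, hk⟩ : ∃ k, m = k + 1 := ⟨m - 1, by omega⟩
    rw [hk] at ha
    set T : Polynomial K := Polynomial.X - Polynomial.C x with hT
    have hTx : T.eval x = 0 := by simp [hT]
    have hTne : T ≠ 0 := Polynomial.X_sub_C_ne_zero x
    have hT' : Polynomial.derivative T = 1 := by simp [hT]
    set g : Polynomial K :=
      -12 * Polynomial.X * (Polynomial.X ^ 2 - 11 * Polynomial.X - 1) with hgdef
    have hgx : g.eval x ≠ 0 := by
      have : g.eval x = -12 * x * (x ^ 2 - 11 * x - 1) := by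
        simp only [hgdef, Polynomial.eval_mul, Polynomial.eval_sub, Polynomial.eval_pow,
          Polynomial.eval_X, Polynomial.eval_one, Polynomial.eval_ofNat, Polynomial.eval_neg]
      rw [this]
      exact hg
    set hh : Polynomial K := 11 * Polynomial.X ^ 2 - 66 * Polynomial.X - 1 with hhdef
    have hAd : Polynomial.derivative A1 =
        T ^ k * (((k + 1 : ℕ) : Polynomial K) * a + T * Polynomial.derivative a) := by
      rw [ha, Polynomial.derivative_mul, Polynomial.derivative_pow, hT']
      simp only [Nat.add_sub_cancel, map_natCast]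
      ring
    set b : Polynomial K := g * (((k + 1 : ℕ) : Polynomial K) * a + T * Polynomial.derivative a) -
      hh * (T * a) with hb
    have hB : B1 = T ^ k * b := by
      rw [hrel1, hAd, ha, hb]
      ring
    have hkne : ((k + 1 : ℕ) : K) ≠ 0 := hne (k + 1) (by omega) (by omega)
    have hbx : b.eval x ≠ 0 := by
      have : b.eval x = g.eval x * (((k + 1 : ℕ) : K) * a.eval x) := by
        rw [hb]
        simp only [Polynomial.eval_sub, Polynomial.eval_mul, Polynomial.eval_add, hTx,
          Polynomial.eval_natCast]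
        ring
      rw [this]
      exact mul_ne_zero hgx (mul_ne_zero hkne hax')
    have hk1 : k ≠ 0 := by
      rintro rfl
      rw [hB, pow_zero, one_mul] at hx2
      exact hbx hx2
    obtain ⟨l, rfl⟩ : ∃ l, k = l + 1 := ⟨k - 1, by omega⟩
    have hBd : Polynomial.derivative B1 =
        T ^ l * (((l + 1 : ℕ) : Polynomial K) * b + T * Polynomial.derivative b) := by
      rw [hB, Polynomial.derivative_mul, Polynomial.derivative_pow, hT']
      simp only [Nat.add_sub_cancel, map_natCast]
      ring
    have h3 : T ^ l * (-(nvPsi p K vQ * (T ^ 2 * a))) =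
        T ^ l * (hh * (T * b) + g * (((l + 1 : ℕ) : Polynomial K) * b +
          T * Polynomial.derivative b)) := by
      have h4 := hrel2
      rw [hBd, hB, ha] at h4
      linear_combination h4
    have h4 := mul_left_cancel₀ (pow_ne_zero l hTne) h3
    have h6 := congrArg (Polynomial.eval x) h4
    simp only [Polynomial.eval_neg, Polynomial.eval_mul, Polynomial.eval_add, hTx,
      Polynomial.eval_pow, Polynomial.eval_natCast] at h6
    have h7 : g.eval x * (((l + 1 : ℕ) : K) * b.eval x) = 0 := by
      linear_combination -h6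
    exact mul_ne_zero hgx (mul_ne_zero (hne (l + 1) (by omega) (by omega)) hbx) h7
  -- conclusion
  have hdvd : A1 ∣ B1 ^ (p - 2) * (Polynomial.X ^ 2 + 1) := by
    obtain ⟨q, hq⟩ := h
    refine ⟨nvPsi p K q, ?_⟩
    rw [← hvW, hB1, hA1, ← map_pow, ← map_mul, hq, map_mul]
  have hdvd2 : A1 ∣ Polynomial.X ^ 2 + 1 := (hcop.pow_right (n := p - 2)).dvd_of_dvd_mul_left hdvd
  have hW : (Polynomial.X ^ 2 + 1 : Polynomial K).natDegree = 2 := by
    have : (Polynomial.X ^ 2 + 1 : Polynomial K) = Polynomial.X ^ 2 + Polynomial.C 1 := by simp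
    rw [this]
    exact Polynomial.natDegree_X_pow_add_C
  have hWne : (Polynomial.X ^ 2 + 1 : Polynomial K) ≠ 0 := by
    intro h0
    rw [h0] at hW
    simp at hW
  have h8 := Polynomial.natDegree_le_of_dvd hdvd2 hWne
  have h9 : p - 1 ≤ A1.natDegree := by
    apply Polynomial.le_natDegree_of_ne_zero
    rw [hcoeff]
    exact one_ne_zero
  omega

theorem nonvanish (p : ℕ) [Fact p.Prime] (hp : 5 < p) :
    ∃ n : ℕ, legendreSym p (6 * n + 1) = -1 ∧ ¬ p ∣ b5 n := by
  by_contra hcon
  push Not at hcon
  have hprime : p.Prime := Fact.out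
  obtain ⟨e⟩ := exists_EV p (by omega)
  obtain ⟨A, hA⟩ := exists_A p (by omega) e
  have hodd : p % 2 = 1 := hprime.eq_two_or_odd.resolve_left (by omega)
  obtain ⟨r, hr⟩ : ∃ r, p = 2 * r + 1 := ⟨p / 2, by omega⟩
  have hr1 : p - 1 = 2 * r := by omega
  have hr2 : p / 2 = r := by omega
  have hr0 : r ≠ 0 := by omega
  have hne : ∀ k : ℕ, 0 < k → k < p → ((k : ℕ) : ZMod p) ≠ 0 := by
    intro k h0 h1 h
    rw [ZMod.natCast_eq_zero_iff] at h
    exact absurd (Nat.le_of_dvd h0 h) (by omega)
  have h2 : (2 : ZMod p) ≠ 0 := by exact_mod_cast hne 2 (by norm_num) (by omega)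
  have f2 : ((2 : ZMod p) ^ r) ^ 2 = 1 := by
    rw [← pow_mul, mul_comm r 2, ← hr1]
    exact ZMod.pow_card_sub_one_eq_one h2
  have hA0 : A ≠ 0 := by
    intro h0
    have := hA.at0
    rw [h0] at this
    simp at this
  -- the coefficients
  have hx : ∀ n : ℕ, ((6 * (n : ZMod p) + 1) ^ r) ^ 2 * (b5 n : ZMod p) =
      (6 * (n : ZMod p) + 1) ^ r * (b5 n : ZMod p) := by
    intro n
    have ex : ((legendreSym p (6 * n + 1) : ℤ) : ZMod p) = (6 * (n : ZMod p) + 1) ^ r := by
      rw [legendreSym.eq_pow, hr2]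
      push_cast
      ring
    rw [← ex]
    by_cases h0 : (((6 * (n : ℤ) + 1 : ℤ)) : ZMod p) = 0
    · rw [(legendreSym.eq_zero_iff p _).2 h0]
      simp
    · rcases legendreSym.eq_one_or_neg_one p h0 with h1 | h1
      · rw [h1]
        simp
      · have h3 : ((b5 n : ℕ) : ZMod p) = 0 := by
          rw [ZMod.natCast_eq_zero_iff]
          exact hcon n h1
        rw [h3]
        simp
  have hser : red p sB * e.ev (JJ A (p - 1)) =
      red p sB * (PowerSeries.C ((2 : ZMod p) ^ r) * e.ev (JJ A r)) := by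
    ext n
    have h3 : red p sB * (PowerSeries.C ((2 : ZMod p) ^ r) * e.ev (JJ A r)) =
        PowerSeries.C ((2 : ZMod p) ^ r) * (red p sB * e.ev (JJ A r)) := by ring
    rw [h3, PowerSeries.coeff_C_mul, JJ_ev (by omega) e hA, JJ_ev (by omega) e hA, hr1]
    have c1 : (2 * (6 * (n : ZMod p) + 1)) ^ (2 * r) =
        (2 ^ r) ^ 2 * ((6 * (n : ZMod p) + 1) ^ r) ^ 2 := by
      rw [mul_pow, pow_mul', pow_mul']
    have c2 : (2 * (6 * (n : ZMod p) + 1)) ^ r = 2 ^ r * (6 * (n : ZMod p) + 1) ^ r :=
      mul_pow _ _ _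
    rw [c1, c2]
    linear_combination ((2 : ZMod p) ^ r) ^ 2 * hx n
  have hsB : red p sB ≠ 0 := by
    intro h0
    have h1 : red p (sB * phi) = 0 := by
      simp only [red] at h0 ⊢
      rw [map_mul, h0, zero_mul]
    rw [id_B1] at h1
    have h3 := congrArg PowerSeries.constantCoeff h1
    rw [map_zero, ← PowerSeries.coeff_zero_eq_constantCoeff_apply, red, PowerSeries.coeff_map,
      PowerSeries.coeff_zero_eq_constantCoeff_apply, ex5_coeff_zero] at h3
    simp at h3
  have hev := mul_left_cancel₀ hsB hser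
  have hpoly : JJ A (p - 1) = MvPolynomial.C ((2 : ZMod p) ^ r) * (A ^ (r + 1) * JJ A r) := by
    have hdeg0 : (p - 1) * (r + 1) + r * (p + 1) = (p - 1) * (p + 1) := by
      rw [hr, Nat.add_sub_cancel]
      ring
    have k2 := (hA.hom.pow (r + 1)).mul (JJ_hom hA.hom r)
    rw [hdeg0] at k2
    have k3 := (JJ_hom hA.hom (p - 1)).sub (k2.C_mul ((2 : ZMod p) ^ r))
    have k4 : e.ev (JJ A (p - 1) - MvPolynomial.C ((2 : ZMod p) ^ r) * (A ^ (r + 1) * JJ A r)) =
        0 := by
      have k5 : ∀ c : ZMod p, e.ev (MvPolynomial.C c * (A ^ (r + 1) * JJ A r)) =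
          PowerSeries.C c * e.ev (JJ A r) := by
        intro c
        rw [map_mul, map_mul, map_pow, hA.ev1, one_pow, one_mul]
        have : e.ev (MvPolynomial.C c) = PowerSeries.C c := by
          rw [← MvPolynomial.algebraMap_eq, AlgHom.commutes]
          rfl
        rw [this]
      rw [map_sub, k5, hev, sub_self]
    exact sub_eq_zero.1 (e.inj k3 k4)
  obtain ⟨k, l, hk1, hk2⟩ := JJ_factor A (p - 2)
  obtain ⟨k', l', hk1', hk2'⟩ := JJ_factor A (r - 1)
  have e1 : p - 2 + 1 = p - 1 := by omega
  have e2 : r - 1 + 1 = r := by omega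
  rw [e1] at hk1 hk2
  rw [e2] at hk1'
  have h3 : A * k = A * (MvPolynomial.C ((2 : ZMod p) ^ r) * (A ^ (r + 1) * k')) := by
    rw [← hk1, hpoly, hk1']
    ring
  have h4 := mul_left_cancel₀ hA0 h3
  have h5 : A ∣ (((p - 1).factorial : ℕ) : U p) * der2 A ^ (p - 2) * (2 * vW) := by
    refine ⟨MvPolynomial.C ((2 : ZMod p) ^ r) * (A ^ r * k') - l, ?_⟩
    rw [hk2] at h4
    linear_combination h4
  have hfac : (((p - 1).factorial : ℕ) : ZMod p) ≠ 0 := by
    intro h0
    rw [ZMod.natCast_eq_zero_iff, hprime.dvd_factorial] at h0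
    omega
  have h6 : A ∣ der2 A ^ (p - 2) * vW := by
    obtain ⟨q, hq⟩ := h5
    set u : ZMod p := (((p - 1).factorial : ℕ) : ZMod p) * 2 with hu
    have hune : u ≠ 0 := mul_ne_zero hfac h2
    have h7 : (MvPolynomial.C u : U p) * (der2 A ^ (p - 2) * vW) = A * q := by
      rw [← hq, hu, MvPolynomial.C_mul, map_natCast,
        show (MvPolynomial.C 2 : U p) = 2 from map_ofNat MvPolynomial.C 2]
      ring
    refine ⟨MvPolynomial.C u⁻¹ * q, ?_⟩
    have h8 : (MvPolynomial.C u⁻¹ : U p) * MvPolynomial.C u = 1 := by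
      rw [← MvPolynomial.C_mul, inv_mul_cancel₀ hune, MvPolynomial.C_1]
    calc der2 A ^ (p - 2) * vW
        = (MvPolynomial.C u⁻¹ * MvPolynomial.C u) * (der2 A ^ (p - 2) * vW) := by
          rw [h8, one_mul]
      _ = MvPolynomial.C u⁻¹ * (MvPolynomial.C u * (der2 A ^ (p - 2) * vW)) := by ring
      _ = A * (MvPolynomial.C u⁻¹ * q) := by
          rw [h7]
          ring
  exact coprime_AB p hp e hA h6

end Pool.Agent.B5
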