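import Pool.Agent.B5.IB

/-!
B5 / PA: parity. Modulo 2, sE = 1, so by id_E2 (sa + sb)^2 = 1 and sa + sb = 1 in (ZMod 2)⟦X⟧ (a domain). Multiply by phi (X^5)/phi = sB:
sB = phi^4 + X phi(X^5)^6/phi^2 (id_B2, sb_mul, id_B1), where phi^4 = phi(X^4) and phi(X^5)^6/phi^2 is a series in X^2 (squares are in X^2, Frobenius). So
b5 (4n+2) is even and b5 (4n) is congruent to the coefficient n of phi, which is odd for the pentagonal numbers n = k(3k-1)/2, k >= 0.
-/

set_option autoImplicit false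

namespace Pool.Agent.B5

open PowerSeries UpperHalfPlane
open scoped MatrixGroups ModularForm Manifold

/-- reduction modulo 2 -/
def r2 : ℤ⟦X⟧ →+* (ZMod 2)⟦X⟧ := PowerSeries.map (Int.castRingHom (ZMod 2))

theorem r2_sE : r2 sE = 1 := by
  ext n
  unfold r2
  rw [PowerSeries.coeff_map, Pool.Agent.B5.sE, PowerSeries.coeff_mk, PowerSeries.coeff_one]
  have h2 : (2 : ZMod 2) = 0 := by decide
  have h6 : (6 : ZMod 2) = 0 := by decide
  have h30 : (30 : ZMod 2) = 0 := by decide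
  by_cases hn : n = 0
  · simp [hn]
  · rw [if_neg hn, if_neg hn]
    split_ifs with h5
    · simp [h6, h30]
    · simp [h6]

theorem sq_eq (f : (ZMod 2)⟦X⟧) : f ^ 2 = PowerSeries.expand 2 two_ne_zero f := by
  have h := MvPowerSeries.map_frobenius_expand (R := ZMod 2) 2 two_ne_zero (f := f)
  have e : frobenius (ZMod 2) 2 = RingHom.id _ := ZMod.frobenius_zmod 2
  rw [e, MvPowerSeries.map_id] at h
  exact h.symm

/-- squares have no odd coefficients -/
theorem sq_odd (f : (ZMod 2)⟦X⟧) (m : ℕ) (hm : ¬ 2 ∣ m) : PowerSeries.coeff m (f ^ 2) = 0 := by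
  rw [sq_eq]
  exact PowerSeries.coeff_expand_of_not_dvd 2 two_ne_zero f hm

theorem sq_even (f : (ZMod 2)⟦X⟧) (m : ℕ) : PowerSeries.coeff (2 * m) (f ^ 2) =
    PowerSeries.coeff m f := by
  rw [sq_eq]
  exact PowerSeries.coeff_expand_mul 2 two_ne_zero f m

theorem r2_sum : r2 sa + r2 sb = 1 := by
  have h := congrArg r2 id_E2
  have h2 : (2 : (ZMod 2)⟦X⟧) = 0 := by
    have h0 : (2 : (ZMod 2)⟦X⟧) = PowerSeries.C (2 : ZMod 2) :=
      (map_ofNat PowerSeries.C 2).symm
    rw [h0, show (2 : ZMod 2) = 0 by decide, map_zero]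
  rw [map_pow, r2_sE, map_add, map_add, map_mul, map_mul, map_mul, map_pow, map_pow] at h
  have e22 : r2 22 = 22 := map_ofNat _ 22
  have e125 : r2 125 = 125 := map_ofNat _ 125
  rw [e22, e125] at h
  have h3 : (r2 sa + r2 sb - 1) * (r2 sa + r2 sb - 1) = 0 := by
    linear_combination -h - (10 * r2 sa * r2 sb + 62 * r2 sb ^ 2 + r2 sa + r2 sb - 1) * h2
  have h4 := mul_self_eq_zero.1 h3
  linear_combination h4

theorem r2_sB : ∃ Z : (ZMod 2)⟦X⟧, r2 sB = r2 phi ^ 4 + PowerSeries.X * Z ^ 2 := by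
  have hV : phi * PowerSeries.invOfUnit phi 1 = 1 := PowerSeries.mul_invOfUnit _ _ (by
    rw [phi_coeff_zero]; simp)
  have hX : r2 PowerSeries.X = PowerSeries.X := by
    unfold r2
    exact PowerSeries.map_X _
  refine ⟨r2 (ex5 phi) ^ 3 * r2 (PowerSeries.invOfUnit phi 1), ?_⟩
  have h1 : sB * sb = PowerSeries.X * (ex5 phi ^ 3 * PowerSeries.invOfUnit phi 1) ^ 2 := by
    calc sB * sb = sB * sb * (phi * PowerSeries.invOfUnit phi 1) ^ 2 := by rw [hV]; ring
      _ = (sB * phi) * (sb * phi) * PowerSeries.invOfUnit phi 1 ^ 2 := by ring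
      _ = _ := by rw [id_B1, sb_mul]; ring
  have h2 := congrArg r2 h1
  have h3 := congrArg r2 id_B2
  rw [map_mul, map_mul, map_pow, map_mul, map_pow, hX] at h2
  rw [map_mul, map_pow] at h3
  linear_combination h2 + h3 - r2 sB * r2_sum

theorem coeff_r2_sB (n : ℕ) : PowerSeries.coeff n (r2 sB) = (b5 n : ZMod 2) := by
  unfold r2
  rw [PowerSeries.coeff_map, sB, PowerSeries.coeff_mk]
  simp

theorem parity_even (n : ℕ) : 2 ∣ b5 (4 * n + 2) := by
  obtain ⟨Z, hZ⟩ := r2_sB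
  have h := coeff_r2_sB (4 * n + 2)
  rw [hZ, map_add, show r2 phi ^ 4 = (r2 phi ^ 2) ^ 2 by ring,
    show 4 * n + 2 = 2 * (2 * n + 1) by ring, sq_even, sq_odd _ _ (by omega),
    show 2 * (2 * n + 1) = (4 * n + 1) + 1 by ring, PowerSeries.coeff_succ_X_mul,
    sq_odd _ _ (by omega), add_zero] at h
  rw [← ZMod.natCast_eq_zero_iff]
  rw [show 4 * n + 2 = (4 * n + 1) + 1 by ring]
  exact h.symm

theorem parity_odd (k : ℕ) : ¬ 2 ∣ b5 (4 * (k * (3 * k - 1) / 2)) := by
  obtain ⟨Z, hZ⟩ := r2_sB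
  set m := k * (3 * k - 1) / 2 with hm
  have hmk : m = pentagonal (k : ℤ) := by
    rw [pentagonal_def, hm]
    rcases Nat.eq_zero_or_pos k with h0 | h0
    · subst h0; rfl
    · have e : ((k : ℤ) * (3 * k - 1) / 2) = ((k * (3 * k - 1) / 2 : ℕ) : ℤ) := by
        push_cast [Nat.cast_sub (show 1 ≤ 3 * k by omega)]
        rfl
      rw [e, Int.toNat_natCast]
  have h := coeff_r2_sB (4 * m)
  have hphi : PowerSeries.coeff m (r2 phi) = 1 := by
    unfold r2 Pool.Agent.B5.phi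
    rw [PowerSeries.coeff_map, hmk, PowerSeries.coeff_pentagonalSeries_pentagonal]
    rcases Nat.even_or_odd k with hk | hk
    · have : Int.negOnePow (k : ℤ) = 1 := Int.negOnePow_even _ (by exact_mod_cast hk)
      rw [this]
      simp
    · have : Int.negOnePow (k : ℤ) = -1 := Int.negOnePow_odd _ (by exact_mod_cast hk)
      rw [this]
      simp
  have hX : PowerSeries.coeff (4 * m) (PowerSeries.X * Z ^ 2) = 0 := by
    rcases Nat.eq_zero_or_pos m with h0 | h0
    · rw [h0]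
      simp
    · obtain ⟨j, hj⟩ : ∃ j, 4 * m = j + 1 := ⟨4 * m - 1, by omega⟩
      rw [hj, PowerSeries.coeff_succ_X_mul, sq_odd _ _ (by omega)]
  rw [hZ, map_add, hX, add_zero, show r2 phi ^ 4 = (r2 phi ^ 2) ^ 2 by ring,
    show 4 * m = 2 * (2 * m) by ring, sq_even, sq_even, hphi] at h
  rw [← ZMod.natCast_eq_zero_iff, show 4 * m = 2 * (2 * m) by ring, ← h]
  exact one_ne_zero

end Pool.Agent.B5
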