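import Pool.Agent.B5.FO
import Pool.Agent.B5.NV
import Pool.Agent.B5.PA
import Pool.Agent.B5.LF
import Pool.Agent.B5.HK2
import Pool.Agent.B5.PE

/-!
B5 / MA: assembly.
-/

set_option autoImplicit false

namespace Pool.Agent.B5

open PowerSeries UpperHalfPlane
open scoped MatrixGroups ModularForm Manifold

theorem period_form (N k m : ℕ) (hN : N ≠ 0) (hk : 1 ≤ k) (hm : 0 < m) (c : ℤ⟦X⟧) (hc : c ∈ LL N k)
    (Q : ℕ) (hQ : Q.Prime) (hQN : Q ≡ 1 [MOD N]) (hQm : Nat.Coprime Q m) :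
    ∃ π : ℕ, 0 < π ∧ ∀ j : ℕ, 2 ≤ j → ∀ x : ℕ, Nat.Coprime Q x →
      ((PowerSeries.coeff (Q ^ (π * j - 1) * x) c : ℤ) : ZMod m) = 0 ∧
      (Q : ZMod m) ^ (k - 1) * ((PowerSeries.coeff (Q ^ (π * j - 2) * x) c : ℤ) : ZMod m) =
        - ((PowerSeries.coeff x c : ℤ) : ZMod m) := by
  obtain ⟨L, hL, hLm⟩ := LL_fg N k hN
  obtain ⟨π, h0, h⟩ := period L hL Q k m hQ hk hm hQm
    (fun c hc => (hLm _).mpr (LL_tq hk ((hLm _).mp hc) Q hQ hQN)) c ((hLm _).mpr hc)
  refine ⟨π, h0, ?_⟩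
  intro j hj x hx
  obtain ⟨h1, h2⟩ := h j hj x hx
  constructor
  · exact (ZMod.intCast_zmod_eq_zero_iff_dvd _ _).mpr h1
  · have h3 := (ZMod.intCast_zmod_eq_zero_iff_dvd _ _).mpr h2
    push_cast at h3
    exact eq_neg_of_add_eq_zero_left h3

/-- the periodicity for one prime modulus `p > 5` and one prime `Q` with `Q = 1` modulo 180 -/
theorem period_p (p : ℕ) [Fact p.Prime] (hp : 5 < p) (Q : ℕ) (hQ : Q.Prime) (hQ1 : Q ≡ 1 [MOD 180]) (hQp : Q ≠ p) :
    ∃ c : ℕ → ZMod p, (∀ n, c (6 * n + 1) =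
        (((legendreSym p (6 * n + 1)) ^ 2 - legendreSym p (-5) * legendreSym p (6 * n + 1) : ℤ) : ZMod p)
          * (b5 n : ZMod p)) ∧
      ∃ π : ℕ, 0 < π ∧ ∀ j : ℕ, 2 ≤ j → ∀ x : ℕ, Nat.Coprime Q x →
        c (Q ^ (π * j - 1) * x) = 0 ∧ (Q : ZMod p) ^ (p ^ 2 - 2) * c (Q ^ (π * j - 2) * x) = - c x := by
  have hpp : p.Prime := Fact.out
  obtain ⟨c, hc, hcc⟩ := form_gt p hp
  have hk : 1 ≤ p ^ 2 - 1 := by
    have : 5 * 5 < p ^ 2 := by nlinarith
    omega
  obtain ⟨π, h0, h⟩ := period_form 180 (p ^ 2 - 1) p (by norm_num) hk hpp.pos c hc Q hQ hQ1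
    ((Nat.coprime_primes hQ hpp).mpr hQp)
  refine ⟨fun x => ((PowerSeries.coeff x c : ℤ) : ZMod p), hcc, π, h0, ?_⟩
  intro j hj x hx
  have := h j hj x hx
  rw [Nat.sub_sub] at this
  exact this

theorem period_five (Q : ℕ) (hQ : Q.Prime) (hQ1 : Q ≡ 1 [MOD 36]) (hQ5 : Q ≠ 5) :
    ∃ c : ℕ → ZMod 5, (∀ n, c (6 * n + 1) = (b5 n : ZMod 5)) ∧
      ∃ π : ℕ, 0 < π ∧ ∀ j : ℕ, 2 ≤ j → ∀ x : ℕ, Nat.Coprime Q x →
        c (Q ^ (π * j - 1) * x) = 0 ∧ (Q : ZMod 5) * c (Q ^ (π * j - 2) * x) = - c x := by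
  obtain ⟨c, hc, hcc⟩ := form_five
  obtain ⟨π, h0, h⟩ := period_form 36 2 5 (by norm_num) (by norm_num) (by norm_num) c hc Q hQ hQ1
    ((Nat.coprime_primes hQ (by norm_num)).mpr hQ5)
  refine ⟨fun x => ((PowerSeries.coeff x c : ℤ) : ZMod 5), hcc, π, h0, ?_⟩
  intro j hj x hx
  have := h j hj x hx
  simpa using this

theorem exists_Q (M m : ℕ) (hM : 0 < M) (hm : 0 < m) (h : Nat.Coprime M m) (t : ℕ) (ht : Nat.Coprime t m) (B : ℕ) :
    ∃ Q : ℕ, Q.Prime ∧ B < Q ∧ Q ≡ 1 [MOD M] ∧ Q ≡ t [MOD m] := by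
  obtain ⟨a, ha1, ha2⟩ := Nat.chineseRemainder h 1 t
  have hco : Nat.Coprime a (M * m) := by
    apply Nat.Coprime.mul_right
    · have := ha1.gcd_eq
      rw [Nat.gcd_one_left] at this
      exact this
    · have := ha2.gcd_eq
      rw [Nat.Coprime, this]
      exact ht
  have : NeZero (M * m) := ⟨(Nat.mul_pos hM hm).ne'⟩
  have hinf := Nat.infinite_setOfPred_prime_and_eq_mod (q := M * m) (a := (a : ZMod (M * m)))
    ((ZMod.isUnit_iff_coprime a (M * m)).mpr hco)
  obtain ⟨Q, ⟨hQ1, hQ2⟩, hQ3⟩ := hinf.exists_gt B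
  have h3 : Q ≡ a [MOD M * m] := (ZMod.natCast_eq_natCast_iff _ _ _).mp hQ2
  exact ⟨Q, hQ1, hQ3, (h3.of_mul_right m).trans ha1, (h3.of_mul_left M).trans ha2⟩

/-- indices along a sequence of exponents -/
theorem infinite_of_seq (Q x0 : ℕ) (hQ : 2 ≤ Q) (hQ6 : Q ≡ 1 [MOD 6]) (hx0 : x0 ≡ 1 [MOD 6]) (hpos : 0 < x0)
    (E : ℕ → ℕ) (hE : StrictMono E) (S : Set ℕ) (hS : ∀ j n, 6 * n + 1 = Q ^ E j * x0 → n ∈ S) : S.Infinite := by
  have h1 : ∀ j, ∃ n, 6 * n + 1 = Q ^ E j * x0 := by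
    intro j
    have h2 : Q ^ E j * x0 ≡ 1 [MOD 6] := by
      have := (hQ6.pow (E j)).mul hx0
      simpa using this
    have h3 : Q ^ E j * x0 % 6 = 1 := h2
    refine ⟨Q ^ E j * x0 / 6, ?_⟩
    have := Nat.div_add_mod (Q ^ E j * x0) 6
    omega
  choose f hf using h1
  refine Set.infinite_of_injective_forall_mem (f := f) ?_ (fun j => hS j (f j) (hf j))
  intro i j hij
  have h2 : Q ^ E i * x0 = Q ^ E j * x0 := by rw [← hf i, ← hf j, hij]
  have h3 : Q ^ E i = Q ^ E j := Nat.eq_of_mul_eq_mul_right hpos h2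
  exact hE.injective (Nat.pow_right_injective hQ h3)

theorem dvd_of_squarefree (m : ℕ) (hm : Squarefree m) (z : ℤ) (h : ∀ p : ℕ, p.Prime → p ∣ m → (p : ℤ) ∣ z) :
    (m : ℤ) ∣ z := by
  rw [Int.natCast_dvd]
  have h0 : m = ∏ p ∈ m.primeFactors, p := (Nat.prod_primeFactors_of_squarefree hm).symm
  rw [h0]
  apply Finset.prod_primes_dvd
  · intro p hp
    exact (Nat.prime_of_mem_primeFactors hp).prime
  · intro p hp
    have := h p (Nat.prime_of_mem_primeFactors hp) (Nat.dvd_of_mem_primeFactors hp)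
    exact Int.natCast_dvd.mp this

theorem leg_aux (p : ℕ) [Fact p.Prime] (hp : 5 < p) (e x : ℤ)
    (he : e = 1 ∨ e = -1) (hx : x = 0 ∨ x = 1 ∨ x = -1) (h : ((x ^ 2 - e * x : ℤ) : ZMod p) ≠ 0) :
    x ^ 2 - e * x = 2 := by
  rcases he with rfl | rfl <;> rcases hx with rfl | rfl | rfl <;> simp_all

theorem leg_cases (p : ℕ) [Fact p.Prime] (a : ℤ) : legendreSym p a = 0 ∨ legendreSym p a = 1 ∨ legendreSym p a = -1 := by
  by_cases h : (a : ZMod p) = 0
  · left; exact (legendreSym.eq_zero_iff p a).mpr h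
  · right; exact legendreSym.eq_one_or_neg_one p h

theorem leg_five (p : ℕ) [Fact p.Prime] (hp : 5 < p) : legendreSym p (-5) = 1 ∨ legendreSym p (-5) = -1 := by
  apply legendreSym.eq_one_or_neg_one
  have hpp : p.Prime := Fact.out
  intro h
  have h1 : (p : ℤ) ∣ -5 := (ZMod.intCast_zmod_eq_zero_iff_dvd _ _).mp h
  have h2 : p ∣ 5 := by
    have := (Int.dvd_neg).mp h1
    exact_mod_cast this
  have := Nat.le_of_dvd (by norm_num) h2
  omega

/-- the general statement -/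
theorem main_gen (m : ℕ) (hm : Squarefree m) (h5 : ∀ p : ℕ, p.Prime → p ∣ m → 5 < p) (n0 : ℕ)
    (hn0 : ∀ p : ℕ, (hp : p.Prime) → p ∣ m →
      @legendreSym p ⟨hp⟩ (6 * n0 + 1) = - @legendreSym p ⟨hp⟩ (-5) ∧ ¬ p ∣ b5 n0)
    (i : ℤ) (hi : IsCoprime i (m : ℤ) ∨ i = 0) :
    {n : ℕ | (b5 n : ℤ) ≡ i [ZMOD m]}.Infinite := by
  classical
  have hm0 : m ≠ 0 := hm.ne_zero
  have : NeZero m := ⟨hm0⟩
  have hmpos : 0 < m := Nat.pos_of_ne_zero hm0
  have hco180 : Nat.Coprime 180 m := by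
    rw [Nat.coprime_comm]
    apply Nat.Coprime.symm
    apply Nat.coprime_of_dvd
    intro k hk hk1 hk2
    have h1 := h5 k hk hk2
    have h2 : k ∣ 2 ^ 2 * 3 ^ 2 * 5 := hk1
    have h3 : k ∣ 2 ∨ k ∣ 3 ∨ k ∣ 5 := by
      rcases (Nat.Prime.dvd_mul hk).mp h2 with h | h
      · rcases (Nat.Prime.dvd_mul hk).mp h with h | h
        · exact Or.inl (hk.dvd_of_dvd_pow h)
        · exact Or.inr (Or.inl (hk.dvd_of_dvd_pow h))
      · exact Or.inr (Or.inr h)
    rcases h3 with h | h | h <;> have := Nat.le_of_dvd (by norm_num) h <;> omega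
  set u : ℕ := b5 n0 with hu
  have hucop : Nat.Coprime u m := by
    apply Nat.coprime_of_dvd
    intro k hk hk1 hk2
    exact (hn0 k hk hk2).2 hk1
  rcases hi with hi | hi
  · -- unit classes
    let tz : ZMod m := - (i : ZMod m) * (u : ZMod m)⁻¹
    have huu : (u : ZMod m) * (u : ZMod m)⁻¹ = 1 := ZMod.coe_mul_inv_eq_one u hucop
    have hiu : IsUnit (i : ZMod m) := by
      obtain ⟨a, b, hab⟩ := hi
      have h1 : (a : ZMod m) * (i : ZMod m) = 1 := by
        have := congrArg (Int.cast : ℤ → ZMod m) hab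
        push_cast at this
        simpa using this
      exact IsUnit.of_mul_eq_one_right _ h1
    have htu : IsUnit tz := by
      apply IsUnit.mul hiu.neg
      exact IsUnit.of_mul_eq_one_right _ huu
    have hcast : ((tz.val : ℕ) : ZMod m) = tz := by simp
    have htco : Nat.Coprime tz.val m := by
      rw [← ZMod.isUnit_iff_coprime, hcast]
      exact htu
    obtain ⟨Q, hQp, hQB, hQ1, hQ2⟩ := exists_Q 180 m (by norm_num) hmpos hco180 tz.val htco (m + (6 * n0 + 1))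
    have hQx : Nat.Coprime Q (6 * n0 + 1) := by
      rw [Nat.coprime_comm]
      apply Nat.Coprime.symm
      exact (Nat.Prime.coprime_iff_not_dvd hQp).mpr (fun h => by
        have := Nat.le_of_dvd (by omega) h
        omega)
    have hQz : (Q : ZMod m) = tz := by
      rw [← hcast]; exact (ZMod.natCast_eq_natCast_iff _ _ _).mpr hQ2
    have key : ∀ p : ℕ, p.Prime → p ∣ m → ∃ π : ℕ, 0 < π ∧ ∀ j, 2 ≤ j → ∀ n, 6 * n + 1 = Q ^ (π * j - 2) * (6 * n0 + 1) →
        (p : ℤ) ∣ (b5 n : ℤ) - i := by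
      intro p hp hpm
      have : Fact p.Prime := ⟨hp⟩
      have hp5 := h5 p hp hpm
      have hQp' : Q ≠ p := by
        intro h
        have := Nat.le_of_dvd hmpos hpm
        omega
      obtain ⟨c, hc, π, hπ, hper⟩ := period_p p hp5 Q hQp hQ1 hQp'
      refine ⟨π, hπ, ?_⟩
      intro j hj n hn
      have h1 := (hper j hj (6 * n0 + 1) hQx).2
      rw [← hn, hc n, hc n0] at h1
      obtain ⟨hl, hnd⟩ := hn0 p hp hpm
      have h2z : (2 : ZMod p) ≠ 0 := by
        intro h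
        have h' : ((2 : ℕ) : ZMod p) = 0 := by exact_mod_cast h
        rw [ZMod.natCast_eq_zero_iff] at h'
        have := Nat.le_of_dvd (by norm_num) h'
        omega
      have huz : ((b5 n0 : ℕ) : ZMod p) ≠ 0 := by
        rw [Ne, ZMod.natCast_eq_zero_iff]; exact hnd
      have hQpz : (Q : ZMod p) ≠ 0 := by
        rw [Ne, ZMod.natCast_eq_zero_iff]
        intro h
        exact hQp' ((Nat.prime_dvd_prime_iff_eq hp hQp).mp h).symm
      have hl' : legendreSym p (6 * (n0 : ℤ) + 1) ^ 2 - legendreSym p (-5) * legendreSym p (6 * (n0 : ℤ) + 1) = 2 := by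
        rw [hl]
        rcases leg_five p hp5 with h | h <;> rw [h] <;> norm_num
      rw [hl'] at h1
      have hne : ((legendreSym p (6 * (n : ℤ) + 1) ^ 2 - legendreSym p (-5) * legendreSym p (6 * (n : ℤ) + 1) : ℤ) : ZMod p) ≠ 0 := by
        intro h
        rw [h, zero_mul, mul_zero] at h1
        have h2 := neg_eq_zero.mp h1.symm
        rcases mul_eq_zero.mp h2 with h3 | h3
        · exact h2z (by exact_mod_cast h3)
        · exact huz h3
      have h3 := leg_aux p hp5 _ _ (leg_five p hp5) (leg_cases p _) hne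
      rw [h3] at h1
      have h4 : (Q : ZMod p) ^ (p ^ 2 - 2) * (b5 n : ZMod p) = - (b5 n0 : ZMod p) := by
        have : (2 : ZMod p) * ((Q : ZMod p) ^ (p ^ 2 - 2) * (b5 n : ZMod p)) = 2 * (- (b5 n0 : ZMod p)) := by
          push_cast at h1
          linear_combination h1
        exact mul_left_cancel₀ h2z this
      have h5' : (Q : ZMod p) ^ (p ^ 2 - 1) = 1 := by
        have h6 : p ^ 2 - 1 = (p - 1) * (p + 1) := by
          obtain ⟨r, rfl⟩ : ∃ r, p = r + 1 := ⟨p - 1, by omega⟩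
          have : (r + 1) ^ 2 = r * (r + 1 + 1) + 1 := by ring
          rw [this]
          simp
        rw [h6, pow_mul, ZMod.pow_card_sub_one_eq_one hQpz, one_pow]
      have h7 : (b5 n : ZMod p) = - (b5 n0 : ZMod p) * (Q : ZMod p) := by
        have h8 : p ^ 2 - 1 = (p ^ 2 - 2) + 1 := by
          have : 5 * 5 < p ^ 2 := by nlinarith
          omega
        rw [h8, pow_succ] at h5'
        calc (b5 n : ZMod p) = ((Q : ZMod p) ^ (p ^ 2 - 2) * (Q : ZMod p)) * (b5 n : ZMod p) := by rw [h5', one_mul]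
          _ = ((Q : ZMod p) ^ (p ^ 2 - 2) * (b5 n : ZMod p)) * (Q : ZMod p) := by ring
          _ = _ := by rw [h4]
      have h9 : (b5 n0 : ZMod p) * (Q : ZMod p) = - (i : ZMod p) := by
        have h10 : (u : ZMod m) * (Q : ZMod m) = - (i : ZMod m) := by
          rw [hQz]
          show (u : ZMod m) * (- (i : ZMod m) * (u : ZMod m)⁻¹) = _
          calc (u : ZMod m) * (- (i : ZMod m) * (u : ZMod m)⁻¹) = - (i : ZMod m) * ((u : ZMod m) * (u : ZMod m)⁻¹) := by ring
            _ = _ := by rw [huu, mul_one]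
        have h11 : ((u * Q + i : ℤ) : ZMod m) = 0 := by
          push_cast
          rw [h10]; ring
        have h12 : (m : ℤ) ∣ (u * Q + i : ℤ) := (ZMod.intCast_zmod_eq_zero_iff_dvd _ _).mp h11
        have h13 : (p : ℤ) ∣ (u * Q + i : ℤ) := (Int.natCast_dvd_natCast.mpr hpm).trans h12
        have h14 := (ZMod.intCast_zmod_eq_zero_iff_dvd (u * Q + i : ℤ) p).mpr h13
        push_cast at h14
        exact eq_neg_of_add_eq_zero_left h14
      have h15 : (((b5 n : ℤ) - i : ℤ) : ZMod p) = 0 := by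
        push_cast
        rw [h7]
        linear_combination - h9
      exact (ZMod.intCast_zmod_eq_zero_iff_dvd _ _).mp h15
    -- common period
    have key' : ∀ p : ℕ, ∃ π : ℕ, 0 < π ∧ (p.Prime → p ∣ m → ∀ j, 2 ≤ j → ∀ n, 6 * n + 1 = Q ^ (π * j - 2) * (6 * n0 + 1) →
        (p : ℤ) ∣ (b5 n : ℤ) - i) := by
      intro p
      by_cases h : p.Prime ∧ p ∣ m
      · obtain ⟨π, h1, h2⟩ := key p h.1 h.2
        exact ⟨π, h1, fun _ _ => h2⟩
      · exact ⟨1, one_pos, fun h1 h2 => absurd ⟨h1, h2⟩ h⟩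
    choose π hπ hper using key'
    let PP : ℕ := ∏ p ∈ m.primeFactors, π p
    have hPP : 0 < PP := Finset.prod_pos (fun p _ => hπ p)
    refine infinite_of_seq Q (6 * n0 + 1) hQp.two_le ?_ ?_ (by omega) (fun j => PP * (j + 2) - 2) ?_ _ ?_
    · exact hQ1.of_dvd (by norm_num)
    · show (6 * n0 + 1) % 6 = 1 % 6
      omega
    · intro a b hab
      show PP * (a + 2) - 2 < PP * (b + 2) - 2
      have h1 : PP * (a + 2) < PP * (b + 2) := Nat.mul_lt_mul_of_pos_left (by omega) hPP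
      have h2 : 2 ≤ PP * (a + 2) := by nlinarith
      omega
    · intro j n hn
      show (b5 n : ℤ) ≡ i [ZMOD m]
      apply Int.ModEq.symm
      rw [Int.modEq_iff_dvd]
      apply dvd_of_squarefree m hm
      intro p hp hpm
      have hmem : p ∈ m.primeFactors := Nat.mem_primeFactors.mpr ⟨hp, hpm, hm0⟩
      obtain ⟨w, hw⟩ : π p ∣ PP := Finset.dvd_prod_of_mem π hmem
      have hw0 : 0 < w := by
        rcases Nat.eq_zero_or_pos w with h | h
        · rw [h, mul_zero] at hw; omega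
        · exact h
      apply hper p hp hpm (w * (j + 2)) (by nlinarith) n
      rw [← mul_assoc, ← hw]
      exact hn
  · -- the zero class
    subst hi
    obtain ⟨Q, hQp, hQB, hQ1, hQ2⟩ := exists_Q 180 m (by norm_num) hmpos hco180 1 (Nat.coprime_one_left m) (m + (6 * n0 + 1))
    have hQx : Nat.Coprime Q (6 * n0 + 1) := by
      exact (Nat.Prime.coprime_iff_not_dvd hQp).mpr (fun h => by
        have := Nat.le_of_dvd (by omega) h
        omega)
    have key : ∀ p : ℕ, p.Prime → p ∣ m → ∃ π : ℕ, 0 < π ∧ ∀ j, 2 ≤ j → ∀ n, 6 * n + 1 = Q ^ (π * j - 1) * (6 * n0 + 1) →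
        (p : ℤ) ∣ (b5 n : ℤ) - 0 := by
      intro p hp hpm
      have : Fact p.Prime := ⟨hp⟩
      have hp5 := h5 p hp hpm
      have hQp' : Q ≠ p := by
        intro h
        have := Nat.le_of_dvd hmpos hpm
        omega
      obtain ⟨c, hc, π, hπ, hper⟩ := period_p p hp5 Q hQp hQ1 hQp'
      refine ⟨π, hπ, ?_⟩
      intro j hj n hn
      have h1 := (hper j hj (6 * n0 + 1) hQx).1
      rw [← hn, hc n] at h1
      obtain ⟨hl, hnd⟩ := hn0 p hp hpm
      have h2z : (2 : ZMod p) ≠ 0 := by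
        intro h
        have h' : ((2 : ℕ) : ZMod p) = 0 := by exact_mod_cast h
        rw [ZMod.natCast_eq_zero_iff] at h'
        have := Nat.le_of_dvd (by norm_num) h'
        omega
      have hxx : ((6 * (n : ℤ) + 1 : ℤ) : ZMod p) = ((6 * (n0 : ℤ) + 1 : ℤ) : ZMod p) := by
        have h3 : ((6 * n + 1 : ℕ) : ZMod p) = ((Q ^ (π * j - 1) * (6 * n0 + 1) : ℕ) : ZMod p) := by rw [hn]
        have h4 : (Q : ZMod p) = 1 := by
          have h5' : Q ≡ 1 [MOD p] := hQ2.of_dvd hpm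
          have := (ZMod.natCast_eq_natCast_iff Q 1 p).mpr h5'
          simpa using this
        push_cast at h3
        rw [h4, one_pow, one_mul] at h3
        push_cast
        exact h3
      have hll : legendreSym p (6 * (n : ℤ) + 1) = legendreSym p (6 * (n0 : ℤ) + 1) := by
        unfold legendreSym
        rw [hxx]
      rw [hll] at h1
      have hl' : legendreSym p (6 * (n0 : ℤ) + 1) ^ 2 - legendreSym p (-5) * legendreSym p (6 * (n0 : ℤ) + 1) = 2 := by
        rw [hl]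
        rcases leg_five p hp5 with h | h <;> rw [h] <;> norm_num
      rw [hl'] at h1
      rcases mul_eq_zero.mp h1 with h3 | h3
      · exact absurd (by exact_mod_cast h3) h2z
      · rw [sub_zero]
        have := (ZMod.natCast_eq_zero_iff _ _).mp h3
        exact_mod_cast this
    have key' : ∀ p : ℕ, ∃ π : ℕ, 0 < π ∧ (p.Prime → p ∣ m → ∀ j, 2 ≤ j → ∀ n, 6 * n + 1 = Q ^ (π * j - 1) * (6 * n0 + 1) →
        (p : ℤ) ∣ (b5 n : ℤ) - 0) := by
      intro p
      by_cases h : p.Prime ∧ p ∣ m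
      · obtain ⟨π, h1, h2⟩ := key p h.1 h.2
        exact ⟨π, h1, fun _ _ => h2⟩
      · exact ⟨1, one_pos, fun h1 h2 => absurd ⟨h1, h2⟩ h⟩
    choose π hπ hper using key'
    let PP : ℕ := ∏ p ∈ m.primeFactors, π p
    have hPP : 0 < PP := Finset.prod_pos (fun p _ => hπ p)
    refine infinite_of_seq Q (6 * n0 + 1) hQp.two_le ?_ ?_ (by omega) (fun j => PP * (j + 2) - 1) ?_ _ ?_
    · exact hQ1.of_dvd (by norm_num)
    · show (6 * n0 + 1) % 6 = 1 % 6
      omega
    · intro a b hab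
      show PP * (a + 2) - 1 < PP * (b + 2) - 1
      have h1 : PP * (a + 2) < PP * (b + 2) := Nat.mul_lt_mul_of_pos_left (by omega) hPP
      have h2 : 2 ≤ PP * (a + 2) := by nlinarith
      omega
    · intro j n hn
      show (b5 n : ℤ) ≡ 0 [ZMOD m]
      apply Int.ModEq.symm
      rw [Int.modEq_iff_dvd]
      apply dvd_of_squarefree m hm
      intro p hp hpm
      have hmem : p ∈ m.primeFactors := Nat.mem_primeFactors.mpr ⟨hp, hpm, hm0⟩
      obtain ⟨w, hw⟩ : π p ∣ PP := Finset.dvd_prod_of_mem π hmem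
      have hw0 : 0 < w := by
        rcases Nat.eq_zero_or_pos w with h | h
        · rw [h, mul_zero] at hw; omega
        · exact h
      apply hper p hp hpm (w * (j + 2)) (by nlinarith) n
      rw [← mul_assoc, ← hw]
      exact hn

theorem b5_zero : b5 0 = 1 := by decide

theorem main_squarefree (m : ℕ) (hm : Squarefree m)
    (h : ∀ p : ℕ, (hp : p.Prime) → p ∣ m → 5 < p ∧ @legendreSym p ⟨hp⟩ (-5) = -1)
    (i : ℤ) (hi : IsCoprime i (m : ℤ) ∨ i = 0) :
    {n : ℕ | (b5 n : ℤ) ≡ i [ZMOD m]}.Infinite := by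
  refine main_gen m hm (fun p hp hpm => (h p hp hpm).1) 0 ?_ i hi
  intro p hp hpm
  have : Fact p.Prime := ⟨hp⟩
  constructor
  · rw [(h p hp hpm).2]
    simp
  · rw [b5_zero]
    exact hp.one_lt.ne' ∘ Nat.dvd_one.mp

theorem main_five (i : ℤ) : {n : ℕ | (b5 n : ℤ) ≡ i [ZMOD 5]}.Infinite := by
  have : Fact (Nat.Prime 5) := ⟨by norm_num⟩
  by_cases hi : (i : ZMod 5) = 0
  · obtain ⟨Q, hQp, hQB, hQ1, hQ2⟩ := exists_Q 36 5 (by norm_num) (by norm_num) (by norm_num) 1 (by norm_num) 5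
    obtain ⟨c, hc, π, hπ, hper⟩ := period_five Q hQp hQ1 (by omega)
    refine infinite_of_seq Q 1 hQp.two_le (hQ1.of_dvd (by norm_num)) rfl one_pos (fun j => π * (j + 2) - 1) ?_ _ ?_
    · intro a b hab
      show π * (a + 2) - 1 < π * (b + 2) - 1
      have h1 : π * (a + 2) < π * (b + 2) := Nat.mul_lt_mul_of_pos_left (by omega) hπ
      have h2 : 2 ≤ π * (a + 2) := by nlinarith
      omega
    · intro j n hn
      have h1 := (hper (j + 2) (by omega) 1 (Nat.coprime_one_right Q)).1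
      rw [← hn, hc n] at h1
      show (b5 n : ℤ) ≡ i [ZMOD 5]
      apply (ZMod.intCast_eq_intCast_iff _ _ 5).mp
      rw [hi]
      simpa using h1
  · have hcast : (((-(i : ZMod 5)⁻¹).val : ℕ) : ZMod 5) = -(i : ZMod 5)⁻¹ := by simp
    have hunit : IsUnit (-(i : ZMod 5)⁻¹) := by
      rw [isUnit_iff_ne_zero]
      simpa using hi
    have hco : Nat.Coprime (-(i : ZMod 5)⁻¹).val 5 := by
      rw [← ZMod.isUnit_iff_coprime, hcast]
      exact hunit
    obtain ⟨Q, hQp, hQB, hQ1, hQ2⟩ := exists_Q 36 5 (by norm_num) (by norm_num) (by norm_num) _ hco 5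
    have hQz : (Q : ZMod 5) = -(i : ZMod 5)⁻¹ := by
      rw [← hcast]; exact (ZMod.natCast_eq_natCast_iff _ _ _).mpr hQ2
    obtain ⟨c, hc, π, hπ, hper⟩ := period_five Q hQp hQ1 (by omega)
    refine infinite_of_seq Q 1 hQp.two_le (hQ1.of_dvd (by norm_num)) rfl one_pos (fun j => π * (j + 2) - 2) ?_ _ ?_
    · intro a b hab
      show π * (a + 2) - 2 < π * (b + 2) - 2
      have h1 : π * (a + 2) < π * (b + 2) := Nat.mul_lt_mul_of_pos_left (by omega) hπ
      have h2 : 2 ≤ π * (a + 2) := by nlinarith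
      omega
    · intro j n hn
      have h1 := (hper (j + 2) (by omega) 1 (Nat.coprime_one_right Q)).2
      have hc0 : c 1 = 1 := by
        have := hc 0
        rw [b5_zero] at this
        simpa using this
      rw [← hn, hc n, hc0, hQz] at h1
      show (b5 n : ℤ) ≡ i [ZMOD 5]
      apply (ZMod.intCast_eq_intCast_iff _ _ 5).mp
      have h2 : (b5 n : ZMod 5) = (i : ZMod 5) := by
        have h3 : (i : ZMod 5)⁻¹ * (b5 n : ZMod 5) = 1 := by
          linear_combination - h1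
        calc (b5 n : ZMod 5) = (i : ZMod 5) * ((i : ZMod 5)⁻¹ * (b5 n : ZMod 5)) := by
              rw [← mul_assoc, mul_inv_cancel₀ hi, one_mul]
          _ = _ := by rw [h3, mul_one]
      simpa using h2

theorem main_two (i : ℤ) : {n : ℕ | (b5 n : ℤ) ≡ i [ZMOD 2]}.Infinite := by
  rcases Int.even_or_odd i with hi | hi
  · refine Set.infinite_of_injective_forall_mem (f := fun n : ℕ => 4 * n + 2) ?_ ?_
    · intro a b h
      simp only at h
      omega
    · intro n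
      show (b5 (4 * n + 2) : ℤ) ≡ i [ZMOD 2]
      have h1 := parity_even n
      obtain ⟨w, hw⟩ := h1
      obtain ⟨v, hv⟩ := hi
      rw [hw]
      show (((2 * w : ℕ) : ℤ)) % 2 = i % 2
      omega
  · refine Set.infinite_of_injective_forall_mem (f := fun k : ℕ => 4 * ((k + 1) * (3 * (k + 1) - 1) / 2)) ?_ ?_
    · have hmono : StrictMono (fun k : ℕ => 4 * ((k + 1) * (3 * (k + 1) - 1) / 2)) := by
        apply strictMono_nat_of_lt_succ
        intro k
        have h1 : (k + 1) * (3 * (k + 1) - 1) + 2 ≤ (k + 1 + 1) * (3 * (k + 1 + 1) - 1) := by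
          have e1 : 3 * (k + 1) - 1 = 3 * k + 2 := by omega
          have e2 : 3 * (k + 1 + 1) - 1 = 3 * k + 5 := by omega
          rw [e1, e2]
          nlinarith
        show 4 * ((k + 1) * (3 * (k + 1) - 1) / 2) < 4 * ((k + 1 + 1) * (3 * (k + 1 + 1) - 1) / 2)
        omega
      exact hmono.injective
    · intro k
      show (b5 (4 * ((k + 1) * (3 * (k + 1) - 1) / 2)) : ℤ) ≡ i [ZMOD 2]
      have h1 := parity_odd (k + 1)
      obtain ⟨v, hv⟩ := hi
      show ((b5 (4 * ((k + 1) * (3 * (k + 1) - 1) / 2)) : ℕ) : ℤ) % 2 = i % 2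
      omega

theorem main_prime (p : ℕ) (hp : p.Prime) (h3 : p ≠ 3) (i : ℤ) :
    {n : ℕ | (b5 n : ℤ) ≡ i [ZMOD p]}.Infinite := by
  have : Fact p.Prime := ⟨hp⟩
  by_cases h5 : 5 < p
  · have hi : IsCoprime i (p : ℤ) ∨ (i : ZMod p) = 0 := by
      by_cases h : (p : ℤ) ∣ i
      · right; exact (ZMod.intCast_zmod_eq_zero_iff_dvd _ _).mpr h
      · left
        exact ((Prime.coprime_iff_not_dvd (Nat.prime_iff_prime_int.mp hp)).mpr h).symm
    have hgen : ∃ n0 : ℕ, legendreSym p (6 * (n0 : ℤ) + 1) = - legendreSym p (-5) ∧ ¬ p ∣ b5 n0 := by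
      rcases leg_five p h5 with h | h
      · obtain ⟨n, h1, h2⟩ := nonvanish p h5
        exact ⟨n, by rw [h1, h], h2⟩
      · refine ⟨0, ?_, ?_⟩
        · rw [h]; simp
        · rw [b5_zero]
          exact hp.one_lt.ne' ∘ Nat.dvd_one.mp
    obtain ⟨n0, hn1, hn2⟩ := hgen
    have hall : ∀ i' : ℤ, (IsCoprime i' (p : ℤ) ∨ i' = 0) → {n : ℕ | (b5 n : ℤ) ≡ i' [ZMOD p]}.Infinite := by
      intro i' hi'
      refine main_gen p hp.squarefree ?_ n0 ?_ i' hi'
      · intro q hq hqp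
        rw [(Nat.prime_dvd_prime_iff_eq hq hp).mp hqp]
        exact h5
      · intro q hq hqp
        have := (Nat.prime_dvd_prime_iff_eq hq hp).mp hqp
        subst this
        exact ⟨hn1, hn2⟩
    rcases hi with hi | hi
    · exact hall i (Or.inl hi)
    · have h1 := hall 0 (Or.inr rfl)
      refine h1.mono ?_
      intro n hn
      have h2 : (0 : ℤ) ≡ i [ZMOD p] := by
        apply (ZMod.intCast_eq_intCast_iff _ _ p).mp
        rw [hi]; simp
      exact Int.ModEq.trans hn h2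
  · have h6 : p = 2 ∨ p = 5 := by
      have h7 : p ≤ 5 := by omega
      have h8 := hp.two_le
      have h9 : p ≠ 4 := by
        intro h
        rw [h] at hp
        revert hp
        norm_num
      omega
    rcases h6 with rfl | rfl
    · exact main_two i
    · exact main_five i

end Pool.Agent.B5
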