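import Pool.Agent.B5.QD

/-!
B5 / ST: Sturm type bound for Gamma1(N).

MF N k g gives a Mathlib `ModularForm` for the image of Gamma1 N in GL(2,R) (arithmetic subgroup; cusps via
`Subgroup.IsArithmetic.isCusp_iff_isCusp_SL2Z`, `OnePoint.isBoundedAt_iff_forall_SL2Z`). Its norm to level one (`ModularForm.norm`)
has weight k * card. One factor of the norm is g itself = qq^(B+1) * bounded (`HasQ.factor`), the others are bounded, so the q-expansion of
the norm vanishes up to B (`HasQ.decay`). Take B = k * card / 12 and `sturm_bound_levelOne`, then `ModularForm.norm_eq_zero_iff`.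
(Alternatively take the product of g | gamma over coset representatives gamma by hand, as in S5.)
-/

set_option autoImplicit false

namespace Pool.Agent.B5

open PowerSeries UpperHalfPlane
open scoped MatrixGroups ModularForm Manifold

open Matrix.SpecialLinearGroup in
/-- a modular form in the sense of Mathlib for a subgroup of finite index -/
noncomputable def mkForm (Γ : Subgroup SL(2, ℤ)) [Γ.FiniteIndex] (k : ℤ) (g : ℍ → ℂ) (h1 : MDiff g)
    (h2 : ∀ γ : SL(2, ℤ), γ ∈ Γ → g ∣[k] γ = g) (h3 : ∀ γ : SL(2, ℤ), IsBoundedAtImInfty (g ∣[k] γ)) :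
    ModularForm (Γ.map (mapGL ℝ)) k where
  toFun := g
  slash_action_eq' := by
    rintro _ ⟨γ, hγ, rfl⟩
    exact h2 γ hγ
  holo' := h1
  bdd_at_cusps' {c} hc := by
    have : (Γ.map (mapGL ℝ)).IsArithmetic := inferInstance
    rw [Subgroup.IsArithmetic.isCusp_iff_isCusp_SL2Z] at hc
    rw [OnePoint.isBoundedAt_iff_forall_SL2Z hc]
    intro γ _
    exact h3 γ

open Matrix.SpecialLinearGroup in
/-- the Sturm bound for a subgroup of finite index in terms of the number of cosets -/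
theorem sturm_gen (Γ : Subgroup SL(2, ℤ)) [Γ.FiniteIndex] (k : ℕ) (g : ℍ → ℂ) (c : ℂ⟦X⟧) (h1 : MDiff g)
    (h2 : ∀ γ : SL(2, ℤ), γ ∈ Γ → g ∣[(k : ℤ)] γ = g)
    (h3 : ∀ γ : SL(2, ℤ), IsBoundedAtImInfty (g ∣[(k : ℤ)] γ))
    (hq : HasQ g c)
    (h0 : ∀ n, 12 * n ≤ k * Nat.card (𝒮ℒ ⧸ (Γ.map (mapGL ℝ)).subgroupOf 𝒮ℒ) → PowerSeries.coeff n c = 0) :
    c = 0 := by
  classical
  set G := Γ.map (mapGL ℝ) with hG
  have hA : G.IsArithmetic := inferInstanceAs (Γ.map (mapGL ℝ)).IsArithmetic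
  set f : ModularForm G k := mkForm Γ k g h1 h2 h3 with hf
  have hfg : (f : ℍ → ℂ) = g := rfl
  set C := Nat.card (𝒮ℒ ⧸ G.subgroupOf 𝒮ℒ) with hC
  set B := k * C / 12 with hB
  obtain ⟨F, hF⟩ : ∃ F, F = ModularForm.norm 𝒮ℒ f := ⟨_, rfl⟩
  -- factor
  obtain ⟨u, hu, hgu⟩ := hq.factor (B + 1) (fun n hn => h0 n (by
    have : n ≤ B := by omega
    calc 12 * n ≤ 12 * B := by omega
      _ ≤ k * C := Nat.mul_div_le _ _))
  have hfin : Finite (𝒮ℒ ⧸ G.subgroupOf 𝒮ℒ) := inferInstance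
  let _ : Fintype (𝒮ℒ ⧸ G.subgroupOf 𝒮ℒ) := Fintype.ofFinite _
  let q0 : 𝒮ℒ ⧸ G.subgroupOf 𝒮ℒ := ⟦1⟧
  have hbd : ∀ q : 𝒮ℒ ⧸ G.subgroupOf 𝒮ℒ, IsBoundedAtImInfty (SlashInvariantForm.quotientFunc f q) := by
    intro q
    induction q using Quotient.inductionOn with
    | h r =>
      obtain ⟨_, ⟨γ, rfl⟩⟩ := r
      have := h3 γ⁻¹
      have e : SlashInvariantForm.quotientFunc f (⟦⟨mapGL ℝ γ, ⟨γ, rfl⟩⟩⟧ : 𝒮ℒ ⧸ G.subgroupOf 𝒮ℒ) =
          g ∣[(k : ℤ)] γ⁻¹ := by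
        rw [SlashInvariantForm.quotientFunc_mk]
        simp only [hfg]
        rw [ModularForm.SL_slash, ← map_inv]
        rfl
      rw [e]
      exact this
  have hq0 : SlashInvariantForm.quotientFunc f q0 = g := by
    rw [SlashInvariantForm.quotientFunc_mk]
    simp [hfg]
  have hFe : ∀ z, F z = qq z ^ (B + 1) * (u z * ∏ q ∈ Finset.univ.erase q0,
      SlashInvariantForm.quotientFunc f q z) := by
    intro z
    have : F z = ∏ q : 𝒮ℒ ⧸ G.subgroupOf 𝒮ℒ, SlashInvariantForm.quotientFunc f q z := by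
      rw [hF, ModularForm.coe_norm, Finset.prod_apply]
    rw [this, ← Finset.mul_prod_erase Finset.univ _ (Finset.mem_univ q0), hq0, hgu z]
    ring
  have hub : IsBoundedAtImInfty (fun z => u z * ∏ q ∈ Finset.univ.erase q0,
      SlashInvariantForm.quotientFunc f q z) := by
    rw [IsBoundedAtImInfty, Filter.BoundedAtFilter] at hu ⊢
    have h5 : (fun z => ∏ q ∈ Finset.univ.erase q0, SlashInvariantForm.quotientFunc f q z) =O[atImInfty]
        (fun _ => ∏ q ∈ Finset.univ.erase q0, (1 : ℝ)) :=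
      Asymptotics.IsBigO.finsetProd (fun q _ => hbd q)
    have h6 := hu.mul h5
    refine h6.trans ?_
    apply Asymptotics.isBigO_of_le
    intro z
    simp
  have hMF : MF 1 ((k : ℤ) * C) F := by
    refine ⟨F.holo', ?_, ?_⟩
    · intro γ _
      exact F.slash_action_eq' _ ⟨γ, rfl⟩
    · intro γ
      exact ModularFormClass.bdd_at_infty_slash F γ
  have hc : ∃ cF : ℂ⟦X⟧, HasQ F cF ∧ cF = qExpansion 1 F := by
    obtain ⟨cF, hcF⟩ := HasQ.ofMF hMF
    exact ⟨cF, hcF, hcF.qExpansion_eq.symm⟩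
  have hF0 : F = 0 := by
    obtain ⟨cF, hcF, hcF'⟩ := hc
    apply ModularForm.sturm_bound_levelOne
    rw [← hcF']
    have h8 : ((k : ℤ) * C).toNat = k * C := by
      rw [← Nat.cast_mul, Int.toNat_natCast]
    have h9 : (B + 1 : ℕ) ≤ cF.order := by
      apply PowerSeries.nat_le_order
      intro n hn
      exact hcF.decay (B + 1) _ hub hFe n hn
    refine lt_of_lt_of_le ?_ h9
    rw [h8]
    exact_mod_cast Nat.lt_succ_self _
  rw [hF, ModularForm.norm_eq_zero_iff] at hF0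
  rw [hfg] at hF0
  apply hq.unique
  intro z
  rw [hF0]
  simp [hasSum_zero]

theorem sturm (N k : ℕ) (hN : N ≠ 0) : ∃ B : ℕ, ∀ (g : ℍ → ℂ) (c : ℂ⟦X⟧), MF N k g → HasQ g c →
    (∀ n ≤ B, PowerSeries.coeff n c = 0) → c = 0 := by
  have : NeZero N := ⟨hN⟩
  refine ⟨k * Nat.card (𝒮ℒ ⧸ ((CongruenceSubgroup.Gamma1 N).map
    (Matrix.SpecialLinearGroup.mapGL ℝ)).subgroupOf 𝒮ℒ), fun g c h hq h0 => ?_⟩
  refine sturm_gen (CongruenceSubgroup.Gamma1 N) k g c h.holo h.inv h.bdd hq (fun n hn => h0 n ?_)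
  omega

end Pool.Agent.B5
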