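import Pool.Agent.B5.QD
import Pool.Agent.B5.ST

/-!
B5 / S5: Sturm bound for Gamma0(5). The index is 6 (representatives of the cosets: 1 and (j, -1; 1, 0), 0 <= j < 5), and the
general bound of ST applies (6 k / 12 = k / 2).
-/

set_option autoImplicit false

namespace Pool.Agent.B5

open PowerSeries UpperHalfPlane
open scoped MatrixGroups ModularForm Manifold

open Matrix.SpecialLinearGroup in
theorem card_gamma0_five : Nat.card (𝒮ℒ ⧸ ((CongruenceSubgroup.Gamma0 5).map (mapGL ℝ)).subgroupOf 𝒮ℒ) ≤ 6 := by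
  let r : Option (Fin 5) → SL(2, ℤ) := fun o => match o with
    | none => 1
    | some j => ⟨!![(j : ℤ), -1; 1, 0], by simp [Matrix.det_fin_two]⟩
  let f : Option (Fin 5) → 𝒮ℒ ⧸ ((CongruenceSubgroup.Gamma0 5).map (mapGL ℝ)).subgroupOf 𝒮ℒ :=
    fun o => ⟦⟨mapGL ℝ (r o), ⟨r o, rfl⟩⟩⟧
  have hf : Function.Surjective f := by
    intro q
    induction q using Quotient.inductionOn with
    | h s =>
      obtain ⟨_, ⟨γ, rfl⟩⟩ := s
      have key : ∃ o, (r o)⁻¹ * γ ∈ CongruenceSubgroup.Gamma0 5 := by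
        by_cases hc : ((γ 1 0 : ℤ) : ZMod 5) = 0
        · refine ⟨none, ?_⟩
          rw [CongruenceSubgroup.Gamma0_mem]
          simpa [r] using hc
        · obtain ⟨m, hm, hj⟩ : ∃ m : ℕ, m < 5 ∧ (m : ZMod 5) =
              ((γ 0 0 : ℤ) : ZMod 5) * ((γ 1 0 : ℤ) : ZMod 5)⁻¹ :=
            ⟨ZMod.val (((γ 0 0 : ℤ) : ZMod 5) * ((γ 1 0 : ℤ) : ZMod 5)⁻¹), ZMod.val_lt _,
              ZMod.natCast_zmod_val _⟩
          refine ⟨some ⟨m, hm⟩, ?_⟩
          rw [CongruenceSubgroup.Gamma0_mem]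
          have e : ((r (some ⟨m, hm⟩))⁻¹ * γ) 1 0 = -(γ 0 0) + (m : ℤ) * γ 1 0 := by
            simp [r, Matrix.SpecialLinearGroup.coe_inv, Matrix.adjugate_fin_two, Matrix.mul_apply, Fin.sum_univ_two]
          rw [e]
          have : Fact (Nat.Prime 5) := ⟨by norm_num⟩
          rw [Int.cast_add, Int.cast_mul, Int.cast_natCast, hj, mul_assoc, inv_mul_cancel₀ hc, Int.cast_neg]
          ring
      obtain ⟨o, ho⟩ := key
      refine ⟨o, ?_⟩
      apply Quotient.sound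
      rw [← Quotient.eq_iff_equiv, Quotient.eq, QuotientGroup.leftRel_apply]
      rw [Subgroup.mem_subgroupOf]
      exact ⟨_, ho, by simp⟩
  calc _ ≤ Nat.card (Option (Fin 5)) := Nat.card_le_card_of_surjective f hf
    _ = 6 := by simp

theorem sturm5 (k : ℕ) (g : ℍ → ℂ) (c : ℂ⟦X⟧) (h : MF0 k g) (hq : HasQ g c)
    (h0 : ∀ n, 2 * n ≤ k → PowerSeries.coeff n c = 0) : c = 0 := by
  refine sturm_gen (CongruenceSubgroup.Gamma0 5) k g c h.holo h.inv h.bdd hq (fun n hn => h0 n ?_)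
  have h1 := Nat.mul_le_mul_left k card_gamma0_five
  have h2 := hn.trans h1
  omega

end Pool.Agent.B5
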