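import Pool.Agent.B5.J1
import Pool.Agent.B5.HA3
import Pool.Agent.B5.AL1

/-!
B5 / SV: the sieve lemma, p > 5. e : EV p, A from exists_A, r = (p-1)/2, s = -(legendreSym p 2) * (legendreSym p (-5)).
G := JJ A (p-1) + s A^((p+1)/2) JJ A r, homogeneous of degree p^2 - 1, divisible by vX.
-/

set_option autoImplicit false

namespace Pool.Agent.B5

open PowerSeries UpperHalfPlane
open scoped MatrixGroups ModularForm Manifold

private theorem sv_quot {σ R : Type*} [CommRing R] {F G : MvPolynomial σ R} {a b : ℕ}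
    (hF : F.IsHomogeneous a) (hFG : (F * G).IsHomogeneous (a + b)) :
    F * MvPolynomial.homogeneousComponent b G = F * G := by
  have h1 : F * G = ∑ i ∈ Finset.range (G.totalDegree + 1),
      F * MvPolynomial.homogeneousComponent i G := by
    rw [← Finset.mul_sum, MvPolynomial.sum_homogeneousComponent]
  have h2 : MvPolynomial.homogeneousComponent (a + b) (F * G) =
      ∑ i ∈ Finset.range (G.totalDegree + 1),
        if i = b then F * MvPolynomial.homogeneousComponent i G else 0 := by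
    rw [h1, map_sum]
    refine Finset.sum_congr rfl fun i _ => ?_
    have h3 : (F * MvPolynomial.homogeneousComponent i G) ∈
        MvPolynomial.homogeneousSubmodule σ R (a + i) :=
      hF.mul (MvPolynomial.homogeneousComponent_isHomogeneous i G)
    rw [MvPolynomial.homogeneousComponent_of_mem h3]
    by_cases h : i = b
    · rw [if_pos h, if_pos (by rw [h])]
    · rw [if_neg h, if_neg (by omega)]
  rw [MvPolynomial.homogeneousComponent_eq_self hFG] at h2
  rw [h2, Finset.sum_ite_eq']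
  by_cases h : b ∈ Finset.range (G.totalDegree + 1)
  · rw [if_pos h]
  · rw [if_neg h, MvPolynomial.homogeneousComponent_eq_zero, mul_zero]
    rw [Finset.mem_range] at h
    omega

section SVPoly

variable {p : ℕ} [Fact p.Prime]

private theorem sv_half (hp : 2 < p) : (MvPolynomial.C (2⁻¹ : ZMod p) : U p) * 2 = 1 := by
  have h2 : (2 : ZMod p) ≠ 0 := by
    intro h
    have h3 : ((2 : ℕ) : ZMod p) = 0 := by exact_mod_cast h
    rw [ZMod.natCast_eq_zero_iff] at h3
    exact absurd (Nat.le_of_dvd (by norm_num) h3) (by omega)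
  rw [show (2 : U p) = MvPolynomial.C (2 : ZMod p) from (map_ofNat MvPolynomial.C 2).symm,
    ← MvPolynomial.C_mul, inv_mul_cancel₀ h2, MvPolynomial.C_1]

private theorem sv_mono (hp : 2 < p) (d : ℕ) : ∀ i j : ℕ, i + j = 2 * d →
    ∃ H : MvPolynomial (Fin 3) (ZMod p), H.IsHomogeneous d ∧
      MvPolynomial.aeval ![(vX : U p), vY, vW] H =
        MvPolynomial.X 0 ^ i * MvPolynomial.X 1 ^ j := by
  have hhalf := sv_half hp
  induction d with
  | zero =>
    intro i j hij
    obtain rfl : i = 0 := by omega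
    obtain rfl : j = 0 := by omega
    exact ⟨1, MvPolynomial.isHomogeneous_one _ _, by simp⟩
  | succ d ih =>
    intro i j hij
    by_cases hi : 2 ≤ i
    · obtain ⟨i', rfl⟩ : ∃ i', i = i' + 2 := ⟨i - 2, by omega⟩
      obtain ⟨H, hH, hH2⟩ := ih i' j (by omega)
      refine ⟨H * (MvPolynomial.C (2⁻¹ : ZMod p) * (MvPolynomial.X 2 + MvPolynomial.X 0 +
        MvPolynomial.C 11 * MvPolynomial.X 1)), ?_, ?_⟩
      · refine hH.mul ?_
        refine MvPolynomial.IsHomogeneous.C_mul ?_ _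
        exact ((MvPolynomial.isHomogeneous_X _ _).add (MvPolynomial.isHomogeneous_X _ _)).add
          ((MvPolynomial.isHomogeneous_X _ _).C_mul _)
      · rw [map_mul, hH2]
        simp only [map_mul, map_add, MvPolynomial.aeval_X, MvPolynomial.aeval_C,
          MvPolynomial.algebraMap_eq, Matrix.cons_val_zero, Matrix.cons_val_one,
          Matrix.cons_val, map_ofNat]
        rw [vX, vY, vW]
        linear_combination (MvPolynomial.X 0 ^ (i' + 2) * MvPolynomial.X 1 ^ j : U p) * hhalf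
    · by_cases hj : 2 ≤ j
      · obtain ⟨j', rfl⟩ : ∃ j', j = j' + 2 := ⟨j - 2, by omega⟩
        obtain ⟨H, hH, hH2⟩ := ih i j' (by omega)
        refine ⟨H * (MvPolynomial.C (2⁻¹ : ZMod p) * (MvPolynomial.X 2 - MvPolynomial.X 0 -
          MvPolynomial.C 11 * MvPolynomial.X 1)), ?_, ?_⟩
        · refine hH.mul ?_
          refine MvPolynomial.IsHomogeneous.C_mul ?_ _
          exact ((MvPolynomial.isHomogeneous_X _ _).sub (MvPolynomial.isHomogeneous_X _ _)).sub
            ((MvPolynomial.isHomogeneous_X _ _).C_mul _)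
        · rw [map_mul, hH2]
          simp only [map_mul, map_sub, MvPolynomial.aeval_X, MvPolynomial.aeval_C,
            MvPolynomial.algebraMap_eq, Matrix.cons_val_zero, Matrix.cons_val_one,
            Matrix.cons_val, map_ofNat]
          rw [vX, vY, vW]
          linear_combination (MvPolynomial.X 0 ^ i * MvPolynomial.X 1 ^ (j' + 2) : U p) * hhalf
      · obtain rfl : i = 1 := by omega
        obtain rfl : j = 1 := by omega
        obtain rfl : d = 0 := by omega
        refine ⟨MvPolynomial.X 1, MvPolynomial.isHomogeneous_X _ _, ?_⟩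
        rw [MvPolynomial.aeval_X]
        simp [vY]

private theorem sv_poly (hp : 2 < p) (d : ℕ) (G : U p) (hG : G.IsHomogeneous (2 * d)) :
    ∃ H : MvPolynomial (Fin 3) (ZMod p), H.IsHomogeneous d ∧
      MvPolynomial.aeval ![(vX : U p), vY, vW] H = G := by
  classical
  have h1 : ∀ m ∈ G.support, ∃ H : MvPolynomial (Fin 3) (ZMod p), H.IsHomogeneous d ∧
      MvPolynomial.aeval ![(vX : U p), vY, vW] H = MvPolynomial.monomial m (G.coeff m) := by
    intro m hm
    have hdeg : m.degree = 2 * d := by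
      by_contra hne
      exact (MvPolynomial.mem_support_iff.1 hm) (hG.coeff_eq_zero hne)
    have hdeg' : m 0 + m 1 = 2 * d := by
      rw [← hdeg, Finsupp.degree_eq_sum, Fin.sum_univ_two]
    obtain ⟨H, hH, hH2⟩ := sv_mono hp d (m 0) (m 1) hdeg'
    refine ⟨MvPolynomial.C (G.coeff m) * H, hH.C_mul _, ?_⟩
    rw [map_mul, hH2, MvPolynomial.aeval_C, MvPolynomial.algebraMap_eq,
      MvPolynomial.monomial_eq, Finsupp.prod_fintype _ _ (fun i => pow_zero _),
      Fin.prod_univ_two]
  choose! H hH hH2 using h1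
  refine ⟨∑ m ∈ G.support, H m, MvPolynomial.IsHomogeneous.sum _ _ _ hH, ?_⟩
  rw [map_sum, Finset.sum_congr rfl hH2, MvPolynomial.support_sum_monomial_coeff]

end SVPoly

theorem sieve (p : ℕ) [Fact p.Prime] (hp : 5 < p) :
    ∃ G : MvPolynomial (Fin 3) (ZMod p), G.IsHomogeneous ((p ^ 2 - 3) / 2) ∧
      ∀ n : ℕ, PowerSeries.coeff n (red p phi ^ 4 * MvPolynomial.aeval ![red p sa, red p sb, red p sE] G) =
        (((legendreSym p (6 * n + 1)) ^ 2 - legendreSym p (-5) * legendreSym p (6 * n + 1) : ℤ) : ZMod p)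
          * (b5 n : ZMod p) := by
  have hprime : p.Prime := Fact.out
  obtain ⟨e⟩ := exists_EV p (by omega)
  obtain ⟨A, hA⟩ := exists_A p (by omega) e
  have hodd : p % 2 = 1 := hprime.eq_two_or_odd.resolve_left (by omega)
  obtain ⟨r, hr⟩ : ∃ r, p = 2 * r + 1 := ⟨p / 2, by omega⟩
  have hr1 : p - 1 = 2 * r := by omega
  have hr2 : p / 2 = r := by omega
  have hr3 : (p - 1) / 2 = r := by omega
  have hne : ∀ k : ℕ, 0 < k → k < p → ((k : ℕ) : ZMod p) ≠ 0 := by
    intro k h0 h1 h
    rw [ZMod.natCast_eq_zero_iff] at h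
    exact absurd (Nat.le_of_dvd h0 h) (by omega)
  have h2 : (2 : ZMod p) ≠ 0 := by exact_mod_cast hne 2 (by norm_num) (by omega)
  have h5 : (5 : ZMod p) ≠ 0 := by exact_mod_cast hne 5 (by norm_num) (by omega)
  have e2 : ((legendreSym p 2 : ℤ) : ZMod p) = 2 ^ r := by
    rw [legendreSym.eq_pow, hr2]
    norm_num
  have e5 : ((legendreSym p (-5) : ℤ) : ZMod p) = (-5) ^ r := by
    rw [legendreSym.eq_pow, hr2]
    norm_num
  have f2 : ((2 : ZMod p) ^ r) ^ 2 = 1 := by
    rw [← pow_mul, mul_comm r 2, ← hr1]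
    exact ZMod.pow_card_sub_one_eq_one h2
  have f5 : ((-5 : ZMod p) ^ r) ^ 2 = 1 := by
    rw [← pow_mul, mul_comm r 2, ← hr1]
    exact ZMod.pow_card_sub_one_eq_one (neg_ne_zero.2 h5)
  set s : ZMod p := -(2 ^ r) * (-5) ^ r with hs
  have hs5 : 2 ^ r + s * (-5) ^ r = 0 := by
    rw [hs]
    linear_combination -(2 ^ r : ZMod p) * f5
  set G0 : U p := JJ A (p - 1) + MvPolynomial.C s * (A ^ (r + 1) * JJ A r) with hG0
  have hdeg0 : (p - 1) * (p + 1) = 2 + (p ^ 2 - 3) := by
    rw [hr]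
    have : (2 * r + 1 - 1) * (2 * r + 1 + 1) = 4 * r * r + 4 * r := by
      rw [Nat.add_sub_cancel]
      ring
    rw [this]
    have h3 : (2 * r + 1) ^ 2 = 4 * r * r + 4 * r + 1 := by ring
    rw [h3]
    have hrpos : 0 < r := by omega
    have : 1 ≤ 4 * r * r := by nlinarith
    omega
  have hhom0 : G0.IsHomogeneous (2 + (p ^ 2 - 3)) := by
    have k1 := JJ_hom hA.hom (p - 1)
    rw [hdeg0] at k1
    have k2 := (hA.hom.pow (r + 1)).mul (JJ_hom hA.hom r)
    have k3 : (p - 1) * (r + 1) + r * (p + 1) = 2 + (p ^ 2 - 3) := by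
      rw [← hdeg0, hr, Nat.add_sub_cancel]
      ring
    rw [k3] at k2
    exact k1.add (k2.C_mul _)
  have hdvd : (vX : U p) ∣ G0 := by
    obtain ⟨q1, a1⟩ := JJ_modX (by omega) e hA (p - 1)
    obtain ⟨q2, a2⟩ := JJ_modX (by omega) e hA r
    obtain ⟨q3, a3⟩ := hA.modX
    rw [hr3] at a3
    rw [hr1] at a1
    have hC : (MvPolynomial.C (2 ^ r + s * (-5) ^ r) : U p) = 0 := by rw [hs5, MvPolynomial.C_0]
    rw [MvPolynomial.C_add, MvPolynomial.C_mul, MvPolynomial.C_pow, MvPolynomial.C_pow,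
      MvPolynomial.C_neg, show (MvPolynomial.C 2 : U p) = 2 from map_ofNat MvPolynomial.C 2,
      show (MvPolynomial.C 5 : U p) = 5 from map_ofNat MvPolynomial.C 5] at hC
    refine ⟨q1 + MvPolynomial.C s * A ^ (r + 1) * q2 +
      (2 * vW * A) ^ r * A ^ r * (MvPolynomial.C s * q3), ?_⟩
    rw [hG0, hr1]
    have b1 : ((2 : U p) * vW * A) ^ (2 * r) = (2 * vW * A) ^ r * A ^ r * (2 ^ r * vW ^ r) := by
      rw [pow_mul' , pow_two, mul_pow (2 * vW) A r, mul_pow 2 vW r]
      ring
    have b2 : (-5 * (vW : U p)) ^ r = (-5) ^ r * vW ^ r := mul_pow _ _ _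
    rw [b1] at a1
    rw [b2] at a3
    linear_combination a1 + MvPolynomial.C s * A ^ (r + 1) * a2 +
      (2 * vW * A) ^ r * A ^ r * MvPolynomial.C s * a3 + (2 * vW * A) ^ r * A ^ r * vW ^ r * hC
  obtain ⟨G1', hG1'⟩ := hdvd
  have hvXh : (vX : U p).IsHomogeneous 2 := vX_hom
  rw [hG1'] at hhom0
  have hq := sv_quot hvXh hhom0
  set G1 : U p := MvPolynomial.homogeneousComponent (p ^ 2 - 3) G1' with hG1
  have hG1h : G1.IsHomogeneous (p ^ 2 - 3) := MvPolynomial.homogeneousComponent_isHomogeneous _ _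
  have heven : p ^ 2 - 3 = 2 * ((p ^ 2 - 3) / 2) := by
    have h3 : p ^ 2 = 4 * r * r + 4 * r + 1 := by rw [hr]; ring
    have hrpos : 0 < r := by omega
    have h4 : 1 ≤ r * r := by nlinarith
    have h5 : 4 * r * r = 4 * (r * r) := by ring
    omega
  rw [heven] at hG1h
  obtain ⟨H, hH, hH2⟩ := sv_poly (by omega) _ G1 hG1h
  refine ⟨H, hH, fun n => ?_⟩
  have hev : MvPolynomial.aeval ![red p sa, red p sb, red p sE] H = e.ev G1 := by
    rw [← hH2]
    have k1 : e.ev (MvPolynomial.aeval ![(vX : U p), vY, vW] H) =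
        MvPolynomial.aeval (fun i => e.ev (![(vX : U p), vY, vW] i)) H := by
      rw [← MvPolynomial.comp_aeval_apply]
    rw [k1]
    congr 1
    congr 1
    funext i
    fin_cases i
    · exact e.hX.symm
    · exact e.hY.symm
    · exact e.hW.symm
  have hmain : red p phi ^ 4 * e.ev G1 = red p sB * e.ev G0 := by
    have k1 : red p phi ^ 4 = red p sB * red p sa := by
      simp only [red]
      rw [← map_pow, ← map_mul, id_B2]
    rw [k1, hG1', ← hq, map_mul, e.hX]
    ring
  rw [hev, hmain, hG0, map_add, mul_add, map_add]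
  have hc1 := JJ_ev (by omega) e hA (p - 1) n
  have hc2 := JJ_ev (by omega) e hA r n
  have k2 : ∀ s : ZMod p, red p sB * e.ev (MvPolynomial.C s * (A ^ (r + 1) * JJ A r)) =
      PowerSeries.C s * (red p sB * e.ev (JJ A r)) := by
    intro s
    rw [map_mul, map_mul, map_pow, hA.ev1, one_pow, one_mul]
    have : e.ev (MvPolynomial.C s) = PowerSeries.C s := by
      rw [← MvPolynomial.algebraMap_eq, AlgHom.commutes]
      rfl
    rw [this]
    ring
  rw [k2, PowerSeries.coeff_C_mul, hc1, hc2, hr1]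
  have ex : ((legendreSym p (6 * n + 1) : ℤ) : ZMod p) = (6 * (n : ZMod p) + 1) ^ r := by
    rw [legendreSym.eq_pow, hr2]
    push_cast
    ring
  push_cast
  rw [ex, e5]
  have c1 : (2 * (6 * (n : ZMod p) + 1)) ^ (2 * r) =
      (2 ^ r) ^ 2 * ((6 * (n : ZMod p) + 1) ^ r) ^ 2 := by
    rw [mul_pow, pow_mul', pow_mul']
  have c2 : (2 * (6 * (n : ZMod p) + 1)) ^ r = 2 ^ r * (6 * (n : ZMod p) + 1) ^ r := mul_pow _ _ _
  rw [c1, c2, hs]
  linear_combination (((6 * (n : ZMod p) + 1) ^ r) ^ 2 * (b5 n : ZMod p) -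
    (-5) ^ r * (6 * (n : ZMod p) + 1) ^ r * (b5 n : ZMod p)) * f2

end Pool.Agent.B5
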